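import Mathlib

/-!
# H93D, Reach: paths of bounded length in a set

`Reach adj near A d x`: there is a path `x = x_0 ~ x_1 ~ ... ~ x_j`, `j ≤ d`, with all `x_t ∈ A` and
`near x_j`.
-/

set_option autoImplicit false

open Finset
open scoped Classical

namespace Pool.Agent.Lib.H93D

/-- path of length at most `d` inside `A` from `x` to an element `y` with `near y` -/
def Reach {X : Type} (adj : X → X → Prop) (near : X → Prop) (A : Finset X) : ℕ → X → Prop
  | 0, x => x ∈ A ∧ near x
  | d + 1, x => x ∈ A ∧ (near x ∨ ∃ y, adj x y ∧ Reach adj near A d y)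

variable {X : Type} {adj adj' : X → X → Prop} {near near' : X → Prop} {A A' : Finset X}

theorem Reach.mem {d : ℕ} {x : X} (h : Reach adj near A d x) : x ∈ A := by
  cases d with
  | zero => exact h.1
  | succ d => exact h.1

theorem Reach.of_near {d : ℕ} {x : X} (hx : x ∈ A) (h : near x) : Reach adj near A d x := by
  cases d with
  | zero => exact ⟨hx, h⟩
  | succ d => exact ⟨hx, Or.inl h⟩

theorem Reach.step {d : ℕ} {x y : X} (hx : x ∈ A) (hxy : adj x y) (h : Reach adj near A d y) :
    Reach adj near A (d + 1) x := ⟨hx, Or.inr ⟨y, hxy, h⟩⟩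

theorem Reach.succ {d : ℕ} {x : X} (h : Reach adj near A d x) : Reach adj near A (d + 1) x := by
  induction d generalizing x with
  | zero => exact ⟨h.1, Or.inl h.2⟩
  | succ d ih =>
    refine ⟨h.1, ?_⟩
    rcases h.2 with h | ⟨y, hxy, h⟩
    · exact Or.inl h
    · exact Or.inr ⟨y, hxy, ih h⟩

theorem Reach.mono_d {d d' : ℕ} {x : X} (h : Reach adj near A d x) (hd : d ≤ d') :
    Reach adj near A d' x := by
  induction hd with
  | refl => exact h
  | step _ ih => exact ih.succ

theorem Reach.mono {d : ℕ} {x : X} (h : Reach adj near A d x) (hadj : ∀ x y, adj x y → adj' x y)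
    (hnear : ∀ x, near x → near' x) (hA : A ⊆ A') : Reach adj' near' A' d x := by
  induction d generalizing x with
  | zero => exact ⟨hA h.1, hnear _ h.2⟩
  | succ d ih =>
    refine ⟨hA h.1, ?_⟩
    rcases h.2 with h | ⟨y, hxy, h⟩
    · exact Or.inl (hnear _ h)
    · exact Or.inr ⟨y, hadj _ _ hxy, ih h⟩

end Pool.Agent.Lib.H93D
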