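import Pool.Agent.Lib.H93D.WDefs

/-!
# H93D, S6: counting windows

See `H93B/PROOF.md`, section 4.
-/

set_option autoImplicit false

open Finset
open scoped Classical

namespace Pool.Agent.Lib.H93D

open Pool.Agent.Lib.H93B (SelData SelHyp)
open Pool.Agent.Lib.Prob48

variable {Q R M : Type} [Fintype M]

/-- For a strictly decreasing sequence of thresholds every `x ∈ H` is outside the window
`[θ (i+1), θ i)` for at most `j0²/2` values of `i`: a pair `{f, f'} ⊆ J x` has its `dl` in at most one of the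
intervals, and there are at most `j0 (j0 - 1)/2` pairs (`dl` is symmetric). -/
theorem card_windows {D : SelData Q R M} {N : ℝ} {j0 : ℕ} (θ : ℕ → ℝ)
    (hθ : ∀ i, θ (i + 1) < θ i) (x : Q × R) (hx : x ∈ D.H) (hJ : (D.J x).card ≤ j0) (I : ℕ) :
    2 * ((univ : Finset (Fin I)).filter fun i =>
      x ∉ winSet D N (θ (i.1 + 1)) (θ i.1)).card ≤ j0 ^ 2 := by
  have hanti : Antitone θ := antitone_nat_of_succ_le fun i => (hθ i).le
  have hdl : ∀ f f' : M, dl D N f f' = dl D N f' f := by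
    intro f f'
    unfold dl
    rw [inter_comm]
  set P : Fin I → Finset (M × M) := fun i =>
    (D.J x).offDiag.filter fun q => θ (i.1 + 1) ≤ dl D N q.1 q.2 ∧ dl D N q.1 q.2 < θ i.1 with hP
  set bad : Finset (Fin I) := (univ : Finset (Fin I)).filter fun i =>
      x ∉ winSet D N (θ (i.1 + 1)) (θ i.1) with hbad
  have h2 : ∀ i ∈ bad, 2 ≤ (P i).card := by
    intro i hi
    have h1 := (mem_filter.1 hi).2
    have h3 : ∃ f ∈ D.J x, ∃ f' ∈ D.J x, f ≠ f' ∧ θ (i.1 + 1) ≤ dl D N f f' ∧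
        dl D N f f' < θ i.1 := by
      by_contra hcon
      apply h1
      refine mem_filter.2 ⟨hx, ?_⟩
      intro f hf f' hf' hne hh
      exact hcon ⟨f, hf, f', hf', hne, hh.1, hh.2⟩
    obtain ⟨f, hf, f', hf', hne, ha, hb⟩ := h3
    have hm1 : (f, f') ∈ P i := mem_filter.2 ⟨mem_offDiag.2 ⟨hf, hf', hne⟩, ha, hb⟩
    have hm2 : (f', f) ∈ P i := by
      refine mem_filter.2 ⟨mem_offDiag.2 ⟨hf', hf, hne.symm⟩, ?_, ?_⟩
      · show θ (i.1 + 1) ≤ dl D N f' f
        rw [hdl]; exact ha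
      · show dl D N f' f < θ i.1
        rw [hdl]; exact hb
    have hne2 : ((f, f') : M × M) ≠ (f', f) := by
      intro he
      exact hne (congrArg Prod.fst he)
    exact one_lt_card.2 ⟨_, hm1, _, hm2, hne2⟩
  have hdisj : (bad : Set (Fin I)).PairwiseDisjoint P := by
    intro i _ j _ hij
    rw [Function.onFun, disjoint_left]
    intro q hq1 hq2
    obtain ⟨_, ha1, hb1⟩ := mem_filter.1 hq1
    obtain ⟨_, ha2, hb2⟩ := mem_filter.1 hq2
    rcases lt_or_gt_of_ne (fun he => hij (Fin.ext he) : i.1 ≠ j.1) with hlt | hlt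
    · have := hanti (Nat.succ_le_of_lt hlt : i.1 + 1 ≤ j.1)
      linarith
    · have := hanti (Nat.succ_le_of_lt hlt : j.1 + 1 ≤ i.1)
      linarith
  have hsum : ∑ i ∈ bad, (P i).card ≤ (D.J x).offDiag.card := by
    rw [← card_biUnion (fun i hi j hj hij => hdisj hi hj hij)]
    apply card_le_card
    intro q hq
    obtain ⟨i, _, hqi⟩ := mem_biUnion.1 hq
    exact (mem_filter.1 hqi).1
  have hoff : (D.J x).offDiag.card ≤ j0 ^ 2 := by
    rw [offDiag_card]
    calc (D.J x).card * (D.J x).card - (D.J x).card ≤ (D.J x).card * (D.J x).card :=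
          Nat.sub_le _ _
      _ ≤ j0 * j0 := Nat.mul_le_mul hJ hJ
      _ = j0 ^ 2 := by ring
  calc 2 * bad.card = ∑ i ∈ bad, 2 := by rw [sum_const, smul_eq_mul, mul_comm]
    _ ≤ ∑ i ∈ bad, (P i).card := sum_le_sum h2
    _ ≤ (D.J x).offDiag.card := hsum
    _ ≤ j0 ^ 2 := hoff

end Pool.Agent.Lib.H93D
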