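import Pool.Agent.Lib.H93D.Defs

/-!
# H93D, W6: constants, first part

See `H93B/PROOF.md`, sections 3 and 4.
-/

set_option autoImplicit false

open Finset
open scoped Classical

namespace Pool.Agent.Lib.H93D

open Pool.Agent.Lib.H93A
open Pool.Agent.Lib.Prob48 (Weights)

/-- Constants (1), (2), (3) of 3.0: `η = e' = 1/(640 K² τ)`, `T = ⌈1024 K² τ⌉`, `ρ = (η/16)^T/16`,
`g = ρ^(2b)/(2000 K² b)`, `L = ⌈τ b/g⌉`. -/
theorem consts1 (K τ : ℝ) (b : ℕ) (hK : 1 ≤ K) (hτ : 1 ≤ τ) (hb : 1 ≤ b) :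
    ∃ (η g : ℝ) (T L : ℕ), 0 < η ∧ η ≤ 1 ∧ 0 < g ∧ 1 ≤ T ∧ 1 ≤ L ∧
      512 * K ^ 2 * (L * g / b) ≤ T ∧
      64 * K ^ 2 * b * (g / ((η / 16) ^ T / 16) ^ b) ^ 2 ≤ g / 8 ∧
      τ ≤ L * (g / b) ∧ L * (g / b) ≤ 2 * τ ∧
      L * ((16 * η + η) * (4 * K ^ 2) * g / b) ≤ 1 := by
  have hK2 : 1 ≤ K ^ 2 := one_le_pow₀ hK
  have hbR : (1 : ℝ) ≤ b := by exact_mod_cast hb
  have hKτ : 1 ≤ K ^ 2 * τ := by nlinarith
  set η : ℝ := 1 / (640 * (K ^ 2 * τ)) with hη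
  set T : ℕ := ⌈1024 * (K ^ 2 * τ)⌉₊ with hT
  have hη0 : 0 < η := by rw [hη]; positivity
  have hη1 : η ≤ 1 := by
    rw [hη, div_le_one (by positivity)]; linarith
  have hηK : η * (K ^ 2 * τ) = 1 / 640 := by
    rw [hη]; field_simp
  set ρ : ℝ := (η / 16) ^ T / 16 with hρ
  have hρ0 : 0 < ρ := by rw [hρ]; positivity
  have hρ1 : ρ ≤ 1 := by
    have : (η / 16) ^ T ≤ 1 := pow_le_one₀ (by positivity) (by linarith)
    rw [hρ]; linarith
  have hρb : 0 < ρ ^ b := by positivity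
  have hρb1 : ρ ^ b ≤ 1 := pow_le_one₀ hρ0.le hρ1
  set g : ℝ := (ρ ^ b) ^ 2 / (2000 * K ^ 2 * b) with hg
  have hg0 : 0 < g := by rw [hg]; positivity
  have hgm : g * (2000 * K ^ 2 * b) = (ρ ^ b) ^ 2 := by
    rw [hg]; field_simp
  have hg1 : g ≤ 1 := by
    rw [hg, div_le_one (by positivity)]
    have h1 : (ρ ^ b) ^ 2 ≤ 1 := pow_le_one₀ hρb.le hρb1
    have h2 : 1 ≤ K ^ 2 * b := by nlinarith
    linarith
  have hgb : g / b ≤ 1 := by
    rw [div_le_one (by linarith)]; linarith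
  have hgb0 : 0 < g / b := by positivity
  set L : ℕ := ⌈τ * b / g⌉₊ with hL
  have hL1 : τ * b / g ≤ L := Nat.le_ceil _
  have hL2 : (L : ℝ) < τ * b / g + 1 := Nat.ceil_lt_add_one (by positivity)
  have hLg1 : τ ≤ L * (g / b) := by
    have : τ * b / g * (g / b) = τ := by field_simp
    calc τ = τ * b / g * (g / b) := this.symm
      _ ≤ L * (g / b) := mul_le_mul_of_nonneg_right hL1 hgb0.le
  have hLg2 : L * (g / b) ≤ 2 * τ := by
    have h1 : (L : ℝ) * (g / b) ≤ (τ * b / g + 1) * (g / b) :=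
      mul_le_mul_of_nonneg_right hL2.le hgb0.le
    have h2 : (τ * b / g + 1) * (g / b) = τ + g / b := by field_simp
    linarith
  have hT1 : 1024 * (K ^ 2 * τ) ≤ T := Nat.le_ceil _
  have hTpos : 1 ≤ T := by
    have : (1 : ℝ) ≤ T := by linarith
    exact_mod_cast this
  have hLpos : 1 ≤ L := by
    have : (0 : ℝ) < L := lt_of_lt_of_le (by positivity) hL1
    exact_mod_cast this
  refine ⟨η, g, T, L, hη0, hη1, hg0, hTpos, hLpos, ?_, ?_, hLg1, hLg2, ?_⟩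
  · have h1 : 512 * K ^ 2 * (L * g / b) = 512 * K ^ 2 * (L * (g / b)) := by ring
    rw [h1]
    calc 512 * K ^ 2 * (L * (g / b)) ≤ 512 * K ^ 2 * (2 * τ) :=
          mul_le_mul_of_nonneg_left hLg2 (by positivity)
      _ = 1024 * (K ^ 2 * τ) := by ring
      _ ≤ T := hT1
  · rw [← hρ, div_pow]
    rw [← hgm]
    have h1 : 64 * K ^ 2 * b * (g ^ 2 / (g * (2000 * K ^ 2 * b))) = (64 / 2000) * g := by
      field_simp
    rw [h1]
    linarith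
  · have h1 : L * ((16 * η + η) * (4 * K ^ 2) * g / b) = 68 * (η * K ^ 2) * (L * (g / b)) := by
      ring
    rw [h1]
    calc 68 * (η * K ^ 2) * (L * (g / b)) ≤ 68 * (η * K ^ 2) * (2 * τ) :=
          mul_le_mul_of_nonneg_left hLg2 (by positivity)
      _ = 136 * (η * (K ^ 2 * τ)) := by ring
      _ = 136 * (1 / 640) := by rw [hηK]
      _ ≤ 1 := by norm_num

/-- Constant (4): `ε` -/
theorem consts2 (K η s : ℝ) (T L : ℕ) (hη : 0 < η) (hs : 0 ≤ s) :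
    ∃ ε : ℝ, 0 < ε ∧ ε ≤ (η / 16) ^ T * η ∧
      8 * (T : ℝ) ^ 2 * ε * (64 * K ^ 2 * (L * s) + 1) ^ T ≤ 1 := by
  have hA : 0 < (η / 16) ^ T * η := by positivity
  have hC : 0 < 8 * (T : ℝ) ^ 2 * (64 * K ^ 2 * (L * s) + 1) ^ T + 1 := by positivity
  refine ⟨min ((η / 16) ^ T * η) (1 / (8 * (T : ℝ) ^ 2 * (64 * K ^ 2 * (L * s) + 1) ^ T + 1)),
    lt_min hA (by positivity), min_le_left _ _, ?_⟩
  set C : ℝ := 8 * (T : ℝ) ^ 2 * (64 * K ^ 2 * (L * s) + 1) ^ T with hCd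
  have hC0 : 0 ≤ C := by rw [hCd]; positivity
  have h1 : min ((η / 16) ^ T * η) (1 / (C + 1)) ≤ 1 / (C + 1) := min_le_right _ _
  calc 8 * (T : ℝ) ^ 2 * min ((η / 16) ^ T * η) (1 / (C + 1)) *
        (64 * K ^ 2 * (L * s) + 1) ^ T = C * min ((η / 16) ^ T * η) (1 / (C + 1)) := by
          rw [hCd]; ring
    _ ≤ C * (1 / (C + 1)) := mul_le_mul_of_nonneg_left h1 hC0
    _ ≤ 1 := by
      rw [mul_one_div, div_le_one (by linarith)]; linarith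

end Pool.Agent.Lib.H93D
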