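import Pool.Agent.Lib.H93D.Defs

/-!
# H93D, W7: constants, second part

See `H93B/PROOF.md`, sections 3 and 4.
-/

set_option autoImplicit false

open Finset
open scoped Classical

namespace Pool.Agent.Lib.H93D

open Pool.Agent.Lib.H93A
open Pool.Agent.Lib.Prob48 (Weights)

/-- The threshold for `N` -/
theorem consts3 (K s p0 dT : ℝ) (b L kmax m0 : ℕ) (hK : 1 ≤ K) (hs : 0 ≤ s) (hp0 : 0 < p0)
    (hd : 0 < dT) :
    ∃ N1 : ℝ, 1 ≤ N1 ∧ ∀ N : ℝ, N1 ≤ N → (m0 : ℝ) ≤ K * Real.sqrt N ∧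
      256 * K * (L * s) * kmax ≤ dT * Real.sqrt N ∧
      s * (kmax : ℝ) ^ (2 * b) ≤ N * p0 ^ b := by
  set A : ℝ := (m0 : ℝ) with hA
  set B : ℝ := 256 * K * (L * s) * kmax / dT with hB
  set C : ℝ := s * (kmax : ℝ) ^ (2 * b) / p0 ^ b with hC
  have hA0 : 0 ≤ A := Nat.cast_nonneg _
  have hB0 : 0 ≤ B := by rw [hB]; positivity
  have hC0 : 0 ≤ C := by rw [hC]; positivity
  refine ⟨(1 + A + B) ^ 2 + C, ?_, ?_⟩
  · nlinarith
  · intro N hN
    have h1 : (1 + A + B) ^ 2 ≤ N := by linarith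
    have h2 : 1 + A + B ≤ Real.sqrt N := Real.le_sqrt_of_sq_le h1
    refine ⟨?_, ?_, ?_⟩
    · calc A ≤ 1 * Real.sqrt N := by linarith
        _ ≤ K * Real.sqrt N := mul_le_mul_of_nonneg_right hK (Real.sqrt_nonneg _)
    · have h3 : B ≤ Real.sqrt N := by linarith
      have h4 : B * dT = 256 * K * (L * s) * kmax := by rw [hB]; field_simp
      rw [← h4, mul_comm dT]
      exact mul_le_mul_of_nonneg_right h3 hd.le
    · have h5 : C ≤ N := by nlinarith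
      have h6 : C * p0 ^ b = s * (kmax : ℝ) ^ (2 * b) := by
        rw [hC]; field_simp
      rw [← h6]
      exact mul_le_mul_of_nonneg_right h5 (by positivity)

/-- The choice of `p` and of the number of copies: `p ≤ pmax`, `a ≤ mc D2 p ≤ 2 a`,
`mc (κ p)^i ≤ V` for `i = 2, 3, 4`. (`p = min(pmax, 1, a/D2, V/(2 a (κ+1)^4))`, `mc = ⌈a/(D2 p)⌉`:
`mc ≤ a/(D2 p) + 1 ≤ 2 a/(D2 p)`, and `mc (κ p)^i ≤ (2 a/(D2 p)) κ^i p^i ≤ 2 a (κ+1)^4 p`.) -/
theorem consts4 (a D2 κ V pmax : ℝ) (ha : 0 < a) (hD : 1 ≤ D2) (hκ : 0 ≤ κ) (hV : 0 < V)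
    (hp : 0 < pmax) :
    ∃ (p : ℝ) (mc : ℕ), 0 < p ∧ p ≤ pmax ∧ p ≤ 1 ∧ a ≤ mc * (D2 * p) ∧ mc * (D2 * p) ≤ 2 * a ∧
      ∀ i : ℕ, 2 ≤ i → i ≤ 4 → mc * (κ * p) ^ i ≤ V := by
  have hD0 : 0 < D2 := by linarith
  set W : ℝ := V / (2 * a * (κ + 1) ^ 4) with hW
  have hW0 : 0 < W := by rw [hW]; positivity
  set p : ℝ := min (min pmax 1) (min (a / D2) W) with hpd
  have hp0 : 0 < p := by
    rw [hpd]
    exact lt_min (lt_min hp one_pos) (lt_min (by positivity) hW0)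
  have hp1 : p ≤ pmax := (min_le_left _ _).trans (min_le_left _ _)
  have hp2 : p ≤ 1 := (min_le_left _ _).trans (min_le_right _ _)
  have hp3 : p ≤ a / D2 := (min_le_right _ _).trans (min_le_left _ _)
  have hp4 : p ≤ W := (min_le_right _ _).trans (min_le_right _ _)
  have hDp : 0 < D2 * p := by positivity
  have hDpa : D2 * p ≤ a := by
    rw [le_div_iff₀ hD0] at hp3; linarith
  set mc : ℕ := ⌈a / (D2 * p)⌉₊ with hmc
  have hm1 : a / (D2 * p) ≤ mc := Nat.le_ceil _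
  have hm2 : (mc : ℝ) < a / (D2 * p) + 1 := Nat.ceil_lt_add_one (by positivity)
  have hm3 : (mc : ℝ) * (D2 * p) ≤ 2 * a := by
    have h1 : (mc : ℝ) * (D2 * p) ≤ (a / (D2 * p) + 1) * (D2 * p) :=
      mul_le_mul_of_nonneg_right hm2.le hDp.le
    have h2 : (a / (D2 * p) + 1) * (D2 * p) = a + D2 * p := by field_simp
    linarith
  refine ⟨p, mc, hp0, hp1, hp2, ?_, hm3, ?_⟩
  · rwa [div_le_iff₀ hDp] at hm1
  · intro i hi2 hi4
    have hmp : (mc : ℝ) * p ≤ 2 * a := by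
      have h0 : (0 : ℝ) ≤ mc * p := by positivity
      nlinarith
    have hκi : κ ^ i ≤ (κ + 1) ^ 4 := by
      calc κ ^ i ≤ (κ + 1) ^ i := pow_le_pow_left₀ hκ (by linarith) i
        _ ≤ (κ + 1) ^ 4 := pow_le_pow_right₀ (by linarith) hi4
    have hpi : p ^ i ≤ p ^ 2 := pow_le_pow_of_le_one hp0.le hp2 hi2
    have h5 : 2 * a * (κ + 1) ^ 4 * W = V := by
      rw [hW]; field_simp
    calc (mc : ℝ) * (κ * p) ^ i = mc * (κ ^ i * p ^ i) := by rw [mul_pow]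
      _ ≤ mc * ((κ + 1) ^ 4 * p ^ 2) := by
          apply mul_le_mul_of_nonneg_left _ (Nat.cast_nonneg _)
          exact mul_le_mul hκi hpi (by positivity) (by positivity)
      _ = (mc * p) * ((κ + 1) ^ 4 * p) := by ring
      _ ≤ (2 * a) * ((κ + 1) ^ 4 * p) := mul_le_mul_of_nonneg_right hmp (by positivity)
      _ ≤ (2 * a) * ((κ + 1) ^ 4 * W) := by
          apply mul_le_mul_of_nonneg_left _ (by positivity)
          exact mul_le_mul_of_nonneg_left hp4 (by positivity)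
      _ = V := by rw [← h5]; ring

end Pool.Agent.Lib.H93D
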