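import Pool.Agent.Lib.H93D.W5
import Pool.Agent.Lib.H93D.W6
import Pool.Agent.Lib.H93D.W7
import Pool.Agent.Lib.H93A.R0

/-!
# H93D, W8: one window

See `H93B/PROOF.md`, sections 3 and 4.
-/

set_option autoImplicit false

open Finset
open scoped Classical

namespace Pool.Agent.Lib.H93D

open Pool.Agent.Lib.H93A
open Pool.Agent.Lib.H93B (SelData SelHyp)
open Pool.Agent.Lib.Prob48 (Weights)

theorem w8_caf_nonneg (b : ℕ) (W : ℝ) (hW : 0 ≤ W) (l : ℕ) : 0 ≤ caf b W l := by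
  induction l with
  | zero => simp [caf]
  | succ l ih =>
    simp only [caf]
    positivity

/-- ONE WINDOW. `D2 = 1 + j0 K²/θ2`, `τ = Λ D2`; `consts1` (`b = j0`), `s = g/ρ^j0`, `consts2`,
`H93A.lemmaR η ε` gives `kmax`, `m0`; `κ = L s`; `consts4` with
`pmax = min (1/(2 L)) (g/(160 K² j0³ (κ+1)²))` gives `p`, `mc`; `p0 = p/j0^L`,
`θ1 = min(θ2/2, p0^j0/(j0² kmax^(2 j0)))`; `consts3`. Output of `window_out` (with `e' = η`):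
`lo = L (3/4) (g/j0) p ≥ (3/4) τ p`, `up = L (g/j0) p ≤ 2 τ p`, `β = κ p`, `kl ≤ 2 D2 p`. So
`mc lo ≥ (3/4) Λ mc D2 p ≥ (3/4) Λ a`, `mc up ≤ 2 Λ mc D2 p ≤ 4 Λ a`, `mc kl ≤ 4 a`. -/
theorem window_spec (K : ℝ) (j0 : ℕ) (Λ a θ2 V : ℝ) (hK : 1 ≤ K) (hj : 1 ≤ j0) (hΛ : 1 ≤ Λ)
    (ha : 0 < a) (hθ : 0 < θ2) (hθ1 : θ2 ≤ 1) (hV : 0 < V) :
    ∃ (θ1 lo up β kl Ca N1 : ℝ) (mc nc d : ℕ), 0 < θ1 ∧ θ1 < θ2 ∧ 0 ≤ lo ∧ 0 ≤ up ∧ 0 ≤ β ∧ 0 ≤ kl ∧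
      0 ≤ Ca ∧ 1 ≤ N1 ∧ 3 / 4 * Λ * a ≤ mc * lo ∧ mc * up ≤ 4 * Λ * a ∧ mc * kl ≤ 4 * a ∧
      (∀ i : ℕ, 2 ≤ i → i ≤ 4 → mc * β ^ i ≤ V) ∧
      ∀ N : ℝ, N1 ≤ N → ∀ (Q R M : Type) [Fintype Q] [Fintype R] [Fintype M] [Nonempty M]
        (D : SelData Q R M), SelHyp D K N j0 →
        ∃ Y : PSel Q R M, OutHyp D Y N (winSet D N θ1 θ2) lo up β kl Ca nc d := by
  have hj1 : (1 : ℝ) ≤ j0 := by exact_mod_cast hj
  have hj0' : (0 : ℝ) < j0 := by linarith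
  obtain ⟨D2, hD2⟩ : ∃ D2 : ℝ, D2 = 1 + j0 * K ^ 2 / θ2 := ⟨_, rfl⟩
  have hD21 : 1 ≤ D2 := by
    rw [hD2]
    have : 0 ≤ j0 * K ^ 2 / θ2 := by positivity
    linarith
  have hτ : 1 ≤ Λ * D2 := by nlinarith
  obtain ⟨η, g, T, L, hη, hη1, hg, hT, hL, hc1, hc2, hc3, hc4, hc5⟩ :=
    consts1 K (Λ * D2) j0 hK hτ hj
  have hL1 : (1 : ℝ) ≤ L := by exact_mod_cast hL
  obtain ⟨s, hs⟩ : ∃ s : ℝ, s = g / ((η / 16) ^ T / 16) ^ j0 := ⟨_, rfl⟩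
  have hs0 : 0 < s := by rw [hs]; positivity
  rw [← hs] at hc2
  obtain ⟨ε, hε, hεη, hεT⟩ := consts2 K η s T L hη hs0.le
  obtain ⟨kmax, m0, hkm, hR⟩ := lemmaR η ε hη hη1 hε
  have hkm1 : (1 : ℝ) ≤ kmax := by exact_mod_cast hkm
  obtain ⟨κ, hκ⟩ : ∃ κ : ℝ, κ = L * s := ⟨_, rfl⟩
  have hκ0 : 0 ≤ κ := by rw [hκ]; positivity
  obtain ⟨pmax, hpm⟩ : ∃ pmax : ℝ, pmax = min (1 / (2 * (L : ℝ)))
    (g / (160 * K ^ 2 * (j0 : ℝ) ^ 3 * (κ + 1) ^ 2)) := ⟨_, rfl⟩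
  have hpm0 : 0 < pmax := by
    rw [hpm]
    exact lt_min (by positivity) (by positivity)
  obtain ⟨p, mc, hp0, hppm, hp1, hmc1, hmc2, hmcV⟩ := consts4 a D2 κ V pmax ha hD21 hκ0 hV hpm0
  obtain ⟨p0, hpp0⟩ : ∃ p0 : ℝ, p0 = p / (j0 : ℝ) ^ L := ⟨_, rfl⟩
  have hp00 : 0 < p0 := by rw [hpp0]; positivity
  have hjp : (j0 : ℝ) ^ L * p0 = p := by rw [hpp0]; field_simp
  obtain ⟨θ1, hθ1'⟩ : ∃ θ1 : ℝ, θ1 = min (θ2 / 2) (p0 ^ j0 / ((j0 : ℝ) ^ 2 * (kmax : ℝ) ^ (2 * j0))) :=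
    ⟨_, rfl⟩
  have hθ10 : 0 < θ1 := by
    rw [hθ1']
    exact lt_min (by positivity) (by positivity)
  have hθ12 : θ1 < θ2 := by
    have : θ1 ≤ θ2 / 2 := by rw [hθ1']; exact min_le_left _ _
    linarith
  have hθk : θ1 * ((j0 : ℝ) ^ 2 * (kmax : ℝ) ^ (2 * j0)) ≤ p0 ^ j0 := by
    have h1 : θ1 ≤ p0 ^ j0 / ((j0 : ℝ) ^ 2 * (kmax : ℝ) ^ (2 * j0)) := by
      rw [hθ1']; exact min_le_right _ _
    rwa [le_div_iff₀ (by positivity)] at h1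
  obtain ⟨N1, hN1, hN⟩ := consts3 K s p0 ((η / 16) ^ T) j0 L kmax m0 hK hs0.le hp00 (by positivity)
  have hpa : p ≤ 1 / (2 * (L : ℝ)) := hppm.trans (by rw [hpm]; exact min_le_left _ _)
  have hpb : p ≤ g / (160 * K ^ 2 * (j0 : ℝ) ^ 3 * (κ + 1) ^ 2) :=
    hppm.trans (by rw [hpm]; exact min_le_right _ _)
  have hLp : (L : ℝ) * p ≤ 1 / 2 := by
    have : (L : ℝ) * p ≤ L * (1 / (2 * (L : ℝ))) := mul_le_mul_of_nonneg_left hpa (by linarith)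
    refine this.trans (le_of_eq ?_)
    field_simp
  have h2 : 20 * K ^ 2 * (j0 : ℝ) ^ 3 * (κ + 1) ^ 2 * p ≤ g / 8 := by
    rw [le_div_iff₀ (by positivity)] at hpb
    linarith
  refine ⟨θ1, L * (3 / 4 * g / j0) * p, L * (g / j0) * p, L * s * p,
    D2 * ((1 + L * ((16 * η + η) * (4 * K ^ 2) * g / j0)) * p),
    caf j0 (s * ((kmax : ℝ) ^ 2 / p0) ^ j0) L, N1, mc, ncf j0 L, 2 * L, hθ10, hθ12, by positivity,
    by positivity, by positivity, by positivity, w8_caf_nonneg _ _ (by positivity) _, hN1, ?_, ?_,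
    ?_, ?_, ?_⟩
  · have h3 : (3 / 4 : ℝ) * (Λ * D2) ≤ L * (3 / 4 * g / j0) := by
      have : L * (3 / 4 * g / (j0 : ℝ)) = 3 / 4 * (L * (g / j0)) := by ring
      rw [this]
      linarith
    have h4 : (3 / 4 : ℝ) * Λ * (mc * (D2 * p)) ≤ mc * (L * (3 / 4 * g / j0) * p) := by
      have := mul_le_mul_of_nonneg_right h3 (show (0 : ℝ) ≤ mc * p by positivity)
      nlinarith
    have h5 : (3 / 4 : ℝ) * Λ * a ≤ 3 / 4 * Λ * (mc * (D2 * p)) :=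
      mul_le_mul_of_nonneg_left hmc1 (by positivity)
    linarith
  · have h4 : mc * (L * (g / j0) * p) ≤ 2 * Λ * (mc * (D2 * p)) := by
      have := mul_le_mul_of_nonneg_right hc4 (show (0 : ℝ) ≤ mc * p by positivity)
      nlinarith
    have h5 : 2 * Λ * (mc * (D2 * p)) ≤ 2 * Λ * (2 * a) :=
      mul_le_mul_of_nonneg_left hmc2 (by positivity)
    linarith
  · have h4 : mc * (D2 * ((1 + L * ((16 * η + η) * (4 * K ^ 2) * g / j0)) * p)) ≤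
        2 * (mc * (D2 * p)) := by
      have h6 : 1 + L * ((16 * η + η) * (4 * K ^ 2) * g / j0) ≤ 2 := by linarith
      have := mul_le_mul_of_nonneg_right h6 (show (0 : ℝ) ≤ mc * (D2 * p) by positivity)
      nlinarith
    linarith
  · intro i hi2 hi4
    have := hmcV i hi2 hi4
    rwa [hκ] at this
  · intro N hNN Q R M _ _ _ _ D hDh
    obtain ⟨h3, h4, h5⟩ := hN N hNN
    have := window_out (D := D) (N := N) (θ1 := θ1) (θ2 := θ2) (e' := η) (g := g) (p0 := p0)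
      (T := T) (L := L) (kmax := kmax) (ε := ε) hDh hj hθ10 hθ hη hη1 h3 hR hε hT hεη hη hg hp00
      hkm (by rw [hjp]; exact hp1) (by rw [hjp]; exact hLp) (by rw [← hs]; exact hεT) hc1
      (by rw [← hs]; exact h4) (by rw [← hs]; exact h5) hθk (by rw [← hs]; exact hc2)
      (by rw [← hs, hjp, ← hκ]; exact h2)
    rw [hjp, ← hs, ← hD2] at this
    exact this

end Pool.Agent.Lib.H93D
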