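import Pool.Agent.Lib.H93D.S5
import Pool.Agent.Lib.H93D.S6
import Pool.Agent.Lib.H93D.W8

/-!
# H93D, S7: the selection theorem

See `H93B/PROOF.md`, section 4.
-/

set_option autoImplicit false

open Finset
open scoped Classical

namespace Pool.Agent.Lib.H93D

open Pool.Agent.Lib.H93B (SelData SelHyp)
open Pool.Agent.Lib.Prob48

/-- THE SELECTION THEOREM. `I = j0² + 1`, `lam = I Λ/8`, `sig = 4 I Λ`, `kill = 4 I`,
`a0 = 1/(32 (K+1) I Λ)` (so `sig a ≤ 1` and `8 (K+1) sig a ≤ 1`), `V = (sig a)^4/(1000 I)`.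
`choose` from `window_spec` (for `θ2 ∈ (0, 1]`): functions `G = θ1`, `lo`, `up`, ...; thresholds
`θ i = G^[i] 1`. `N1` = maximum over `i < I`. Index type of the systems `Σ i : Fin I, Fin (mc (θ i))`
(the `Y` of window `i` from `window_spec` for all its copies). Sums over the index type:
`∑ up = ∑_i mc up ≤ I 4 Λ a = sig a`; `∑ β^g ≤ I V = (sig a)^4/1000 ≤ (sig a)^g/1000`; `∑ kl ≤ 4 I a`;
`L = (I/2)(3/4) Λ a`: at least `I - j0²/2 ≥ I/2` windows contain `x` (`card_windows`), each contributes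
`mc lo ≥ (3/4) Λ a`; `(7/8) L = (21/64) I Λ a ≥ I Λ a/8`. -/
theorem selection : SelectionTheorem := by
  intro K j0 Λ hK hj hΛ
  have hj1 : (1 : ℝ) ≤ j0 := by exact_mod_cast hj
  obtain ⟨Ir, hIr⟩ : ∃ Ir : ℝ, Ir = (j0 : ℝ) ^ 2 + 1 := ⟨_, rfl⟩
  have hIr0 : 0 < Ir := by rw [hIr]; positivity
  rw [← hIr]
  refine ⟨1 / (32 * (K + 1) * Ir * Λ), by positivity, ?_⟩
  intro a ha ha0
  obtain ⟨sg, hsg⟩ : ∃ sg : ℝ, sg = 4 * Ir * Λ * a := ⟨_, rfl⟩
  have hsg0 : 0 < sg := by rw [hsg]; positivity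
  have hsgK : 8 * (K + 1) * sg ≤ 1 := by
    rw [le_div_iff₀ (by positivity)] at ha0
    rw [hsg]
    linarith
  have hsg1 : sg ≤ 1 := by nlinarith
  obtain ⟨V, hV⟩ : ∃ V : ℝ, V = sg ^ 4 / (1000 * Ir) := ⟨_, rfl⟩
  have hV0 : 0 < V := by rw [hV]; positivity
  have key := fun θ2 (h0 : 0 < θ2) (h1 : θ2 ≤ 1) =>
    window_spec K j0 Λ a θ2 V hK hj hΛ ha h0 h1 hV0
  choose! G lo up β kl Ca N1 mc nc d hG0 hG1 hlo0 hup0 hβ0 hkl0 hCa0 hN1 hlo hup hkl hβ hY using key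
  obtain ⟨θ, hθ⟩ : ∃ θ : ℕ → ℝ, θ = fun i => G^[i] 1 := ⟨_, rfl⟩
  have hθs : ∀ i, θ (i + 1) = G (θ i) := by
    intro i
    rw [hθ]
    exact Function.iterate_succ_apply' G i 1
  have hθ01 : ∀ i, 0 < θ i ∧ θ i ≤ 1 := by
    intro i
    induction i with
    | zero => rw [hθ]; simp
    | succ i ih =>
      rw [hθs]
      exact ⟨hG0 _ ih.1 ih.2, (hG1 _ ih.1 ih.2).le.trans ih.2⟩
  have hθlt : ∀ i, θ (i + 1) < θ i := by
    intro i
    rw [hθs]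
    exact hG1 _ (hθ01 i).1 (hθ01 i).2
  refine ⟨∑ i : Fin (j0 ^ 2 + 1), N1 (θ i), (∑ i : Fin (j0 ^ 2 + 1), mc (θ i) * Ca (θ i)) + 1,
    ∑ i : Fin (j0 ^ 2 + 1), mc (θ i) * nc (θ i), (∑ i : Fin (j0 ^ 2 + 1), d (θ i)) + 1, ?_, ?_⟩
  · have : 0 ≤ ∑ i : Fin (j0 ^ 2 + 1), mc (θ i) * Ca (θ i) :=
      Finset.sum_nonneg fun i _ => mul_nonneg (by positivity) (hCa0 _ (hθ01 i).1 (hθ01 i).2)
    linarith
  intro N hN Q R M _ _ _ _ D hD
  have hN1i : ∀ i : Fin (j0 ^ 2 + 1), N1 (θ i) ≤ N := by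
    intro i
    refine le_trans ?_ hN
    exact Finset.single_le_sum (f := fun i : Fin (j0 ^ 2 + 1) => N1 (θ i))
      (fun i _ => le_trans zero_le_one (hN1 _ (hθ01 i).1 (hθ01 i).2)) (Finset.mem_univ i)
  have hYi := fun i : Fin (j0 ^ 2 + 1) =>
    hY (θ i) (hθ01 i).1 (hθ01 i).2 N (hN1i i) Q R M D hD
  choose Yi hYi using hYi
  have hsum : ∀ f : Fin (j0 ^ 2 + 1) → ℝ,
      ∑ t : (Σ i : Fin (j0 ^ 2 + 1), Fin (mc (θ i))), f t.1 =
        ∑ i : Fin (j0 ^ 2 + 1), mc (θ i) * f i := by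
    intro f
    rw [Fintype.sum_sigma]
    refine Finset.sum_congr rfl fun i _ => ?_
    simp [Finset.sum_const, nsmul_eq_mul]
  have hsumN : ∀ f : Fin (j0 ^ 2 + 1) → ℕ,
      ∑ t : (Σ i : Fin (j0 ^ 2 + 1), Fin (mc (θ i))), f t.1 =
        ∑ i : Fin (j0 ^ 2 + 1), mc (θ i) * f i := by
    intro f
    rw [Fintype.sum_sigma]
    refine Finset.sum_congr rfl fun i _ => ?_
    simp [Finset.sum_const]
  have hcard : ∀ c : ℝ, ∑ _i : Fin (j0 ^ 2 + 1), c = Ir * c := by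
    intro c
    rw [Finset.sum_const, Finset.card_univ, Fintype.card_fin, nsmul_eq_mul, hIr]
    push_cast
    ring
  refine ⟨supSel D (fun t : (Σ i : Fin (j0 ^ 2 + 1), Fin (mc (θ i))) => Yi t.1), ?_⟩
  refine sup_selection (L := Ir / 2 * (3 / 4 * Λ * a)) (d' := ∑ i : Fin (j0 ^ 2 + 1), d (θ i)) hD
    (X := fun t => winSet D N (G (θ t.1)) (θ t.1)) (lo := fun t => lo (θ t.1))
    (up := fun t => up (θ t.1)) (β := fun t => β (θ t.1)) (kl := fun t => kl (θ t.1))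
    (Ca := fun t => Ca (θ t.1)) (nc := fun t => nc (θ t.1)) (d := fun t => d (θ t.1))
    (fun t => hYi t.1) ?_ ?_ ?_ ?_ ?_ ?_ ?_ ?_ ?_ ?_ ?_ ?_
  · intro t
    exact Finset.single_le_sum (f := fun i : Fin (j0 ^ 2 + 1) => d (θ i))
      (fun i _ => Nat.zero_le _) (Finset.mem_univ t.1)
  · positivity
  · rw [hsum fun i => up (θ i)]
    calc ∑ i : Fin (j0 ^ 2 + 1), (mc (θ i) : ℝ) * up (θ i)
        ≤ ∑ _i : Fin (j0 ^ 2 + 1), 4 * Λ * a :=
          Finset.sum_le_sum fun i _ => hup _ (hθ01 i).1 (hθ01 i).2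
      _ = 4 * Ir * Λ * a := by rw [hcard]; ring
  · rw [← hsg]
    exact hsgK
  · exact fun t => hlo0 _ (hθ01 t.1).1 (hθ01 t.1).2
  · exact fun t => hβ0 _ (hθ01 t.1).1 (hθ01 t.1).2
  · intro g hg2 hg4
    rw [← hsg, hsum fun i => β (θ i) ^ g]
    calc ∑ i : Fin (j0 ^ 2 + 1), (mc (θ i) : ℝ) * β (θ i) ^ g
        ≤ ∑ _i : Fin (j0 ^ 2 + 1), V :=
          Finset.sum_le_sum fun i _ => hβ _ (hθ01 i).1 (hθ01 i).2 g hg2 hg4
      _ = sg ^ 4 / 1000 := by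
          rw [hcard, hV]
          field_simp
      _ ≤ sg ^ g / 1000 := by
          have := pow_le_pow_of_le_one hsg0.le hsg1 hg4
          linarith
  · intro x hx
    have hcw := card_windows (D := D) (N := N) (j0 := j0) θ hθlt x hx (hD.cardJ x hx) (j0 ^ 2 + 1)
    obtain ⟨Gd, hGd⟩ : ∃ Gd : Finset (Fin (j0 ^ 2 + 1)),
        Gd = univ.filter fun i => x ∈ winSet D N (θ (i.1 + 1)) (θ i.1) := ⟨_, rfl⟩
    have hsplit : Gd.card + ((univ : Finset (Fin (j0 ^ 2 + 1))).filter fun i =>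
        x ∉ winSet D N (θ (i.1 + 1)) (θ i.1)).card = j0 ^ 2 + 1 := by
      rw [hGd, Finset.card_filter_add_card_filter_not, Finset.card_univ, Fintype.card_fin]
    have h2 : (j0 ^ 2 + 1 : ℕ) ≤ 2 * Gd.card := by omega
    have h3 : Ir ≤ 2 * (Gd.card : ℝ) := by
      rw [hIr]
      exact_mod_cast h2
    have h4 : ∑ t ∈ univ.filter (fun t : (Σ i : Fin (j0 ^ 2 + 1), Fin (mc (θ i))) =>
        x ∈ winSet D N (G (θ t.1)) (θ t.1)), lo (θ t.1) =
        ∑ i : Fin (j0 ^ 2 + 1), mc (θ i) *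
          (if x ∈ winSet D N (θ (i.1 + 1)) (θ i.1) then lo (θ i) else 0) := by
      rw [← hsum fun i => if x ∈ winSet D N (θ (i.1 + 1)) (θ i.1) then lo (θ i) else 0,
        Finset.sum_filter]
      refine Finset.sum_congr rfl fun t _ => ?_
      rw [hθs]
    rw [h4]
    calc Ir / 2 * (3 / 4 * Λ * a) ≤ (Gd.card : ℝ) * (3 / 4 * Λ * a) := by
          have : 0 ≤ 3 / 4 * Λ * a := by positivity
          nlinarith
      _ = ∑ i ∈ Gd, 3 / 4 * Λ * a := by rw [Finset.sum_const, nsmul_eq_mul]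
      _ ≤ ∑ i ∈ Gd, mc (θ i) *
          (if x ∈ winSet D N (θ (i.1 + 1)) (θ i.1) then lo (θ i) else 0) := by
          refine Finset.sum_le_sum fun i hi => ?_
          rw [hGd, Finset.mem_filter] at hi
          rw [if_pos hi.2]
          exact hlo _ (hθ01 i).1 (hθ01 i).2
      _ ≤ ∑ i : Fin (j0 ^ 2 + 1), mc (θ i) *
          (if x ∈ winSet D N (θ (i.1 + 1)) (θ i.1) then lo (θ i) else 0) := by
          refine Finset.sum_le_sum_of_subset_of_nonneg (Finset.subset_univ _) fun i _ _ => ?_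
          refine mul_nonneg (by positivity) ?_
          split_ifs
          · exact hlo0 _ (hθ01 i).1 (hθ01 i).2
          · exact le_rfl
  · have : 0 < Ir * Λ * a := by positivity
    linarith
  · rw [hsum fun i => kl (θ i)]
    calc ∑ i : Fin (j0 ^ 2 + 1), (mc (θ i) : ℝ) * kl (θ i)
        ≤ ∑ _i : Fin (j0 ^ 2 + 1), 4 * a :=
          Finset.sum_le_sum fun i _ => hkl _ (hθ01 i).1 (hθ01 i).2
      _ = 4 * Ir * a := by rw [hcard]; ring
  · rw [hsum fun i => Ca (θ i)]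
    linarith
  · rw [hsumN fun i => nc (θ i)]

end Pool.Agent.Lib.H93D
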