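import Pool.Agent.Lib.H93D.S8
import Pool.Agent.Lib.H93D.S7

/-!
# H93D, S9: the selection theorem in the common form

See `H93B/PROOF.md`, section 2.
-/

set_option autoImplicit false

open Finset
open scoped Classical

namespace Pool.Agent.Lib.H93D

open Pool.Agent.Lib.Prob48
open Pool.Agent.Lib.H93B (SelData SelHyp SelBase SelProb SelFor)

variable {Q R M : Type} [Fintype Q] [Fintype R] [Fintype M]

/-- restriction of the adjacency to `H` -/
theorem s9_reach {D : SelData Q R M} {near : Q × R → Prop} {A A' : Finset (Q × R)}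
    (hA : A ⊆ D.H) (hAA : A ⊆ A') (d : ℕ) (x : Q × R) (h : Reach (sadj D) near A d x) :
    Reach D.Adj near A' d x := by
  induction d generalizing x with
  | zero => exact ⟨hAA h.1, h.2⟩
  | succ d ih =>
    refine ⟨hAA h.1, ?_⟩
    rcases h.2 with h1 | ⟨y, hxy, h1⟩
    · exact Or.inl h1
    · exact Or.inr ⟨y, ⟨hA h.1, hA h1.mem, hxy⟩, ih y h1⟩

theorem s9_one {Y : PSel Q R M} {dflt : ∀ i, Y.α i} (hd : ∀ i, ¬ Y.one i (dflt i)) (i : Y.ι)
    (v : SVal Y) (h : Y.one i (dcd Y dflt i v)) : v.1 = true := by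
  unfold dcd at h
  by_cases hv : v.1 = decide (Y.one i (v.2 i))
  · rw [if_pos hv] at h
    rw [hv]
    exact decide_eq_true h
  · rw [if_neg hv] at h
    exact absurd h (hd i)

theorem s9_act {D : SelData Q R M} {Y : PSel Q R M} {dflt : ∀ i, Y.α i}
    (hd : ∀ i, ¬ Y.one i (dflt i)) (w : GoodI D Y → SVal Y) (x : Q × R)
    (hx : x ∈ Y.act D (extd D Y dflt w)) :
    ∃ i : GoodI D Y, Y.loc i.1 = Sum.inl x ∧ (w i).1 = true := by
  obtain ⟨hH, i, hi, h1⟩ := Finset.mem_filter.1 hx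
  have hg : ∀ x', Y.loc i = Sum.inl x' → x' ∈ D.H := by
    intro x' hx'
    rw [hi] at hx'
    rw [← Sum.inl_injective hx']
    exact hH
  refine ⟨⟨i, hg⟩, hi, ?_⟩
  unfold extd at h1
  rw [dif_pos hg] at h1
  exact s9_one hd i _ h1

/-- the value is one -/
def oneV (Y : PSel Q R M) (v : SVal Y) : Prop := v.1 = true

/-- the selection in the common form -/
noncomputable def brS (D : SelData Q R M) (Y : PSel Q R M) (dflt : ∀ i, Y.α i) :
    Pool.Agent.Lib.H93B.Sel Q R M where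
  ι := GoodI D Y
  Val := SVal Y
  μ := sW D Y
  loc := fun i => Y.loc i.1
  one := oneV Y
  S := fun w => Y.S (extd D Y dflt w)

/-- the probability that the value of the coordinate `i` is one -/
theorem s9_rate (D : SelData Q R M) (Y : PSel Q R M) (i : GoodI D Y) :
    ∑ b ∈ univ.filter (fun b : SVal Y => oneV Y b), (sW D Y).w i b =
      Y.μ.P (fun ω => Y.one i.1 (ω i.1)) := by
  rw [Finset.sum_filter, Fintype.sum_prod_type_right]
  unfold Weights.P Weights.E
  refine Finset.sum_congr rfl fun g _ => ?_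
  have h0 : oneV Y (true, g) := rfl
  have h1 : ¬ oneV Y (false, g) := Bool.false_ne_true
  rw [Fintype.sum_bool, if_pos h0, if_neg h1, add_zero]
  show (if true = decide (Y.one i.1 (g i.1)) then Y.μ.pw g else 0) =
    Y.μ.pw g * (if Y.one i.1 (g i.1) then 1 else 0)
  by_cases h : Y.one i.1 (g i.1)
  · rw [if_pos (decide_eq_true h).symm]
    exact (mul_one _).symm.trans (congrArg (fun t : ℝ => Y.μ.pw g * t) (if_pos h).symm)
  · rw [if_neg (fun h1 => h (of_decide_eq_true h1.symm))]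
    exact (mul_zero _).symm.trans (congrArg (fun t : ℝ => Y.μ.pw g * t) (if_neg h).symm)

theorem s9_card (D : SelData Q R M) (Y : PSel Q R M) (l : (Q × R) ⊕ M) :
    (univ.filter fun i : GoodI D Y => Y.loc i.1 = l).card ≤
      (univ.filter fun i : Y.ι => Y.loc i = l).card := by
  refine Finset.card_le_card_of_injOn (fun i => i.1) (fun i hi => ?_) fun i _ j _ h => Subtype.ext h
  exact Finset.mem_coe.2 (Finset.mem_filter.2 ⟨Finset.mem_univ _, (Finset.mem_filter.1
    (Finset.mem_coe.1 hi)).2⟩)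

theorem s9_actS {D : SelData Q R M} {Y : PSel Q R M} {dflt : ∀ i, Y.α i}
    (hd : ∀ i, ¬ Y.one i (dflt i)) (w : GoodI D Y → SVal Y) :
    Y.act D (extd D Y dflt w) ⊆ (brS D Y dflt).act w :=
  fun x hx => Finset.mem_filter.2 ⟨Finset.mem_univ _, s9_act hd w x hx⟩

theorem s9_base {D : SelData Q R M} {Y : PSel Q R M} {N K a lam sig kill Cw : ℝ} {j0 nc d : ℕ}
    (hD : SelHyp D K N j0) (hCw : 0 ≤ Cw) (h : Selection D Y N a lam sig kill Cw nc d)
    {dflt : ∀ i, Y.α i} (hd : ∀ i, ¬ Y.one i (dflt i)) :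
    SelBase D (brS D Y dflt) N (nc * Cw) nc d := by
  have hN0 : (0 : ℝ) < N := lt_of_lt_of_le one_pos hD.hN
  have hCN : 0 ≤ Cw / N := div_nonneg hCw hN0.le
  refine ⟨?_, ?_, ?_, ?_, ?_⟩
  · intro i x hi
    exact i.2 x hi
  · intro l
    exact (s9_card D Y l).trans (h.t0 l)
  · intro x
    show ∑ i ∈ univ.filter (fun i : GoodI D Y => Y.loc i.1 = Sum.inl x),
      ∑ b ∈ univ.filter (fun b : SVal Y => oneV Y b), (sW D Y).w i b ≤ nc * Cw / N
    have h1 : ∀ i ∈ univ.filter (fun i : GoodI D Y => Y.loc i.1 = Sum.inl x),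
        ∑ b ∈ univ.filter (fun b : SVal Y => oneV Y b), (sW D Y).w i b ≤ Cw / N := by
      intro i hi
      have hi2 := (Finset.mem_filter.1 hi).2
      have hxH : x ∈ D.H := i.2 x hi2
      rw [s9_rate]
      refine le_trans (Y.μ.P_mono fun ω hω => ?_) (h.tw x hxH)
      exact Finset.mem_filter.2 ⟨hxH, i.1, hi2, hω⟩
    calc _ ≤ ∑ i ∈ univ.filter (fun i : GoodI D Y => Y.loc i.1 = Sum.inl x), Cw / N :=
          Finset.sum_le_sum h1
      _ = ((univ.filter (fun i : GoodI D Y => Y.loc i.1 = Sum.inl x)).card : ℝ) * (Cw / N) := by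
          rw [Finset.sum_const, nsmul_eq_mul]
      _ ≤ (nc : ℝ) * (Cw / N) := by
          refine mul_le_mul_of_nonneg_right ?_ hCN
          exact_mod_cast (s9_card D Y (Sum.inl x)).trans (h.t0 _)
      _ = nc * Cw / N := by ring
  · intro w
    exact (h.t1 _).trans (s9_actS hd w)
  · intro i w w' hw x hx
    have h1 : ∀ i', i' ≠ i.1 → extd D Y dflt w i' = extd D Y dflt w' i' := by
      intro i' hi'
      unfold extd
      by_cases hg : ∀ x, Y.loc i' = Sum.inl x → x ∈ D.H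
      · have h3 : w ⟨i', hg⟩ = w' ⟨i', hg⟩ := hw ⟨i', hg⟩ fun h2 => hi' (congrArg Subtype.val h2)
        rw [dif_pos hg, dif_pos hg]
        exact congrArg (dcd Y dflt i') h3
      · rw [dif_neg hg, dif_neg hg]
    have hx' : ¬ (x ∈ Y.S (extd D Y dflt w) ↔ x ∈ Y.S (extd D Y dflt w')) := hx
    have h2 := h.t5 i.1 (extd D Y dflt w) (extd D Y dflt w') h1 x hx'
    have h4 : Y.act D (extd D Y dflt w) ∪ Y.act D (extd D Y dflt w') ⊆ D.H := by
      intro y hy
      rcases Finset.mem_union.1 hy with hy | hy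
      · exact (Finset.mem_filter.1 hy).1
      · exact (Finset.mem_filter.1 hy).1
    exact s9_reach h4 (Finset.union_subset_union (s9_actS hd w) (s9_actS hd w')) d x h2

theorem s9_prob {D : SelData Q R M} {Y : PSel Q R M} {N K a lam sig kill Cw : ℝ} {j0 nc d : ℕ}
    (hD : SelHyp D K N j0) (h : Selection D Y N a lam sig kill Cw nc d)
    (dflt : ∀ i, Y.α i) : SelProb D (brS D Y dflt) N a lam sig kill := by
  have hP : ∀ B : Finset (Q × R) → Prop,
      (sW D Y).P (fun w => B (Y.S (extd D Y dflt w))) = Y.μ.P (fun ω => B (Y.S ω)) := by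
    intro B
    refine P_extd D Y dflt (fun ω => B (Y.S ω)) fun ω ω' hω => ?_
    rw [S_good h.toSelLoc ω ω' hω]
  refine ⟨?_, ?_, ?_, ?_, ?_⟩
  · intro w x hx y hy hc
    by_cases hxy : x = y
    · subst hxy
      exact hD.conf_irrefl x hc
    · exact h.t1c _ x hx y hy hxy hc
  · intro x hx
    have h1 := hP fun s => x ∈ s
    exact (h.t2l x hx).trans_eq h1.symm
  · intro x hx
    have h1 := hP fun s => x ∈ s
    exact h1.trans_le (h.t2u x hx)
  · intro Z hZ hZ4 hZs
    have h1 := hP fun s => Z ⊆ s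
    exact h1.trans_le (h.t3 Z hZ hZ4 fun x hx y hy hxy => not_not.1 (hZs x hx y hy hxy))
  · intro f
    have h1 := hP fun s => ∃ x ∈ s, f ∈ D.J x
    exact h1.trans_le (h.t4 f)

/-- The translation: `ι = GoodI`, `Val = SVal Y`, `μ = sW`, `loc`, `one (β, g) ↔ β = true`,
`S w = Y.S (extd w)`, `dflt i` not `one` (`t6`). `Y.act (extd w) ⊆ act w` because `one i (dcd i v)` implies
`v.1 = true`. `rate`: the sum over the at most `nc` coordinates located at `x` of
`P(Y.one i) ≤ P(x ∈ act) ≤ Cw/N` (`x ∈ H`; no coordinates otherwise). `path`: `t5` and `Reach` (all vertices of the path are in `act ⊆ H`).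
`noconf` with `conf_irrefl`. Probabilities: `P_extd`, `S_good`. -/
theorem bridge {D : SelData Q R M} {Y : PSel Q R M} {N K a lam sig kill Cw : ℝ} {j0 nc d : ℕ}
    (hD : SelHyp D K N j0) (hCw : 0 ≤ Cw) (h : Selection D Y N a lam sig kill Cw nc d) :
    ∃ s : Pool.Agent.Lib.H93B.Sel Q R M, SelBase D s N (nc * Cw) nc d ∧
      SelProb D s N a lam sig kill := by
  choose dflt hd using h.t6
  exact ⟨brS D Y dflt, s9_base hD hCw h hd, s9_prob hD h dflt⟩

/-- THE SELECTION THEOREM, output of module B (`Iof j0 = j0² + 1`). -/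
theorem selFor (K Λ : ℝ) (j0 : ℕ) (hK : 1 ≤ K) (hΛ : 1 ≤ Λ) (hj : 1 ≤ j0) :
    ∃ a0 : ℝ, 0 < a0 ∧ ∀ a, 0 < a → a ≤ a0 → ∃ (N1 Cw : ℝ) (nc d : ℕ), 0 ≤ Cw ∧
      SelFor K Λ j0 a N1 Cw nc d := by
  obtain ⟨a0, ha0, h⟩ := selection K j0 Λ hK hj hΛ
  refine ⟨a0, ha0, fun a ha ha1 => ?_⟩
  obtain ⟨N1, Cw, nc, d, hCw, h2⟩ := h a ha ha1
  refine ⟨N1, nc * Cw, nc, d, by positivity, ?_⟩
  intro Q R M _ _ _ _ D N hN hD
  obtain ⟨Y, hY⟩ := h2 N hN Q R M D hD
  exact bridge hD hCw.le hY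

end Pool.Agent.Lib.H93D
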