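import Pool.Agent.Lib.H93A.P2B
import Pool.Agent.Lib.H93D.Reach
import Pool.Agent.Lib.Prob48.Basic

/-!
# H93D: one window of the selection theorem (`H93B/PROOF.md`, section 3): definitions
-/

set_option autoImplicit false

open Finset
open scoped Classical

namespace Pool.Agent.Lib.H93D

open Pool.Agent.Lib.H93A (pr ex IsProb stepMeasure)

/-- The data of one window: `X` the elements, `V(x) = {lab x i : i ∈ idx x}`, `k f` the number of classes of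
the partition at `f`, `iA f`, `iB f` the class numbers, `Gd f u v`: the class pair `(u, v)` is regular. -/
structure Win (Q R M : Type) where
  N : ℝ
  m : ℕ
  b : ℕ
  X : Finset (Q × R)
  lab : Q × R → Fin b → M
  idx : Q × R → Finset (Fin b)
  k : M → ℕ
  iA : M → Q → ℕ
  iB : M → R → ℕ
  Gd : M → ℕ → ℕ → Prop
  conf : Q × R → Q × R → Prop

namespace Win

variable {Q R M : Type} (D : Win Q R M)

/-- `V(x)` -/
noncomputable def V (x : Q × R) : Finset M := (D.idx x).image (D.lab x)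

/-- `X_f` -/
noncomputable def Xf (f : M) : Finset (Q × R) := D.X.filter fun x => f ∈ D.V x

/-- the cell of `x` at `f` -/
def cell (f : M) (x : Q × R) : ℕ × ℕ := (D.iA f x.1, D.iB f x.2)

/-- first coordinates in the class `u` at `f` -/
noncomputable def clA (f : M) (u : ℕ) : Finset Q := ((D.Xf f).image Prod.fst).filter fun a => D.iA f a = u

/-- second coordinates in the class `v` at `f` -/
noncomputable def clB (f : M) (v : ℕ) : Finset R := ((D.Xf f).image Prod.snd).filter fun a => D.iB f a = v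

/-- the elements of `X_f` in the cell `c` -/
noncomputable def cellSet (f : M) (c : ℕ × ℕ) : Finset (Q × R) :=
  (D.Xf f).filter fun y => D.cell f y = c

/-- `A' ∩ ⋂ N(b_y)`, `y ∈ Z` -/
noncomputable def comm (f : M) (A' : Finset Q) (Z : Finset (Q × R)) : Finset Q :=
  A'.filter fun a => ∀ y ∈ Z, (a, y.2) ∈ D.Xf f

/-- regularity of the class pair `(u, v)` at `f` -/
def Good (ε d : ℝ) (f : M) (u v : ℕ) : Prop :=
  ∀ A' ⊆ D.clA f u, ∀ B' ⊆ D.clB f v,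
    ε * (4 * D.m / D.k f) ≤ A'.card → ε * (4 * D.m / D.k f) ≤ B'.card →
    d * A'.card * B'.card ≤ ((D.Xf f ∩ A' ×ˢ B').card : ℝ)

/-- adjacency inside the window -/
def adj (x y : Q × R) : Prop := x = y ∨ D.conf x y ∨ ¬ Disjoint (D.V x) (D.V y)

/-- the location `l` is at `x` or at a label of `x` -/
def near (l : (Q × R) ⊕ M) (x : Q × R) : Prop := l = Sum.inl x ∨ ∃ f ∈ D.V x, l = Sum.inr f

end Win

/-- the hypotheses on the window data -/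
structure WinHyp {Q R M : Type} (D : Win Q R M) (kmax : ℕ) (K θ1 ε η d : ℝ) : Prop where
  b_pos : 1 ≤ D.b
  hK : 1 ≤ K
  N_pos : 1 ≤ D.N
  lab_inj : ∀ x ∈ D.X, ∀ i ∈ D.idx x, ∀ j ∈ D.idx x, D.lab x i = D.lab x j → i = j
  k_pos : ∀ f, 1 ≤ D.k f
  k_le : ∀ f, D.k f ≤ kmax
  m_pos : 1 ≤ D.m
  m_sq : (D.m : ℝ) ^ 2 ≤ 4 * K ^ 2 * D.N
  cardXf : ∀ f, ((D.Xf f).card : ℝ) ≤ (D.m : ℝ) ^ 2
  iA_lt : ∀ f, ∀ x ∈ D.Xf f, D.iA f x.1 < D.k f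
  iB_lt : ∀ f, ∀ x ∈ D.Xf f, D.iB f x.2 < D.k f
  clA_le : ∀ f u, ((D.clA f u).card : ℝ) ≤ 4 * D.m / D.k f
  clB_le : ∀ f v, ((D.clB f v).card : ℝ) ≤ 4 * D.m / D.k f
  bad_le : ∀ f, (((D.Xf f).filter fun x => ¬ D.Gd f (D.iA f x.1) (D.iB f x.2)).card : ℝ) ≤
    η * (D.m : ℝ) ^ 2
  good : ∀ f u v, D.Gd f u v → D.Good ε d f u v
  weak : ∀ x ∈ D.X, ∀ i ∈ D.idx x, ∀ j ∈ D.idx x, i ≠ j →
    ((D.Xf (D.lab x i) ∩ D.Xf (D.lab x j)).card : ℝ) ≤ θ1 * D.N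
  conf_symm : ∀ x y, D.conf x y → D.conf y x
  conf_card : ∀ x ∈ D.X, ((D.X.filter fun y => D.conf x y).card : ℝ) ≤ K * D.N
  conf_not : ∀ x ∈ D.X, ∀ y ∈ D.X, x.1 ≠ y.1 → x.2 ≠ y.2 → (x.1, y.2) ∈ D.X → ¬ D.conf x y

/-- A system: random `P ⊆ M`, `C f`, `S`, the sets `V*(x)`, and the set of active elements. -/
structure Sys {Q R M : Type} (D : Win Q R M) (Ω : Type) where
  μ : Ω → ℝ
  P : Ω → Finset M
  C : Ω → M → ℕ × ℕ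
  S : Ω → Finset (Q × R)
  Vs : Ω → Q × R → Finset M
  act : Ω → Finset (Q × R)

/-- the history of `f` -/
noncomputable def hist {Q R M : Type} {D : Win Q R M} {Ω : Type} (Y : Sys D Ω) (ω : Ω) (f : M) :
    Finset (Q × R) := (Y.S ω).filter fun y => f ∈ Y.Vs ω y

/-- `x` is open at `f` -/
def Opn {Q R M : Type} {D : Win Q R M} {Ω : Type} (Y : Sys D Ω) (T : ℕ) (x : Q × R) (f : M) (ω : Ω) :
    Prop :=
  (f ∈ Y.P ω ∧ Y.C ω f = D.cell f x) ∧ (hist Y ω f).card < T ∧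
    ∀ y ∈ hist Y ω f, (x.1, y.2) ∈ D.Xf f ∧ x.1 ≠ y.1 ∧ x.2 ≠ y.2

/-- The properties of a system. `p` = probability of a label, `κ` = upper constant, `δ` = loss of
uniformity, `σl`, `σu` = bounds for `P(x ∈ S) N/p`, `ξ` = bound for the labels on demand, `Ca` = activity. -/
structure SysHyp {Q R M : Type} [Fintype M] {D : Win Q R M} {Ω : Type} [Fintype Ω] (Y : Sys D Ω)
    (p κ δ σl σu ξ Ca : ℝ) : Prop where
  prob : IsProb Y.μ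
  p_pos : 0 < p
  p_le : p ≤ 1
  κ_nonneg : 0 ≤ κ
  S_act : ∀ ω, Y.S ω ⊆ Y.act ω
  act_sub : ∀ ω, Y.act ω ⊆ D.X
  Vs_sub : ∀ ω, ∀ x ∈ Y.S ω, Y.Vs ω x ⊆ D.V x
  C_lt : ∀ ω, ∀ f ∈ Y.P ω, (Y.C ω f).1 < D.k f ∧ (Y.C ω f).2 < D.k f
  s1 : ∀ ω, ∀ x ∈ Y.S ω, ∀ y ∈ Y.S ω, x ≠ y → ¬ D.conf x y
  s1' : ∀ ω, ∀ x ∈ Y.S ω, ∀ f ∈ Y.Vs ω x, f ∈ Y.P ω ∧ Y.C ω f = D.cell f x
  s2p : ∀ f, pr Y.μ (fun ω => f ∈ Y.P ω) ≤ p
  s2l : ∀ f (c : ℕ × ℕ), c.1 < D.k f → c.2 < D.k f →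
    (1 - δ) * (p / (D.k f : ℝ) ^ 2) ≤ pr Y.μ (fun ω => f ∈ Y.P ω ∧ Y.C ω f = c)
  ss : ∀ (Z : Finset (Q × R)) (F : Finset M) (c : M → ℕ × ℕ), Z ⊆ D.X →
    (∀ x ∈ Z, ∀ y ∈ Z, x ≠ y → Disjoint (D.V x) (D.V y)) → (∀ f ∈ F, ∀ x ∈ Z, f ∉ D.V x) →
    pr Y.μ (fun ω => Z ⊆ Y.S ω ∧ ∀ f ∈ F, f ∈ Y.P ω ∧ Y.C ω f = c f) ≤
      (κ * p / D.N) ^ Z.card * ∏ f ∈ F, (p / (D.k f : ℝ) ^ 2)
  s4 : ∀ f c, ∀ Z : Finset (Q × R), Z ⊆ D.X →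
    pr Y.μ (fun ω => (f ∈ Y.P ω ∧ Y.C ω f = c) ∧ ∀ y ∈ Z, y ∈ Y.S ω ∧ f ∈ Y.Vs ω y) ≤
      (p / (D.k f : ℝ) ^ 2) * (κ * (D.k f : ℝ) ^ 2 / D.N) ^ Z.card
  s5 : ∀ y ∈ D.X, ∀ f c,
    pr Y.μ (fun ω => (y ∈ Y.S ω ∧ f ∉ Y.Vs ω y) ∧ (f ∈ Y.P ω ∧ Y.C ω f = c)) ≤
      (κ * p / D.N) * (p / (D.k f : ℝ) ^ 2)
  s6l : ∀ x ∈ D.X, σl * p / D.N ≤ pr Y.μ (fun ω => x ∈ Y.S ω)
  s6u : ∀ x ∈ D.X, pr Y.μ (fun ω => x ∈ Y.S ω) ≤ σu * p / D.N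
  s7 : ∀ f, ∑ x ∈ D.Xf f, pr Y.μ (fun ω => x ∈ Y.S ω ∧ f ∉ Y.Vs ω x) ≤ ξ * p
  sa : ∀ x ∈ D.X, pr Y.μ (fun ω => x ∈ Y.act ω) ≤ Ca / D.N

/-- The input of a step: the index sets `J(x)` (labels which are not on demand) and the weights `w(x)`. -/
structure StepIn {Q R M : Type} [Fintype M] {D : Win Q R M} {Ω : Type} [Fintype Ω] (Y : Sys D Ω)
    (T : ℕ) (J : Q × R → Finset (Fin D.b)) (w : Q × R → ℝ) (p s g E : ℝ) : Prop where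
  s_nonneg : 0 ≤ s
  g_nonneg : 0 ≤ g
  J_sub : ∀ x ∈ D.X, J x ⊆ D.idx x
  w_nonneg : ∀ x, 0 ≤ w x
  w_le_one : ∀ x, w x ≤ 1
  w_off : ∀ x, x ∉ D.X → w x = 0
  w_le : ∀ x ∈ D.X, w x ≤ (s * p / D.N) * ∏ j ∈ J x, ((D.k (D.lab x j) : ℝ) ^ 2 / p)
  w_eq : ∀ x ∈ D.X, w x * ∏ j ∈ J x, pr Y.μ (Opn Y T x (D.lab x j)) = g * p / D.N
  exc : ∀ f, (((D.Xf f).filter fun x => ∃ j ∈ D.idx x, D.lab x j = f ∧ j ∉ J x).card : ℝ) ≤ E

/-! ### the step -/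

section Step

variable {Q R M : Type} {D : Win Q R M} {Ω : Type} (Y : Sys D Ω) (T : ℕ)
  (J : Q × R → Finset (Fin D.b))

/-- the new probability space -/
abbrev StepΩ (D : Win Q R M) (Ω : Type) : Type := (Fin D.b → Ω) × (Q × R → Bool)

noncomputable def stepP (z : StepΩ D Ω) : Finset M := univ.biUnion fun j => Y.P (z.1 j)

/-- labels in two copies -/
def stepO (z : StepΩ D Ω) (f : M) : Prop := ∃ i j, i ≠ j ∧ f ∈ Y.P (z.1 i) ∧ f ∈ Y.P (z.1 j)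

noncomputable def stepC (z : StepΩ D Ω) (f : M) : ℕ × ℕ :=
  if h : ∃ j, f ∈ Y.P (z.1 j) then Y.C (z.1 h.choose) f else (0, 0)

/-- the new elements (`N0`) -/
noncomputable def stepN (z : StepΩ D Ω) : Finset (Q × R) :=
  D.X.filter fun x => z.2 x = true ∧ ∀ j ∈ J x, Opn Y T x (D.lab x j) (z.1 j)

noncomputable def stepU (z : StepΩ D Ω) : Finset (Q × R) :=
  stepN Y T J z ∪ univ.biUnion fun j => Y.S (z.1 j)

/-- the new `V*` -/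
noncomputable def stepVs (z : StepΩ D Ω) (x : Q × R) : Finset M :=
  if x ∈ stepN Y T J z then (J x).image (D.lab x)
  else if h : ∃ j, x ∈ Y.S (z.1 j) then Y.Vs (z.1 h.choose) x else ∅

/-- (Z0) to (Z3) -/
def Spoiled (z : StepΩ D Ω) (x : Q × R) : Prop :=
  (∃ f ∈ stepVs Y T J z x, stepO Y z f) ∨
  (x ∈ stepN Y T J z ∧ ∃ x' ∈ stepN Y T J z, x' ≠ x ∧
    ¬ Disjoint (stepVs Y T J z x) (stepVs Y T J z x')) ∨
  (∃ x' ∈ stepU Y T J z, x' ≠ x ∧ D.conf x x') ∨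
  (x ∈ stepN Y T J z ∧ ∃ j, x ∈ Y.S (z.1 j)) ∨
  (∃ i j, i ≠ j ∧ x ∈ Y.S (z.1 i) ∧ x ∈ Y.S (z.1 j))

noncomputable def stepS (z : StepΩ D Ω) : Finset (Q × R) :=
  (stepU Y T J z).filter fun x => ¬ Spoiled Y T J z x

noncomputable def stepAct (z : StepΩ D Ω) : Finset (Q × R) :=
  (D.X.filter fun x => z.2 x = true) ∪ univ.biUnion fun j => Y.act (z.1 j)

/-- the new measure -/
noncomputable def stepμ [Fintype Ω] [Fintype Q] [Fintype R] (w : Q × R → ℝ) : StepΩ D Ω → ℝ :=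
  stepMeasure D.b Y.μ w

/-- the new system -/
noncomputable def stepSys [Fintype Ω] [Fintype Q] [Fintype R] (w : Q × R → ℝ) :
    Sys D (StepΩ D Ω) where
  μ := stepμ Y w
  P := stepP Y
  C := stepC Y
  S := stepS Y T J
  Vs := stepVs Y T J
  act := stepAct Y

end Step

end Pool.Agent.Lib.H93D
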