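import Pool.Agent.Lib.H93D.LDefs

/-!
# H93D, I0: the initial system

See `H93B/PROOF.md`, section 3.
-/

set_option autoImplicit false

open Finset
open scoped Classical

namespace Pool.Agent.Lib.H93D

open Pool.Agent.Lib.H93A

open Pool.Agent.Lib.Prob48 (Weights)

variable {Q R M : Type} [Fintype Q] [Fintype R] [Fintype M] {D : Win Q R M}

/-- the space of one coordinate -/
abbrev i0α (k : M → ℕ) (f : M) : Type := Bool × (Fin (k f) × Fin (k f))

/-- the weight of one coordinate -/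
noncomputable def i0w (k : M → ℕ) (p : ℝ) (f : M) (a : i0α k f) : ℝ :=
  (if a.1 = true then p else 1 - p) / (k f : ℝ) ^ 2

noncomputable def i0μ (k : M → ℕ) (p : ℝ) : (∀ f, i0α k f) → ℝ := fun ω => ∏ f, i0w k p f (ω f)

theorem i0_pr (k : M → ℕ) (p : ℝ) (A : ∀ f, i0α k f → Prop) :
    pr (i0μ k p) (fun ω => ∀ f, A f (ω f)) = ∏ f, ∑ a, if A f a then i0w k p f a else 0 := by
  unfold pr i0μ
  rw [Finset.prod_univ_sum, Fintype.piFinset_univ]
  refine sum_congr rfl fun ω _ => ?_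
  by_cases h : ∀ f, A f (ω f)
  · rw [if_pos h]
    exact prod_congr rfl fun f _ => (if_pos (h f)).symm
  · rw [if_neg h]
    push Not at h
    obtain ⟨f, hf⟩ := h
    exact (prod_eq_zero (mem_univ f) (if_neg hf)).symm

theorem i0_w_nonneg (k : M → ℕ) (p : ℝ) (hp0 : 0 < p) (hp1 : p ≤ 1) (f : M) (a : i0α k f) :
    0 ≤ i0w k p f a := by
  unfold i0w
  apply div_nonneg _ (by positivity)
  split_ifs <;> linarith

theorem i0_sumP (k : M → ℕ) (hk : ∀ f, 1 ≤ k f) (p : ℝ) (f : M) :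
    ∑ a : i0α k f, (if a.1 = true then i0w k p f a else 0) = p := by
  have hk' : (k f : ℝ) ≠ 0 := by
    have := hk f
    have h2 : (1 : ℝ) ≤ k f := by exact_mod_cast this
    linarith
  rw [Fintype.sum_prod_type, Fintype.sum_bool]
  simp only [i0w, if_true, Bool.false_eq_true, if_false, sum_const_zero, add_zero, sum_const,
    card_univ, Fintype.card_prod, Fintype.card_fin, nsmul_eq_mul]
  push_cast
  field_simp

theorem i0_sum (k : M → ℕ) (hk : ∀ f, 1 ≤ k f) (p : ℝ) (f : M) :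
    ∑ a : i0α k f, i0w k p f a = 1 := by
  have hk' : (k f : ℝ) ≠ 0 := by
    have := hk f
    have h2 : (1 : ℝ) ≤ k f := by exact_mod_cast this
    linarith
  rw [Fintype.sum_prod_type, Fintype.sum_bool]
  simp only [i0w, if_true, Bool.false_eq_true, if_false, sum_const,
    card_univ, Fintype.card_prod, Fintype.card_fin, nsmul_eq_mul]
  push_cast
  field_simp
  ring

/-- the event of one coordinate -/
def i0ev (k : M → ℕ) (f : M) (c : ℕ × ℕ) (a : i0α k f) : Prop :=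
  a.1 = true ∧ ((a.2.1 : ℕ), (a.2.2 : ℕ)) = c

noncomputable def i0q (k : M → ℕ) (p : ℝ) (f : M) (c : ℕ × ℕ) : ℝ :=
  ∑ a : i0α k f, if i0ev k f c a then i0w k p f a else 0

theorem i0_q_eq (k : M → ℕ) (p : ℝ) (f : M) (c : ℕ × ℕ) :
    i0q k p f c = ((univ.filter fun a => i0ev k f c a).card : ℝ) * (p / (k f : ℝ) ^ 2) := by
  unfold i0q
  rw [← sum_filter, ← nsmul_eq_mul, ← sum_const]
  refine sum_congr rfl fun a ha => ?_
  unfold i0w
  rw [if_pos (mem_filter.1 ha).2.1]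

theorem i0_q_nonneg (k : M → ℕ) (p : ℝ) (hp0 : 0 < p) (f : M) (c : ℕ × ℕ) :
    0 ≤ i0q k p f c := by
  rw [i0_q_eq]
  positivity

theorem i0_q_le (k : M → ℕ) (p : ℝ) (hp0 : 0 < p) (f : M) (c : ℕ × ℕ) :
    i0q k p f c ≤ p / (k f : ℝ) ^ 2 := by
  rw [i0_q_eq]
  have h1 : (univ.filter fun a => i0ev k f c a).card ≤ 1 := by
    rw [card_le_one]
    intro a ha b hb
    obtain ⟨_, ha1, ha2⟩ := mem_filter.1 ha
    obtain ⟨_, hb1, hb2⟩ := mem_filter.1 hb
    have h3 := ha2.trans hb2.symm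
    rw [Prod.mk.injEq] at h3
    exact Prod.ext (ha1.trans hb1.symm) (Prod.ext (Fin.ext h3.1) (Fin.ext h3.2))
  have h2 : ((univ.filter fun a => i0ev k f c a).card : ℝ) ≤ 1 := by exact_mod_cast h1
  have h3 : 0 ≤ p / (k f : ℝ) ^ 2 := by positivity
  nlinarith

theorem i0_q_ge (k : M → ℕ) (p : ℝ) (hp0 : 0 < p) (f : M) (c : ℕ × ℕ) (h1 : c.1 < k f)
    (h2 : c.2 < k f) : p / (k f : ℝ) ^ 2 ≤ i0q k p f c := by
  rw [i0_q_eq]
  have h3 : 0 < (univ.filter fun a => i0ev k f c a).card :=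
    card_pos.2 ⟨(true, ⟨c.1, h1⟩, ⟨c.2, h2⟩), mem_filter.2 ⟨mem_univ _, rfl, rfl⟩⟩
  have h4 : (1 : ℝ) ≤ ((univ.filter fun a => i0ev k f c a).card : ℝ) := by exact_mod_cast h3
  have h5 : 0 ≤ p / (k f : ℝ) ^ 2 := by positivity
  nlinarith

/-- events at one coordinate -/
theorem i0_one (k : M → ℕ) (hk : ∀ f, 1 ≤ k f) (p : ℝ) (f : M)
    (E : ∀ g, i0α k g → Prop) :
    pr (i0μ k p) (fun ω => E f (ω f)) = ∑ a, if E f a then i0w k p f a else 0 := by
  have h1 := i0_pr k p (fun g a => g = f → E g a)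
  rw [prod_eq_single f] at h1
  · have h2 : (fun ω : ∀ f, i0α k f => ∀ g, g = f → E g (ω g)) = fun ω => E f (ω f) := by
      funext ω
      exact propext ⟨fun h => h f rfl, fun h g hg => by rw [hg]; exact h⟩
    rw [h2] at h1
    rw [h1]
    refine sum_congr rfl fun a _ => ?_
    by_cases h : E f a
    · rw [if_pos h, if_pos (fun _ => h)]
    · rw [if_neg h, if_neg (fun h' => h (h' rfl))]
  · intro g _ hg
    rw [← i0_sum k hk p g]
    exact sum_congr rfl fun a _ => if_pos (fun h => absurd h hg)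
  · intro h
    exact absurd (mem_univ f) h

/-- events at the coordinates in a finite set -/
theorem i0_many (k : M → ℕ) (hk : ∀ f, 1 ≤ k f) (p : ℝ) (F : Finset M) (c : M → ℕ × ℕ) :
    pr (i0μ k p) (fun ω => ∀ f ∈ F, i0ev k f (c f) (ω f)) = ∏ f ∈ F, i0q k p f (c f) := by
  have h1 := i0_pr k p (fun g a => g ∈ F → i0ev k g (c g) a)
  rw [h1, ← Finset.prod_subset (subset_univ F)]
  · refine prod_congr rfl fun f hf => ?_
    unfold i0q
    refine sum_congr rfl fun a _ => ?_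
    by_cases h : i0ev k f (c f) a
    · rw [if_pos h, if_pos (fun _ => h)]
    · rw [if_neg h, if_neg (fun h' => h (h' hf))]
  · intro f _ hf
    rw [← i0_sum k hk p f]
    exact sum_congr rfl fun a _ => if_pos (fun h => absurd h hf)

theorem i0_prob (k : M → ℕ) (hk : ∀ f, 1 ≤ k f) (p : ℝ) (hp0 : 0 < p) (hp1 : p ≤ 1) :
    IsProb (i0μ k p) := by
  refine ⟨fun ω => prod_nonneg fun f _ => i0_w_nonneg k p hp0 hp1 f _, ?_⟩
  unfold i0μ
  have h1 : ∏ f, ∑ a : i0α k f, i0w k p f a = ∑ ω : (∀ f, i0α k f), ∏ f, i0w k p f (ω f) := by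
    rw [Finset.prod_univ_sum, Fintype.piFinset_univ]
  rw [← h1]
  exact prod_eq_one fun f _ => i0_sum k hk p f

/-- the weights of the coordinates -/
noncomputable def i0wt (k : M → ℕ) (hk : ∀ f, 1 ≤ k f) (p : ℝ) (hp0 : 0 < p) (hp1 : p ≤ 1) :
    Weights (i0α k) where
  w := i0w k p
  nonneg := i0_w_nonneg k p hp0 hp1
  sum_one := i0_sum k hk p

/-- The initial system: `Ω = ∀ f, Bool × Fin (k f) × Fin (k f)`, `P` a `p`-random subset, `C f` uniform,
`S = ∅`, `act = ∅` (see `H93A/I0.lean`; `ss` for arbitrary `F` from `H93A.i0_pr`, the product formula; if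
`Z` is not empty the probability is `0`). Coordinates: `ι = M`, `loc = inr`, `one = False`. -/
theorem exists_init {kmax : ℕ} {K θ1 ε η d p : ℝ} (hD : WinHyp D kmax K θ1 ε η d) (hp0 : 0 < p)
    (hp1 : p ≤ 1) :
    ∃ (Ω : Type) (_ : Fintype Ω) (Y : Sys D Ω), SysHyp Y p 0 0 0 0 0 0 ∧ Nonempty (Coord Y 1 0) := by
  have hk := hD.k_pos
  have hN : 0 < D.N := lt_of_lt_of_le one_pos hD.N_pos
  let Y : Sys D (∀ f, i0α D.k f) :=
    { μ := i0μ D.k p
      P := fun ω => univ.filter fun f => (ω f).1 = true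
      C := fun ω f => (((ω f).2.1 : ℕ), ((ω f).2.2 : ℕ))
      S := fun _ => ∅
      Vs := fun _ _ => ∅
      act := fun _ => ∅ }
  have hμ := i0_prob D.k hk p hp0 hp1
  have hev : ∀ (ω : ∀ f, i0α D.k f) f c, (f ∈ Y.P ω ∧ Y.C ω f = c) ↔ i0ev D.k f c (ω f) := by
    intro ω f c
    show (f ∈ univ.filter (fun f => (ω f).1 = true) ∧ _) ↔ _
    rw [mem_filter]
    exact ⟨fun h => ⟨h.1.2, h.2⟩, fun h => ⟨⟨mem_univ _, h.1⟩, h.2⟩⟩
  have hone : ∀ f c, pr (i0μ D.k p) (fun ω => f ∈ Y.P ω ∧ Y.C ω f = c) = i0q D.k p f c := by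
    intro f c
    have h1 : (fun ω : ∀ f, i0α D.k f => f ∈ Y.P ω ∧ Y.C ω f = c) = fun ω => i0ev D.k f c (ω f) := by
      funext ω
      exact propext (hev ω f c)
    rw [h1]
    exact i0_one D.k hk p f (fun g a => i0ev D.k g c a)
  have hempty : ∀ A : (∀ f, i0α D.k f) → Prop, (∀ ω, ¬ A ω) → pr (i0μ D.k p) A = 0 := by
    intro A hA
    unfold pr
    exact sum_eq_zero fun ω _ => if_neg (hA ω)
  refine ⟨∀ f, i0α D.k f, inferInstance, Y, ?_, ?_⟩
  · constructor
    · exact hμ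
    · exact hp0
    · exact hp1
    · exact le_rfl
    · intro ω
      exact empty_subset _
    · intro ω
      exact empty_subset _
    · intro ω x hx
      exact absurd hx (notMem_empty _)
    · intro ω f _
      exact ⟨(ω f).2.1.2, (ω f).2.2.2⟩
    · intro ω x hx
      exact absurd hx (notMem_empty _)
    · intro ω x hx
      exact absurd hx (notMem_empty _)
    · intro f
      have h1 : (fun ω : ∀ f, i0α D.k f => f ∈ Y.P ω) = fun ω => (ω f).1 = true := by
        funext ω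
        show (f ∈ univ.filter (fun f => (ω f).1 = true)) = _
        rw [mem_filter]
        exact propext (and_iff_right (mem_univ _))
      show pr (i0μ D.k p) (fun ω => f ∈ Y.P ω) ≤ p
      rw [h1, i0_one D.k hk p f (fun g a => a.1 = true)]
      refine le_of_eq (Eq.trans (sum_congr rfl fun a _ => ?_) (i0_sumP D.k hk p f))
      by_cases h : a.1 = true
      · rw [if_pos h, if_pos h]
      · rw [if_neg h, if_neg h]
    · intro f c h1 h2
      show _ ≤ pr (i0μ D.k p) (fun ω => f ∈ Y.P ω ∧ Y.C ω f = c)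
      rw [hone, sub_zero, one_mul]
      exact i0_q_ge D.k p hp0 f c h1 h2
    · intro Z F c _ _ _
      show pr (i0μ D.k p) (fun ω => Z ⊆ Y.S ω ∧ ∀ f ∈ F, f ∈ Y.P ω ∧ Y.C ω f = c f) ≤ _
      by_cases hZ : Z = ∅
      · rw [hZ, card_empty, pow_zero, one_mul]
        refine le_trans (pr_mono hμ (B := fun ω => ∀ f ∈ F, i0ev D.k f (c f) (ω f))
          fun ω h f hf => (hev ω f (c f)).1 (h.2 f hf)) ?_
        rw [i0_many D.k hk]
        exact prod_le_prod (fun f _ => i0_q_nonneg D.k p hp0 f _) fun f _ => i0_q_le D.k p hp0 f _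
      · have h1 : pr (i0μ D.k p) (fun ω => Z ⊆ Y.S ω ∧ ∀ f ∈ F, f ∈ Y.P ω ∧ Y.C ω f = c f) = 0 := by
          apply hempty
          rintro ω ⟨h, _⟩
          exact hZ (subset_empty.1 h)
        rw [h1]
        have : (0 * p / D.N) = 0 := by simp
        rw [this]
        positivity
    · intro f c Z _
      show pr (i0μ D.k p) (fun ω => (f ∈ Y.P ω ∧ Y.C ω f = c) ∧ ∀ y ∈ Z, y ∈ Y.S ω ∧ f ∈ Y.Vs ω y) ≤ _
      by_cases hZ : Z = ∅
      · rw [hZ, card_empty, pow_zero, mul_one]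
        refine le_trans (pr_mono hμ (B := fun ω => f ∈ Y.P ω ∧ Y.C ω f = c) fun ω h => h.1) ?_
        rw [hone]
        exact i0_q_le D.k p hp0 f c
      · have h1 : pr (i0μ D.k p)
            (fun ω => (f ∈ Y.P ω ∧ Y.C ω f = c) ∧ ∀ y ∈ Z, y ∈ Y.S ω ∧ f ∈ Y.Vs ω y) = 0 := by
          apply hempty
          rintro ω ⟨_, h⟩
          obtain ⟨y, hy⟩ := nonempty_iff_ne_empty.2 hZ
          exact absurd (h y hy).1 (notMem_empty _)
        rw [h1]
        positivity
    · intro y _ f c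
      have h1 : pr (i0μ D.k p) (fun ω => (y ∈ Y.S ω ∧ f ∉ Y.Vs ω y) ∧ (f ∈ Y.P ω ∧ Y.C ω f = c)) = 0 := by
        apply hempty
        rintro ω ⟨h, _⟩
        exact absurd h.1 (notMem_empty _)
      show pr (i0μ D.k p) (fun ω => (y ∈ Y.S ω ∧ f ∉ Y.Vs ω y) ∧ (f ∈ Y.P ω ∧ Y.C ω f = c)) ≤ _
      rw [h1]
      simp
    · intro x _
      have h1 : pr (i0μ D.k p) (fun ω => x ∈ Y.S ω) = 0 := hempty _ fun ω h => absurd h (notMem_empty _)
      show _ ≤ pr (i0μ D.k p) (fun ω => x ∈ Y.S ω)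
      rw [h1]
      simp
    · intro x _
      have h1 : pr (i0μ D.k p) (fun ω => x ∈ Y.S ω) = 0 := hempty _ fun ω h => absurd h (notMem_empty _)
      show pr (i0μ D.k p) (fun ω => x ∈ Y.S ω) ≤ _
      rw [h1]
      simp
    · intro f
      show ∑ x ∈ D.Xf f, pr (i0μ D.k p) (fun ω => x ∈ Y.S ω ∧ f ∉ Y.Vs ω x) ≤ _
      have h1 : ∀ x ∈ D.Xf f, pr (i0μ D.k p) (fun ω => x ∈ Y.S ω ∧ f ∉ Y.Vs ω x) = 0 :=
        fun x _ => hempty _ fun ω h => absurd h.1 (notMem_empty _)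
      rw [sum_congr rfl h1]
      simp
    · intro x _
      have h1 : pr (i0μ D.k p) (fun ω => x ∈ Y.act ω) = 0 :=
        hempty _ fun ω h => absurd h (notMem_empty _)
      show pr (i0μ D.k p) (fun ω => x ∈ Y.act ω) ≤ _
      rw [h1]
      simp
  · refine ⟨
      { ι := M
        α := i0α D.k
        wt := i0wt D.k hk p hp0 hp1
        e := Equiv.refl _
        loc := Sum.inr
        one := fun _ _ => False
        one_not := fun f => ⟨(true, ⟨0, hk f⟩, ⟨0, hk f⟩), not_false⟩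
        he := fun ω => rfl
        act_iff := ?_
        loc_card := ?_
        loc_P := ?_
        loc_S := ?_ }⟩
    · intro ω x
      exact ⟨fun h => absurd h (notMem_empty _), fun ⟨_, _, h⟩ => h.elim⟩
    · intro l
      rw [card_le_one]
      intro a ha b hb
      exact Sum.inr_injective ((mem_filter.1 ha).2.trans (mem_filter.1 hb).2.symm)
    · intro ω ω' i h f hf
      have hne : f ≠ i := fun h' => hf (by rw [h'])
      have h1 : ω f = ω' f := h f hne
      constructor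
      · show f ∈ univ.filter (fun f => (ω f).1 = true) ↔ f ∈ univ.filter (fun f => (ω' f).1 = true)
        rw [mem_filter, mem_filter, h1]
      · show (((ω f).2.1 : ℕ), ((ω f).2.2 : ℕ)) = (((ω' f).2.1 : ℕ), ((ω' f).2.2 : ℕ))
        rw [h1]
    · intro ω ω' i _ x hx
      exact absurd ⟨Iff.rfl, fun _ => rfl⟩ hx

end Pool.Agent.Lib.H93D
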