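import Pool.Agent.Lib.H93D.O6

/-!
# H93D, J1: the input of the step

See `H93B/PROOF.md`, section 3.
-/

set_option autoImplicit false

open Finset
open scoped Classical

namespace Pool.Agent.Lib.H93D

open Pool.Agent.Lib.H93A

variable {Q R M : Type} [Fintype Q] [Fintype R] [Fintype M] {D : Win Q R M} {Ω : Type} [Fintype Ω]

/-- The input of the step exists: `J x = {j ∈ idx x | Gd at the cell ∧ ρ p/k² ≤ P(open)}` (`∅` off `X`),
`w x = (g p/N)/∏_(j ∈ J x) P(open)` for `x ∈ X`, `0` otherwise; `s = g/ρ^b`, `ρ = d^T/16 ≤ 1`.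
`w_le`: `∏ P(open) ≥ ∏ ρ p/k²` and `ρ^|J| ≥ ρ^b`. `w_le_one`: from `w_le`, `k²/p ≤ kmax²/p` (and `≥ 1`),
`p ≤ 1` and `hw`. `exc`: `lab_inj`: if `lab x j = f`, `j ∈ idx x`, `j ∉ J x` then `x` is exceptional at
`f`; `card_exc_le`. -/
theorem exists_stepIn {kmax : ℕ} {K θ1 ε η d p κ κ' δ σl σu ξ Ca e' g : ℝ}
    (hD : WinHyp D kmax K θ1 ε η d) {Y : Sys D Ω} (hY : SysHyp Y p κ' δ σl σu ξ Ca)
    (hκ : κ' ≤ κ) (hκ0 : 0 ≤ κ) (hδ : δ ≤ 1 / 2) (hε : 0 < ε) (hd : 0 < d) (hd1 : d ≤ 1) (T : ℕ)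
    (hT : 1 ≤ T) (he : ε ≤ d ^ T * e') (he0 : 0 < e')
    (hεT : 8 * (T : ℝ) ^ 2 * ε * (64 * K ^ 2 * κ + 1) ^ T ≤ 1) (hσ : 0 ≤ σu)
    (hT2 : 512 * K ^ 2 * σu ≤ T) (hN : 256 * K * κ * kmax ≤ d ^ T * Real.sqrt D.N)
    (hg : 0 < g) (hkm : 1 ≤ kmax)
    (hw : g / (d ^ T / 16) ^ D.b * (kmax : ℝ) ^ (2 * D.b) ≤ D.N * p ^ D.b) :
    ∃ (J : Q × R → Finset (Fin D.b)) (w : Q × R → ℝ),
      StepIn Y T J w p (g / (d ^ T / 16) ^ D.b) g ((16 * e' + η) * (D.m : ℝ) ^ 2) := by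
  have hb1 : 1 ≤ D.b := hD.b_pos
  have hp := hY.p_pos
  have hp1 := hY.p_le
  have hN1 := hD.N_pos
  have hN0 : (0 : ℝ) < D.N := by linarith
  have hkm1 : (1 : ℝ) ≤ kmax := by exact_mod_cast hkm
  obtain ⟨ρ, hρ⟩ : ∃ ρ : ℝ, ρ = d ^ T / 16 := ⟨_, rfl⟩
  have hρ0 : 0 < ρ := by rw [hρ]; positivity
  have hρ1 : ρ ≤ 1 := by
    rw [hρ]
    have : d ^ T ≤ 1 := pow_le_one₀ hd.le hd1
    linarith
  rw [← hρ] at hw ⊢
  obtain ⟨po, hpo⟩ : ∃ po : Q × R → Fin D.b → ℝ, po = fun x j => pr Y.μ (Opn Y T x (D.lab x j)) :=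
    ⟨_, rfl⟩
  obtain ⟨J, hJ⟩ : ∃ J : Q × R → Finset (Fin D.b), J = fun x => (D.idx x).filter fun j =>
      D.Gd (D.lab x j) (D.iA (D.lab x j) x.1) (D.iB (D.lab x j) x.2) ∧
        ρ * (p / (D.k (D.lab x j) : ℝ) ^ 2) ≤ po x j := ⟨_, rfl⟩
  obtain ⟨w, hw'⟩ : ∃ w : Q × R → ℝ, w = fun x => if x ∈ D.X then
      (g * p / D.N) / ∏ j ∈ J x, po x j else 0 := ⟨_, rfl⟩
  have hk1 : ∀ f, (1 : ℝ) ≤ D.k f := fun f => by exact_mod_cast hD.k_pos f
  have hkp : ∀ f, 0 < p / (D.k f : ℝ) ^ 2 := fun f => by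
    have := hk1 f
    positivity
  have hpoJ : ∀ x, ∀ j ∈ J x, ρ * (p / (D.k (D.lab x j) : ℝ) ^ 2) ≤ po x j := by
    intro x j hj
    rw [hJ] at hj
    exact (Finset.mem_filter.1 hj).2.2
  have hpoJ0 : ∀ x, ∀ j ∈ J x, 0 < po x j := fun x j hj =>
    lt_of_lt_of_le (mul_pos hρ0 (hkp _)) (hpoJ x j hj)
  have hprod0 : ∀ x, 0 < ∏ j ∈ J x, po x j := fun x => Finset.prod_pos (hpoJ0 x)
  have hprodk0 : ∀ x, 0 < ∏ j ∈ J x, ((D.k (D.lab x j) : ℝ) ^ 2 / p) := fun x =>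
    Finset.prod_pos fun j _ => by
      have := hk1 (D.lab x j)
      positivity
  have hprod : ∀ x, ρ ^ D.b ≤ (∏ j ∈ J x, po x j) * ∏ j ∈ J x, ((D.k (D.lab x j) : ℝ) ^ 2 / p) := by
    intro x
    rw [← Finset.prod_mul_distrib]
    calc ρ ^ D.b ≤ ρ ^ (J x).card := by
          refine pow_le_pow_of_le_one hρ0.le hρ1 ?_
          exact (Finset.card_le_univ _).trans (by simp)
      _ = ∏ _j ∈ J x, ρ := by rw [Finset.prod_const]
      _ ≤ ∏ j ∈ J x, po x j * ((D.k (D.lab x j) : ℝ) ^ 2 / p) := by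
          refine Finset.prod_le_prod (fun _ _ => hρ0.le) fun j hj => ?_
          have h1 := hk1 (D.lab x j)
          have h2 := mul_le_mul_of_nonneg_right (hpoJ x j hj)
            (show 0 ≤ (D.k (D.lab x j) : ℝ) ^ 2 / p by positivity)
          refine le_trans (le_of_eq ?_) h2
          field_simp
  have hwle : ∀ x ∈ D.X, w x ≤ (g / ρ ^ D.b * p / D.N) *
      ∏ j ∈ J x, ((D.k (D.lab x j) : ℝ) ^ 2 / p) := by
    intro x hx
    rw [hw']
    simp only [hx, if_true]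
    rw [div_le_iff₀ (hprod0 x)]
    have h1 := hprod x
    have h2 : (g * p / D.N) = (g / ρ ^ D.b * p / D.N) * ρ ^ D.b := by field_simp
    rw [h2]
    have h3 := mul_le_mul_of_nonneg_left h1 (show 0 ≤ g / ρ ^ D.b * p / D.N by positivity)
    linarith
  have hprodk : ∀ x, ∏ j ∈ J x, ((D.k (D.lab x j) : ℝ) ^ 2 / p) ≤ ((kmax : ℝ) ^ 2 / p) ^ D.b := by
    intro x
    have hq1 : 1 ≤ (kmax : ℝ) ^ 2 / p := by
      rw [le_div_iff₀ hp]
      nlinarith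
    calc ∏ j ∈ J x, ((D.k (D.lab x j) : ℝ) ^ 2 / p) ≤ ∏ _j ∈ J x, ((kmax : ℝ) ^ 2 / p) := by
          refine Finset.prod_le_prod (fun j _ => by positivity) fun j _ => ?_
          have h1 : (D.k (D.lab x j) : ℝ) ≤ kmax := by exact_mod_cast hD.k_le _
          have h2 : (D.k (D.lab x j) : ℝ) ^ 2 ≤ (kmax : ℝ) ^ 2 :=
            pow_le_pow_left₀ (by positivity) h1 2
          exact div_le_div_of_nonneg_right h2 hp.le
      _ = ((kmax : ℝ) ^ 2 / p) ^ (J x).card := by rw [Finset.prod_const]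
      _ ≤ ((kmax : ℝ) ^ 2 / p) ^ D.b :=
          pow_le_pow_right₀ hq1 ((Finset.card_le_univ _).trans (by simp))
  refine ⟨J, w, ?_⟩
  refine
    { s_nonneg := by positivity
      g_nonneg := hg.le
      J_sub := ?_
      w_nonneg := ?_
      w_le_one := ?_
      w_off := ?_
      w_le := hwle
      w_eq := ?_
      exc := ?_ }
  · intro x _
    rw [hJ]
    exact Finset.filter_subset _ _
  · intro x
    rw [hw']
    by_cases hx : x ∈ D.X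
    · simp only [hx, if_true]
      have := hprod0 x
      positivity
    · simp [hx]
  · intro x
    by_cases hx : x ∈ D.X
    · refine (hwle x hx).trans ?_
      have h1 : (g / ρ ^ D.b * p / D.N) * ∏ j ∈ J x, ((D.k (D.lab x j) : ℝ) ^ 2 / p) ≤
          (g / ρ ^ D.b * p / D.N) * ((kmax : ℝ) ^ 2 / p) ^ D.b :=
        mul_le_mul_of_nonneg_left (hprodk x) (by positivity)
      refine h1.trans ?_
      have h2 : (g / ρ ^ D.b * p / D.N) * ((kmax : ℝ) ^ 2 / p) ^ D.b =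
          p * (g / ρ ^ D.b * (kmax : ℝ) ^ (2 * D.b)) / (D.N * p ^ D.b) := by
        rw [div_pow, ← pow_mul]
        field_simp
      rw [h2, div_le_one (by positivity)]
      have h3 : 0 ≤ g / ρ ^ D.b * (kmax : ℝ) ^ (2 * D.b) := by positivity
      nlinarith
    · rw [hw']
      simp [hx]
  · intro x hx
    rw [hw']
    simp [hx]
  · intro x hx
    rw [hw']
    simp only [hx, if_true]
    have h1 := (hprod0 x).ne'
    have h2 : ∏ j ∈ J x, pr Y.μ (Opn Y T x (D.lab x j)) = ∏ j ∈ J x, po x j := by rw [hpo]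
    rw [h2]
    field_simp
  · intro f
    refine le_trans ?_ (card_exc_le hD hY hκ hκ0 hδ hε hd hd1 T hT he he0 hεT hσ hT2 hN f)
    have hsub : ((D.Xf f).filter fun x => ∃ j ∈ D.idx x, D.lab x j = f ∧ j ∉ J x) ⊆
        ((D.Xf f).filter fun x => ¬ (D.Gd f (D.iA f x.1) (D.iB f x.2) ∧
        (d ^ T / 16) * (p / (D.k f : ℝ) ^ 2) ≤ pr Y.μ (Opn Y T x f))) := by
      intro x hx
      rw [Finset.mem_filter] at hx ⊢
      obtain ⟨hx1, j, hj1, hj2, hj3⟩ := hx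
      refine ⟨hx1, fun h => hj3 ?_⟩
      rw [hJ, Finset.mem_filter, hj2, hρ]
      have hpox : po x j = pr Y.μ (Opn Y T x f) := by rw [hpo, ← hj2]
      rw [hpox]
      exact ⟨hj1, h⟩
    exact_mod_cast Finset.card_le_card hsub

end Pool.Agent.Lib.H93D
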