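import Pool.Agent.Lib.H93D.L2

/-!
# H93D, L3: coordinates of the step

See `H93B/PROOF.md`, section 3.
-/

set_option autoImplicit false

open Finset
open scoped Classical

namespace Pool.Agent.Lib.H93D

open Pool.Agent.Lib.H93A

open Pool.Agent.Lib.Prob48 (Weights)

variable {Q R M : Type} [Fintype Q] [Fintype R] [Fintype M] {D : Win Q R M} {Ω : Type} [Fintype Ω]
  {Y : Sys D Ω} {T : ℕ} {J : Q × R → Finset (Fin D.b)} {w : Q × R → ℝ}

/-- value types of the coordinates of the step -/
abbrev L3α (b : ℕ) {ι : Type} (α : ι → Type) (X : Type) : (Fin b × ι) ⊕ X → Type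
  | Sum.inl p => α p.2
  | Sum.inr _ => Bool

instance l3_fintype (b : ℕ) {ι : Type} (α : ι → Type) [∀ i, Fintype (α i)] (X : Type) :
    ∀ i, Fintype (L3α b α X i)
  | Sum.inl p => (inferInstance : Fintype (α p.2))
  | Sum.inr _ => (inferInstance : Fintype Bool)

/-- weights -/
noncomputable def l3W (b : ℕ) {ι : Type} [Fintype ι] [DecidableEq ι] {α : ι → Type}
    [∀ i, Fintype (α i)] {X : Type} (wt : Weights α) (w : X → ℝ) (h0 : ∀ x, 0 ≤ w x)
    (h1 : ∀ x, w x ≤ 1) : Weights (L3α b α X) where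
  w := fun i => match i with
    | Sum.inl p => wt.w p.2
    | Sum.inr x => fun c : Bool => if c = true then w x else 1 - w x
  nonneg := by
    rintro (p | x) a
    · exact wt.nonneg p.2 a
    · show 0 ≤ if a = true then w x else 1 - w x
      split_ifs
      · exact h0 x
      · linarith [h1 x]
  sum_one := by
    rintro (p | x)
    · exact wt.sum_one p.2
    · show ∑ c : Bool, (if c = true then w x else 1 - w x) = 1
      rw [Fintype.sum_bool]
      simp

/-- the equivalence -/
def l3E (b : ℕ) {ι : Type} {α : ι → Type} {X Ω : Type} (e : Ω ≃ (∀ i, α i)) :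
    ((Fin b → Ω) × (X → Bool)) ≃ (∀ i, L3α b α X i) where
  toFun z := fun i => match i with
    | Sum.inl p => e (z.1 p.1) p.2
    | Sum.inr x => z.2 x
  invFun y := (fun j => e.symm fun i => y (Sum.inl (j, i)), fun x => y (Sum.inr x))
  left_inv := by
    rintro ⟨z1, z2⟩
    refine Prod.ext ?_ rfl
    funext j
    exact e.symm_apply_apply (z1 j)
  right_inv := by
    intro y
    funext i
    rcases i with ⟨j, i⟩ | x
    · show e (e.symm fun i => y (Sum.inl (j, i))) i = y (Sum.inl (j, i))
      rw [e.apply_symm_apply]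
    · rfl

/-- a family of choices -/
theorem l3_C_congr {z z' : StepΩ D Ω} {f : M}
    (h : ∀ j, (f ∈ Y.P (z.1 j) ↔ f ∈ Y.P (z'.1 j)) ∧ Y.C (z.1 j) f = Y.C (z'.1 j) f) :
    (f ∈ stepP Y z ↔ f ∈ stepP Y z') ∧ stepC Y z f = stepC Y z' f := by
  constructor
  · unfold stepP
    simp only [Finset.mem_biUnion, Finset.mem_univ, true_and]
    exact exists_congr fun j => (h j).1
  · have e : (fun j => f ∈ Y.P (z.1 j)) = fun j => f ∈ Y.P (z'.1 j) := by
      funext j
      exact propext (h j).1
    unfold stepC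
    by_cases h1 : ∃ j, f ∈ Y.P (z.1 j)
    · have h2 : ∃ j, f ∈ Y.P (z'.1 j) := by
        obtain ⟨j, hj⟩ := h1
        exact ⟨j, (h j).1.1 hj⟩
      rw [dif_pos h1, dif_pos h2]
      have h3 : h1.choose = h2.choose := l2_choose e h1 h2
      rw [← h3]
      exact (h _).2
    · have h2 : ¬ ∃ j, f ∈ Y.P (z'.1 j) := by
        rintro ⟨j, hj⟩
        exact h1 ⟨j, (h j).1.2 hj⟩
      rw [dif_neg h1, dif_neg h2]

theorem l3_same_refl (ω : Ω) (x : Q × R) : Same Y ω ω x := ⟨Iff.rfl, fun _ => rfl⟩

/-- location of a coordinate -/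
def l3Loc (b : ℕ) {ι : Type} (loc : ι → (Q × R) ⊕ M) : (Fin b × ι) ⊕ (Q × R) → (Q × R) ⊕ M
  | Sum.inl p => loc p.2
  | Sum.inr x => Sum.inl x

theorem l3_loc_card (b nc : ℕ) {ι : Type} [Fintype ι] [DecidableEq ι] (loc : ι → (Q × R) ⊕ M)
    (h : ∀ l, (univ.filter fun i => loc i = l).card ≤ nc) (l : (Q × R) ⊕ M) :
    (univ.filter fun i => l3Loc b loc i = l).card ≤ b * nc + 1 := by
  have h1 : (univ.filter fun i => l3Loc b loc i = l) ⊆
      ((univ : Finset (Fin b)) ×ˢ (univ.filter fun i => loc i = l)).image Sum.inl ∪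
        (univ.filter fun x : Q × R => (Sum.inl x : (Q × R) ⊕ M) = l).image Sum.inr := by
    intro i hi
    rw [Finset.mem_filter] at hi
    rcases i with ⟨j, i⟩ | x
    · refine Finset.mem_union_left _ (Finset.mem_image.2 ⟨(j, i), ?_, rfl⟩)
      exact Finset.mem_product.2 ⟨Finset.mem_univ _, Finset.mem_filter.2 ⟨Finset.mem_univ _, hi.2⟩⟩
    · refine Finset.mem_union_right _ (Finset.mem_image.2 ⟨x, ?_, rfl⟩)
      exact Finset.mem_filter.2 ⟨Finset.mem_univ _, hi.2⟩
  have h2 : (univ.filter fun x : Q × R => (Sum.inl x : (Q × R) ⊕ M) = l).card ≤ 1 := by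
    rw [Finset.card_le_one]
    intro x hx y hy
    exact Sum.inl_injective ((Finset.mem_filter.1 hx).2.trans (Finset.mem_filter.1 hy).2.symm)
  calc (univ.filter fun i => l3Loc b loc i = l).card
      ≤ _ := Finset.card_le_card h1
    _ ≤ _ := Finset.card_union_le _ _
    _ ≤ ((univ : Finset (Fin b)) ×ˢ (univ.filter fun i => loc i = l)).card +
        (univ.filter fun x : Q × R => (Sum.inl x : (Q × R) ⊕ M) = l).card :=
        add_le_add Finset.card_image_le Finset.card_image_le
    _ ≤ b * nc + 1 := by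
        refine add_le_add ?_ h2
        rw [Finset.card_product, Finset.card_univ, Fintype.card_fin]
        exact Nat.mul_le_mul_left _ (h l)

/-- Coordinates of the step: `ι' = (Fin b × ι) ⊕ (Q × R)`, `α' (inl (j, i)) = α i`, `α' (inr x) = Bool` with
weights `w x`, `1 - w x`; `loc' (inl (j, i)) = loc i`, `loc' (inr x) = inl x`;
`one' (inr x) c ↔ c = true ∧ x ∈ D.X`.
`loc_P'`: `stepP`, `stepC` at `f` depend only on `(P^j, C^j)` at `f`. `loc_S'`: `step_local` with `l` = the
location of the changed coordinate (if it is `inl (j, i)` the other copies and `z.2` are equal). -/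
theorem step_coord {p κ δ σl σu ξ Ca s g E : ℝ} (hY : SysHyp Y p κ δ σl σu ξ Ca)
    (hI : StepIn Y T J w p s g E) {nc d : ℕ} (hC : Nonempty (Coord Y nc d)) :
    Nonempty (Coord (stepSys Y T J w) (D.b * nc + 1) (d + 2)) := by
  obtain ⟨C⟩ := hC
  have key : ∀ (z z' : StepΩ D Ω) (i : (Fin D.b × C.ι) ⊕ (Q × R)),
      (∀ i', i' ≠ i → l3E D.b C.e z i' = l3E D.b C.e z' i') →
      (∀ j f, l3Loc D.b C.loc i ≠ Sum.inr f →
        (f ∈ Y.P (z.1 j) ↔ f ∈ Y.P (z'.1 j)) ∧ Y.C (z.1 j) f = Y.C (z'.1 j) f) ∧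
      (∀ x, l3Loc D.b C.loc i ≠ Sum.inl x → z.2 x = z'.2 x) ∧
      ∀ j x, ¬ Same Y (z.1 j) (z'.1 j) x →
        Reach D.adj (D.near (l3Loc D.b C.loc i)) (stepAct Y z ∪ stepAct Y z') d x := by
    intro z z' i h
    rcases i with ⟨j0, i0⟩ | x0
    · have h1 : ∀ j, j ≠ j0 → z.1 j = z'.1 j := by
        intro j hj
        apply C.e.injective
        funext i
        exact h (Sum.inl (j, i)) (fun h' => hj (congrArg Prod.fst (Sum.inl_injective h')))
      have h2 : ∀ i', i' ≠ i0 → C.e (z.1 j0) i' = C.e (z'.1 j0) i' := by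
        intro i' hi'
        exact h (Sum.inl (j0, i')) (fun h' => hi' (congrArg Prod.snd (Sum.inl_injective h')))
      refine ⟨fun j f hf => ?_, fun x _ => h (Sum.inr x) (by simp), fun j x hx => ?_⟩
      · by_cases hj : j = j0
        · subst hj
          exact C.loc_P _ _ i0 h2 f hf
        · rw [h1 j hj]
          exact ⟨Iff.rfl, rfl⟩
      · by_cases hj : j = j0
        · subst hj
          refine (C.loc_S _ _ i0 h2 x hx).mono (fun _ _ h => h) (fun _ h => h) ?_
          intro y hy
          rcases Finset.mem_union.1 hy with hy | hy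
          · exact Finset.mem_union_left _ (Finset.mem_union_right _
              (Finset.mem_biUnion.2 ⟨j, Finset.mem_univ _, hy⟩))
          · exact Finset.mem_union_right _ (Finset.mem_union_right _
              (Finset.mem_biUnion.2 ⟨j, Finset.mem_univ _, hy⟩))
        · rw [h1 j hj] at hx
          exact absurd (l3_same_refl _ x) hx
    · have h1 : ∀ j, z.1 j = z'.1 j := by
        intro j
        apply C.e.injective
        funext i
        exact h (Sum.inl (j, i)) (by simp)
      refine ⟨fun j f _ => ?_, fun x hx => ?_, fun j x hx => ?_⟩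
      · rw [h1 j]
        exact ⟨Iff.rfl, rfl⟩
      · refine h (Sum.inr x) fun h' => hx ?_
        show (Sum.inl x0 : (Q × R) ⊕ M) = Sum.inl x
        rw [Sum.inr_injective h']
      · rw [h1 j] at hx
        exact absurd (l3_same_refl _ x) hx
  refine ⟨{
    ι := (Fin D.b × C.ι) ⊕ (Q × R)
    fι := inferInstance
    dι := Classical.decEq _
    α := L3α D.b C.α (Q × R)
    fα := l3_fintype D.b C.α (Q × R)
    wt := l3W D.b C.wt w hI.w_nonneg hI.w_le_one
    e := l3E D.b C.e
    loc := l3Loc D.b C.loc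
    one := fun i => match i with
      | Sum.inl p => C.one p.2
      | Sum.inr x => fun c : Bool => c = true ∧ x ∈ D.X
    one_not := ?_
    he := ?_
    act_iff := ?_
    loc_card := ?_
    loc_P := ?_
    loc_S := ?_ }⟩
  · rintro (p | x)
    · exact C.one_not p.2
    · exact ⟨false, fun h => Bool.false_ne_true h.1⟩
  · intro z
    have hR : (l3W D.b C.wt w hI.w_nonneg hI.w_le_one).pw (l3E D.b C.e z) =
        (∏ p : Fin D.b × C.ι, C.wt.w p.2 (C.e (z.1 p.1) p.2)) *
          ∏ x : Q × R, (if z.2 x = true then w x else 1 - w x) := by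
      unfold Weights.pw
      exact Fintype.prod_sum_type _
    show stepMeasure D.b Y.μ w z = _
    rw [hR, Fintype.prod_prod_type]
    unfold stepMeasure
    congr 1
    refine Finset.prod_congr rfl fun j _ => ?_
    rw [C.he]
    rfl
  · intro z x
    show x ∈ stepAct Y z ↔ _
    unfold stepAct
    simp only [Finset.mem_union, Finset.mem_filter, Finset.mem_biUnion, Finset.mem_univ, true_and]
    constructor
    · rintro (⟨hX, hz⟩ | ⟨j, hj⟩)
      · exact ⟨Sum.inr x, rfl, hz, hX⟩
      · obtain ⟨i, hi1, hi2⟩ := (C.act_iff _ _).1 hj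
        exact ⟨Sum.inl (j, i), hi1, hi2⟩
    · rintro ⟨i, hi1, hi2⟩
      rcases i with ⟨j, i⟩ | y
      · exact Or.inr ⟨j, (C.act_iff _ _).2 ⟨i, hi1, hi2⟩⟩
      · have hxy : y = x := Sum.inl_injective hi1
        subst hxy
        exact Or.inl ⟨hi2.2, hi2.1⟩
  · intro l
    exact l3_loc_card D.b nc C.loc C.loc_card l
  · intro z z' i h f hf
    exact l3_C_congr fun j => (key z z' i h).1 j f hf
  · intro z z' i h x hx
    obtain ⟨h1, h2, h3⟩ := key z z' i h
    exact step_local hY hI h2 h1 h3 x hx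

end Pool.Agent.Lib.H93D
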