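import Pool.Agent.Lib.H93D.T5
import Pool.Agent.Lib.H93D.J1
import Pool.Agent.Lib.H93D.L3
import Pool.Agent.Lib.H93D.I0

/-!
# H93D, IT: the iteration

See `H93B/PROOF.md`, section 3.
-/

set_option autoImplicit false

open Finset
open scoped Classical

namespace Pool.Agent.Lib.H93D

open Pool.Agent.Lib.H93A

variable {Q R M : Type} [Fintype Q] [Fintype R] [Fintype M] {D : Win Q R M}

/-- number of coordinates per location -/
def ncf (b : ℕ) : ℕ → ℕ
  | 0 => 1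
  | l + 1 => b * ncf b l + 1

/-- activity -/
noncomputable def caf (b : ℕ) (W : ℝ) : ℕ → ℝ
  | 0 => 0
  | l + 1 => b * caf b W l + W

theorem it_mono {Ω : Type} [Fintype Ω] {Y : Sys D Ω} {p κ δ σl σu ξ Ca δ' ξ' : ℝ}
    (h : SysHyp Y p κ δ σl σu ξ Ca) (hδ : δ ≤ δ') (hξ : ξ ≤ ξ') :
    SysHyp Y p κ δ' σl σu ξ' Ca := by
  refine ⟨h.prob, h.p_pos, h.p_le, h.κ_nonneg, h.S_act, h.act_sub, h.Vs_sub, h.C_lt, h.s1, h.s1',
    h.s2p, ?_, h.ss, h.s4, h.s5, h.s6l, h.s6u, ?_, h.sa⟩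
  · intro f c h1 h2
    refine le_trans ?_ (h.s2l f c h1 h2)
    have := h.p_pos
    exact mul_le_mul_of_nonneg_right (by linarith) (by positivity)
  · intro f
    exact (h.s7 f).trans (mul_le_mul_of_nonneg_right hξ h.p_pos.le)

/-- The iteration: level `l ≤ L`. Induction on `l`: `exists_init`; `exists_stepIn` (with `κ = L s`,
`E = (16 e' + η) m²`, `s = g/ρ^b`, `ρ = d^T/16`), `step`, `step_coord`. `p_l = b^l p0`,
`δ_l ≤ l b^L p0 ≤ 1/2` (increase `δ` to this value; `s2l` is monotone in `δ`), `m² ≤ 4 K² N` for `ξ`. -/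
theorem iterate {kmax : ℕ} {K θ1 ε η d e' g p0 : ℝ} {T L : ℕ} (hD : WinHyp D kmax K θ1 ε η d)
    (hε : 0 < ε) (hη : 0 ≤ η) (hd : 0 < d) (hd1 : d ≤ 1) (hT : 1 ≤ T) (he : ε ≤ d ^ T * e') (he0 : 0 < e')
    (hg : 0 < g) (hp0 : 0 < p0) (hkm : 1 ≤ kmax)
    (hpL : (D.b : ℝ) ^ L * p0 ≤ 1) (hδ : (L : ℝ) * ((D.b : ℝ) ^ L * p0) ≤ 1 / 2)
    (hεT : 8 * (T : ℝ) ^ 2 * ε * (64 * K ^ 2 * (L * (g / (d ^ T / 16) ^ D.b)) + 1) ^ T ≤ 1)
    (hT2 : 512 * K ^ 2 * (L * g / D.b) ≤ T)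
    (hN : 256 * K * (L * (g / (d ^ T / 16) ^ D.b)) * kmax ≤ d ^ T * Real.sqrt D.N)
    (hw : g / (d ^ T / 16) ^ D.b * (kmax : ℝ) ^ (2 * D.b) ≤ D.N * p0 ^ D.b)
    (hθ0 : 0 ≤ θ1) (hθ : θ1 * ((D.b : ℝ) ^ 2 * (kmax : ℝ) ^ (2 * D.b)) ≤ p0 ^ D.b)
    (h1 : 64 * K ^ 2 * D.b * (g / (d ^ T / 16) ^ D.b) ^ 2 ≤ g / 8)
    (h2 : 20 * K ^ 2 * (D.b : ℝ) ^ 3 * (L * (g / (d ^ T / 16) ^ D.b) + 1) ^ 2 *
      ((D.b : ℝ) ^ L * p0) ≤ g / 8) (l : ℕ) (hl : l ≤ L) :
    ∃ (Ω : Type) (_ : Fintype Ω) (Y : Sys D Ω),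
      SysHyp Y ((D.b : ℝ) ^ l * p0) (l * (g / (d ^ T / 16) ^ D.b)) (l * ((D.b : ℝ) ^ L * p0))
        (l * (3 / 4 * g / D.b)) (l * (g / D.b)) (l * ((16 * e' + η) * (4 * K ^ 2) * g / D.b))
        (caf D.b (g / (d ^ T / 16) ^ D.b * ((kmax : ℝ) ^ 2 / p0) ^ D.b) l) ∧
      Nonempty (Coord Y (ncf D.b l) (2 * l)) := by
  have hb1 : (1 : ℝ) ≤ D.b := by exact_mod_cast hD.b_pos
  have hb0 : (0 : ℝ) < D.b := by linarith
  have hK := hD.hK
  have hN1 := hD.N_pos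
  have hbL : (1 : ℝ) ≤ (D.b : ℝ) ^ L := one_le_pow₀ hb1
  have hp01 : p0 ≤ 1 := by nlinarith
  have hρ : 0 < (d ^ T / 16) ^ D.b := by positivity
  set s : ℝ := g / (d ^ T / 16) ^ D.b with hs
  have hs0 : 0 < s := by positivity
  induction l with
  | zero =>
    obtain ⟨Ω, iΩ, Y, hY, hC⟩ := exists_init hD hp0 hp01
    refine ⟨Ω, iΩ, Y, ?_, ?_⟩
    · simpa [caf] using hY
    · simpa [ncf] using hC
  | succ l ih =>
    obtain ⟨Ω, iΩ, Y, hY, hC⟩ := ih (by omega)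
    have hlL : (l : ℝ) + 1 ≤ L := by exact_mod_cast hl
    have hl0 : (0 : ℝ) ≤ l := by positivity
    have hbl : (1 : ℝ) ≤ (D.b : ℝ) ^ l := one_le_pow₀ hb1
    have hblL : (D.b : ℝ) ^ (l + 1) ≤ (D.b : ℝ) ^ L := pow_le_pow_right₀ hb1 (by omega)
    have hblL' : (D.b : ℝ) ^ l ≤ (D.b : ℝ) ^ L := pow_le_pow_right₀ hb1 (by omega)
    set q : ℝ := (D.b : ℝ) ^ L * p0 with hq
    have hq0 : 0 < q := by positivity
    set p : ℝ := (D.b : ℝ) ^ l * p0 with hp
    have hpp0 : p0 ≤ p := by rw [hp]; nlinarith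
    have hpq : p ≤ q := mul_le_mul_of_nonneg_right hblL' hp0.le
    have hbpq : D.b * p ≤ q := by
      have : D.b * p = (D.b : ℝ) ^ (l + 1) * p0 := by rw [hp, pow_succ]; ring
      rw [this]
      exact mul_le_mul_of_nonneg_right hblL hp0.le
    have hlq : (l : ℝ) * q ≤ 1 / 2 := by
      have : (l : ℝ) * q ≤ L * q := mul_le_mul_of_nonneg_right (by linarith) hq0.le
      linarith
    have hgb : 0 < g / D.b := by positivity
    obtain ⟨J, w, hI⟩ := exists_stepIn (κ := L * s) (e' := e') (g := g) (T := T) hD hY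
      (mul_le_mul_of_nonneg_right (by linarith) hs0.le) (by positivity) hlq hε hd hd1 hT he he0
      hεT (by positivity)
      (by
        refine le_trans ?_ hT2
        have h3 : (l : ℝ) * (g / D.b) ≤ L * g / D.b := by
          rw [mul_div_assoc]
          exact mul_le_mul_of_nonneg_right (by linarith) hgb.le
        exact mul_le_mul_of_nonneg_left h3 (by positivity))
      hN hg hkm
      (by
        refine hw.trans ?_
        exact mul_le_mul_of_nonneg_left (pow_le_pow_left₀ hp0.le hpp0 _) (by linarith))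
    have hstep := step (κ' := L * s) (p0 := p0) hD hY hI hθ0
      (hθ.trans (pow_le_pow_left₀ hp0.le hpp0 _))
      (mul_le_mul_of_nonneg_right (by linarith) hs0.le)
      (by nlinarith) h1
      (by
        refine le_trans ?_ h2
        exact mul_le_mul_of_nonneg_left hpq (by positivity))
      (by positivity) (by linarith) (by linarith) hkm hp0 hpp0
    refine ⟨_, inferInstance, stepSys Y T J w, ?_, ?_⟩
    · have h4 := it_mono (δ' := ((l + 1 : ℕ) : ℝ) * q)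
        (ξ' := ((l + 1 : ℕ) : ℝ) * ((16 * e' + η) * (4 * K ^ 2) * g / D.b)) hstep
        (by push_cast; linarith)
        (by
          push_cast
          have hm := hD.m_sq
          have h5 : (16 * e' + η) * (D.m : ℝ) ^ 2 * g / (D.b * D.N) ≤
              (16 * e' + η) * (4 * K ^ 2) * g / D.b := by
            rw [div_le_div_iff₀ (by positivity) hb0]
            have h6 : (16 * e' + η) * (D.m : ℝ) ^ 2 ≤ (16 * e' + η) * (4 * K ^ 2 * D.N) :=
              mul_le_mul_of_nonneg_left hm (by positivity)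
            have h7 := mul_le_mul_of_nonneg_right h6 (show 0 ≤ g * D.b by positivity)
            nlinarith
          linarith)
      have e1 : (D.b : ℝ) * p = (D.b : ℝ) ^ (l + 1) * p0 := by rw [hp, pow_succ]; ring
      have e2 : (l : ℝ) * s + s = ((l + 1 : ℕ) : ℝ) * s := by push_cast; ring
      have e3 : (l : ℝ) * (3 / 4 * g / D.b) + 3 / 4 * g / D.b =
          ((l + 1 : ℕ) : ℝ) * (3 / 4 * g / D.b) := by push_cast; ring
      have e4 : (l : ℝ) * (g / D.b) + g / D.b = ((l + 1 : ℕ) : ℝ) * (g / D.b) := by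
        push_cast; ring
      rw [e1, e2, e3, e4] at h4
      exact h4
    · have := step_coord hY hI hC
      have e5 : 2 * (l + 1) = 2 * l + 2 := by ring
      rw [e5]
      exact this

end Pool.Agent.Lib.H93D
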