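import Pool.Agent.Lib.H93D.LDefs

/-!
# H93D, L1: locality of the step (abstract)

See `H93B/PROOF.md`, section 3.
-/

set_option autoImplicit false

open Finset
open scoped Classical

namespace Pool.Agent.Lib.H93D

open Pool.Agent.Lib.H93A

variable {Q R M : Type} [Fintype Q] [Fintype R] [Fintype M] {D : Win Q R M} {Ω : Type} [Fintype Ω]
  {Y : Sys D Ω} {T : ℕ} {J : Q × R → Finset (Fin D.b)} {w : Q × R → ℝ}

/-- Openness changes only if the label changes or the status of some `y` with `f ∈ V y` changes. -/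
theorem opn_congr {p κ δ σl σu ξ Ca : ℝ} (hY : SysHyp Y p κ δ σl σu ξ Ca) {ω ω' : Ω} {x : Q × R} {f : M}
    (hP : (f ∈ Y.P ω ↔ f ∈ Y.P ω') ∧ Y.C ω f = Y.C ω' f)
    (hS : ∀ y, y ∈ Y.act ω ∪ Y.act ω' → f ∈ D.V y → Same Y ω ω' y) :
    Opn Y T x f ω ↔ Opn Y T x f ω' := by
  have hh : hist Y ω f = hist Y ω' f := by
    ext y
    simp only [hist, Finset.mem_filter]
    by_cases hf : f ∈ D.V y
    · by_cases hy : y ∈ Y.act ω ∪ Y.act ω'
      · obtain ⟨h1, h2⟩ := hS y hy hf
        constructor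
        · rintro ⟨h3, h4⟩
          exact ⟨h1.1 h3, by rw [← h2 h3]; exact h4⟩
        · rintro ⟨h3, h4⟩
          exact ⟨h1.2 h3, by rw [h2 (h1.2 h3)]; exact h4⟩
      · constructor
        · rintro ⟨h3, -⟩
          exact absurd (Finset.mem_union_left _ (hY.S_act ω h3)) hy
        · rintro ⟨h3, -⟩
          exact absurd (Finset.mem_union_right _ (hY.S_act ω' h3)) hy
    · constructor
      · rintro ⟨h3, h4⟩
        exact absurd (hY.Vs_sub ω y h3 h4) hf
      · rintro ⟨h3, h4⟩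
        exact absurd (hY.Vs_sub ω' y h3 h4) hf
  unfold Opn
  rw [hh, hP.1, hP.2]

/-- `l` is a location, `z`, `z'` two points of the new space such that in every copy the labels other than
`l` have the same data (`hP`), elements whose status differs reach `l` (`hS`), and `z.2`, `z'.2` differ at
most at `l`. Then every `x` which is in exactly one of the two sets `N0` reaches `l` in at most `d + 1`
steps. (`x` active; `z.2 x ≠ z'.2 x`: `l = inl x`; otherwise some `j ∈ J x` with `Opn` different,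
`opn_congr`: `l = inr (lab x j)`, or some `y` with `lab x j ∈ V y` changes its status and `adj x y`.) -/
theorem stepN_local {p κ δ σl σu ξ Ca s g E : ℝ} (hY : SysHyp Y p κ δ σl σu ξ Ca)
    (hI : StepIn Y T J w p s g E) {d : ℕ} {l : (Q × R) ⊕ M} {z z' : StepΩ D Ω}
    (h2 : ∀ x, l ≠ Sum.inl x → z.2 x = z'.2 x)
    (hP : ∀ j f, l ≠ Sum.inr f →
      (f ∈ Y.P (z.1 j) ↔ f ∈ Y.P (z'.1 j)) ∧ Y.C (z.1 j) f = Y.C (z'.1 j) f)
    (hS : ∀ j x, ¬ Same Y (z.1 j) (z'.1 j) x →
      Reach D.adj (D.near l) (stepAct Y z ∪ stepAct Y z') d x)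
    (x : Q × R) (hx : ¬ (x ∈ stepN Y T J z ↔ x ∈ stepN Y T J z')) :
    Reach D.adj (D.near l) (stepAct Y z ∪ stepAct Y z') (d + 1) x := by
  have hmem : ∀ ζ : StepΩ D Ω, x ∈ stepN Y T J ζ ↔ x ∈ D.X ∧ (ζ.2 x = true ∧
      ∀ j ∈ J x, Opn Y T x (D.lab x j) (ζ.1 j)) := fun ζ => Finset.mem_filter
  have hact : ∀ ζ : StepΩ D Ω, x ∈ stepN Y T J ζ → x ∈ stepAct Y ζ := by
    intro ζ h
    obtain ⟨h1, h3, -⟩ := (hmem ζ).1 h
    exact Finset.mem_union_left _ (Finset.mem_filter.2 ⟨h1, h3⟩)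
  have hor : x ∈ stepN Y T J z ∨ x ∈ stepN Y T J z' := by
    by_contra h
    push Not at h
    exact hx ⟨fun h3 => absurd h3 h.1, fun h3 => absurd h3 h.2⟩
  have hA : x ∈ stepAct Y z ∪ stepAct Y z' := by
    rcases hor with h | h
    · exact Finset.mem_union_left _ (hact z h)
    · exact Finset.mem_union_right _ (hact z' h)
  have hX : x ∈ D.X := by
    rcases hor with h | h
    · exact ((hmem z).1 h).1
    · exact ((hmem z').1 h).1
  by_cases hz : z.2 x = z'.2 x
  · have h3 : ∃ j ∈ J x, ¬ (Opn Y T x (D.lab x j) (z.1 j) ↔ Opn Y T x (D.lab x j) (z'.1 j)) := by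
      by_contra hcon
      push Not at hcon
      apply hx
      rw [hmem, hmem, hz]
      exact and_congr_right fun _ => and_congr_right fun _ =>
        forall_congr' fun j => forall_congr' fun hj => hcon j hj
    obtain ⟨j, hj, h4⟩ := h3
    have hfx : D.lab x j ∈ D.V x := Finset.mem_image_of_mem _ (hI.J_sub x hX hj)
    by_cases hl : l = Sum.inr (D.lab x j)
    · exact Reach.of_near hA (Or.inr ⟨_, hfx, hl⟩)
    · have h5 : ∃ y, y ∈ Y.act (z.1 j) ∪ Y.act (z'.1 j) ∧ D.lab x j ∈ D.V y ∧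
          ¬ Same Y (z.1 j) (z'.1 j) y := by
        by_contra hcon
        push Not at hcon
        exact h4 (opn_congr hY (hP j _ hl) hcon)
      obtain ⟨y, -, h7, h8⟩ := h5
      refine Reach.step hA ?_ (hS j y h8)
      refine Or.inr (Or.inr ?_)
      rw [Finset.not_disjoint_iff]
      exact ⟨_, hfx, h7⟩
  · have hl : l = Sum.inl x := by
      by_contra hl
      exact hz (h2 x hl)
    exact Reach.of_near hA (Or.inl hl)

end Pool.Agent.Lib.H93D
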