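import Pool.Agent.Lib.H93D.L1

/-!
# H93D, L2: locality of the step (abstract), second half

See `H93B/PROOF.md`, section 3.
-/

set_option autoImplicit false

open Finset
open scoped Classical

namespace Pool.Agent.Lib.H93D

open Pool.Agent.Lib.H93A

variable {Q R M : Type} [Fintype Q] [Fintype R] [Fintype M] {D : Win Q R M} {Ω : Type} [Fintype Ω]
  {Y : Sys D Ω} {T : ℕ} {J : Q × R → Finset (Fin D.b)} {w : Q × R → ℝ}

theorem l2_choose {b : ℕ} {P P' : Fin b → Prop} (e : P = P') (h : ∃ j, P j) (h' : ∃ j, P' j) :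
    h.choose = h'.choose := by
  subst e
  rfl

theorem l2_same_symm {ω ω' : Ω} {x : Q × R} (h : Same Y ω ω' x) : Same Y ω' ω x :=
  ⟨h.1.symm, fun hx => (h.2 (h.1.2 hx)).symm⟩

theorem l2_Vs_congr {z z' : StepΩ D Ω} {x : Q × R}
    (hN : x ∈ stepN Y T J z ↔ x ∈ stepN Y T J z') (hS : ∀ j, Same Y (z.1 j) (z'.1 j) x) :
    stepVs Y T J z x = stepVs Y T J z' x := by
  unfold stepVs
  by_cases h : x ∈ stepN Y T J z
  · rw [if_pos h, if_pos (hN.1 h)]
  · rw [if_neg h, if_neg fun h' => h (hN.2 h')]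
    have e : (fun j => x ∈ Y.S (z.1 j)) = fun j => x ∈ Y.S (z'.1 j) := by
      funext j
      exact propext (hS j).1
    by_cases h1 : ∃ j, x ∈ Y.S (z.1 j)
    · have h2 : ∃ j, x ∈ Y.S (z'.1 j) := by
        obtain ⟨j, hj⟩ := h1
        exact ⟨j, (hS j).1.1 hj⟩
      rw [dif_pos h1, dif_pos h2]
      have h3 : h1.choose = h2.choose := l2_choose e h1 h2
      rw [← h3]
      exact (hS _).2 h1.choose_spec
    · have h2 : ¬ ∃ j, x ∈ Y.S (z'.1 j) := by
        rintro ⟨j, hj⟩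
        exact h1 ⟨j, (hS j).1.2 hj⟩
      rw [dif_neg h1, dif_neg h2]

theorem l2_Vs_sub {p κ δ σl σu ξ Ca s g E : ℝ} (hY : SysHyp Y p κ δ σl σu ξ Ca)
    (hI : StepIn Y T J w p s g E) (z : StepΩ D Ω) (x : Q × R) : stepVs Y T J z x ⊆ D.V x := by
  unfold stepVs
  by_cases h : x ∈ stepN Y T J z
  · rw [if_pos h]
    exact Finset.image_subset_image (hI.J_sub x (stepN_sub z h))
  · rw [if_neg h]
    by_cases h1 : ∃ j, x ∈ Y.S (z.1 j)
    · rw [dif_pos h1]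
      exact hY.Vs_sub _ x h1.choose_spec
    · rw [dif_neg h1]
      exact Finset.empty_subset _

theorem l2_U_congr {z z' : StepΩ D Ω} {x : Q × R}
    (hN : x ∈ stepN Y T J z ↔ x ∈ stepN Y T J z') (hS : ∀ j, Same Y (z.1 j) (z'.1 j) x)
    (h : x ∈ stepU Y T J z) : x ∈ stepU Y T J z' := by
  rcases Finset.mem_union.1 h with h1 | h1
  · exact Finset.mem_union_left _ (hN.1 h1)
  · obtain ⟨j, -, hj⟩ := Finset.mem_biUnion.1 h1
    exact Finset.mem_union_right _ (Finset.mem_biUnion.2 ⟨j, Finset.mem_univ _, (hS j).1.1 hj⟩)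

/-- everything around `x` is the same -/
def L2Loc (Y : Sys D Ω) (T : ℕ) (J : Q × R → Finset (Fin D.b)) (z z' : StepΩ D Ω) (x : Q × R) :
    Prop :=
  (∀ y, D.adj x y → (y ∈ stepN Y T J z ↔ y ∈ stepN Y T J z') ∧ ∀ j, Same Y (z.1 j) (z'.1 j) y) ∧
    ∀ f ∈ D.V x, (stepO Y z f ↔ stepO Y z' f)

theorem L2Loc.symm {z z' : StepΩ D Ω} {x : Q × R} (h : L2Loc Y T J z z' x) : L2Loc Y T J z' z x :=
  ⟨fun y hy => ⟨(h.1 y hy).1.symm, fun j => l2_same_symm ((h.1 y hy).2 j)⟩,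
    fun f hf => (h.2 f hf).symm⟩

theorem l2_spoiled {p κ δ σl σu ξ Ca s g E : ℝ} (hY : SysHyp Y p κ δ σl σu ξ Ca)
    (hI : StepIn Y T J w p s g E) {z z' : StepΩ D Ω} {x : Q × R} (h : L2Loc Y T J z z' x)
    (hs : Spoiled Y T J z x) : Spoiled Y T J z' x := by
  have hx := h.1 x (Or.inl rfl)
  have hV : stepVs Y T J z x = stepVs Y T J z' x := l2_Vs_congr hx.1 hx.2
  rcases hs with ⟨f, hf, hO⟩ | ⟨hN, x', hx', hne, hd⟩ | ⟨x', hx', hne, hc⟩ | ⟨hN, j, hj⟩ |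
    ⟨i, j, hij, hi, hj⟩
  · exact Or.inl ⟨f, hV ▸ hf, (h.2 f (l2_Vs_sub hY hI z x hf)).1 hO⟩
  · have hadj : D.adj x x' := by
      refine Or.inr (Or.inr fun hdis => hd ?_)
      exact Finset.disjoint_of_subset_left (l2_Vs_sub hY hI z x)
        (Finset.disjoint_of_subset_right (l2_Vs_sub hY hI z x') hdis)
    have h' := h.1 x' hadj
    refine Or.inr (Or.inl ⟨hx.1.1 hN, x', h'.1.1 hx', hne, ?_⟩)
    rw [← hV, ← l2_Vs_congr h'.1 h'.2]
    exact hd
  · have h' := h.1 x' (Or.inr (Or.inl hc))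
    exact Or.inr (Or.inr (Or.inl ⟨x', l2_U_congr h'.1 h'.2 hx', hne, hc⟩))
  · exact Or.inr (Or.inr (Or.inr (Or.inl ⟨hx.1.1 hN, j, (hx.2 j).1.1 hj⟩)))
  · exact Or.inr (Or.inr (Or.inr (Or.inr ⟨i, j, hij, (hx.2 i).1.1 hi, (hx.2 j).1.1 hj⟩)))

theorem l2_S {p κ δ σl σu ξ Ca s g E : ℝ} (hY : SysHyp Y p κ δ σl σu ξ Ca)
    (hI : StepIn Y T J w p s g E) {z z' : StepΩ D Ω} {x : Q × R} (h : L2Loc Y T J z z' x)
    (hs : x ∈ stepS Y T J z) : x ∈ stepS Y T J z' := by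
  have hx := h.1 x (Or.inl rfl)
  obtain ⟨h1, h2⟩ := Finset.mem_filter.1 hs
  exact Finset.mem_filter.2 ⟨l2_U_congr hx.1 hx.2 h1, fun h3 => h2 (l2_spoiled hY hI h.symm h3)⟩

/-- the same for the status in the new system: at most `d + 2` steps. If the status of `x` (membership in
`S'`, or `V*'` if `x ∈ S'`) differs then one of the following differs: `x ∈ N0`; `Same` in some copy;
`stepO f` for some `f ∈ V x` (then `l = inr f`); or `x' ∈ N0` / `Same` for some `x'` with `adj x x'`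
((Z1): `V x`, `V x'` not disjoint; (Z2): `conf x x'`). `x` itself is active in one of the two. -/
theorem step_local {p κ δ σl σu ξ Ca s g E : ℝ} (hY : SysHyp Y p κ δ σl σu ξ Ca)
    (hI : StepIn Y T J w p s g E) {d : ℕ} {l : (Q × R) ⊕ M} {z z' : StepΩ D Ω}
    (h2 : ∀ x, l ≠ Sum.inl x → z.2 x = z'.2 x)
    (hP : ∀ j f, l ≠ Sum.inr f →
      (f ∈ Y.P (z.1 j) ↔ f ∈ Y.P (z'.1 j)) ∧ Y.C (z.1 j) f = Y.C (z'.1 j) f)
    (hS : ∀ j x, ¬ Same Y (z.1 j) (z'.1 j) x →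
      Reach D.adj (D.near l) (stepAct Y z ∪ stepAct Y z') d x)
    (x : Q × R) (hx : ¬ Same (stepSys Y T J w) z z' x) :
    Reach D.adj (D.near l) (stepAct Y z ∪ stepAct Y z') (d + 2) x := by
  by_contra hR
  have hA : x ∈ stepAct Y z ∪ stepAct Y z' := by
    by_contra hA
    apply hx
    have h3 : x ∉ stepS Y T J z := fun h => hA (Finset.mem_union_left _ (step_S_act hY z h))
    have h4 : x ∉ stepS Y T J z' := fun h => hA (Finset.mem_union_right _ (step_S_act hY z' h))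
    exact ⟨⟨fun h => absurd h h3, fun h => absurd h h4⟩, fun h => absurd h h3⟩
  have hloc : L2Loc Y T J z z' x := by
    refine ⟨fun y hy => ⟨?_, fun j => ?_⟩, fun f hf => ?_⟩
    · by_contra hN
      exact hR (Reach.step hA hy (stepN_local hY hI h2 hP hS y hN))
    · by_contra hN
      exact hR (Reach.step hA hy (hS j y hN).succ)
    · have hl : l ≠ Sum.inr f := fun hl => hR (Reach.of_near hA (Or.inr ⟨f, hf, hl⟩))
      unfold stepO
      refine exists_congr fun i => exists_congr fun j => ?_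
      rw [(hP i f hl).1, (hP j f hl).1]
  apply hx
  have hxx := hloc.1 x (Or.inl rfl)
  exact ⟨⟨fun h => l2_S hY hI hloc h, fun h => l2_S hY hI hloc.symm h⟩,
    fun _ => l2_Vs_congr hxx.1 hxx.2⟩

end Pool.Agent.Lib.H93D
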