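import Pool.Agent.Lib.H93D.T1

/-!
# H93D, LDefs: coordinates and locality

See `H93B/PROOF.md`, section 3.
-/

set_option autoImplicit false

open Finset
open scoped Classical

namespace Pool.Agent.Lib.H93D

open Pool.Agent.Lib.H93A

open Pool.Agent.Lib.Prob48 (Weights)

/-- `x` has the same status in `ω` and `ω'` -/
def Same {Q R M : Type} {D : Win Q R M} {Ω : Type} (Y : Sys D Ω) (ω ω' : Ω) (x : Q × R) : Prop :=
  (x ∈ Y.S ω ↔ x ∈ Y.S ω') ∧ (x ∈ Y.S ω → Y.Vs ω x = Y.Vs ω' x)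

/-- Coordinates of a system: its probability space is a product space, every coordinate has a location
(an element or a label), and the locality properties. -/
structure Coord {Q R M : Type} {D : Win Q R M} {Ω : Type} (Y : Sys D Ω) (nc d : ℕ) where
  ι : Type
  [fι : Fintype ι]
  [dι : DecidableEq ι]
  α : ι → Type
  [fα : ∀ i, Fintype (α i)]
  wt : Weights α
  e : Ω ≃ (∀ i, α i)
  loc : ι → (Q × R) ⊕ M
  one : ∀ i, α i → Prop
  one_not : ∀ i, ∃ a, ¬ one i a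
  he : ∀ ω, Y.μ ω = wt.pw (e ω)
  act_iff : ∀ ω x, x ∈ Y.act ω ↔ ∃ i, loc i = Sum.inl x ∧ one i (e ω i)
  loc_card : ∀ l, (univ.filter fun i => loc i = l).card ≤ nc
  loc_P : ∀ ω ω' i, (∀ i', i' ≠ i → e ω i' = e ω' i') → ∀ f, loc i ≠ Sum.inr f →
    (f ∈ Y.P ω ↔ f ∈ Y.P ω') ∧ Y.C ω f = Y.C ω' f
  loc_S : ∀ ω ω' i, (∀ i', i' ≠ i → e ω i' = e ω' i') → ∀ x, ¬ Same Y ω ω' x →
    Reach D.adj (D.near (loc i)) (Y.act ω ∪ Y.act ω') d x

attribute [instance] Coord.fι Coord.dι Coord.fα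

end Pool.Agent.Lib.H93D
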