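import Pool.Agent.Lib.H93D.P3

/-!
# H93D, O1: large histories are rare

See `H93B/PROOF.md`, section 3.
-/

set_option autoImplicit false

open Finset
open scoped Classical

namespace Pool.Agent.Lib.H93D

open Pool.Agent.Lib.H93A

variable {Q R M : Type} [Fintype Q] [Fintype R] [Fintype M] {D : Win Q R M} {Ω : Type} [Fintype Ω]

/-- the elements of the history of `f` lie in the cell `C f` -/
theorem hist_sub_cellSet {p κ δ σl σu ξ Ca : ℝ} {Y : Sys D Ω} (hY : SysHyp Y p κ δ σl σu ξ Ca)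
    (ω : Ω) (f : M) (c : ℕ × ℕ) (hc : Y.C ω f = c) : hist Y ω f ⊆ D.cellSet f c := by
  intro y hy
  obtain ⟨hyS, hyV⟩ := Finset.mem_filter.1 hy
  have h1 := hY.s1' ω y hyS f hyV
  refine Finset.mem_filter.2 ⟨Finset.mem_filter.2 ⟨hY.act_sub ω (hY.S_act ω hyS),
    hY.Vs_sub ω y hyS hyV⟩, ?_⟩
  rw [← hc, h1.2]

/-- a cell has at most `16 m²/k²` elements (see `H93A.cellSet_card_le`) -/
theorem cellSet_card_le {kmax : ℕ} {K θ1 ε η d : ℝ} (hD : WinHyp D kmax K θ1 ε η d) (f : M)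
    (c : ℕ × ℕ) : ((D.cellSet f c).card : ℝ) ≤ 16 * (D.m : ℝ) ^ 2 / (D.k f : ℝ) ^ 2 := by
  have hk : (0 : ℝ) < (D.k f : ℝ) := by exact_mod_cast hD.k_pos _
  have h1 : D.cellSet f c ⊆ D.clA f c.1 ×ˢ D.clB f c.2 := by
    intro y hy
    obtain ⟨hy1, hy2⟩ := Finset.mem_filter.1 hy
    refine Finset.mem_product.2 ⟨Finset.mem_filter.2 ⟨Finset.mem_image.2 ⟨y, hy1, rfl⟩, ?_⟩,
      Finset.mem_filter.2 ⟨Finset.mem_image.2 ⟨y, hy1, rfl⟩, ?_⟩⟩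
    · rw [← hy2]
      rfl
    · rw [← hy2]
      rfl
  have h2 : ((D.cellSet f c).card : ℝ) ≤ ((D.clA f c.1).card : ℝ) * ((D.clB f c.2).card : ℝ) := by
    have := Finset.card_le_card h1
    rw [Finset.card_product] at this
    exact_mod_cast this
  have h3 := hD.clA_le f c.1
  have h4 := hD.clB_le f c.2
  calc ((D.cellSet f c).card : ℝ) ≤ ((D.clA f c.1).card : ℝ) * ((D.clB f c.2).card : ℝ) := h2
    _ ≤ (4 * D.m / D.k f) * (4 * D.m / D.k f) := by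
        refine mul_le_mul h3 h4 (Nat.cast_nonneg _) (by positivity)
    _ = 16 * (D.m : ℝ) ^ 2 / (D.k f : ℝ) ^ 2 := by
        field_simp
        ring

/-- `P(f ∈ P, C f = c, |h_f| ≥ T) ≤ p/(8 k²)`: `pr_card_ge_le` with `W = cellSet f c`, then `s6u`,
`cellSet_card_le`, `m_sq`: `(1/T)(16 m²/k²)(σu p/N) ≤ 64 K² σu p/(T k²)`. -/
theorem pr_full_le {kmax : ℕ} {K θ1 ε η d p κ δ σl σu ξ Ca : ℝ} (hD : WinHyp D kmax K θ1 ε η d)
    {Y : Sys D Ω} (hY : SysHyp Y p κ δ σl σu ξ Ca) (hσ : 0 ≤ σu) (T : ℕ) (hT : 1 ≤ T)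
    (hT2 : 512 * K ^ 2 * σu ≤ T) (f : M) (c : ℕ × ℕ) :
    pr Y.μ (fun ω => (f ∈ Y.P ω ∧ Y.C ω f = c) ∧ T ≤ (hist Y ω f).card) ≤
      p / (8 * (D.k f : ℝ) ^ 2) := by
  have hp := hY.p_pos
  have hN0 : (0 : ℝ) < D.N := by linarith [hD.N_pos]
  have hk1 : (1 : ℝ) ≤ D.k f := by exact_mod_cast hD.k_pos f
  have hk0 : (0 : ℝ) < D.k f := by linarith
  have hT0 : (0 : ℝ) < T := by exact_mod_cast hT
  have h1 := pr_card_ge_le hY.prob (fun ω => f ∈ Y.P ω ∧ Y.C ω f = c) (fun ω => hist Y ω f)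
    (D.cellSet f c) (fun ω hω => hist_sub_cellSet hY ω f c hω.2) T
  have h2 : ∑ y ∈ D.cellSet f c, pr Y.μ (fun ω => (f ∈ Y.P ω ∧ Y.C ω f = c) ∧ y ∈ hist Y ω f) ≤
      ∑ _y ∈ D.cellSet f c, σu * p / D.N := by
    refine Finset.sum_le_sum fun y hy => ?_
    refine (pr_mono hY.prob fun ω hω => (Finset.mem_filter.1 hω.2).1).trans (hY.s6u y ?_)
    exact (Finset.mem_filter.1 (Finset.mem_filter.1 hy).1).1
  rw [Finset.sum_const, nsmul_eq_mul] at h2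
  have h3 := cellSet_card_le hD f c
  have h4 : ((D.cellSet f c).card : ℝ) * (σu * p / D.N) ≤
      (16 * (D.m : ℝ) ^ 2 / (D.k f : ℝ) ^ 2) * (σu * p / D.N) :=
    mul_le_mul_of_nonneg_right h3 (by positivity)
  have h5 : (16 * (D.m : ℝ) ^ 2 / (D.k f : ℝ) ^ 2) * (σu * p / D.N) ≤
      (64 * K ^ 2 * σu) * (p / (D.k f : ℝ) ^ 2) := by
    have h6 := hD.m_sq
    have h7 : (D.m : ℝ) ^ 2 * (1 / D.N) ≤ 4 * K ^ 2 := by
      rw [mul_one_div, div_le_iff₀ hN0]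
      exact h6
    calc (16 * (D.m : ℝ) ^ 2 / (D.k f : ℝ) ^ 2) * (σu * p / D.N)
        = (16 * σu * (p / (D.k f : ℝ) ^ 2)) * ((D.m : ℝ) ^ 2 * (1 / D.N)) := by
          field_simp
      _ ≤ (16 * σu * (p / (D.k f : ℝ) ^ 2)) * (4 * K ^ 2) :=
          mul_le_mul_of_nonneg_left h7 (by positivity)
      _ = _ := by ring
  have h8 : (64 * K ^ 2 * σu) * (p / (D.k f : ℝ) ^ 2) ≤ T * (p / (8 * (D.k f : ℝ) ^ 2)) := by
    have h9 : 0 ≤ p / (D.k f : ℝ) ^ 2 := by positivity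
    calc (64 * K ^ 2 * σu) * (p / (D.k f : ℝ) ^ 2)
        = (512 * K ^ 2 * σu) * (p / (D.k f : ℝ) ^ 2) / 8 := by ring
      _ ≤ (T : ℝ) * (p / (D.k f : ℝ) ^ 2) / 8 := by
          have := mul_le_mul_of_nonneg_right hT2 h9
          linarith
      _ = _ := by
          field_simp
  have h10 : (T : ℝ) * pr Y.μ (fun ω => (f ∈ Y.P ω ∧ Y.C ω f = c) ∧ T ≤ (hist Y ω f).card) ≤
      T * (p / (8 * (D.k f : ℝ) ^ 2)) := by
    linarith
  exact le_of_mul_le_mul_left h10 hT0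

end Pool.Agent.Lib.H93D
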