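import Pool.Agent.Lib.H93D.Defs

/-!
# H93D, O2: bad sequences in a regular cell

See `H93B/PROOF.md`, section 3.
-/

set_option autoImplicit false

open Finset
open scoped Classical

namespace Pool.Agent.Lib.H93D

open Pool.Agent.Lib.H93A

variable {Q R M : Type}


theorem o2_cell_sub (D : Win Q R M) (f : M) (u v : ℕ) :
    D.cellSet f (u, v) ⊆ D.clA f u ×ˢ D.clB f v := by
  intro y hy
  simp only [Win.cellSet, mem_filter] at hy
  obtain ⟨h1, h2⟩ := hy
  have h3 : D.iA f y.1 = u := congrArg Prod.fst h2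
  have h4 : D.iB f y.2 = v := congrArg Prod.snd h2
  rw [mem_product]
  simp only [Win.clA, Win.clB, mem_filter, mem_image]
  exact ⟨⟨⟨y, h1, rfl⟩, h3⟩, ⟨⟨y, h1, rfl⟩, h4⟩⟩

theorem o2_comm_mono (D : Win Q R M) (f : M) (A' : Finset Q) (Z : Finset (Q × R)) :
    D.comm f A' Z ⊆ A' := by
  unfold Win.comm
  exact filter_subset _ _

/-- the first `r` values -/
def o2_init {r : ℕ} {X : Type} (y : Fin (r + 1) → X) : Fin r → X := fun i => y i.castSucc

theorem o2_ext {r : ℕ} {X : Type} {y y' : Fin (r + 1) → X} (h : o2_init y = o2_init y')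
    (hl : y (Fin.last r) = y' (Fin.last r)) : y = y' := by
  funext i
  refine Fin.lastCases hl (fun j => ?_) i
  exact congrFun h j

/-- the bad second coordinates -/
noncomputable def o2_bad (D : Win Q R M) (d : ℝ) (f : M) (v : ℕ) (A2 : Finset Q) : Finset R :=
  (D.clB f v).filter fun b => ((A2.filter fun a => (a, b) ∈ D.Xf f).card : ℝ) < d * A2.card

theorem o2_bad_le (D : Win Q R M) {ε d : ℝ} (hε : 0 < ε) (f : M) (u v : ℕ)
    (hg : D.Good ε d f u v) (A2 : Finset Q) (hA2 : A2 ⊆ D.clA f u)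
    (hc : ε * (4 * D.m / D.k f) ≤ A2.card) (hμ : 0 ≤ (4 * (D.m : ℝ) / D.k f)) :
    ((o2_bad D d f v A2).card : ℝ) ≤ ε * (4 * D.m / D.k f) := by
  by_contra hcon
  push Not at hcon
  have hne : (o2_bad D d f v A2).Nonempty := by
    rw [← card_pos]
    have : (0 : ℝ) < ((o2_bad D d f v A2).card : ℝ) := lt_of_le_of_lt (by positivity) hcon
    exact_mod_cast this
  have h1 := hg A2 hA2 (o2_bad D d f v A2) (by unfold o2_bad; exact filter_subset _ _) hc hcon.le
  have h2 : (D.Xf f ∩ A2 ×ˢ o2_bad D d f v A2).card =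
      ∑ b ∈ o2_bad D d f v A2, (A2.filter fun a => (a, b) ∈ D.Xf f).card := by
    rw [card_eq_sum_card_fiberwise (f := Prod.snd) (t := o2_bad D d f v A2)
      (fun x hx => (mem_product.1 (mem_inter.1 hx).2).2)]
    apply sum_congr rfl
    intro b hb
    apply card_bij (fun x _ => x.1)
    · intro x hx
      simp only [mem_filter, mem_inter, mem_product] at hx ⊢
      refine ⟨hx.1.2.1, ?_⟩
      rw [← hx.2]
      exact hx.1.1
    · intro x hx y hy he
      simp only [mem_filter] at hx hy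
      exact Prod.ext he (hx.2.trans hy.2.symm)
    · intro a ha
      simp only [mem_filter] at ha
      refine ⟨(a, b), ?_, rfl⟩
      simp only [mem_filter, mem_inter, mem_product]
      exact ⟨⟨ha.2, ha.1, hb⟩, trivial⟩
  have h3 : ((D.Xf f ∩ A2 ×ˢ o2_bad D d f v A2).card : ℝ) <
      ∑ b ∈ o2_bad D d f v A2, d * A2.card := by
    rw [h2]
    push_cast
    apply sum_lt_sum_of_nonempty hne
    intro b hb
    unfold o2_bad at hb
    exact (mem_filter.1 hb).2
  rw [sum_const, nsmul_eq_mul] at h3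
  nlinarith

/-- In a good cell `(u,v)` at `f` with class size bound `μ = 4m/k` (in `PROOF.md` `d^T e' ≥ ε`): for
`A' ⊆ clA f u` with `ε μ ≤ d^r |A'|`, the number of functions `y : Fin r → cell` with
`|comm A' (image y)| < d^r |A'|` is at most `r ε μ^(2r)`.

Induction on `r` (use `Fin.snocEquiv`/`Fin.consEquiv` or `Fin.init`): if the first `r` already have small
intersection, induction; otherwise `A'' = comm ..` has `|A''| ≥ d^r |A'| ≥ ε μ`, and the set of `b` with
`|A'' ∩ N(b)| < d |A''|` has less than `ε μ` elements by `Good`. -/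
theorem card_bad_fun_le (D : Win Q R M) {ε d : ℝ} (hε : 0 < ε) (hd : 0 < d) (hd1 : d ≤ 1)
    (f : M) (u v : ℕ) (hg : D.Good ε d f u v) (hk : 1 ≤ D.k f)
    (hA : ∀ u, ((D.clA f u).card : ℝ) ≤ 4 * D.m / D.k f)
    (hB : ∀ v, ((D.clB f v).card : ℝ) ≤ 4 * D.m / D.k f)
    (A' : Finset Q) (hA' : A' ⊆ D.clA f u) (r : ℕ)
    (hr : ε * (4 * D.m / D.k f) ≤ d ^ r * A'.card) [Fintype Q] [Fintype R] :
    (((univ : Finset (Fin r → Q × R)).filter fun y => (∀ i, y i ∈ D.cellSet f (u, v)) ∧
        ((D.comm f A' (univ.image y)).card : ℝ) < d ^ r * A'.card).card : ℝ) ≤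
      r * ε * (4 * D.m / D.k f) ^ (2 * r) := by
  have hμ : 0 ≤ (4 * (D.m : ℝ) / D.k f) := by positivity
  have hcs : ((D.cellSet f (u, v)).card : ℝ) ≤ (4 * D.m / D.k f) ^ 2 := by
    have h1 := card_le_card (o2_cell_sub D f u v)
    rw [card_product] at h1
    have h2 : ((D.cellSet f (u, v)).card : ℝ) ≤ ((D.clA f u).card : ℝ) * ((D.clB f v).card : ℝ) := by
      exact_mod_cast h1
    refine h2.trans ?_
    rw [sq]
    exact mul_le_mul (hA u) (hB v) (Nat.cast_nonneg _) hμ
  induction r with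
  | zero =>
    have h1 : (((univ : Finset (Fin 0 → Q × R)).filter fun y => (∀ i, y i ∈ D.cellSet f (u, v)) ∧
        ((D.comm f A' (univ.image y)).card : ℝ) < d ^ 0 * A'.card)) = ∅ := by
      rw [filter_eq_empty_iff]
      rintro y _ ⟨-, h2⟩
      have h3 : D.comm f A' (univ.image y) = A' := by
        ext a
        simp only [Win.comm, mem_filter]
        refine ⟨fun h => h.1, fun h => ⟨h, fun z hz => ?_⟩⟩
        rw [mem_image] at hz
        obtain ⟨i, -, -⟩ := hz
        exact i.elim0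
      rw [h3] at h2
      simp at h2
    rw [h1]
    simp
  | succ r ih =>
    have hr' : ε * (4 * D.m / D.k f) ≤ d ^ r * A'.card := by
      refine hr.trans ?_
      rw [pow_succ]
      have h0 : 0 ≤ d ^ r * (A'.card : ℝ) := by positivity
      nlinarith
    have hih := ih hr'
    set μ := 4 * (D.m : ℝ) / D.k f with hμdef
    set T1 := ((univ : Finset (Fin r → Q × R)).filter fun y => (∀ i, y i ∈ D.cellSet f (u, v)) ∧
        ((D.comm f A' (univ.image y)).card : ℝ) < d ^ r * A'.card) with hT1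
    set S := ((univ : Finset (Fin (r + 1) → Q × R)).filter fun y => (∀ i, y i ∈ D.cellSet f (u, v)) ∧
        ((D.comm f A' (univ.image y)).card : ℝ) < d ^ (r + 1) * A'.card) with hS
    have hSmem : ∀ y, y ∈ S ↔ ((∀ i, y i ∈ D.cellSet f (u, v)) ∧
        ((D.comm f A' (univ.image y)).card : ℝ) < d ^ (r + 1) * A'.card) := by
      intro y
      rw [hS]
      simp only [mem_filter, mem_univ, true_and]
    have hT1mem : ∀ y, y ∈ T1 ↔ ((∀ i, y i ∈ D.cellSet f (u, v)) ∧
        ((D.comm f A' (univ.image y)).card : ℝ) < d ^ r * A'.card) := by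
      intro y
      rw [hT1]
      simp only [mem_filter, mem_univ, true_and]
    -- the functions with values in the cell and large intersection
    set Cr : Finset (Fin r → Q × R) := (Fintype.piFinset fun _ : Fin r => D.cellSet f (u, v)).filter
      fun y => d ^ r * A'.card ≤ ((D.comm f A' (univ.image y)).card : ℝ) with hCr
    have hCrmem : ∀ y, y ∈ Cr ↔ ((∀ i, y i ∈ D.cellSet f (u, v)) ∧
        d ^ r * A'.card ≤ ((D.comm f A' (univ.image y)).card : ℝ)) := by
      intro y
      rw [hCr]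
      simp only [mem_filter, Fintype.mem_piFinset]
    have hCrc : (Cr.card : ℝ) ≤ μ ^ (2 * r) := by
      have h1 : Cr.card ≤ (D.cellSet f (u, v)).card ^ r := by
        rw [hCr]
        refine (card_filter_le _ _).trans ?_
        rw [Fintype.card_piFinset_const]
      calc (Cr.card : ℝ) ≤ ((D.cellSet f (u, v)).card : ℝ) ^ r := by exact_mod_cast h1
        _ ≤ (μ ^ 2) ^ r := pow_le_pow_left₀ (Nat.cast_nonneg _) hcs r
        _ = μ ^ (2 * r) := by rw [← pow_mul]
    set Bb : (Fin r → Q × R) → Finset (Q × R) := fun y =>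
      D.clA f u ×ˢ o2_bad D d f v (D.comm f A' (univ.image y)) with hBb
    have hBbc : ∀ y ∈ Cr, ((Bb y).card : ℝ) ≤ ε * μ ^ 2 := by
      intro y hy
      have hy' := (hCrmem y).1 hy
      rw [hBb]
      simp only
      rw [card_product]
      push_cast
      have h1 := o2_bad_le D hε f u v hg (D.comm f A' (univ.image y))
        ((o2_comm_mono D f A' _).trans hA') (hr'.trans hy'.2) hμ
      calc ((D.clA f u).card : ℝ) * ((o2_bad D d f v (D.comm f A' (univ.image y))).card : ℝ)
          ≤ μ * (ε * μ) := mul_le_mul (hA u) h1 (Nat.cast_nonneg _) hμ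
        _ = ε * μ ^ 2 := by ring
    -- decomposition
    have hcomm : ∀ y : Fin (r + 1) → Q × R, D.comm f A' (univ.image y) =
        (D.comm f A' (univ.image (o2_init y))).filter fun a => (a, (y (Fin.last r)).2) ∈ D.Xf f := by
      intro y
      ext a
      simp only [Win.comm, mem_filter, mem_image, mem_univ, true_and]
      constructor
      · rintro ⟨ha, hall⟩
        refine ⟨⟨ha, ?_⟩, ?_⟩
        · rintro z ⟨i, rfl⟩
          exact hall _ ⟨i.castSucc, rfl⟩
        · exact hall _ ⟨Fin.last r, rfl⟩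
      · rintro ⟨⟨ha, hall⟩, hlast⟩
        refine ⟨ha, ?_⟩
        rintro z ⟨i, rfl⟩
        refine Fin.lastCases ?_ (fun j => ?_) i
        · exact hlast
        · exact hall _ ⟨j, rfl⟩
    have hS1 : (S.filter fun y => o2_init y ∈ T1).card ≤ (T1 ×ˢ D.cellSet f (u, v)).card := by
      apply card_le_card_of_injOn (fun y => (o2_init y, y (Fin.last r)))
      · intro y hy
        rw [mem_coe, mem_filter] at hy
        rw [mem_coe, mem_product]
        exact ⟨hy.2, ((hSmem y).1 hy.1).1 _⟩
      · intro y _ y' _ he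
        have h1 : o2_init y = o2_init y' := congrArg Prod.fst he
        have h2 : y (Fin.last r) = y' (Fin.last r) := congrArg Prod.snd he
        exact o2_ext h1 h2
    have hS2 : (S.filter fun y => ¬ o2_init y ∈ T1).card ≤ (Cr.sigma Bb).card := by
      apply card_le_card_of_injOn (fun y => (⟨o2_init y, y (Fin.last r)⟩ : Σ _ : Fin r → Q × R, Q × R))
      · intro y hy
        rw [mem_coe, mem_filter] at hy
        obtain ⟨hyS, hyT⟩ := hy
        obtain ⟨hy1, hy2⟩ := (hSmem y).1 hyS
        rw [mem_coe, mem_sigma]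
        have hinit : ∀ i, (o2_init y) i ∈ D.cellSet f (u, v) := fun i => hy1 i.castSucc
        have hlarge : d ^ r * A'.card ≤ ((D.comm f A' (univ.image (o2_init y))).card : ℝ) := by
          by_contra hc
          push Not at hc
          exact hyT ((hT1mem _).2 ⟨hinit, hc⟩)
        refine ⟨(hCrmem _).2 ⟨hinit, hlarge⟩, ?_⟩
        rw [hBb]
        simp only
        have h5 := mem_product.1 (o2_cell_sub D f u v (hy1 (Fin.last r)))
        rw [mem_product]
        refine ⟨h5.1, ?_⟩
        unfold o2_bad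
        rw [mem_filter]
        refine ⟨h5.2, ?_⟩
        rw [hcomm y] at hy2
        refine lt_of_lt_of_le hy2 ?_
        rw [pow_succ, mul_comm (d ^ r) d, mul_assoc]
        exact mul_le_mul_of_nonneg_left hlarge hd.le
      · intro y _ y' _ he
        simp only [Sigma.mk.injEq, heq_eq_eq] at he
        exact o2_ext he.1 he.2
    have hsplit : S.card = (S.filter fun y => o2_init y ∈ T1).card +
        (S.filter fun y => ¬ o2_init y ∈ T1).card :=
      (card_filter_add_card_filter_not _).symm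
    have hc1 : (((S.filter fun y => o2_init y ∈ T1).card : ℕ) : ℝ) ≤ (r * ε * μ ^ (2 * r)) * μ ^ 2 := by
      calc (((S.filter fun y => o2_init y ∈ T1).card : ℕ) : ℝ)
          ≤ (((T1 ×ˢ D.cellSet f (u, v)).card : ℕ) : ℝ) := by exact_mod_cast hS1
        _ = (T1.card : ℝ) * ((D.cellSet f (u, v)).card : ℝ) := by rw [card_product]; push_cast; ring
        _ ≤ _ := mul_le_mul hih hcs (Nat.cast_nonneg _) (by positivity)
    have hc2 : (((S.filter fun y => ¬ o2_init y ∈ T1).card : ℕ) : ℝ) ≤ μ ^ (2 * r) * (ε * μ ^ 2) := by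
      calc (((S.filter fun y => ¬ o2_init y ∈ T1).card : ℕ) : ℝ)
          ≤ (((Cr.sigma Bb).card : ℕ) : ℝ) := by exact_mod_cast hS2
        _ = ∑ y ∈ Cr, ((Bb y).card : ℝ) := by rw [card_sigma]; push_cast; rfl
        _ ≤ Cr.card • (ε * μ ^ 2) := sum_le_card_nsmul _ _ _ hBbc
        _ = (Cr.card : ℝ) * (ε * μ ^ 2) := by rw [nsmul_eq_mul]
        _ ≤ _ := mul_le_mul_of_nonneg_right hCrc (by positivity)
    have hfin : (S.card : ℝ) = (((S.filter fun y => o2_init y ∈ T1).card : ℕ) : ℝ) +
        (((S.filter fun y => ¬ o2_init y ∈ T1).card : ℕ) : ℝ) := by exact_mod_cast hsplit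
    rw [hfin]
    have e1 : ((r + 1 : ℕ) : ℝ) * ε * μ ^ (2 * (r + 1)) =
        (r * ε * μ ^ (2 * r)) * μ ^ 2 + μ ^ (2 * r) * (ε * μ ^ 2) := by
      push_cast
      rw [mul_add, pow_add]
      ring
    rw [e1]
    exact add_le_add hc1 hc2


/-- an enumeration of a set with `r` elements -/
theorem o2_enum {X : Type} [DecidableEq X] {r : ℕ} (Z : Finset X) (h : Z.card = r) :
    ∃ y : Fin r → X, univ.image y = Z := by
  refine ⟨fun i => ((Finset.equivFinOfCardEq h).symm i : X), ?_⟩
  ext x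
  constructor
  · intro hx
    obtain ⟨i, -, rfl⟩ := Finset.mem_image.1 hx
    exact ((Finset.equivFinOfCardEq h).symm i).2
  · intro hx
    refine Finset.mem_image.2 ⟨Finset.equivFinOfCardEq h ⟨x, hx⟩, Finset.mem_univ _, ?_⟩
    simp

/-- The same for sets `Z` of `r` elements of the cell (choose an enumeration of `Z`). -/
theorem card_bad_set_le (D : Win Q R M) {ε d : ℝ} (hε : 0 < ε) (hd : 0 < d) (hd1 : d ≤ 1)
    (f : M) (u v : ℕ) (hg : D.Good ε d f u v) (hk : 1 ≤ D.k f)
    (hA : ∀ u, ((D.clA f u).card : ℝ) ≤ 4 * D.m / D.k f)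
    (hB : ∀ v, ((D.clB f v).card : ℝ) ≤ 4 * D.m / D.k f)
    (A' : Finset Q) (hA' : A' ⊆ D.clA f u) (r : ℕ)
    (hr : ε * (4 * D.m / D.k f) ≤ d ^ r * A'.card) [Fintype Q] [Fintype R] :
    ((((D.cellSet f (u, v)).powersetCard r).filter fun Z =>
        ((D.comm f A' Z).card : ℝ) < d ^ r * A'.card).card : ℝ) ≤
      r * ε * (4 * D.m / D.k f) ^ (2 * r) := by
  refine le_trans ?_ (card_bad_fun_le D hε hd hd1 f u v hg hk hA hB A' hA' r hr)
  have h1 : (((D.cellSet f (u, v)).powersetCard r).filter fun Z =>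
        ((D.comm f A' Z).card : ℝ) < d ^ r * A'.card) ⊆
      ((univ : Finset (Fin r → Q × R)).filter fun y => (∀ i, y i ∈ D.cellSet f (u, v)) ∧
        ((D.comm f A' (univ.image y)).card : ℝ) < d ^ r * A'.card).image fun y => univ.image y := by
    intro Z hZ
    obtain ⟨hZ1, hZ2⟩ := Finset.mem_filter.1 hZ
    obtain ⟨hZ3, hZ4⟩ := Finset.mem_powersetCard.1 hZ1
    obtain ⟨y, hy⟩ := o2_enum Z hZ4
    refine Finset.mem_image.2 ⟨y, Finset.mem_filter.2 ⟨Finset.mem_univ _, fun i => ?_, ?_⟩, hy⟩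
    · apply hZ3
      rw [← hy]
      exact Finset.mem_image_of_mem y (Finset.mem_univ i)
    · rw [hy]
      exact hZ2
  exact_mod_cast (Finset.card_le_card h1).trans Finset.card_image_le

end Pool.Agent.Lib.H93D
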