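import Pool.Agent.Lib.H93D.O3

/-!
# H93D, O4: the function phi

See `H93B/PROOF.md`, section 3.
-/

set_option autoImplicit false

open Finset
open scoped Classical

namespace Pool.Agent.Lib.H93D

open Pool.Agent.Lib.H93A

variable {Q R M : Type} [Fintype Q] [Fintype R] [Fintype M] {D : Win Q R M} {Ω : Type} [Fintype Ω]

/-- `φ(a)` -/
noncomputable def phi (Y : Sys D Ω) (T : ℕ) (f : M) (c : ℕ × ℕ) (a : Q) : ℝ :=
  pr Y.μ (fun ω => (f ∈ Y.P ω ∧ Y.C ω f = c) ∧ (hist Y ω f).card < T ∧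
    ∀ y ∈ hist Y ω f, (a, y.2) ∈ D.Xf f)

/-- the sum of the `φ(a)` as an expectation -/
theorem o4_sum (Y : Sys D Ω) (T : ℕ) (f : M) (c : ℕ × ℕ) (A' : Finset Q) :
    ∑ a ∈ A', phi Y T f c a = ∑ ω, if ((f ∈ Y.P ω ∧ Y.C ω f = c) ∧ (hist Y ω f).card < T) then
      Y.μ ω * ((D.comm f A' (hist Y ω f)).card : ℝ) else 0 := by
  unfold phi pr
  rw [Finset.sum_comm]
  refine Finset.sum_congr rfl fun ω _ => ?_
  by_cases h : (f ∈ Y.P ω ∧ Y.C ω f = c) ∧ (hist Y ω f).card < T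
  · rw [if_pos h]
    unfold Win.comm
    rw [Finset.card_filter]
    push_cast
    rw [Finset.mul_sum]
    refine Finset.sum_congr rfl fun a _ => ?_
    by_cases h2 : ∀ y ∈ hist Y ω f, (a, y.2) ∈ D.Xf f
    · rw [if_pos ⟨h.1, h.2, h2⟩, if_pos h2, mul_one]
    · rw [if_neg (fun h3 => h2 h3.2.2), if_neg h2, mul_zero]
  · rw [if_neg h]
    refine Finset.sum_eq_zero fun a _ => ?_
    rw [if_neg]
    rintro ⟨h1, h2, -⟩
    exact h ⟨h1, h2⟩

/-- lower bound for the sum of the `φ(a)` (see `H93A.sum_phi_ge`, file `H93A/O3B.lean`; `FullCell` is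
replaced by `pr_full_le`): `(1/2 - 1/8 - 1/8)(p/k²) d^T |A'|` -/
theorem sum_phi_ge {kmax : ℕ} {K θ1 ε η d p κ κ' δ σl σu ξ Ca : ℝ}
    (hD : WinHyp D kmax K θ1 ε η d) {Y : Sys D Ω} (hY : SysHyp Y p κ' δ σl σu ξ Ca)
    (hκ : κ' ≤ κ) (hδ : δ ≤ 1 / 2) (hε : 0 < ε) (hd : 0 < d) (hd1 : d ≤ 1) (T : ℕ) (hT : 1 ≤ T)
    (hεT : 8 * (T : ℝ) ^ 2 * ε * (64 * K ^ 2 * κ + 1) ^ T ≤ 1) (hσ : 0 ≤ σu)
    (hT2 : 512 * K ^ 2 * σu ≤ T)
    (f : M) (u v : ℕ) (hu : u < D.k f) (hv : v < D.k f) (hg : D.Good ε d f u v)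
    (A' : Finset Q) (hA' : A' ⊆ D.clA f u)
    (hr : ε * (4 * D.m / D.k f) ≤ d ^ T * A'.card) :
    (p / (4 * (D.k f : ℝ) ^ 2)) * d ^ T * A'.card ≤ ∑ a ∈ A', phi Y T f (u, v) a := by
  have hp := hY.p_pos
  have hk1 : (1 : ℝ) ≤ D.k f := by exact_mod_cast hD.k_pos f
  have hk0 : (0 : ℝ) < D.k f := by linarith
  have hpk : 0 < p / (D.k f : ℝ) ^ 2 := by positivity
  have h1 := hY.s2l f (u, v) hu hv
  have h2 := pr_full_le hD hY hσ T hT hT2 f (u, v)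
  have h3 := pr_bad_hist_le hD hY hκ hε hd hd1 T hT hεT f u v hg A' hA' hr
  set G : Ω → Prop := fun ω => ((f ∈ Y.P ω ∧ Y.C ω f = (u, v)) ∧ (hist Y ω f).card < T) ∧
    ¬ ((D.comm f A' (hist Y ω f)).card : ℝ) < d ^ (hist Y ω f).card * A'.card with hG
  have h4 : p / (4 * (D.k f : ℝ) ^ 2) ≤ pr Y.μ G := by
    have h5 : pr Y.μ (fun ω => f ∈ Y.P ω ∧ Y.C ω f = (u, v)) ≤
        pr Y.μ (fun ω => (f ∈ Y.P ω ∧ Y.C ω f = (u, v)) ∧ T ≤ (hist Y ω f).card) +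
        (pr Y.μ (fun ω => (f ∈ Y.P ω ∧ Y.C ω f = (u, v)) ∧ (hist Y ω f).card < T ∧
        ((D.comm f A' (hist Y ω f)).card : ℝ) < d ^ (hist Y ω f).card * A'.card) +
        pr Y.μ G) := by
      refine le_trans ?_ ((pr_or_le hY.prob _ _).trans
        (add_le_add le_rfl (pr_or_le hY.prob _ _)))
      refine pr_mono hY.prob fun ω hω => ?_
      rcases le_or_gt T (hist Y ω f).card with h6 | h6
      · exact Or.inl ⟨hω, h6⟩
      · by_cases h7 : ((D.comm f A' (hist Y ω f)).card : ℝ) <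
            d ^ (hist Y ω f).card * A'.card
        · exact Or.inr (Or.inl ⟨hω, h6, h7⟩)
        · exact Or.inr (Or.inr ⟨⟨hω, h6⟩, h7⟩)
    have e1 : p / (4 * (D.k f : ℝ) ^ 2) = (p / (D.k f : ℝ) ^ 2) / 4 := by
      field_simp
    have e2 : p / (8 * (D.k f : ℝ) ^ 2) = (p / (D.k f : ℝ) ^ 2) / 8 := by
      field_simp
    have h6 : (1 / 2) * (p / (D.k f : ℝ) ^ 2) ≤ (1 - δ) * (p / (D.k f : ℝ) ^ 2) :=
      mul_le_mul_of_nonneg_right (by linarith) hpk.le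
    rw [e2] at h2 h3
    rw [e1]
    linarith
  have hc : (0 : ℝ) ≤ d ^ T * A'.card := by positivity
  rw [o4_sum]
  calc (p / (4 * (D.k f : ℝ) ^ 2)) * d ^ T * A'.card
      = (p / (4 * (D.k f : ℝ) ^ 2)) * (d ^ T * A'.card) := by ring
    _ ≤ pr Y.μ G * (d ^ T * A'.card) := mul_le_mul_of_nonneg_right h4 hc
    _ ≤ _ := by
        unfold pr
        rw [Finset.sum_mul]
        refine Finset.sum_le_sum fun ω _ => ?_
        by_cases h6 : G ω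
        · rw [if_pos h6, if_pos h6.1]
          refine mul_le_mul_of_nonneg_left ?_ (hY.prob.nonneg ω)
          refine le_trans ?_ (not_lt.1 h6.2)
          refine mul_le_mul_of_nonneg_right ?_ (Nat.cast_nonneg _)
          exact pow_le_pow_of_le_one hd.le hd1 h6.1.2.le
        · rw [if_neg h6, zero_mul]
          split_ifs
          · exact mul_nonneg (hY.prob.nonneg ω) (Nat.cast_nonneg _)
          · exact le_rfl

/-- At most `e' μ` elements `a` of the class have `φ(a) < d^T p/(8k²)` (see `H93A/O3C.lean`). -/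
theorem card_small_phi_le {kmax : ℕ} {K θ1 ε η d p κ κ' δ σl σu ξ Ca e' : ℝ}
    (hD : WinHyp D kmax K θ1 ε η d) {Y : Sys D Ω} (hY : SysHyp Y p κ' δ σl σu ξ Ca)
    (hκ : κ' ≤ κ) (hδ : δ ≤ 1 / 2) (hε : 0 < ε) (hd : 0 < d) (hd1 : d ≤ 1) (T : ℕ) (hT : 1 ≤ T)
    (he : ε ≤ d ^ T * e') (he0 : 0 < e')
    (hεT : 8 * (T : ℝ) ^ 2 * ε * (64 * K ^ 2 * κ + 1) ^ T ≤ 1) (hσ : 0 ≤ σu)
    (hT2 : 512 * K ^ 2 * σu ≤ T)
    (f : M) (u v : ℕ) (hu : u < D.k f) (hv : v < D.k f) (hg : D.Good ε d f u v) :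
    (((D.clA f u).filter fun a => phi Y T f (u, v) a < d ^ T * (p / (8 * (D.k f : ℝ) ^ 2))).card : ℝ)
      ≤ e' * (4 * D.m / D.k f) := by
  by_contra hcon
  have hcon' := not_le.1 hcon
  set A' := (D.clA f u).filter fun a => phi Y T f (u, v) a < d ^ T * (p / (8 * (D.k f : ℝ) ^ 2))
    with hA'
  have hm : (0 : ℝ) ≤ 4 * D.m / D.k f := by positivity
  have hdT : (0 : ℝ) < d ^ T := pow_pos hd T
  have hr : ε * (4 * D.m / D.k f) ≤ d ^ T * A'.card := by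
    calc ε * (4 * D.m / D.k f) ≤ (d ^ T * e') * (4 * D.m / D.k f) :=
          mul_le_mul_of_nonneg_right he hm
      _ = d ^ T * (e' * (4 * D.m / D.k f)) := by ring
      _ ≤ _ := mul_le_mul_of_nonneg_left hcon'.le hdT.le
  have h1 := sum_phi_ge hD hY hκ hδ hε hd hd1 T hT hεT hσ hT2 f u v hu hv hg A'
    (Finset.filter_subset _ _) hr
  have hne : A'.Nonempty := by
    rw [← Finset.card_pos]
    have h2 : (0 : ℝ) < A'.card := lt_of_le_of_lt (mul_nonneg he0.le hm) hcon'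
    exact_mod_cast h2
  have h2 : ∑ a ∈ A', phi Y T f (u, v) a < ∑ _a ∈ A', d ^ T * (p / (8 * (D.k f : ℝ) ^ 2)) :=
    Finset.sum_lt_sum_of_nonempty hne fun a ha => (Finset.mem_filter.1 ha).2
  rw [Finset.sum_const, nsmul_eq_mul] at h2
  have hp := hY.p_pos
  have hk1 : (1 : ℝ) ≤ D.k f := by exact_mod_cast hD.k_pos f
  have hk0 : (0 : ℝ) < D.k f := by linarith
  have h3 : (p / (4 * (D.k f : ℝ) ^ 2)) * d ^ T * A'.card =
      2 * (A'.card * (d ^ T * (p / (8 * (D.k f : ℝ) ^ 2)))) := by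
    field_simp
    ring
  have h4 : (0 : ℝ) ≤ A'.card * (d ^ T * (p / (8 * (D.k f : ℝ) ^ 2))) := by positivity
  rw [h3] at h1
  linarith

end Pool.Agent.Lib.H93D
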