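import Pool.Agent.Lib.H93D.O4

/-!
# H93D, O5: openness of one element

See `H93B/PROOF.md`, section 3.
-/

set_option autoImplicit false

open Finset
open scoped Classical

namespace Pool.Agent.Lib.H93D

open Pool.Agent.Lib.H93A

variable {Q R M : Type} [Fintype Q] [Fintype R] [Fintype M] {D : Win Q R M} {Ω : Type} [Fintype Ω]

/-- `P(f ∈ P, C f = cell, some y in the history with a_y = a or b_y = b) ≤ 2 μ (p/k²)(κ k²/N)` (see
`H93A.pr_touch_le`, file `H93A/O4A.lean`) -/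
theorem pr_touch_le {kmax : ℕ} {K θ1 ε η d p κ δ σl σu ξ Ca : ℝ} (hD : WinHyp D kmax K θ1 ε η d)
    {Y : Sys D Ω} (hY : SysHyp Y p κ δ σl σu ξ Ca) (x : Q × R) (f : M) (hx : x ∈ D.Xf f) :
    pr Y.μ (fun ω => (f ∈ Y.P ω ∧ Y.C ω f = D.cell f x) ∧
        ∃ y ∈ hist Y ω f, y.1 = x.1 ∨ y.2 = x.2) ≤
      2 * (4 * D.m / D.k f) * (p / (D.k f : ℝ) ^ 2) * (κ * (D.k f : ℝ) ^ 2 / D.N) := by
  have hp := hY.p_pos
  have hκ := hY.κ_nonneg
  have hN0 : (0 : ℝ) < D.N := by linarith [hD.N_pos]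
  set c := D.cell f x with hc
  set W := (D.Xf f).filter fun y => D.cell f y = c ∧ (y.1 = x.1 ∨ y.2 = x.2) with hW
  have hWc : (W.card : ℝ) ≤ 2 * (4 * D.m / D.k f) := by
    have h1 : W ⊆ ((D.clB f c.2).image fun b => (x.1, b)) ∪ ((D.clA f c.1).image fun a => (a, x.2)) := by
      intro y hy
      obtain ⟨hyX, hy3, hy4⟩ := Finset.mem_filter.1 hy
      rcases hy4 with h | h
      · refine Finset.mem_union_left _ (Finset.mem_image.2 ⟨y.2, Finset.mem_filter.2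
          ⟨Finset.mem_image.2 ⟨y, hyX, rfl⟩, ?_⟩, ?_⟩)
        · rw [← hy3]
          rfl
        · rw [← h]
      · refine Finset.mem_union_right _ (Finset.mem_image.2 ⟨y.1, Finset.mem_filter.2
          ⟨Finset.mem_image.2 ⟨y, hyX, rfl⟩, ?_⟩, ?_⟩)
        · rw [← hy3]
          rfl
        · rw [← h]
    have h2 := (Finset.card_le_card h1).trans ((Finset.card_union_le _ _).trans
      (add_le_add Finset.card_image_le Finset.card_image_le))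
    have h3 : (W.card : ℝ) ≤ (D.clB f c.2).card + (D.clA f c.1).card := by exact_mod_cast h2
    have h4 := hD.clA_le f c.1
    have h5 := hD.clB_le f c.2
    linarith
  have h1 : pr Y.μ (fun ω => (f ∈ Y.P ω ∧ Y.C ω f = c) ∧
        ∃ y ∈ hist Y ω f, y.1 = x.1 ∨ y.2 = x.2) ≤
      pr Y.μ (fun ω => ∃ y ∈ W, (f ∈ Y.P ω ∧ Y.C ω f = c) ∧
        ∀ y' ∈ ({y} : Finset (Q × R)), y' ∈ Y.S ω ∧ f ∈ Y.Vs ω y') := by
    refine pr_mono hY.prob fun ω hω => ?_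
    obtain ⟨h2, y, hy, hy2⟩ := hω
    have hyc := hist_sub_cellSet hY ω f c h2.2 hy
    refine ⟨y, Finset.mem_filter.2 ⟨(Finset.mem_filter.1 hyc).1, (Finset.mem_filter.1 hyc).2, hy2⟩,
      h2, ?_⟩
    intro y' hy'
    rw [Finset.mem_singleton.1 hy']
    exact Finset.mem_filter.1 hy
  refine h1.trans ((pr_exists_le hY.prob _ _).trans ?_)
  have h2 : ∀ y ∈ W, pr Y.μ (fun ω => (f ∈ Y.P ω ∧ Y.C ω f = c) ∧
      ∀ y' ∈ ({y} : Finset (Q × R)), y' ∈ Y.S ω ∧ f ∈ Y.Vs ω y') ≤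
      (p / (D.k f : ℝ) ^ 2) * (κ * (D.k f : ℝ) ^ 2 / D.N) := by
    intro y hy
    obtain ⟨hy1, hy3, hy4⟩ := Finset.mem_filter.1 hy
    have h3 := hY.s4 f c {y} (Finset.singleton_subset_iff.2 (Finset.mem_filter.1 hy1).1)
    rw [Finset.card_singleton, pow_one] at h3
    exact h3
  refine (Finset.sum_le_sum h2).trans ?_
  rw [Finset.sum_const, nsmul_eq_mul, mul_assoc (2 * (4 * (D.m : ℝ) / D.k f))]
  exact mul_le_mul_of_nonneg_right hWc (by positivity)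

/-- if `φ(a_x)` is not small then `x` is open at `f` with probability at least `ρ p/k²`, `ρ = d^T/16` (see
`H93A.pr_open_ge`, file `H93A/O4B.lean`) -/
theorem pr_open_ge {kmax : ℕ} {K θ1 ε η d p κ κ' δ σl σu ξ Ca : ℝ}
    (hD : WinHyp D kmax K θ1 ε η d) {Y : Sys D Ω} (hY : SysHyp Y p κ' δ σl σu ξ Ca)
    (hκ : κ' ≤ κ) (hκ0 : 0 ≤ κ) (hd : 0 < d) (T : ℕ)
    (hN : 256 * K * κ * kmax ≤ d ^ T * Real.sqrt D.N)
    (x : Q × R) (f : M) (hx : x ∈ D.Xf f)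
    (hphi : d ^ T * (p / (8 * (D.k f : ℝ) ^ 2)) ≤ phi Y T f (D.cell f x) x.1) :
    (d ^ T / 16) * (p / (D.k f : ℝ) ^ 2) ≤ pr Y.μ (Opn Y T x f) := by
  have hp := hY.p_pos
  have hκ' := hY.κ_nonneg
  have hK := hD.hK
  have ht := pr_touch_le hD hY x f hx
  have hk1 : (1 : ℝ) ≤ D.k f := by exact_mod_cast hD.k_pos f
  have hk0 : (0 : ℝ) < D.k f := by linarith
  have hN0 : (0 : ℝ) < D.N := by linarith [hD.N_pos]
  have hpk : 0 < p / (D.k f : ℝ) ^ 2 := by positivity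
  have h1 : phi Y T f (D.cell f x) x.1 ≤
      pr Y.μ (Opn Y T x f) +
      pr Y.μ (fun ω => (f ∈ Y.P ω ∧ Y.C ω f = D.cell f x) ∧
        ∃ y ∈ hist Y ω f, y.1 = x.1 ∨ y.2 = x.2) := by
    refine le_trans ?_ (pr_or_le hY.prob _ _)
    unfold phi
    refine pr_mono hY.prob fun ω hω => ?_
    obtain ⟨h2, h3, h4⟩ := hω
    by_cases h5 : ∃ y ∈ hist Y ω f, y.1 = x.1 ∨ y.2 = x.2
    · exact Or.inr ⟨h2, h5⟩
    · refine Or.inl ⟨h2, h3, fun y hy => ⟨h4 y hy, ?_, ?_⟩⟩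
      · intro h6
        exact h5 ⟨y, hy, Or.inl h6.symm⟩
      · intro h6
        exact h5 ⟨y, hy, Or.inr h6.symm⟩
  have hm : (D.m : ℝ) ≤ 2 * K * Real.sqrt D.N := by
    refine (sq_le_sq₀ (Nat.cast_nonneg _) (by positivity)).1 ?_
    calc (D.m : ℝ) ^ 2 ≤ 4 * K ^ 2 * D.N := hD.m_sq
      _ = (2 * K * Real.sqrt D.N) ^ 2 := by
          rw [mul_pow, mul_pow, Real.sq_sqrt hN0.le]
          ring
  have hsq : 0 < Real.sqrt D.N := Real.sqrt_pos.2 hN0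
  have hsq2 : Real.sqrt D.N * Real.sqrt D.N = D.N := Real.mul_self_sqrt hN0.le
  have hkk : (D.k f : ℝ) ≤ kmax := by exact_mod_cast hD.k_le f
  have h2 : 2 * (4 * D.m / D.k f) * (κ' * (D.k f : ℝ) ^ 2 / D.N) ≤ d ^ T / 16 := by
    have h3 : 2 * (4 * D.m / D.k f) * (κ' * (D.k f : ℝ) ^ 2 / D.N) =
        8 * D.m * κ' * D.k f / D.N := by
      field_simp
      ring
    rw [h3, div_le_iff₀ hN0]
    calc 8 * D.m * κ' * D.k f ≤ 8 * (2 * K * Real.sqrt D.N) * κ * kmax := by gcongr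
      _ = (256 * K * κ * kmax) * (Real.sqrt D.N / 16) := by ring
      _ ≤ (d ^ T * Real.sqrt D.N) * (Real.sqrt D.N / 16) :=
          mul_le_mul_of_nonneg_right hN (by positivity)
      _ = d ^ T / 16 * (Real.sqrt D.N * Real.sqrt D.N) := by ring
      _ = d ^ T / 16 * D.N := by rw [hsq2]
  have h3 : 2 * (4 * D.m / D.k f) * (p / (D.k f : ℝ) ^ 2) * (κ' * (D.k f : ℝ) ^ 2 / D.N) ≤
      (d ^ T / 16) * (p / (D.k f : ℝ) ^ 2) := by
    calc _ = (2 * (4 * D.m / D.k f) * (κ' * (D.k f : ℝ) ^ 2 / D.N)) * (p / (D.k f : ℝ) ^ 2) := by ring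
      _ ≤ _ := mul_le_mul_of_nonneg_right h2 hpk.le
  have h4 : d ^ T * (p / (8 * (D.k f : ℝ) ^ 2)) = 2 * ((d ^ T / 16) * (p / (D.k f : ℝ) ^ 2)) := by
    field_simp
    ring
  rw [h4] at hphi
  linarith

end Pool.Agent.Lib.H93D
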