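import Pool.Agent.Lib.H93D.O5

/-!
# H93D, O6: the exceptional elements

See `H93B/PROOF.md`, section 3.
-/

set_option autoImplicit false

open Finset
open scoped Classical

namespace Pool.Agent.Lib.H93D

open Pool.Agent.Lib.H93A

variable {Q R M : Type} [Fintype Q] [Fintype R] [Fintype M] {D : Win Q R M} {Ω : Type} [Fintype Ω]

/-- COROLLARY of 3.4: at most `(16 e' + η) m²` elements `x` of `X_f` are exceptional. Not good cell:
`bad_le`. Good cell and `P(open) < ρ p/k²`: by `pr_open_ge` the element `a_x` is one of the at most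
`e' μ` elements of `card_small_phi_le`; for every class pair at most `e' μ · μ` such `x` (`clB_le`), and at
most `k²` class pairs (`iA_lt`, `iB_lt`): `k² e' μ² = 16 e' m²`. -/
theorem card_exc_le {kmax : ℕ} {K θ1 ε η d p κ κ' δ σl σu ξ Ca e' : ℝ}
    (hD : WinHyp D kmax K θ1 ε η d) {Y : Sys D Ω} (hY : SysHyp Y p κ' δ σl σu ξ Ca)
    (hκ : κ' ≤ κ) (hκ0 : 0 ≤ κ) (hδ : δ ≤ 1 / 2) (hε : 0 < ε) (hd : 0 < d) (hd1 : d ≤ 1) (T : ℕ)
    (hT : 1 ≤ T) (he : ε ≤ d ^ T * e') (he0 : 0 < e')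
    (hεT : 8 * (T : ℝ) ^ 2 * ε * (64 * K ^ 2 * κ + 1) ^ T ≤ 1) (hσ : 0 ≤ σu)
    (hT2 : 512 * K ^ 2 * σu ≤ T) (hN : 256 * K * κ * kmax ≤ d ^ T * Real.sqrt D.N) (f : M) :
    (((D.Xf f).filter fun x => ¬ (D.Gd f (D.iA f x.1) (D.iB f x.2) ∧
        (d ^ T / 16) * (p / (D.k f : ℝ) ^ 2) ≤ pr Y.μ (Opn Y T x f))).card : ℝ) ≤
      (16 * e' + η) * (D.m : ℝ) ^ 2 := by
  have hN0 : (0 : ℝ) < D.N := by linarith [hD.N_pos]
  have hK := hD.hK
  set sm : ℕ × ℕ → Finset Q := fun c => (D.clA f c.1).filter fun a =>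
    phi Y T f c a < d ^ T * (p / (8 * (D.k f : ℝ) ^ 2)) with hsm
  set cs : Finset (ℕ × ℕ) := (range (D.k f) ×ˢ range (D.k f)).filter fun c =>
    D.Gd f c.1 c.2 with hcs
  have h1 : ((D.Xf f).filter fun x => ¬ (D.Gd f (D.iA f x.1) (D.iB f x.2) ∧
        (d ^ T / 16) * (p / (D.k f : ℝ) ^ 2) ≤ pr Y.μ (Opn Y T x f))) ⊆
      ((D.Xf f).filter fun x => ¬ D.Gd f (D.iA f x.1) (D.iB f x.2)) ∪
        cs.biUnion fun c => sm c ×ˢ D.clB f c.2 := by
    intro x hx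
    obtain ⟨hxf, h2⟩ := Finset.mem_filter.1 hx
    by_cases h3 : D.Gd f (D.iA f x.1) (D.iB f x.2)
    · refine Finset.mem_union_right _ (Finset.mem_biUnion.2 ⟨D.cell f x, ?_, ?_⟩)
      · exact Finset.mem_filter.2 ⟨Finset.mem_product.2 ⟨Finset.mem_range.2 (hD.iA_lt _ x hxf),
          Finset.mem_range.2 (hD.iB_lt _ x hxf)⟩, h3⟩
      · refine Finset.mem_product.2 ⟨Finset.mem_filter.2 ⟨Finset.mem_filter.2
          ⟨Finset.mem_image.2 ⟨x, hxf, rfl⟩, rfl⟩, ?_⟩, Finset.mem_filter.2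
          ⟨Finset.mem_image.2 ⟨x, hxf, rfl⟩, rfl⟩⟩
        by_contra h4
        exact h2 ⟨h3, pr_open_ge hD hY hκ hκ0 hd T hN x f hxf (not_lt.1 h4)⟩
    · exact Finset.mem_union_left _ (Finset.mem_filter.2 ⟨hxf, h3⟩)
  have h2 := (Finset.card_le_card h1).trans ((Finset.card_union_le _ _).trans
    (add_le_add le_rfl Finset.card_biUnion_le))
  have h3 : (((D.Xf f).filter fun x => ¬ (D.Gd f (D.iA f x.1) (D.iB f x.2) ∧
        (d ^ T / 16) * (p / (D.k f : ℝ) ^ 2) ≤ pr Y.μ (Opn Y T x f))).card : ℝ) ≤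
      (((D.Xf f).filter fun x => ¬ D.Gd f (D.iA f x.1) (D.iB f x.2)).card : ℝ) +
      ∑ c ∈ cs, ((sm c).card : ℝ) * ((D.clB f c.2).card : ℝ) := by
    have h4 : ((∑ c ∈ cs, (sm c ×ˢ D.clB f c.2).card : ℕ) : ℝ) =
        ∑ c ∈ cs, ((sm c).card : ℝ) * ((D.clB f c.2).card : ℝ) := by
      push_cast
      refine Finset.sum_congr rfl fun c _ => ?_
      rw [Finset.card_product, Nat.cast_mul]
    rw [← h4]
    exact_mod_cast h2
  refine h3.trans ?_
  have h5 : ∑ c ∈ cs, ((sm c).card : ℝ) * ((D.clB f c.2).card : ℝ) ≤ 16 * e' * (D.m : ℝ) ^ 2 := by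
    have hk0 : (0 : ℝ) < D.k f := by exact_mod_cast hD.k_pos f
    have hμ : (0 : ℝ) ≤ 4 * D.m / D.k f := by positivity
    have h6 : ∀ c ∈ cs, ((sm c).card : ℝ) * ((D.clB f c.2).card : ℝ) ≤
        (e' * (4 * D.m / D.k f)) * (4 * D.m / D.k f) := by
      intro c hc
      obtain ⟨hc1, hc2⟩ := Finset.mem_filter.1 hc
      obtain ⟨hc4, hc5⟩ := Finset.mem_product.1 hc1
      refine mul_le_mul ?_ (hD.clB_le f c.2) (Nat.cast_nonneg _) (mul_nonneg he0.le hμ)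
      exact card_small_phi_le hD hY hκ hδ hε hd hd1 T hT he he0 hεT hσ hT2 f c.1 c.2
        (Finset.mem_range.1 hc4) (Finset.mem_range.1 hc5) (hD.good f _ _ hc2)
    refine (Finset.sum_le_sum h6).trans ?_
    rw [Finset.sum_const, nsmul_eq_mul]
    have h7 : (cs.card : ℝ) ≤ (D.k f : ℝ) ^ 2 := by
      have h8 : cs.card ≤ D.k f * D.k f := by
        refine (Finset.card_filter_le _ _).trans ?_
        rw [Finset.card_product, Finset.card_range]
      calc (cs.card : ℝ) ≤ ((D.k f * D.k f : ℕ) : ℝ) := by exact_mod_cast h8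
        _ = _ := by
            push_cast
            ring
    calc (cs.card : ℝ) * ((e' * (4 * D.m / D.k f)) * (4 * D.m / D.k f))
        ≤ (D.k f : ℝ) ^ 2 * ((e' * (4 * D.m / D.k f)) * (4 * D.m / D.k f)) :=
          mul_le_mul_of_nonneg_right h7 (mul_nonneg (mul_nonneg he0.le hμ) hμ)
      _ = _ := by
          field_simp
          ring
  have h6 := hD.bad_le f
  linarith

end Pool.Agent.Lib.H93D
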