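import Pool.Agent.Lib.H93D.Defs

/-!
# H93D, P3: union bound over choices

See `H93B/PROOF.md`, section 3.
-/

set_option autoImplicit false

open Finset
open scoped Classical

namespace Pool.Agent.Lib.H93D

open Pool.Agent.Lib.H93A

/-- `∀ x ∈ Z` some `o` has `A x o`: union bound over the functions `Z → κ`. -/
theorem pr_choice_le {Ω : Type} [Fintype Ω] {μ : Ω → ℝ} (h : IsProb μ) {α κ : Type} [Fintype κ]
    (Z : Finset α) (A : α → κ → Ω → Prop) (B : Ω → Prop) :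
    pr μ (fun ω => B ω ∧ ∀ x ∈ Z, ∃ o, A x o ω) ≤
      ∑ z : (Z → κ), pr μ (fun ω => B ω ∧ ∀ x : Z, A x (z x) ω) := by
  refine (pr_mono h (B := fun ω => ∃ z ∈ (univ : Finset (Z → κ)), B ω ∧ ∀ x : Z, A x (z x) ω) ?_).trans
    (pr_exists_le h univ (fun (z : Z → κ) ω => B ω ∧ ∀ x : Z, A x (z x) ω))
  rintro ω ⟨hB, hA⟩
  choose z hz using fun x : Z => hA x x.2
  exact ⟨z, mem_univ _, hB, hz⟩

/-- `∑_z ∏_(x ∈ Z) G (z x) = (∑_o G o)^|Z|` -/
theorem sum_choice_prod {α κ : Type} [Fintype κ] (Z : Finset α) (G : κ → ℝ) :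
    ∑ z : (Z → κ), ∏ x : Z, G (z x) = (∑ o, G o) ^ Z.card := by
  have h1 := Finset.prod_univ_sum (fun _ : Z => (univ : Finset κ)) (fun _ o => G o)
  rw [Fintype.piFinset_univ] at h1
  rw [← h1, Finset.prod_const, Finset.card_univ, Fintype.card_coe]

/-- Markov's inequality for a cardinality: `T P(A ∧ T ≤ |h|) ≤ ∑_(y ∈ W) P(A ∧ y ∈ h)` if `h ⊆ W` on `A`. -/
theorem pr_card_ge_le {Ω X : Type} [Fintype Ω] {μ : Ω → ℝ} (h : IsProb μ) (A : Ω → Prop)
    (H : Ω → Finset X) (W : Finset X) (hW : ∀ ω, A ω → H ω ⊆ W) (T : ℕ) :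
    (T : ℝ) * pr μ (fun ω => A ω ∧ T ≤ (H ω).card) ≤ ∑ y ∈ W, pr μ (fun ω => A ω ∧ y ∈ H ω) := by
  unfold pr
  rw [Finset.sum_comm, Finset.mul_sum]
  refine Finset.sum_le_sum fun ω _ => ?_
  have h0 := h.nonneg ω
  beta_reduce
  by_cases hA : A ω
  · simp only [hA, true_and, Finset.sum_ite_mem, Finset.inter_eq_right.2 (hW ω hA),
      Finset.sum_const, nsmul_eq_mul]
    split_ifs with h1
    · have h2 : (T : ℝ) ≤ (H ω).card := by exact_mod_cast h1
      exact mul_le_mul_of_nonneg_right h2 h0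
    · rw [mul_zero]
      exact mul_nonneg (Nat.cast_nonneg _) h0
  · have h1 : ¬ (A ω ∧ T ≤ (H ω).card) := fun h2 => hA h2.1
    rw [if_neg h1, mul_zero]
    refine Finset.sum_nonneg fun y _ => ?_
    split_ifs
    · exact h0
    · exact le_rfl

end Pool.Agent.Lib.H93D
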