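import Pool.Agent.Lib.H93D.SDefs
import Pool.Agent.Lib.H93D.LDefs

/-!
# H93D, S1: superposition: probabilities

See `H93B/PROOF.md`, section 4.
-/

set_option autoImplicit false

open Finset
open scoped Classical

namespace Pool.Agent.Lib.H93D

open Pool.Agent.Lib.H93B (SelData SelHyp)
open Pool.Agent.Lib.Prob48

/-- The marginal of one coordinate. -/
theorem s1_marg {V : Type*} [Fintype V] [DecidableEq V] {α : V → Type*} [∀ v, Fintype (α v)] (μ : Weights α) (v : V)
    (F : α v → ℝ) : μ.E (fun ω => F (ω v)) = ∑ a, μ.w v a * F a := by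
  rw [← μ.E_avg v]
  have e : μ.avg v (fun ω => F (ω v)) = fun _ => ∑ a, μ.w v a * F a := by
    funext ω
    unfold Weights.avg
    simp
  rw [e, μ.E_const]

/-- The expectation for another instance. -/
theorem s1_prob {V : Type*} [Fintype V] [DecidableEq V] {α : V → Type*} [∀ v, Fintype (α v)] (μ : Weights α)
    (A : (∀ v, α v) → Prop) : μ.P A = ∑ ω, μ.pw ω * (if A ω then 1 else 0) := rfl

variable {Q R M : Type} [Fintype Q] [Fintype R] [Fintype M] {𝒯 : Type} [Fintype 𝒯] [DecidableEq 𝒯]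
  {D : SelData Q R M} {Y : 𝒯 → PSel Q R M}

/-- The product of the product spaces. -/
noncomputable def s1_W (Y : 𝒯 → PSel Q R M) : Weights (fun t : 𝒯 => ∀ i, (Y t).α i) where
  w := fun t ω => (Y t).μ.pw ω
  nonneg := fun t ω => (Y t).μ.pw_nonneg ω
  sum_one := fun t => (Y t).μ.sum_pw

theorem s1_pw (ω : ∀ q : (Σ t, (Y t).ι), (Y q.1).α q.2) :
    (supW Y).pw ω = (s1_W Y).pw (fun t => comp Y ω t) := by
  unfold Weights.pw
  rw [Fintype.prod_sigma]
  rfl

theorem s1_E (F : (∀ t, ∀ i, (Y t).α i) → ℝ) :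
    (supW Y).E (fun ω => F (fun t => comp Y ω t)) = (s1_W Y).E F := by
  unfold Weights.E
  have h := Equiv.sum_comp (Equiv.piCurry (fun (t : 𝒯) (i : (Y t).ι) => (Y t).α i))
    (fun η : (∀ t, ∀ i, (Y t).α i) => (s1_W Y).pw η * F η)
  rw [← h]
  refine Finset.sum_congr rfl fun ω _ => ?_
  rw [s1_pw]
  rfl

/-- an event on one component -/
theorem P_comp (t : 𝒯) (A : (∀ i, (Y t).α i) → Prop) :
    (supW Y).P (fun ω => A (comp Y ω t)) = (Y t).μ.P A := by
  have h1 := s1_E (Y := Y) (fun η => if A (η t) then 1 else 0)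
  have h2 := s1_marg (s1_W Y) t (fun a => if A a then 1 else 0)
  unfold Weights.P
  rw [h1, h2]
  rfl

/-- an event on the component `t` and an event which does not depend on it are independent
(`Weights.P_and_of_dependsOn` with the coordinates `⟨t, i⟩`, and `P_comp`) -/
theorem P_comp_and (t : 𝒯) (A : (∀ i, (Y t).α i) → Prop)
    (B : (∀ q : (Σ t, (Y t).ι), (Y q.1).α q.2) → Prop)
    (hB : ∀ ω ω', (∀ t', t' ≠ t → comp Y ω t' = comp Y ω' t') → (B ω ↔ B ω')) :
    (supW Y).P (fun ω => A (comp Y ω t) ∧ B ω) = (Y t).μ.P A * (supW Y).P B := by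
  rw [← P_comp (Y := Y) t A]
  refine Weights.P_and_of_dependsOn (supW Y) (univ.filter fun q : (Σ t, (Y t).ι) => q.1 = t) {q | q.1 ≠ t} ?_ ?_ ?_
  · intro q hq
    simp only [Finset.mem_filter, Finset.mem_univ, true_and] at hq
    simp [hq]
  · intro x y hxy
    have h : comp Y x t = comp Y y t := by
      funext i
      exact hxy ⟨t, i⟩ (by simp)
    simp only [h]
  · intro x y hxy
    refine propext (hB x y fun t' ht' => ?_)
    funext i
    exact hxy ⟨t', i⟩ ht'

/-- events on two different components -/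
theorem P_comp_two (t t' : 𝒯) (h : t ≠ t') (A : (∀ i, (Y t).α i) → Prop)
    (B : (∀ i, (Y t').α i) → Prop) :
    (supW Y).P (fun ω => A (comp Y ω t) ∧ B (comp Y ω t')) = (Y t).μ.P A * (Y t').μ.P B := by
  rw [P_comp_and t A (fun ω => B (comp Y ω t')), P_comp]
  intro ω ω' hω
  rw [hω t' h.symm]

end Pool.Agent.Lib.H93D
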