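import Pool.Agent.Lib.H93D.S1

/-!
# H93D, S2: superposition: small sets

See `H93B/PROOF.md`, section 4.
-/

set_option autoImplicit false

open Finset
open scoped Classical

namespace Pool.Agent.Lib.H93D

open Pool.Agent.Lib.H93B (SelData SelHyp)
open Pool.Agent.Lib.Prob48

variable {Q R M : Type} [Fintype Q] [Fintype R] [Fintype M] {𝒯 : Type} [Fintype 𝒯] [DecidableEq 𝒯]
  {D : SelData Q R M} {Y : 𝒯 → PSel Q R M}

/-- The recursion. -/
theorem s2_step (x : Q × R) (Z : Finset (Q × R)) :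
    (supW Y).P (fun ω => ∀ y ∈ insert x Z, ∃ t, y ∈ (Y t).S (comp Y ω t)) ≤
      ∑ W ∈ Z.powerset, (∑ t, (Y t).μ.P (fun ω => insert x W ⊆ (Y t).S ω)) *
        (supW Y).P (fun ω => ∀ y ∈ Z \ W, ∃ t, y ∈ (Y t).S (comp Y ω t)) := by
  have h1 : (supW Y).P (fun ω => ∀ y ∈ insert x Z, ∃ t, y ∈ (Y t).S (comp Y ω t)) ≤
      (supW Y).P (fun ω => ∃ W ∈ Z.powerset, ∃ t ∈ (univ : Finset 𝒯), (insert x W ⊆ (Y t).S (comp Y ω t)) ∧
        ∀ y ∈ Z \ W, ∃ t', t' ≠ t ∧ y ∈ (Y t').S (comp Y ω t')) := by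
    refine Weights.P_mono _ fun ω h => ?_
    obtain ⟨t, ht⟩ := h x (Finset.mem_insert_self _ _)
    refine ⟨Z.filter fun y => y ∈ (Y t).S (comp Y ω t), ?_, t, Finset.mem_univ _, ?_, ?_⟩
    · rw [Finset.mem_powerset]
      exact Finset.filter_subset _ _
    · intro y hy
      rw [Finset.mem_insert, Finset.mem_filter] at hy
      rcases hy with rfl | hy
      · exact ht
      · exact hy.2
    · intro y hy
      rw [Finset.mem_sdiff, Finset.mem_filter] at hy
      obtain ⟨t', ht'⟩ := h y (Finset.mem_insert_of_mem hy.1)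
      refine ⟨t', ?_, ht'⟩
      rintro rfl
      exact hy.2 ⟨hy.1, ht'⟩
  refine h1.trans ((Weights.P_exists_le _ _ _).trans (Finset.sum_le_sum fun W _ => ?_))
  refine (Weights.P_exists_le _ _ _).trans ?_
  rw [Finset.sum_mul]
  refine Finset.sum_le_sum fun t _ => ?_
  rw [P_comp_and t (fun ω => insert x W ⊆ (Y t).S ω)
    (fun ω => ∀ y ∈ Z \ W, ∃ t', t' ≠ t ∧ y ∈ (Y t').S (comp Y ω t'))]
  · refine mul_le_mul_of_nonneg_left ?_ (Weights.P_nonneg _ _)
    refine Weights.P_mono _ fun ω h y hy => ?_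
    obtain ⟨t', -, ht'⟩ := h y hy
    exact ⟨t', ht'⟩
  · intro ω ω' hω
    constructor
    · intro h y hy
      obtain ⟨t', h1, h2⟩ := h y hy
      exact ⟨t', h1, by rw [← hω t' h1]; exact h2⟩
    · intro h y hy
      obtain ⟨t', h1, h2⟩ := h y hy
      exact ⟨t', h1, by rw [hω t' h1]; exact h2⟩

/-- A set of label-disjoint elements is covered by the union of the selections with probability at most
`(1 + 2^(q+1)/1000) U^q/N^q`, `q = |Z| ≤ 4`. Strong induction on `|Z|`: choose `x ∈ Z`, the system `t` with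
`x ∈ S_t` and `W = {y ∈ Z | y ∈ S_t}`; the rest `Z \ W` is covered by the other systems:
`P(Z) ≤ ∑_(x ∈ W ⊆ Z) ∑_t P(W ⊆ S_t) P(Z \ W covered)` (`P_comp_and`). `W = {x}`:
`∑_t P ≤ U/N` (`hup`); `|W| = i ≥ 2`: `∑_t (β_t/N)^i ≤ U^i/(1000 N^i)` (`hβ`), at most `2^(q-1)` such `W`,
and `1 + 2^(j+1)/1000 ≤ 2` for `j ≤ 4`. -/
theorem P_cover_le {N U : ℝ} {X : 𝒯 → Finset (Q × R)} {lo up β kl Ca : 𝒯 → ℝ} {nc d : 𝒯 → ℕ}
    (hY : ∀ t, OutHyp D (Y t) N (X t) (lo t) (up t) (β t) (kl t) (Ca t) (nc t) (d t))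
    (hN : 1 ≤ N) (hU : 0 ≤ U) (hup : ∑ t, up t ≤ U) (hβ0 : ∀ t, 0 ≤ β t)
    (hβ : ∀ i : ℕ, 2 ≤ i → i ≤ 4 → ∑ t, β t ^ i ≤ U ^ i / 1000)
    (Z : Finset (Q × R)) (hZ : Z ⊆ D.H) (hZ4 : Z.card ≤ 4)
    (hd : ∀ x ∈ Z, ∀ y ∈ Z, x ≠ y → Disjoint (D.J x) (D.J y)) :
    (supW Y).P (fun ω => ∀ x ∈ Z, ∃ t, x ∈ (Y t).S (comp Y ω t)) ≤
      (1 + 2 ^ (Z.card + 1) / 1000) * (U / N) ^ Z.card := by
  have hN0 : 0 < N := lt_of_lt_of_le one_pos hN
  have hUN : 0 ≤ U / N := div_nonneg hU hN0.le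
  induction Z using Finset.strongInduction with
  | _ Z ih =>
  rcases Z.eq_empty_or_nonempty with rfl | ⟨x, hx⟩
  · refine (Weights.P_le_one _ _).trans ?_
    norm_num
  · set Z' := Z.erase x with hZ'
    have hZe : Z = insert x Z' := (Finset.insert_erase hx).symm
    have hxZ' : x ∉ Z' := Finset.notMem_erase x Z
    have hZ'Z : Z' ⊆ Z := Finset.erase_subset _ _
    have hcard : Z.card = Z'.card + 1 := by
      rw [hZe, Finset.card_insert_of_notMem hxZ']
    -- the induction hypothesis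
    have hrest : ∀ W ⊆ Z', (supW Y).P (fun ω => ∀ y ∈ Z' \ W, ∃ t, y ∈ (Y t).S (comp Y ω t)) ≤
        (1 + 2 ^ ((Z' \ W).card + 1) / 1000) * (U / N) ^ (Z' \ W).card := by
      intro W hW
      have h1 : Z' \ W ⊂ Z := lt_of_le_of_lt (Finset.sdiff_subset) (Finset.erase_ssubset hx)
      refine ih _ h1 (h1.subset.trans hZ) ((Finset.card_le_card h1.subset).trans hZ4) ?_
      intro a ha b hb
      exact hd a (h1.subset ha) b (h1.subset hb)
    have hone : ∀ t, (Y t).μ.P (fun ω => insert x (∅ : Finset (Q × R)) ⊆ (Y t).S ω) ≤ up t / N := by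
      intro t
      refine le_trans ?_ ((hY t).c2u x (hZ hx))
      refine Weights.P_mono _ fun ω h => h (Finset.mem_insert_self _ _)
    have hsum1 : ∑ t, (Y t).μ.P (fun ω => insert x (∅ : Finset (Q × R)) ⊆ (Y t).S ω) ≤ U / N := by
      refine (Finset.sum_le_sum fun t _ => hone t).trans ?_
      rw [← Finset.sum_div]
      exact div_le_div_of_nonneg_right hup hN0.le
    have hsum2 : ∀ W ⊆ Z', W ≠ ∅ → ∑ t, (Y t).μ.P (fun ω => insert x W ⊆ (Y t).S ω) ≤
        (U / N) ^ (W.card + 1) / 1000 := by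
      intro W hW hne
      have hW1 : 1 ≤ W.card := Finset.card_pos.2 (Finset.nonempty_iff_ne_empty.2 hne)
      have hWc := Finset.card_le_card hW
      have hxW : x ∉ W := fun h => hxZ' (hW h)
      have hins : insert x W ⊆ Z := by
        rw [hZe]
        exact Finset.insert_subset_insert _ hW
      have h3 : ∀ t, (Y t).μ.P (fun ω => insert x W ⊆ (Y t).S ω) ≤ (β t / N) ^ (W.card + 1) := by
        intro t
        have h4 := (hY t).c3 (insert x W) (hins.trans hZ) (fun a ha b hb => hd a (hins ha) b (hins hb))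
        rwa [Finset.card_insert_of_notMem hxW] at h4
      refine (Finset.sum_le_sum fun t _ => h3 t).trans ?_
      simp only [div_pow]
      rw [← Finset.sum_div]
      have h5 := hβ (W.card + 1) (by omega) (by omega)
      have h6 : (∑ t, β t ^ (W.card + 1)) / N ^ (W.card + 1) ≤ U ^ (W.card + 1) / 1000 / N ^ (W.card + 1) :=
        div_le_div_of_nonneg_right h5 (by positivity)
      refine h6.trans (le_of_eq ?_)
      ring
    have hterm : ∀ W ∈ Z'.powerset.erase ∅, (∑ t, (Y t).μ.P (fun ω => insert x W ⊆ (Y t).S ω)) *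
        (supW Y).P (fun ω => ∀ y ∈ Z' \ W, ∃ t, y ∈ (Y t).S (comp Y ω t)) ≤ 2 / 1000 * (U / N) ^ Z.card := by
      intro W hW
      rw [Finset.mem_erase, Finset.mem_powerset] at hW
      have h1 := hsum2 W hW.2 hW.1
      have h2 := hrest W hW.2
      have hc : (Z' \ W).card + W.card = Z'.card := Finset.card_sdiff_add_card_eq_card hW.2
      have h3 : (2 : ℝ) ^ ((Z' \ W).card + 1) ≤ 2 ^ 4 := by
        refine pow_le_pow_right₀ (by norm_num) ?_
        omega
      have h4 : (1 + 2 ^ ((Z' \ W).card + 1) / 1000 : ℝ) ≤ 2 := by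
        norm_num at h3 ⊢
        linarith
      have h5 : (supW Y).P (fun ω => ∀ y ∈ Z' \ W, ∃ t, y ∈ (Y t).S (comp Y ω t)) ≤
          2 * (U / N) ^ (Z' \ W).card :=
        h2.trans (mul_le_mul_of_nonneg_right h4 (by positivity))
      calc (∑ t, (Y t).μ.P (fun ω => insert x W ⊆ (Y t).S ω)) *
          (supW Y).P (fun ω => ∀ y ∈ Z' \ W, ∃ t, y ∈ (Y t).S (comp Y ω t)) ≤
          ((U / N) ^ (W.card + 1) / 1000) * (2 * (U / N) ^ (Z' \ W).card) :=
            mul_le_mul h1 h5 (Weights.P_nonneg _ _) (by positivity)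
        _ = 2 / 1000 * ((U / N) ^ (W.card + 1) * (U / N) ^ (Z' \ W).card) := by ring
        _ = _ := by
          rw [← pow_add]
          congr 2
          omega
    have hfirst : (∑ t, (Y t).μ.P (fun ω => insert x (∅ : Finset (Q × R)) ⊆ (Y t).S ω)) *
        (supW Y).P (fun ω => ∀ y ∈ Z' \ ∅, ∃ t, y ∈ (Y t).S (comp Y ω t)) ≤
          (1 + 2 ^ Z.card / 1000) * (U / N) ^ Z.card := by
      have h2 := hrest ∅ (Finset.empty_subset _)
      have hc : (Z' \ ∅).card = Z'.card := by rw [Finset.sdiff_empty]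
      rw [hc] at h2
      calc _ ≤ (U / N) * ((1 + 2 ^ (Z'.card + 1) / 1000) * (U / N) ^ Z'.card) :=
            mul_le_mul hsum1 h2 (Weights.P_nonneg _ _) hUN
        _ = _ := by
          rw [hcard, pow_succ (U / N)]
          ring
    have hstep := s2_step (Y := Y) x Z'
    rw [← hZe] at hstep
    refine hstep.trans ?_
    rw [← Finset.add_sum_erase _ _ (Finset.empty_mem_powerset Z')]
    have hsum := Finset.sum_le_card_nsmul (Z'.powerset.erase ∅) _ _ hterm
    have hcp : (Z'.powerset.erase ∅).card ≤ 2 ^ Z'.card := by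
      rw [← Finset.card_powerset]
      exact Finset.card_le_card (Finset.erase_subset _ _)
    have hlast : (Z'.powerset.erase ∅).card • (2 / 1000 * (U / N) ^ Z.card) ≤
        2 ^ Z.card / 1000 * (U / N) ^ Z.card := by
      rw [nsmul_eq_mul]
      have h7 : ((Z'.powerset.erase ∅).card : ℝ) ≤ 2 ^ Z'.card := by exact_mod_cast hcp
      calc ((Z'.powerset.erase ∅).card : ℝ) * (2 / 1000 * (U / N) ^ Z.card) ≤
          2 ^ Z'.card * (2 / 1000 * (U / N) ^ Z.card) := mul_le_mul_of_nonneg_right h7 (by positivity)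
        _ = _ := by
          rw [hcard, pow_succ (2 : ℝ)]
          ring
    have htot := add_le_add hfirst (hsum.trans hlast)
    refine htot.trans (le_of_eq ?_)
    rw [pow_succ (2 : ℝ)]
    ring

end Pool.Agent.Lib.H93D
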