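import Pool.Agent.Lib.H93D.S1

/-!
# H93D, S3: superposition: one element

See `H93B/PROOF.md`, section 4.
-/

set_option autoImplicit false

open Finset
open scoped Classical

namespace Pool.Agent.Lib.H93D

open Pool.Agent.Lib.H93B (SelData SelHyp)
open Pool.Agent.Lib.Prob48

variable {Q R M : Type} [Fintype Q] [Fintype R] [Fintype M] {𝒯 : Type} [Fintype 𝒯] [DecidableEq 𝒯]
  {D : SelData Q R M} {Y : 𝒯 → PSel Q R M}

theorem s3_mem (ω : ∀ q : (Σ t, (Y t).ι), (Y q.1).α q.2) (x : Q × R) : x ∈ supS D Y ω ↔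
    (∃ t, x ∈ (Y t).S (comp Y ω t)) ∧ ∀ t t' x', x ∈ (Y t).S (comp Y ω t) → t' ≠ t → x' ∈ (Y t').S (comp Y ω t') →
      ¬ (x' = x ∨ D.conf x x') := by
  unfold supS
  simp only [Finset.mem_filter, Finset.mem_biUnion, Finset.mem_univ, true_and]

/-- upper bound: union over the systems -/
theorem sup_t2u {N U : ℝ} {X : 𝒯 → Finset (Q × R)} {lo up β kl Ca : 𝒯 → ℝ} {nc d : 𝒯 → ℕ}
    (hY : ∀ t, OutHyp D (Y t) N (X t) (lo t) (up t) (β t) (kl t) (Ca t) (nc t) (d t))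
    (hN : 1 ≤ N) (hup : ∑ t, up t ≤ U) (x : Q × R) (hx : x ∈ D.H) :
    (supSel D Y).μ.P (fun ω => x ∈ (supSel D Y).S ω) ≤ U / N := by
  have hN0 : 0 < N := lt_of_lt_of_le one_pos hN
  have h1 : (supSel D Y).μ.P (fun ω => x ∈ (supSel D Y).S ω) ≤
      (supW Y).P (fun ω => ∃ t ∈ (univ : Finset 𝒯), x ∈ (Y t).S (comp Y ω t)) := by
    refine Weights.P_mono (supW Y) fun ω h => ?_
    obtain ⟨t, ht⟩ := ((s3_mem ω x).1 h).1
    exact ⟨t, Finset.mem_univ _, ht⟩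
  refine h1.trans ((Weights.P_exists_le _ _ _).trans ?_)
  have h2 : ∀ t ∈ (univ : Finset 𝒯), (supW Y).P (fun ω => x ∈ (Y t).S (comp Y ω t)) ≤ up t / N := by
    intro t _
    rw [P_comp t (fun ω => x ∈ (Y t).S ω)]
    exact (hY t).c2u x hx
  refine (Finset.sum_le_sum h2).trans ?_
  rw [← Finset.sum_div]
  exact div_le_div_of_nonneg_right hup hN0.le

/-- The probability of a rival in another system. -/
theorem s3_rival {N K U : ℝ} {j0 : ℕ} (h : SelHyp D K N j0) {X : 𝒯 → Finset (Q × R)}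
    {lo up β kl Ca : 𝒯 → ℝ} {nc d : 𝒯 → ℕ}
    (hY : ∀ t, OutHyp D (Y t) N (X t) (lo t) (up t) (β t) (kl t) (Ca t) (nc t) (d t))
    (hU0 : 0 ≤ U) (hup : ∑ t, up t ≤ U) (hU : 8 * (K + 1) * U ≤ 1)
    (x : Q × R) (hx : x ∈ D.H) (t : 𝒯) :
    (supW Y).P (fun ω => ∃ t', t' ≠ t ∧ ∃ x' ∈ (Y t').S (comp Y ω t'), x' = x ∨ D.conf x x') ≤ 1 / 8 := by
  have hN0 : 0 < N := lt_of_lt_of_le one_pos h.hN
  set Rv := D.H.filter fun x' => x' = x ∨ D.conf x x' with hRv
  have hcard : (Rv.card : ℝ) ≤ K * N + 1 := by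
    have h1 : Rv ⊆ insert x (D.H.filter fun y => D.conf x y) := by
      intro y hy
      rw [hRv, Finset.mem_filter] at hy
      rw [Finset.mem_insert, Finset.mem_filter]
      rcases hy.2 with h2 | h2
      · exact Or.inl h2
      · exact Or.inr ⟨hy.1, h2⟩
    have h2 := (Finset.card_le_card h1).trans (Finset.card_insert_le _ _)
    have h3 : (Rv.card : ℝ) ≤ ((D.H.filter fun y => D.conf x y).card : ℝ) + 1 := by exact_mod_cast h2
    linarith [h.conf_card x hx]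
  have h1 : (supW Y).P (fun ω => ∃ t', t' ≠ t ∧ ∃ x' ∈ (Y t').S (comp Y ω t'), x' = x ∨ D.conf x x') ≤
      (supW Y).P (fun ω => ∃ x' ∈ Rv, ∃ t' ∈ (univ : Finset 𝒯), x' ∈ (Y t').S (comp Y ω t')) := by
    refine Weights.P_mono _ fun ω h => ?_
    obtain ⟨t', -, x', hx', hc⟩ := h
    refine ⟨x', ?_, t', Finset.mem_univ _, hx'⟩
    rw [hRv, Finset.mem_filter]
    refine ⟨?_, hc⟩
    have h3 := (hY t').t1 _ hx'
    unfold PSel.act at h3
    exact (Finset.mem_filter.1 h3).1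
  have h2 : ∀ x' ∈ Rv, (supW Y).P (fun ω => ∃ t' ∈ (univ : Finset 𝒯), x' ∈ (Y t').S (comp Y ω t')) ≤ U / N := by
    intro x' hx'
    have hx'H : x' ∈ D.H := (Finset.mem_filter.1 hx').1
    refine (Weights.P_exists_le _ _ _).trans ?_
    have h3 : ∀ t ∈ (univ : Finset 𝒯), (supW Y).P (fun ω => x' ∈ (Y t).S (comp Y ω t)) ≤ up t / N := by
      intro t _
      rw [P_comp t (fun ω => x' ∈ (Y t).S ω)]
      exact (hY t).c2u x' hx'H
    refine (Finset.sum_le_sum h3).trans ?_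
    rw [← Finset.sum_div]
    exact div_le_div_of_nonneg_right hup hN0.le
  have h3 := h1.trans ((Weights.P_exists_le _ _ _).trans (Finset.sum_le_card_nsmul _ _ _ h2))
  refine h3.trans ?_
  rw [nsmul_eq_mul]
  have hUN : 0 ≤ U / N := div_nonneg hU0 hN0.le
  have h4 : (Rv.card : ℝ) * (U / N) ≤ (K * N + 1) * (U / N) := mul_le_mul_of_nonneg_right hcard hUN
  refine h4.trans ?_
  have h5 : (K * N + 1) * (U / N) = K * U + U / N := by
    field_simp
  rw [h5]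
  have h6 : U / N ≤ U := div_le_self hU0 h.hN
  linarith

/-- Lower bound: the events `x ∈ S_t`, no rival of `x` in another system, are pairwise disjoint (different
`t`) and contained in `x ∈ S`. Their probability is at least
`P(x ∈ S_t) - ∑_(t' ≠ t) ∑_(x' = x or conf x x') P(x ∈ S_t) P(x' ∈ S_t')
≥ P(x ∈ S_t)(1 - (K N + 1) U/N) ≥ (7/8) P(x ∈ S_t)` (`P_comp_two`, `conf_card`, `8 (K + 1) U ≤ 1`). -/
theorem sup_t2l {N K U L : ℝ} {j0 : ℕ} (h : SelHyp D K N j0) {X : 𝒯 → Finset (Q × R)}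
    {lo up β kl Ca : 𝒯 → ℝ} {nc d : 𝒯 → ℕ}
    (hY : ∀ t, OutHyp D (Y t) N (X t) (lo t) (up t) (β t) (kl t) (Ca t) (nc t) (d t))
    (hU0 : 0 ≤ U) (hup : ∑ t, up t ≤ U) (hU : 8 * (K + 1) * U ≤ 1) (hlo : ∀ t, 0 ≤ lo t)
    (x : Q × R) (hx : x ∈ D.H) (hL : L ≤ ∑ t ∈ univ.filter (fun t => x ∈ X t), lo t) :
    7 / 8 * L / N ≤ (supSel D Y).μ.P (fun ω => x ∈ (supSel D Y).S ω) := by
  have hN0 : 0 < N := lt_of_lt_of_le one_pos h.hN
  set bad : 𝒯 → (∀ q : (Σ t, (Y t).ι), (Y q.1).α q.2) → Prop := fun t ω =>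
    ∃ t', t' ≠ t ∧ ∃ x' ∈ (Y t').S (comp Y ω t'), x' = x ∨ D.conf x x' with hbad
  have hE : ∀ t, (supW Y).P (fun ω => x ∈ (Y t).S (comp Y ω t) ∧ ¬ bad t ω) =
      (Y t).μ.P (fun ω => x ∈ (Y t).S ω) * (supW Y).P (fun ω => ¬ bad t ω) := by
    intro t
    refine P_comp_and t (fun ω => x ∈ (Y t).S ω) (fun ω => ¬ bad t ω) ?_
    intro ω ω' hω
    refine not_congr ?_
    constructor
    · rintro ⟨t', h1, x', h2, h3⟩
      exact ⟨t', h1, x', by rw [← hω t' h1]; exact h2, h3⟩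
    · rintro ⟨t', h1, x', h2, h3⟩
      exact ⟨t', h1, x', by rw [hω t' h1]; exact h2, h3⟩
  have hsum : ∑ t ∈ univ.filter (fun t => x ∈ X t),
      (supW Y).P (fun ω => x ∈ (Y t).S (comp Y ω t) ∧ ¬ bad t ω) ≤
      (supSel D Y).μ.P (fun ω => x ∈ (supSel D Y).S ω) := by
    change _ ≤ (supW Y).P (fun ω => x ∈ supS D Y ω)
    unfold Weights.P
    rw [← Weights.E_sum]
    refine Weights.E_mono _ fun ω => ?_
    by_cases hex : ∃ t ∈ univ.filter (fun t => x ∈ X t), x ∈ (Y t).S (comp Y ω t) ∧ ¬ bad t ω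
    · obtain ⟨t, ht, h1, h2⟩ := hex
      have huniq : ∀ t', x ∈ (Y t').S (comp Y ω t') → t' = t := by
        intro t' h3
        by_contra hne
        exact h2 ⟨t', hne, x, h3, Or.inl rfl⟩
      have hmem : x ∈ supS D Y ω := by
        rw [s3_mem]
        refine ⟨⟨t, h1⟩, ?_⟩
        intro t1 t1' x' h3 h4 h5 h6
        have h7 := huniq t1 h3
        subst h7
        exact h2 ⟨t1', h4, x', h5, h6⟩
      rw [if_pos hmem, Finset.sum_eq_single t]
      · split_ifs <;> norm_num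
      · intro t' _ hne
        rw [if_neg]
        rintro ⟨h3, -⟩
        exact hne (huniq t' h3)
      · intro hnot
        exact absurd ht hnot
    · rw [Finset.sum_eq_zero]
      · split_ifs <;> norm_num
      · intro t ht
        rw [if_neg]
        intro h1
        exact hex ⟨t, ht, h1⟩
  refine le_trans ?_ hsum
  have hterm : ∀ t ∈ univ.filter (fun t => x ∈ X t), 7 / 8 * (lo t / N) ≤
      (supW Y).P (fun ω => x ∈ (Y t).S (comp Y ω t) ∧ ¬ bad t ω) := by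
    intro t ht
    rw [hE, Weights.P_not]
    have h1 := (hY t).c2l x (Finset.mem_filter.1 ht).2
    have h2 := s3_rival h hY hU0 hup hU x hx t
    have h3 : 0 ≤ lo t / N := div_nonneg (hlo t) hN0.le
    have h4 : 7 / 8 ≤ 1 - (supW Y).P (bad t) := by
      have : (supW Y).P (bad t) ≤ 1 / 8 := h2
      linarith
    calc 7 / 8 * (lo t / N) = (lo t / N) * (7 / 8) := by ring
      _ ≤ (Y t).μ.P (fun ω => x ∈ (Y t).S ω) * (1 - (supW Y).P (bad t)) :=
        mul_le_mul h1 h4 (by norm_num) (h3.trans h1)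
  refine le_trans ?_ (Finset.sum_le_sum hterm)
  rw [← Finset.mul_sum, ← Finset.sum_div, mul_div_assoc]
  refine mul_le_mul_of_nonneg_left ?_ (by norm_num)
  exact div_le_div_of_nonneg_right hL hN0.le

end Pool.Agent.Lib.H93D
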