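import Pool.Agent.Lib.H93D.S1

/-!
# H93D, S4: superposition: locality

See `H93B/PROOF.md`, section 4.
-/

set_option autoImplicit false

open Finset
open scoped Classical

namespace Pool.Agent.Lib.H93D

open Pool.Agent.Lib.H93B (SelData SelHyp)
open Pool.Agent.Lib.Prob48

variable {Q R M : Type} [Fintype Q] [Fintype R] [Fintype M] {𝒯 : Type} [Fintype 𝒯] [DecidableEq 𝒯]
  {D : SelData Q R M} {Y : 𝒯 → PSel Q R M}

theorem s4_mem (ω : ∀ q : (Σ t, (Y t).ι), (Y q.1).α q.2) (x : Q × R) : x ∈ supS D Y ω ↔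
    (∃ t, x ∈ (Y t).S (comp Y ω t)) ∧ ∀ t t' x', x ∈ (Y t).S (comp Y ω t) → t' ≠ t → x' ∈ (Y t').S (comp Y ω t') →
      ¬ (x' = x ∨ D.conf x x') := by
  unfold supS
  simp only [Finset.mem_filter, Finset.mem_biUnion, Finset.mem_univ, true_and]

/-- the active elements are the union of the active elements of the components -/
theorem sup_act (ω : ∀ i, (supSel D Y).α i) :
    (supSel D Y).act D ω = univ.biUnion fun t => (Y t).act D (comp Y ω t) := by
  ext x
  unfold PSel.act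
  simp only [Finset.mem_filter, Finset.mem_biUnion, Finset.mem_univ, true_and]
  constructor
  · rintro ⟨h1, ⟨t, i⟩, h2, h3⟩
    exact ⟨t, h1, i, h2, h3⟩
  · rintro ⟨t, h1, i, h2, h3⟩
    exact ⟨h1, ⟨t, i⟩, h2, h3⟩

/-- The number of coordinates with a given location. -/
theorem s4_card (l : (Q × R) ⊕ M) : (univ.filter fun q : (Σ t, (Y t).ι) => (Y q.1).loc q.2 = l).card ≤
    ∑ t, (univ.filter fun i => (Y t).loc i = l).card := by
  have h1 : (univ.filter fun q : (Σ t, (Y t).ι) => (Y q.1).loc q.2 = l) =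
      (univ : Finset 𝒯).sigma fun t => univ.filter fun i => (Y t).loc i = l := by
    ext ⟨t, i⟩
    simp only [Finset.mem_filter, Finset.mem_univ, true_and, Finset.mem_sigma]
  rw [h1, Finset.card_sigma]

/-- One direction of the change. -/
theorem s4_change {ω ω' : ∀ q : (Σ t, (Y t).ι), (Y q.1).α q.2} {t0 : 𝒯}
    (hω : ∀ t, t ≠ t0 → comp Y ω t = comp Y ω' t) {x : Q × R} (h1 : x ∈ supS D Y ω) (h2 : x ∉ supS D Y ω') :
    ∃ x', (x' = x ∨ D.conf x x') ∧ ¬ (x' ∈ (Y t0).S (comp Y ω t0) ↔ x' ∈ (Y t0).S (comp Y ω' t0)) := by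
  by_contra hcon
  push Not at hcon
  have hx := hcon x (Or.inl rfl)
  have hxall : ∀ t, x ∈ (Y t).S (comp Y ω t) ↔ x ∈ (Y t).S (comp Y ω' t) := by
    intro t
    by_cases ht : t = t0
    · subst ht
      exact hx
    · rw [hω t ht]
  rw [s4_mem] at h1
  obtain ⟨⟨t, ht⟩, h3⟩ := h1
  apply h2
  rw [s4_mem]
  refine ⟨⟨t, (hxall t).1 ht⟩, ?_⟩
  intro t1 t1' x' h4 h5 h6 h7
  have h8 := (hxall t1).2 h4
  have h9 : x' ∈ (Y t1').S (comp Y ω t1') := by
    by_cases ht : t1' = t0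
    · subst ht
      exact (hcon x' h7).2 h6
    · rw [hω t1' ht]
      exact h6
  exact h3 t1 t1' x' h8 h5 h9 h7

/-- (T0), (Tw), (T1), (T5) for the superposition. (T5): the changed coordinate belongs to one component
`t0`; if the status of `x` changes then the status of `x` or of some `x'` with `conf x x'` in `S_(t0)` changes:
`Reach` of length `d t0 ≤ d'` in the active sets of the component, plus one step; `x` itself is active in
one of the two points. -/
theorem sup_loc {N : ℝ} {X : 𝒯 → Finset (Q × R)} {lo up β kl Ca : 𝒯 → ℝ} {nc d : 𝒯 → ℕ} {d' : ℕ}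
    (hY : ∀ t, OutHyp D (Y t) N (X t) (lo t) (up t) (β t) (kl t) (Ca t) (nc t) (d t))
    (hN : 1 ≤ N) (hd : ∀ t, d t ≤ d') :
    SelLoc D (supSel D Y) N (∑ t, Ca t) (∑ t, nc t) (d' + 1) := by
  have hN0 : 0 < N := lt_of_lt_of_le one_pos hN
  have hact : ∀ ω x, x ∈ (supSel D Y).act D ω ↔ ∃ t, x ∈ (Y t).act D (comp Y ω t) := by
    intro ω x
    rw [sup_act]
    simp only [Finset.mem_biUnion, Finset.mem_univ, true_and]
  have hSact : ∀ ω, (supSel D Y).S ω ⊆ (supSel D Y).act D ω := by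
    intro ω x hx
    obtain ⟨⟨t, ht⟩, -⟩ := (s4_mem ω x).1 hx
    rw [hact]
    exact ⟨t, (hY t).t1 _ ht⟩
  refine ⟨?_, ?_, hSact, ?_, ?_⟩
  · intro l
    exact (s4_card (Y := Y) l).trans (Finset.sum_le_sum fun t _ => (hY t).t0 l)
  · intro x hx
    have h1 : (supSel D Y).μ.P (fun ω => x ∈ (supSel D Y).act D ω) ≤
        (supW Y).P (fun ω => ∃ t ∈ (univ : Finset 𝒯), x ∈ (Y t).act D (comp Y ω t)) := by
      refine Weights.P_mono (supW Y) fun ω h => ?_
      obtain ⟨t, ht⟩ := (hact ω x).1 h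
      exact ⟨t, Finset.mem_univ _, ht⟩
    refine h1.trans ((Weights.P_exists_le _ _ _).trans ?_)
    rw [Finset.sum_div]
    refine Finset.sum_le_sum fun t _ => ?_
    rw [P_comp t (fun ω => x ∈ (Y t).act D ω)]
    exact (hY t).tw x hx
  · rintro ⟨t0, i0⟩ ω ω' hω x hx
    have hcomp : ∀ t, t ≠ t0 → comp Y ω t = comp Y ω' t := by
      intro t ht
      funext i
      refine hω ⟨t, i⟩ ?_
      intro he
      exact ht (congrArg Sigma.fst he)
    have hcomp0 : ∀ i', i' ≠ i0 → comp Y ω t0 i' = comp Y ω' t0 i' := by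
      intro i' hi'
      refine hω ⟨t0, i'⟩ ?_
      intro he
      exact hi' (sigma_mk_injective (β := fun t => (Y t).ι) he)
    have hex : (∃ x', (x' = x ∨ D.conf x x') ∧
        ¬ (x' ∈ (Y t0).S (comp Y ω t0) ↔ x' ∈ (Y t0).S (comp Y ω' t0))) ∧
        x ∈ (supSel D Y).act D ω ∪ (supSel D Y).act D ω' := by
      by_cases h1 : x ∈ supS D Y ω
      · have h2 : x ∉ supS D Y ω' := fun h2 => hx ⟨fun _ => h2, fun _ => h1⟩
        exact ⟨s4_change hcomp h1 h2, Finset.mem_union_left _ (hSact ω h1)⟩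
      · have h2 : x ∈ supS D Y ω' := by
          by_contra h2
          exact hx ⟨fun h => absurd h h1, fun h => absurd h h2⟩
        obtain ⟨x', h3, h4⟩ := s4_change (fun t ht => (hcomp t ht).symm) h2 h1
        exact ⟨⟨x', h3, fun h => h4 h.symm⟩, Finset.mem_union_right _ (hSact ω' h2)⟩
    obtain ⟨⟨x', h3, h4⟩, hxact⟩ := hex
    have h5 := (hY t0).t5 i0 (comp Y ω t0) (comp Y ω' t0) hcomp0 x' h4
    have hsub : (Y t0).act D (comp Y ω t0) ∪ (Y t0).act D (comp Y ω' t0) ⊆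
        (supSel D Y).act D ω ∪ (supSel D Y).act D ω' := by
      refine Finset.union_subset_union ?_ ?_
      · intro y hy
        exact (hact ω y).2 ⟨t0, hy⟩
      · intro y hy
        exact (hact ω' y).2 ⟨t0, hy⟩
    have h6 : Reach (sadj D) (D.near ((supSel D Y).loc ⟨t0, i0⟩)) ((supSel D Y).act D ω ∪ (supSel D Y).act D ω')
        d' x' := (h5.mono (fun _ _ h => h) (fun _ h => h) hsub).mono_d (hd t0)
    rcases h3 with h3 | h3
    · subst h3
      exact h6.succ
    · exact Reach.step hxact (Or.inr (Or.inl h3)) h6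
  · rintro ⟨t, i⟩
    exact (hY t).t6 i

end Pool.Agent.Lib.H93D
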