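import Pool.Agent.Lib.H93D.S2
import Pool.Agent.Lib.H93D.S3
import Pool.Agent.Lib.H93D.S4

/-!
# H93D, S5: superposition: assembly

See `H93B/PROOF.md`, section 4.
-/

set_option autoImplicit false

open Finset
open scoped Classical

namespace Pool.Agent.Lib.H93D

open Pool.Agent.Lib.H93B (SelData SelHyp)
open Pool.Agent.Lib.Prob48

variable {Q R M : Type} [Fintype Q] [Fintype R] [Fintype M] {𝒯 : Type} [Fintype 𝒯] [DecidableEq 𝒯]
  {D : SelData Q R M} {Y : 𝒯 → PSel Q R M}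

theorem s5_mem (ω : ∀ i, (supSel D Y).α i) (x : Q × R) : x ∈ (supSel D Y).S ω ↔
    (∃ t, x ∈ (Y t).S (comp Y ω t)) ∧ ∀ t t' x', x ∈ (Y t).S (comp Y ω t) → t' ≠ t →
      x' ∈ (Y t').S (comp Y ω t') → ¬ (x' = x ∨ D.conf x x') := by
  exact mem_supSel D Y ω x

/-- THE SUPERPOSITION. `t1c`: two elements of the same `S_t`: `c1`; of different ones: excluded by `supS`.
`t3`: `supS ⊆ ⋃ S_t`, `P_cover_le`, `1 + 2^5/1000 ≤ 2`. `t4`: `supS ⊆ ⋃ S_t`, `c4`. -/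
theorem sup_selection {N K a lam sig kill L Cw : ℝ} {j0 nc' : ℕ} (h : SelHyp D K N j0)
    {X : 𝒯 → Finset (Q × R)}
    {lo up β kl Ca : 𝒯 → ℝ} {nc d : 𝒯 → ℕ} {d' : ℕ}
    (hY : ∀ t, OutHyp D (Y t) N (X t) (lo t) (up t) (β t) (kl t) (Ca t) (nc t) (d t))
    (hd : ∀ t, d t ≤ d') (hσ : 0 ≤ sig * a) (hup : ∑ t, up t ≤ sig * a)
    (hU : 8 * (K + 1) * (sig * a) ≤ 1) (hlo : ∀ t, 0 ≤ lo t) (hβ0 : ∀ t, 0 ≤ β t)
    (hβ : ∀ i : ℕ, 2 ≤ i → i ≤ 4 → ∑ t, β t ^ i ≤ (sig * a) ^ i / 1000)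
    (hL : ∀ x ∈ D.H, L ≤ ∑ t ∈ univ.filter (fun t => x ∈ X t), lo t) (hlam : lam * a ≤ 7 / 8 * L)
    (hkl : ∑ t, kl t ≤ kill * a) (hCw : ∑ t, Ca t ≤ Cw) (hnc : ∑ t, nc t ≤ nc') :
    Selection D (supSel D Y) N a lam sig kill Cw nc' (d' + 1) := by
  have hN := h.hN
  have hloc := sup_loc hY hN hd
  have hcov : ∀ ω, ∀ x ∈ (supSel D Y).S ω, ∃ t, x ∈ (Y t).S (comp Y ω t) := by
    intro ω x hx
    exact ((s5_mem ω x).1 hx).1
  have hsg0 : 0 ≤ sig * a / N := div_nonneg hσ (by linarith)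
  refine
    { t0 := fun l => (hloc.t0 l).trans hnc
      tw := fun x hx => (hloc.tw x hx).trans (div_le_div_of_nonneg_right hCw (by linarith))
      t1 := hloc.t1
      t5 := hloc.t5
      t6 := hloc.t6
      t1c := ?_
      t2l := ?_
      t2u := ?_
      t3 := ?_
      t4 := ?_ }
  · intro ω x hx y hy hxy hc
    obtain ⟨⟨t, ht⟩, h2⟩ := (s5_mem ω x).1 hx
    obtain ⟨⟨t', ht'⟩, _⟩ := (s5_mem ω y).1 hy
    by_cases htt : t' = t
    · subst htt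
      exact (hY t').c1 _ x ht y ht' hxy hc
    · exact h2 t t' y ht htt ht' (Or.inr hc)
  · intro x hx
    have h1 := sup_t2l h hY hσ hup hU hlo x hx (hL x hx)
    refine le_trans ?_ h1
    exact div_le_div_of_nonneg_right hlam (by linarith)
  · intro x hx
    exact sup_t2u hY hN hup x hx
  · intro Z hZ hZ4 hZd
    have h1 := P_cover_le hY hN hσ hup hβ0 hβ Z hZ hZ4 hZd
    have h2 : (supSel D Y).μ.P (fun ω => Z ⊆ (supSel D Y).S ω) ≤
        (supW Y).P (fun ω => ∀ x ∈ Z, ∃ t, x ∈ (Y t).S (comp Y ω t)) := by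
      refine Weights.P_mono _ ?_
      intro ω hω x hx
      exact hcov ω x (hω hx)
    have h3 : (1 + 2 ^ (Z.card + 1) / 1000 : ℝ) ≤ 2 := by
      have : (2 : ℝ) ^ (Z.card + 1) ≤ 2 ^ 5 := pow_le_pow_right₀ (by norm_num) (by omega)
      linarith
    refine h2.trans (h1.trans ?_)
    exact mul_le_mul_of_nonneg_right h3 (pow_nonneg hsg0 _)
  · intro f
    have h1 : (supSel D Y).μ.P (fun ω => ∃ x ∈ (supSel D Y).S ω, f ∈ D.J x) ≤
        ∑ t, (supW Y).P (fun ω => ∃ x ∈ (Y t).S (comp Y ω t), f ∈ D.J x) := by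
      refine le_trans (Weights.P_mono _ (B := fun ω => ∃ t, ∃ x ∈ (Y t).S (comp Y ω t), f ∈ D.J x)
        ?_) ?_
      · rintro ω ⟨x, hx, hf⟩
        obtain ⟨t, ht⟩ := hcov ω x hx
        exact ⟨t, x, ht, hf⟩
      · refine le_trans (le_of_eq (Weights.P_congr _ fun ω => ?_)) (Weights.P_exists_le _ Finset.univ
          (fun t ω => ∃ x ∈ (Y t).S (comp Y ω t), f ∈ D.J x))
        simp
    refine h1.trans (le_trans ?_ hkl)
    refine Finset.sum_le_sum fun t _ => ?_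
    rw [P_comp t (fun ω => ∃ x ∈ (Y t).S ω, f ∈ D.J x)]
    exact (hY t).c4 f

end Pool.Agent.Lib.H93D
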