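import Pool.Agent.Lib.H93D.SelDefs

/-!
# H93D, S8: from dependent coordinates to `H93B.Sel`

See `H93B/PROOF.md`, section 2.
-/

set_option autoImplicit false

open Finset
open scoped Classical

namespace Pool.Agent.Lib.H93D

open Pool.Agent.Lib.Prob48
open Pool.Agent.Lib.H93B (SelData SelHyp)

variable {Q R M : Type} [Fintype Q] [Fintype R] [Fintype M]

/-- the good coordinates: located in `H` or at a label -/
def GoodI (D : SelData Q R M) (Y : PSel Q R M) : Type :=
  {i : Y.ι // ∀ x, Y.loc i = Sum.inl x → x ∈ D.H}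

noncomputable instance (D : SelData Q R M) (Y : PSel Q R M) : Fintype (GoodI D Y) := by
  unfold GoodI
  infer_instance

noncomputable instance (D : SelData Q R M) (Y : PSel Q R M) : DecidableEq (GoodI D Y) :=
  Classical.decEq _

/-- the common value type: a bit (is the value `one`?) and a point of the whole product space -/
abbrev SVal (Y : PSel Q R M) : Type := Bool × (∀ i, Y.α i)

/-- the decoding of a value at the coordinate `i` (`dflt i` is a value which is not `one`) -/
noncomputable def dcd (Y : PSel Q R M) (dflt : ∀ i, Y.α i) (i : Y.ι) (v : SVal Y) : Y.α i :=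
  if v.1 = decide (Y.one i (v.2 i)) then v.2 i else dflt i

/-- the weights: `pw g` if the bit is right -/
noncomputable def sW (D : SelData Q R M) (Y : PSel Q R M) : Weights (fun _ : GoodI D Y => SVal Y) where
  w := fun i v => if v.1 = decide (Y.one i.1 (v.2 i.1)) then Y.μ.pw v.2 else 0
  nonneg := by
    intro i v
    split_ifs
    · exact Y.μ.pw_nonneg _
    · exact le_rfl
  sum_one := by
    intro i
    rw [Fintype.sum_prod_type_right]
    have h : ∀ g : (∀ i, Y.α i), ∑ c : Bool, (if c = decide (Y.one i.1 (g i.1)) then Y.μ.pw g else 0) =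
        Y.μ.pw g := by
      intro g
      rw [Finset.sum_ite_eq']
      exact if_pos (Finset.mem_univ _)
    simp only [h]
    exact Y.μ.sum_pw

/-- the extension by the default values -/
noncomputable def extd (D : SelData Q R M) (Y : PSel Q R M) (dflt : ∀ i, Y.α i)
    (w : GoodI D Y → SVal Y) : ∀ i, Y.α i :=
  fun i => if h : ∀ x, Y.loc i = Sum.inl x → x ∈ D.H then dcd Y dflt i (w ⟨i, h⟩) else dflt i

/-- pushing forward product weights along coordinatewise maps -/
theorem s8_map {J : Type} [Fintype J] [DecidableEq J] {γ δ : J → Type} [∀ i, Fintype (γ i)]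
    [∀ i, Fintype (δ i)] (p : ∀ i, γ i → ℝ) (φ : ∀ i, γ i → δ i) (F : (∀ i, δ i) → ℝ) :
    ∑ w : (∀ i, γ i), (∏ i, p i (w i)) * F (fun i => φ i (w i)) =
      ∑ u : (∀ i, δ i), (∏ i, ∑ v, if φ i v = u i then p i v else 0) * F u := by
  have h1 : ∀ u : (∀ i, δ i), (∏ i, ∑ v, if φ i v = u i then p i v else 0) * F u =
      ∑ w : (∀ i, γ i), if (fun i => φ i (w i)) = u then (∏ i, p i (w i)) * F u else 0 := by
    intro u
    rw [Finset.prod_univ_sum, Fintype.piFinset_univ, Finset.sum_mul]
    refine Finset.sum_congr rfl fun w _ => ?_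
    by_cases hw : (fun i => φ i (w i)) = u
    · rw [if_pos hw]
      congr 1
      refine Finset.prod_congr rfl fun i _ => ?_
      rw [if_pos (congrFun hw i)]
    · rw [if_neg hw]
      have h2 : ∃ i, φ i (w i) ≠ u i := by
        by_contra hcon
        push Not at hcon
        exact hw (funext hcon)
      obtain ⟨i, hi⟩ := h2
      rw [Finset.prod_eq_zero (Finset.mem_univ i), zero_mul]
      rw [if_neg hi]
  simp only [h1]
  rw [Finset.sum_comm]
  refine Finset.sum_congr rfl fun w _ => ?_
  rw [Finset.sum_ite_eq]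
  rw [if_pos (Finset.mem_univ _)]

/-- summing out coordinates -/
theorem s8_restrict {I : Type} [Fintype I] [DecidableEq I] {α : I → Type} [∀ i, Fintype (α i)]
    (μ : Weights α) (q : I → Prop) (F : (∀ i : {i // q i}, α i.1) → ℝ) :
    ∑ ω : (∀ i, α i), μ.pw ω * F (fun i => ω i.1) =
      ∑ u : (∀ i : {i // q i}, α i.1), (∏ i : {i // q i}, μ.w i.1 (u i)) * F u := by
  have hν : ∑ v : (∀ i : {i // ¬ q i}, α i.1), ∏ i : {i // ¬ q i}, μ.w i.1 (v i) = 1 := by
    have h := (Finset.prod_univ_sum (fun _ : {i // ¬ q i} => univ)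
      (fun (i : {i // ¬ q i}) (a : α i.1) => μ.w i.1 a)).symm
    rw [Fintype.piFinset_univ] at h
    rw [h]
    exact Finset.prod_eq_one fun i _ => μ.sum_one i.1
  rw [← Equiv.sum_comp (Equiv.piEquivPiSubtypeProd q α).symm]
  rw [Fintype.sum_prod_type]
  refine Finset.sum_congr rfl fun u _ => ?_
  have h1 : ∀ v : (∀ i : {i // ¬ q i}, α i.1),
      μ.pw ((Equiv.piEquivPiSubtypeProd q α).symm (u, v)) *
        F (fun i => (Equiv.piEquivPiSubtypeProd q α).symm (u, v) i.1) =
      (∏ i : {i // q i}, μ.w i.1 (u i)) * F u * ∏ i : {i // ¬ q i}, μ.w i.1 (v i) := by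
    intro v
    have e1 : (fun i : {i // q i} => (Equiv.piEquivPiSubtypeProd q α).symm (u, v) i.1) = u := by
      funext i
      rw [Equiv.piEquivPiSubtypeProd_symm_apply]
      exact dif_pos i.2
    have e2 : μ.pw ((Equiv.piEquivPiSubtypeProd q α).symm (u, v)) =
        (∏ i : {i // q i}, μ.w i.1 (u i)) * ∏ i : {i // ¬ q i}, μ.w i.1 (v i) := by
      unfold Weights.pw
      rw [← Fintype.prod_subtype_mul_prod_subtype q]
      congr 1
      · refine Finset.prod_congr rfl fun i _ => ?_
        rw [Equiv.piEquivPiSubtypeProd_symm_apply]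
        rw [dif_pos i.2]
      · refine Finset.prod_congr rfl fun i _ => ?_
        rw [Equiv.piEquivPiSubtypeProd_symm_apply]
        rw [dif_neg i.2]
    rw [e1, e2]
    ring
  simp only [h1]
  rw [← Finset.mul_sum, hν, mul_one]

theorem s8_restrict' {I : Type} [Fintype I] [DecidableEq I] {α : I → Type} [∀ i, Fintype (α i)]
    (μ : Weights α) (q : I → Prop) [Fintype {i // q i}] [DecidableEq {i // q i}]
    (F : (∀ i : {i // q i}, α i.1) → ℝ) :
    ∑ ω : (∀ i, α i), μ.pw ω * F (fun i => ω i.1) =
      ∑ u : (∀ i : {i // q i}, α i.1), (∏ i : {i // q i}, μ.w i.1 (u i)) * F u := by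
  have h := s8_restrict μ q F
  rw [h]
  have e1 : (Subtype.fintype q : Fintype {i // q i}) = ‹Fintype {i // q i}› := Subsingleton.elim _ _
  have e2 : (fun a b => Subtype.instDecidableEq a b : DecidableEq {i // q i}) =
    ‹DecidableEq {i // q i}› := Subsingleton.elim _ _
  subst e1
  subst e2
  rfl

/-- the marginal of a decoded value -/
theorem s8_marg (Y : PSel Q R M) (dflt : ∀ i, Y.α i) (i : Y.ι) (a : Y.α i) :
    ∑ v : SVal Y, (if dcd Y dflt i v = a then
      (if v.1 = decide (Y.one i (v.2 i)) then Y.μ.pw v.2 else 0) else 0) = Y.μ.w i a := by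
  have h1 : ∀ g : (∀ i, Y.α i), ∑ c : Bool,
      (if dcd Y dflt i (c, g) = a then
        (if c = decide (Y.one i (g i)) then Y.μ.pw g else 0) else 0) =
      Y.μ.pw g * (if g i = a then 1 else 0) := by
    intro g
    have h2 : ∀ c : Bool, (if dcd Y dflt i (c, g) = a then
        (if c = decide (Y.one i (g i)) then Y.μ.pw g else 0) else 0) =
        if c = decide (Y.one i (g i)) then Y.μ.pw g * (if g i = a then 1 else 0) else 0 := by
      intro c
      by_cases hc : c = decide (Y.one i (g i))
      · have h3 : dcd Y dflt i (c, g) = g i := if_pos hc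
        rw [h3, if_pos hc, if_pos hc]
        by_cases ha : g i = a
        · rw [if_pos ha, if_pos ha, mul_one]
        · rw [if_neg ha, if_neg ha, mul_zero]
      · rw [if_neg hc, if_neg hc, ite_self]
    simp only [h2]
    rw [Finset.sum_ite_eq']
    exact if_pos (Finset.mem_univ _)
  rw [Fintype.sum_prod_type_right]
  simp only [h1]
  have h5 : Y.μ.E (fun g => if g i = a then (1 : ℝ) else 0) = Y.μ.w i a := by
    rw [← Y.μ.E_avg i]
    have h6 : Y.μ.avg i (fun g => if g i = a then (1 : ℝ) else 0) = fun _ => Y.μ.w i a := by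
      funext g
      unfold Weights.avg
      have h8 : ∀ x : Y.α i, Y.μ.w i x * (if Function.update g i x i = a then (1 : ℝ) else 0) =
          if x = a then Y.μ.w i x else 0 := by
        intro x
        rw [Function.update_self]
        by_cases hx : x = a
        · rw [if_pos hx, if_pos hx, mul_one]
        · rw [if_neg hx, if_neg hx, mul_zero]
      simp only [h8]
      rw [Finset.sum_ite_eq']
      exact if_pos (Finset.mem_univ _)
    rw [h6]
    exact Y.μ.E_const _
  exact h5

/-- the extension of a function on the good coordinates by the default values -/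
noncomputable def s8ext (D : SelData Q R M) (Y : PSel Q R M) (dflt : ∀ i, Y.α i)
    (u : ∀ i : GoodI D Y, Y.α i.1) : ∀ i, Y.α i :=
  fun i => if h : ∀ x, Y.loc i = Sum.inl x → x ∈ D.H then u ⟨i, h⟩ else dflt i

/-- Transport: if `A` does not depend on the coordinates outside `GoodI`, then its probability is the
same. (The decoded value of the coordinate `i` has the weights `Y.μ.w i`: marginal of `pw`; the
coordinates outside `GoodI` can be summed out.) -/
theorem P_extd (D : SelData Q R M) (Y : PSel Q R M) (dflt : ∀ i, Y.α i) (A : (∀ i, Y.α i) → Prop)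
    (hA : ∀ ω ω', (∀ i, (∀ x, Y.loc i = Sum.inl x → x ∈ D.H) → ω i = ω' i) → (A ω ↔ A ω')) :
    (sW D Y).P (fun w => A (extd D Y dflt w)) = Y.μ.P A := by
  have h1 : (sW D Y).P (fun w => A (extd D Y dflt w)) =
      ∑ w : (∀ _ : GoodI D Y, SVal Y), (∏ i, (sW D Y).w i (w i)) *
        (fun u : (∀ i : GoodI D Y, Y.α i.1) => if A (s8ext D Y dflt u) then (1 : ℝ) else 0)
          (fun i => dcd Y dflt i.1 (w i)) := by
    unfold Weights.P Weights.E
    refine Finset.sum_congr rfl fun w _ => ?_
    rfl
  have h2 := @s8_restrict' Y.ι _ _ Y.α _ Y.μ (fun i => ∀ x, Y.loc i = Sum.inl x → x ∈ D.H)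
    (instFintypeGoodI D Y) (instDecidableEqGoodI D Y)
    (fun u => if A (s8ext D Y dflt u) then (1 : ℝ) else 0)
  have h3 : Y.μ.P A = ∑ ω : (∀ i, Y.α i), Y.μ.pw ω * (fun u => if A (s8ext D Y dflt u) then (1 : ℝ) else 0)
      (fun i : {i // ∀ x, Y.loc i = Sum.inl x → x ∈ D.H} => ω i.1) := by
    unfold Weights.P Weights.E
    refine Finset.sum_congr rfl fun ω _ => ?_
    congr 1
    have h4 : A ω ↔ A (s8ext D Y dflt fun i => ω i.1) := by
      refine hA _ _ fun i hi => ?_
      unfold s8ext
      rw [dif_pos hi]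
    by_cases h5 : A ω
    · exact (if_pos h5).trans (if_pos (h4.1 h5)).symm
    · exact (if_neg h5).trans (if_neg fun h6 => h5 (h4.2 h6)).symm
  have h10 := s8_map (γ := fun _ : GoodI D Y => SVal Y) (δ := fun i : GoodI D Y => Y.α i.1)
    (fun i v => (sW D Y).w i v) (fun i v => dcd Y dflt i.1 v)
    (fun u : (∀ i : GoodI D Y, Y.α i.1) => if A (s8ext D Y dflt u) then (1 : ℝ) else 0)
  refine h1.trans (h10.trans (Eq.trans ?_ (h3.trans h2).symm))
  have h7 : ∀ (i : GoodI D Y) (a : Y.α i.1),
      ∑ v : SVal Y, (if dcd Y dflt i.1 v = a then (sW D Y).w i v else 0) = Y.μ.w i.1 a :=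
    fun i a => s8_marg Y dflt i.1 a
  simp only [h7]
  rfl

/-- changing one coordinate located outside `H` -/
theorem s8_one {D : SelData Q R M} {Y : PSel Q R M} {N Cw : ℝ} {nc d : ℕ}
    (h : SelLoc D Y N Cw nc d) (i : Y.ι) (hi : ¬ ∀ x, Y.loc i = Sum.inl x → x ∈ D.H)
    (ω ω' : ∀ i, Y.α i) (hω : ∀ i', i' ≠ i → ω i' = ω' i') : Y.S ω = Y.S ω' := by
  push Not at hi
  obtain ⟨x0, hx0, hx1⟩ := hi
  have key : ∀ (d : ℕ) (x : Q × R),
      ¬ Reach (sadj D) (D.near (Y.loc i)) (Y.act D ω ∪ Y.act D ω') d x := by
    have hend : ∀ x, x ∈ Y.act D ω ∪ Y.act D ω' → ¬ D.near (Y.loc i) x := by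
      intro x hx hn
      have hxH : x ∈ D.H := by
        rcases Finset.mem_union.1 hx with h1 | h1
        · exact (Finset.mem_filter.1 h1).1
        · exact (Finset.mem_filter.1 h1).1
      rw [hx0] at hn
      rcases hn with h1 | ⟨f, -, h1⟩
      · rw [Sum.inl_injective h1] at hx1
        exact hx1 hxH
      · cases h1
    intro d
    induction d with
    | zero => exact fun x h1 => hend x h1.1 h1.2
    | succ d ih =>
      intro x h1
      rcases h1.2 with h2 | ⟨y, -, h2⟩
      · exact hend x h1.1 h2
      · exact ih y h2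
  ext x
  by_contra hx
  exact key d x (h.t5 i ω ω' hω x hx)

/-- `S` does not depend on a coordinate located at `x ∉ H` (`t5`: the end of the path would be `x`, which
is in no active set), hence (changing the coordinates one after the other) not on all these coordinates
together. -/
theorem S_good {D : SelData Q R M} {Y : PSel Q R M} {N Cw : ℝ} {nc d : ℕ}
    (h : SelLoc D Y N Cw nc d) (ω ω' : ∀ i, Y.α i)
    (hω : ∀ i, (∀ x, Y.loc i = Sum.inl x → x ∈ D.H) → ω i = ω' i) : Y.S ω = Y.S ω' := by
  have key : ∀ (s : Finset Y.ι) (ω ω' : ∀ i, Y.α i),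
      (∀ i, i ∉ s → ω i = ω' i) →
      (∀ i, (∀ x, Y.loc i = Sum.inl x → x ∈ D.H) → ω i = ω' i) → Y.S ω = Y.S ω' := by
    intro s
    induction s using Finset.induction_on with
    | empty =>
      intro ω ω' h1 _
      rw [show ω = ω' from funext fun i => h1 i (Finset.notMem_empty i)]
    | insert i s hi ih =>
      intro ω ω' h1 h2
      by_cases hg : ∀ x, Y.loc i = Sum.inl x → x ∈ D.H
      · refine ih ω ω' (fun j hj => ?_) h2
        by_cases hji : j = i
        · subst hji
          exact h2 _ hg
        · exact h1 j fun h3 => (Finset.mem_insert.1 h3).elim hji hj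
      · have e1 : Y.S ω = Y.S (Function.update ω i (ω' i)) := by
          refine s8_one h i hg _ _ fun j hj => ?_
          rw [Function.update_of_ne hj]
        rw [e1]
        refine ih _ _ (fun j hj => ?_) fun j hj => ?_
        · by_cases hji : j = i
          · subst hji
            rw [Function.update_self]
          · rw [Function.update_of_ne hji]
            exact h1 j fun h3 => (Finset.mem_insert.1 h3).elim hji hj
        · by_cases hji : j = i
          · subst hji
            rw [Function.update_self]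
          · rw [Function.update_of_ne hji]
            exact h2 j hj
  exact key univ ω ω' (fun i hi => absurd (Finset.mem_univ i) hi) hω

end Pool.Agent.Lib.H93D
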