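import Pool.Agent.Lib.H93D.WDefs

/-!
# H93D, SDefs: superposition: definitions

See `H93B/PROOF.md`, section 4.
-/

set_option autoImplicit false

open Finset
open scoped Classical

namespace Pool.Agent.Lib.H93D

open Pool.Agent.Lib.H93B (SelData SelHyp)
open Pool.Agent.Lib.Prob48

variable {Q R M : Type} {𝒯 : Type}

/-- the component `t` of a point of the big product space -/
def comp (Y : 𝒯 → PSel Q R M) (ω : ∀ q : (Σ t, (Y t).ι), (Y q.1).α q.2) (t : 𝒯) :
    ∀ i, (Y t).α i := fun i => ω ⟨t, i⟩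

/-- the weights of the big product space -/
noncomputable def supW (Y : 𝒯 → PSel Q R M) :
    Weights (fun q : (Σ t, (Y t).ι) => (Y q.1).α q.2) where
  w := fun q a => (Y q.1).μ.w q.2 a
  nonneg := fun q a => (Y q.1).μ.nonneg q.2 a
  sum_one := fun q => (Y q.1).μ.sum_one q.2

/-- the union of the selections without the elements which have a rival in another selection -/
noncomputable def supS [Fintype 𝒯] (D : SelData Q R M) (Y : 𝒯 → PSel Q R M)
    (ω : ∀ q : (Σ t, (Y t).ι), (Y q.1).α q.2) : Finset (Q × R) :=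
  (univ.biUnion fun t => (Y t).S (comp Y ω t)).filter fun x =>
    ∀ t t' x', x ∈ (Y t).S (comp Y ω t) → t' ≠ t → x' ∈ (Y t').S (comp Y ω t') →
      ¬ (x' = x ∨ D.conf x x')

/-- membership in `supS` (use this lemma, not `unfold supS`: instances) -/
theorem mem_supS [Fintype 𝒯] (D : SelData Q R M) (Y : 𝒯 → PSel Q R M)
    (ω : ∀ q : (Σ t, (Y t).ι), (Y q.1).α q.2) (x : Q × R) : x ∈ supS D Y ω ↔
    (∃ t, x ∈ (Y t).S (comp Y ω t)) ∧ ∀ t t' x', x ∈ (Y t).S (comp Y ω t) → t' ≠ t →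
      x' ∈ (Y t').S (comp Y ω t') → ¬ (x' = x ∨ D.conf x x') := by
  unfold supS
  rw [Finset.mem_filter, Finset.mem_biUnion]
  simp only [Finset.mem_univ, true_and]

/-- the superposition -/
noncomputable def supSel [Fintype 𝒯] [DecidableEq 𝒯] (D : SelData Q R M) (Y : 𝒯 → PSel Q R M) :
    PSel Q R M where
  ι := Σ t, (Y t).ι
  α := fun q => (Y q.1).α q.2
  μ := supW Y
  loc := fun q => (Y q.1).loc q.2
  one := fun q a => (Y q.1).one q.2 a
  S := supS D Y

/-- membership in the superposition -/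
theorem mem_supSel [Fintype 𝒯] [DecidableEq 𝒯] (D : SelData Q R M) (Y : 𝒯 → PSel Q R M)
    (ω : ∀ i, (supSel D Y).α i) (x : Q × R) : x ∈ (supSel D Y).S ω ↔
    (∃ t, x ∈ (Y t).S (comp Y ω t)) ∧ ∀ t t' x', x ∈ (Y t).S (comp Y ω t) → t' ≠ t →
      x' ∈ (Y t').S (comp Y ω t') → ¬ (x' = x ∨ D.conf x x') := mem_supS D Y ω x

end Pool.Agent.Lib.H93D
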