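import Pool.Agent.Lib.H93B.Defs

/-!
# H93D: the selection theorem with dependent coordinates

`H93B.SelData`, `H93B.SelHyp` are the common definitions. Here the coordinates of the product space may
have different value types (`PSel`); `S8` translates into `H93B.Sel`.
-/

set_option autoImplicit false

open Finset
open scoped Classical

namespace Pool.Agent.Lib.H93D

open Pool.Agent.Lib.Prob48 (Weights)
open Pool.Agent.Lib.H93B (SelData SelHyp)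

section

variable {Q R M : Type} [Fintype M] (D : SelData Q R M)

/-- `E(f)` -/
noncomputable def Ef (f : M) : Finset (Q × R) := D.H.filter fun x => f ∈ D.J x

/-- adjacency (used for elements of `H`) -/
def sadj (x y : Q × R) : Prop := x = y ∨ D.conf x y ∨ ¬ Disjoint (D.J x) (D.J y)

end

/-- A random selection on a finite product space (without properties). -/
structure PSel (Q R M : Type) where
  ι : Type
  [fι : Fintype ι]
  [dι : DecidableEq ι]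
  α : ι → Type
  [fα : ∀ i, Fintype (α i)]
  μ : Weights α
  loc : ι → (Q × R) ⊕ M
  one : ∀ i, α i → Prop
  S : (∀ i, α i) → Finset (Q × R)

attribute [instance] PSel.fι PSel.dι PSel.fα

/-- the active elements: some coordinate located at `x` is `one` -/
noncomputable def PSel.act {Q R M : Type} (Y : PSel Q R M) (D : SelData Q R M) (ω : ∀ i, Y.α i) :
    Finset (Q × R) := D.H.filter fun x => ∃ i, Y.loc i = Sum.inl x ∧ Y.one i (ω i)

/-- (T0), (Tw), (T1), (T5) -/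
structure SelLoc {Q R M : Type} [Fintype M] (D : SelData Q R M) (Y : PSel Q R M) (N Cw : ℝ)
    (nc d : ℕ) : Prop where
  t0 : ∀ l, (univ.filter fun i => Y.loc i = l).card ≤ nc
  tw : ∀ x ∈ D.H, Y.μ.P (fun ω => x ∈ Y.act D ω) ≤ Cw / N
  t1 : ∀ ω, Y.S ω ⊆ Y.act D ω
  t5 : ∀ i (ω ω' : ∀ i, Y.α i), (∀ i', i' ≠ i → ω i' = ω' i') → ∀ x, ¬ (x ∈ Y.S ω ↔ x ∈ Y.S ω') →
    Reach (sadj D) (D.near (Y.loc i)) (Y.act D ω ∪ Y.act D ω') d x
  t6 : ∀ i, ∃ a, ¬ Y.one i a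

/-- The conclusion of the selection theorem (Theorem 2.1 of `PROOF.md`). -/
structure Selection {Q R M : Type} [Fintype M] (D : SelData Q R M) (Y : PSel Q R M)
    (N a lam sig kill Cw : ℝ) (nc d : ℕ) : Prop extends SelLoc D Y N Cw nc d where
  t1c : ∀ ω, ∀ x ∈ Y.S ω, ∀ y ∈ Y.S ω, x ≠ y → ¬ D.conf x y
  t2l : ∀ x ∈ D.H, lam * a / N ≤ Y.μ.P (fun ω => x ∈ Y.S ω)
  t2u : ∀ x ∈ D.H, Y.μ.P (fun ω => x ∈ Y.S ω) ≤ sig * a / N
  t3 : ∀ Z ⊆ D.H, Z.card ≤ 4 → (∀ x ∈ Z, ∀ y ∈ Z, x ≠ y → Disjoint (D.J x) (D.J y)) →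
    Y.μ.P (fun ω => Z ⊆ Y.S ω) ≤ 2 * (sig * a / N) ^ Z.card
  t4 : ∀ f, Y.μ.P (fun ω => ∃ x ∈ Y.S ω, f ∈ D.J x) ≤ kill * a

/-- Theorem 2.1 as a proposition (dependent coordinates) -/
def SelectionTheorem : Prop :=
  ∀ (K : ℝ) (j0 : ℕ) (Λ : ℝ), 1 ≤ K → 1 ≤ j0 → 1 ≤ Λ → ∃ a0 : ℝ, 0 < a0 ∧ ∀ a : ℝ, 0 < a → a ≤ a0 →
    ∃ (N1 Cw : ℝ) (nc d : ℕ), 0 < Cw ∧ ∀ N : ℝ, N1 ≤ N →
      ∀ (Q R M : Type) [Fintype Q] [Fintype R] [Fintype M] [Nonempty M] (D : SelData Q R M),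
        SelHyp D K N j0 →
        ∃ Y : PSel Q R M, Selection D Y N a (((j0 : ℝ) ^ 2 + 1) * Λ / 8)
          (4 * ((j0 : ℝ) ^ 2 + 1) * Λ) (4 * ((j0 : ℝ) ^ 2 + 1)) Cw nc d

end Pool.Agent.Lib.H93D
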