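import Pool.Agent.Lib.H93D.P3

/-!
# H93D, T1: the step: deterministic properties

See `H93B/PROOF.md`, section 3.
-/

set_option autoImplicit false

open Finset
open scoped Classical

namespace Pool.Agent.Lib.H93D

open Pool.Agent.Lib.H93A

variable {Q R M : Type} [Fintype Q] [Fintype R] [Fintype M] {D : Win Q R M} {Ω : Type} [Fintype Ω]
  {Y : Sys D Ω} {T : ℕ} {J : Q × R → Finset (Fin D.b)} {w : Q × R → ℝ}

theorem step_isProb {p κ δ σl σu ξ Ca s g E : ℝ} (hY : SysHyp Y p κ δ σl σu ξ Ca)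
    (hI : StepIn Y T J w p s g E) : IsProb (stepμ Y w) :=
  stepMeasure_isProb D.b hY.prob hI.w_nonneg hI.w_le_one

theorem stepN_sub (z : StepΩ D Ω) : stepN Y T J z ⊆ D.X := by
  unfold stepN
  exact Finset.filter_subset _ _

theorem step_S_act {p κ δ σl σu ξ Ca : ℝ} (hY : SysHyp Y p κ δ σl σu ξ Ca) (z : StepΩ D Ω) :
    stepS Y T J z ⊆ stepAct Y z := by
  intro x hx
  rcases Finset.mem_union.1 (Finset.mem_filter.1 hx).1 with h | h
  · obtain ⟨h1, h2, -⟩ := Finset.mem_filter.1 h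
    exact Finset.mem_union_left _ (Finset.mem_filter.2 ⟨h1, h2⟩)
  · obtain ⟨j, -, hj⟩ := Finset.mem_biUnion.1 h
    exact Finset.mem_union_right _ (Finset.mem_biUnion.2 ⟨j, Finset.mem_univ _, hY.S_act _ hj⟩)

theorem step_act_sub {p κ δ σl σu ξ Ca : ℝ} (hY : SysHyp Y p κ δ σl σu ξ Ca) (z : StepΩ D Ω) :
    stepAct Y z ⊆ D.X := by
  intro x hx
  rcases Finset.mem_union.1 hx with h | h
  · exact (Finset.mem_filter.1 h).1
  · obtain ⟨j, -, hj⟩ := Finset.mem_biUnion.1 h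
    exact hY.act_sub _ hj

/-- an element of `S'` is in exactly one of the sets `N0, S^1, .., S^b`; description of `V*` -/
theorem stepS_cases {z : StepΩ D Ω} {x : Q × R} (hx : x ∈ stepS Y T J z) :
    (x ∈ stepN Y T J z ∧ (∀ j, x ∉ Y.S (z.1 j)) ∧ stepVs Y T J z x = (J x).image (D.lab x)) ∨
    ∃ j, x ∈ Y.S (z.1 j) ∧ x ∉ stepN Y T J z ∧ (∀ i, i ≠ j → x ∉ Y.S (z.1 i)) ∧
      stepVs Y T J z x = Y.Vs (z.1 j) x := by
  obtain ⟨hU, hsp⟩ := Finset.mem_filter.1 hx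
  by_cases hN : x ∈ stepN Y T J z
  · refine Or.inl ⟨hN, fun j hj => hsp (Or.inr (Or.inr (Or.inr (Or.inl ⟨hN, j, hj⟩)))), ?_⟩
    unfold stepVs
    rw [if_pos hN]
  · rcases Finset.mem_union.1 hU with h | h
    · exact absurd h hN
    · obtain ⟨j, -, hj⟩ := Finset.mem_biUnion.1 h
      have huniq : ∀ i, i ≠ j → x ∉ Y.S (z.1 i) := fun i hij hi =>
        hsp (Or.inr (Or.inr (Or.inr (Or.inr ⟨i, j, hij, hi, hj⟩))))
      refine Or.inr ⟨j, hj, hN, huniq, ?_⟩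
      have h3 : ∃ j, x ∈ Y.S (z.1 j) := ⟨j, hj⟩
      unfold stepVs
      rw [if_neg hN, dif_pos h3]
      have h4 : h3.choose = j := by
        by_contra hne
        exact huniq _ hne h3.choose_spec
      rw [h4]

theorem step_Vs_sub {p κ δ σl σu ξ Ca s g E : ℝ} (hY : SysHyp Y p κ δ σl σu ξ Ca)
    (hI : StepIn Y T J w p s g E) (z : StepΩ D Ω) :
    ∀ x ∈ stepS Y T J z, stepVs Y T J z x ⊆ D.V x := by
  intro x hx
  rcases stepS_cases hx with ⟨hN, -, hV⟩ | ⟨j, hj, -, -, hV⟩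
  · rw [hV]
    exact Finset.image_subset_image (hI.J_sub x (stepN_sub z hN))
  · rw [hV]
    exact hY.Vs_sub _ x hj

theorem step_C_lt {p κ δ σl σu ξ Ca : ℝ} (hY : SysHyp Y p κ δ σl σu ξ Ca) (z : StepΩ D Ω) :
    ∀ f ∈ stepP Y z, (stepC Y z f).1 < D.k f ∧ (stepC Y z f).2 < D.k f := by
  intro f hf
  obtain ⟨j, -, hj⟩ := Finset.mem_biUnion.1 hf
  have h : ∃ j, f ∈ Y.P (z.1 j) := ⟨j, hj⟩
  unfold stepC
  rw [dif_pos h]
  exact hY.C_lt (z.1 h.choose) f h.choose_spec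

theorem step_s1 (z : StepΩ D Ω) :
    ∀ x ∈ stepS Y T J z, ∀ y ∈ stepS Y T J z, x ≠ y → ¬ D.conf x y := by
  intro x hx y hy hxy hconf
  exact (Finset.mem_filter.1 hx).2
    (Or.inr (Or.inr (Or.inl ⟨y, (Finset.mem_filter.1 hy).1, hxy.symm, hconf⟩)))

/-- if `f` is in `P^j` and not in two copies, then `C' f = C^j f` (see `H93A.stepC_eq`) -/
theorem stepC_eq (z : StepΩ D Ω) (f : M) (j : Fin D.b) (hj : f ∈ Y.P (z.1 j))
    (hO : ¬ stepO Y z f) : stepC Y z f = Y.C (z.1 j) f := by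
  have h : ∃ j, f ∈ Y.P (z.1 j) := ⟨j, hj⟩
  unfold stepC
  rw [dif_pos h]
  have h1 : h.choose = j := by
    by_contra hne
    exact hO ⟨h.choose, j, hne, h.choose_spec, hj⟩
  rw [h1]

/-- (S1), second half; moreover the copy is the one of the label -/
theorem step_s1' {p κ δ σl σu ξ Ca : ℝ} (hY : SysHyp Y p κ δ σl σu ξ Ca) (z : StepΩ D Ω) :
    ∀ x ∈ stepS Y T J z, ∀ f ∈ stepVs Y T J z x,
      f ∈ stepP Y z ∧ stepC Y z f = D.cell f x := by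
  intro x hx f hf
  have hsp := (Finset.mem_filter.1 hx).2
  have hO : ¬ stepO Y z f := fun h => hsp (Or.inl ⟨f, hf, h⟩)
  have key : ∀ j : Fin D.b, f ∈ Y.P (z.1 j) → Y.C (z.1 j) f = D.cell f x →
      f ∈ stepP Y z ∧ stepC Y z f = D.cell f x := by
    intro j h1 h2
    exact ⟨Finset.mem_biUnion.2 ⟨j, Finset.mem_univ _, h1⟩, (stepC_eq z f j h1 hO).trans h2⟩
  rcases stepS_cases hx with ⟨hN, -, hV⟩ | ⟨j, hj, -, -, hV⟩
  · rw [hV] at hf
    obtain ⟨j, hj, rfl⟩ := Finset.mem_image.1 hf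
    obtain ⟨h1, h2⟩ := ((Finset.mem_filter.1 hN).2.2 j hj).1
    exact key j h1 h2
  · rw [hV] at hf
    obtain ⟨h1, h2⟩ := hY.s1' (z.1 j) x hj f hf
    exact key j h1 h2

/-- `f ∈ P'` and `C' f = c` imply `f ∈ P^j`, `C^j f = c` for some `j` -/
theorem stepC_exists {z : StepΩ D Ω} {f : M} {c : ℕ × ℕ} (h : f ∈ stepP Y z ∧ stepC Y z f = c) :
    ∃ j, f ∈ Y.P (z.1 j) ∧ Y.C (z.1 j) f = c := by
  obtain ⟨h1, h2⟩ := h
  obtain ⟨j, -, hj⟩ := Finset.mem_biUnion.1 h1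
  have h3 : ∃ j, f ∈ Y.P (z.1 j) := ⟨j, hj⟩
  unfold stepC at h2
  rw [dif_pos h3] at h2
  exact ⟨h3.choose, h3.choose_spec, h2⟩

end Pool.Agent.Lib.H93D
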