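import Pool.Agent.Lib.H93D.T1

/-!
# H93D, T1B: the step: labels

See `H93B/PROOF.md`, section 3.
-/

set_option autoImplicit false

open Finset
open scoped Classical

namespace Pool.Agent.Lib.H93D

open Pool.Agent.Lib.H93A

variable {Q R M : Type} [Fintype Q] [Fintype R] [Fintype M] {D : Win Q R M} {Ω : Type} [Fintype Ω]
  {Y : Sys D Ω} {T : ℕ} {J : Q × R → Finset (Fin D.b)} {w : Q × R → ℝ}

/-- `P(f ∈ P, C f = c) ≤ p/k²` (from `ss` with `Z = ∅`, `F = {f}`) -/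
theorem s2u {p κ δ σl σu ξ Ca : ℝ} (hY : SysHyp Y p κ δ σl σu ξ Ca) (f : M) (c : ℕ × ℕ) :
    pr Y.μ (fun ω => f ∈ Y.P ω ∧ Y.C ω f = c) ≤ p / (D.k f : ℝ) ^ 2 := by
  have h1 := hY.ss ∅ {f} (fun _ => c) (Finset.empty_subset _) (fun x hx => absurd hx (Finset.notMem_empty x))
    (fun g _ x hx => absurd hx (Finset.notMem_empty x))
  rw [Finset.card_empty, pow_zero, one_mul, Finset.prod_singleton] at h1
  refine (pr_mono hY.prob fun ω hω => ?_).trans h1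
  refine ⟨Finset.empty_subset _, fun g hg => ?_⟩
  rw [Finset.mem_singleton.1 hg]
  exact hω

/-- `P(x ∈ S) ≤ κ p/N` (from `ss`) -/
theorem sx {p κ δ σl σu ξ Ca : ℝ} (hY : SysHyp Y p κ δ σl σu ξ Ca) (x : Q × R) (hx : x ∈ D.X) :
    pr Y.μ (fun ω => x ∈ Y.S ω) ≤ κ * p / D.N := by
  have h1 := hY.ss {x} ∅ (fun _ => (0, 0)) (Finset.singleton_subset_iff.2 hx)
    (fun y hy z hz hyz => absurd ((Finset.mem_singleton.1 hy).trans (Finset.mem_singleton.1 hz).symm) hyz)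
    (fun g hg => absurd hg (Finset.notMem_empty g))
  rw [Finset.card_singleton, pow_one, Finset.prod_empty, mul_one] at h1
  refine (pr_mono hY.prob fun ω hω => ?_).trans h1
  exact ⟨Finset.singleton_subset_iff.2 hω, fun g hg => absurd hg (Finset.notMem_empty g)⟩

/-- `P(f, f' ∈ P with cells) ≤ (p/k²)(p/k'²)` for `f ≠ f'` (from `ss`) -/
theorem s3 {p κ δ σl σu ξ Ca : ℝ} (hY : SysHyp Y p κ δ σl σu ξ Ca) (f f' : M) (c c' : ℕ × ℕ)
    (hf : f ≠ f') :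
    pr Y.μ (fun ω => (f ∈ Y.P ω ∧ Y.C ω f = c) ∧ (f' ∈ Y.P ω ∧ Y.C ω f' = c')) ≤
      (p / (D.k f : ℝ) ^ 2) * (p / (D.k f' : ℝ) ^ 2) := by
  have h1 := hY.ss ∅ {f, f'} (fun g => if g = f then c else c') (Finset.empty_subset _)
    (fun x hx => absurd hx (Finset.notMem_empty x))
    (fun g _ x hx => absurd hx (Finset.notMem_empty x))
  rw [Finset.card_empty, pow_zero, one_mul, Finset.prod_pair hf] at h1
  refine (pr_mono hY.prob fun ω hω => ?_).trans h1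
  refine ⟨Finset.empty_subset _, fun g hg => ?_⟩
  rcases Finset.mem_insert.1 hg with h | h
  · rw [h, if_pos rfl]
    exact hω.1
  · rw [Finset.mem_singleton.1 h, if_neg (Ne.symm hf)]
    exact hω.2

/-- `P(f ∈ P with cell, f' ∈ P) ≤ (p/k²) p` for `f ≠ f'` (sum of `s3` over the `k'²` cells, `C_lt`) -/
theorem s3p {p κ δ σl σu ξ Ca : ℝ} (hk : ∀ f, 1 ≤ D.k f) (hY : SysHyp Y p κ δ σl σu ξ Ca) (f f' : M)
    (c : ℕ × ℕ) (hf : f ≠ f') :
    pr Y.μ (fun ω => (f ∈ Y.P ω ∧ Y.C ω f = c) ∧ f' ∈ Y.P ω) ≤ (p / (D.k f : ℝ) ^ 2) * p := by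
  have hk' : (0 : ℝ) < (D.k f' : ℝ) := by exact_mod_cast hk f'
  have h1 : pr Y.μ (fun ω => (f ∈ Y.P ω ∧ Y.C ω f = c) ∧ f' ∈ Y.P ω) ≤
      pr Y.μ (fun ω => ∃ c' ∈ Finset.range (D.k f') ×ˢ Finset.range (D.k f'),
        (f ∈ Y.P ω ∧ Y.C ω f = c) ∧ (f' ∈ Y.P ω ∧ Y.C ω f' = c')) := by
    refine pr_mono hY.prob fun ω hω => ?_
    have h2 := hY.C_lt ω f' hω.2
    exact ⟨Y.C ω f', Finset.mem_product.2 ⟨Finset.mem_range.2 h2.1, Finset.mem_range.2 h2.2⟩,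
      hω.1, hω.2, rfl⟩
  refine (h1.trans (pr_exists_le hY.prob _ _)).trans ?_
  refine (Finset.sum_le_sum fun c' _ => s3 hY f f' c c' hf).trans (le_of_eq ?_)
  rw [Finset.sum_const, Finset.card_product, Finset.card_range, nsmul_eq_mul]
  push_cast
  field_simp

/-- `P(f ∈ P') ≤ b p` (see `H93A.step_s2p`) -/
theorem step_s2p {p κ δ σl σu ξ Ca s g E : ℝ} (hY : SysHyp Y p κ δ σl σu ξ Ca)
    (hI : StepIn Y T J w p s g E) (f : M) :
    pr (stepμ Y w) (fun z => f ∈ stepP Y z) ≤ D.b * p := by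
  have hpr := step_isProb hY hI
  have h1 : pr (stepμ Y w) (fun z => f ∈ stepP Y z) ≤
      pr (stepμ Y w) (fun z => ∃ j ∈ (Finset.univ : Finset (Fin D.b)), f ∈ Y.P (z.1 j)) := by
    refine pr_mono hpr fun z hz => ?_
    exact Finset.mem_biUnion.1 hz
  have h2 := pr_exists_le hpr (Finset.univ : Finset (Fin D.b))
    (fun (j : Fin D.b) (z : StepΩ D Ω) => f ∈ Y.P (z.1 j))
  refine (h1.trans h2).trans ?_
  calc ∑ j : Fin D.b, pr (stepμ Y w) (fun z => f ∈ Y.P (z.1 j)) ≤ ∑ _j : Fin D.b, p := by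
        refine Finset.sum_le_sum fun j _ => ?_
        have h3 := pr_step_copy (w := w) D.b hY.prob j (fun ω => f ∈ Y.P ω)
        unfold stepμ
        rw [h3]
        exact hY.s2p f
    _ = D.b * p := by
        rw [Finset.sum_const, Finset.card_univ, Fintype.card_fin, nsmul_eq_mul]

/-- lower half of (S2) (see `H93A.step_s2l`, file `H93A/T1C.lean`) -/
theorem step_s2l {p κ δ σl σu ξ Ca s g E : ℝ} (hk : ∀ f, 1 ≤ D.k f) (hb : 1 ≤ D.b)
    (hY : SysHyp Y p κ δ σl σu ξ Ca) (hI : StepIn Y T J w p s g E) (hδ0 : 0 ≤ δ) (hδ1 : δ ≤ 1)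
    (hbp : D.b * p ≤ 1) (f : M) (c : ℕ × ℕ) (hc1 : c.1 < D.k f) (hc2 : c.2 < D.k f) :
    (1 - (δ + D.b * p)) * ((D.b * p) / (D.k f : ℝ) ^ 2) ≤
      pr (stepμ Y w) (fun z => f ∈ stepP Y z ∧ stepC Y z f = c) := by
  have hpr := step_isProb hY hI
  have hp := hY.p_pos
  have hk : (0 : ℝ) < (D.k f : ℝ) := by exact_mod_cast hk f
  have hb1 : (1 : ℝ) ≤ D.b := by exact_mod_cast hb
  have hp1 : p ≤ 1 := by nlinarith
  have h1 := pr_sum_disjoint (μ := stepμ Y w) (Finset.univ : Finset (Fin D.b))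
    (fun (j : Fin D.b) (z : StepΩ D Ω) => ∀ i : Fin D.b,
      (i = j → (f ∈ Y.P (z.1 i) ∧ Y.C (z.1 i) f = c)) ∧ (i ≠ j → f ∉ Y.P (z.1 i)))
    (by
      intro z i _ j _ hi hj
      by_contra hij
      exact (hj i).2 hij ((hi i).1 rfl).1)
  have h2 : pr (stepμ Y w) (fun z => ∃ j ∈ (Finset.univ : Finset (Fin D.b)), ∀ i : Fin D.b,
      (i = j → (f ∈ Y.P (z.1 i) ∧ Y.C (z.1 i) f = c)) ∧ (i ≠ j → f ∉ Y.P (z.1 i))) ≤
      pr (stepμ Y w) (fun z => f ∈ stepP Y z ∧ stepC Y z f = c) := by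
    refine pr_mono hpr ?_
    rintro z ⟨j, _, hj⟩
    have h3 := (hj j).1 rfl
    refine ⟨Finset.mem_biUnion.2 ⟨j, Finset.mem_univ _, h3.1⟩, (stepC_eq z f j h3.1 ?_).trans h3.2⟩
    rintro ⟨a, b, hab, ha, hb⟩
    by_cases h4 : a = j
    · exact (hj b).2 (fun h5 => hab (h4.trans h5.symm)) hb
    · exact (hj a).2 h4 ha
  refine le_trans ?_ (h1.symm.le.trans h2)
  have h5 : ∀ j : Fin D.b, (1 - δ) * (p / (D.k f : ℝ) ^ 2) * (1 - ((D.b : ℝ) - 1) * p) ≤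
      pr (stepμ Y w) (fun z => ∀ i : Fin D.b,
      (i = j → (f ∈ Y.P (z.1 i) ∧ Y.C (z.1 i) f = c)) ∧ (i ≠ j → f ∉ Y.P (z.1 i))) := by
    intro j
    have h6 := pr_step_zero (w := w) D.b hY.prob (fun (i : Fin D.b) (ω : Ω) =>
      (i = j → (f ∈ Y.P ω ∧ Y.C ω f = c)) ∧ (i ≠ j → f ∉ Y.P ω))
    unfold stepμ
    rw [h6, ← Finset.mul_prod_erase _ _ (Finset.mem_univ j)]
    have h7 : (fun ω : Ω => (j = j → (f ∈ Y.P ω ∧ Y.C ω f = c)) ∧ (j ≠ j → f ∉ Y.P ω)) =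
        fun ω => f ∈ Y.P ω ∧ Y.C ω f = c := by
      funext ω
      exact propext ⟨fun h => h.1 rfl, fun h => ⟨fun _ => h, fun h' => absurd rfl h'⟩⟩
    rw [h7]
    have h8 : ∀ i ∈ Finset.univ.erase j, 1 - p ≤ pr Y.μ (fun ω =>
        (i = j → (f ∈ Y.P ω ∧ Y.C ω f = c)) ∧ (i ≠ j → f ∉ Y.P ω)) := by
      intro i hi
      have hij : i ≠ j := Finset.ne_of_mem_erase hi
      have h9 : (fun ω : Ω => (i = j → (f ∈ Y.P ω ∧ Y.C ω f = c)) ∧ (i ≠ j → f ∉ Y.P ω)) =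
          fun ω => True ∧ ¬ (f ∈ Y.P ω) := by
        funext ω
        exact propext ⟨fun h => ⟨trivial, h.2 hij⟩, fun h => ⟨fun h' => absurd h' hij, fun _ => h.2⟩⟩
      rw [h9, pr_and_not, pr_true hY.prob]
      have h10 : (fun ω : Ω => True ∧ f ∈ Y.P ω) = fun ω => f ∈ Y.P ω := by
        funext ω
        exact propext ⟨fun h => h.2, fun h => ⟨trivial, h⟩⟩
      rw [h10]
      have := hY.s2p f
      linarith
    have h11 : (1 - p) ^ (D.b - 1) ≤ ∏ i ∈ Finset.univ.erase j, pr Y.μ (fun ω =>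
        (i = j → (f ∈ Y.P ω ∧ Y.C ω f = c)) ∧ (i ≠ j → f ∉ Y.P ω)) := by
      have h12 : (1 - p) ^ (D.b - 1) = ∏ _i ∈ (Finset.univ : Finset (Fin D.b)).erase j, (1 - p) := by
        rw [Finset.prod_const, Finset.card_erase_of_mem (Finset.mem_univ j), Finset.card_univ,
          Fintype.card_fin]
      rw [h12]
      exact Finset.prod_le_prod (fun i _ => by linarith) h8
    have h13 : 1 - ((D.b : ℝ) - 1) * p ≤ (1 - p) ^ (D.b - 1) := by
      have h14 := one_add_mul_le_pow (a := -p) (by linarith) (D.b - 1)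
      have h15 : ((D.b - 1 : ℕ) : ℝ) = (D.b : ℝ) - 1 := by
        rw [Nat.cast_sub hb]
        simp
      rw [h15] at h14
      calc 1 - ((D.b : ℝ) - 1) * p = 1 + ((D.b : ℝ) - 1) * (-p) := by ring
        _ ≤ (1 + -p) ^ (D.b - 1) := h14
        _ = (1 - p) ^ (D.b - 1) := by rw [← sub_eq_add_neg]
    have h16 : 0 ≤ 1 - ((D.b : ℝ) - 1) * p := by nlinarith
    exact mul_le_mul (hY.s2l f c hc1 hc2) (h13.trans h11) h16 (pr_nonneg hY.prob _)
  have h17 := Finset.sum_le_sum (s := (Finset.univ : Finset (Fin D.b))) fun j _ => h5 j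
  refine le_trans ?_ h17
  rw [Finset.sum_const, Finset.card_univ, Fintype.card_fin, nsmul_eq_mul]
  have h18 : (1 - (δ + D.b * p)) ≤ (1 - δ) * (1 - ((D.b : ℝ) - 1) * p) := by
    have h19 : 0 ≤ δ * (((D.b : ℝ) - 1) * p) :=
      mul_nonneg hδ0 (mul_nonneg (by linarith) hp.le)
    nlinarith
  calc (1 - (δ + D.b * p)) * ((D.b * p) / (D.k f : ℝ) ^ 2) ≤
      ((1 - δ) * (1 - ((D.b : ℝ) - 1) * p)) * ((D.b * p) / (D.k f : ℝ) ^ 2) :=
        mul_le_mul_of_nonneg_right h18 (by positivity)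
    _ = (D.b : ℝ) * ((1 - δ) * (p / (D.k f : ℝ) ^ 2) * (1 - ((D.b : ℝ) - 1) * p)) := by ring

end Pool.Agent.Lib.H93D
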