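import Pool.Agent.Lib.H93D.T1B

/-!
# H93D, T2A: (S*): a fixed assignment

See `H93B/PROOF.md`, section 3.
-/

set_option autoImplicit false

open Finset
open scoped Classical

namespace Pool.Agent.Lib.H93D

open Pool.Agent.Lib.H93A

variable {Q R M : Type} [Fintype Q] [Fintype R] [Fintype M] {D : Win Q R M} {Ω : Type} [Fintype Ω]
  {Y : Sys D Ω} {T : ℕ} {J : Q × R → Finset (Fin D.b)} {w : Q × R → ℝ}

/-- (S*) for a fixed assignment `o` of the elements of `Z` (`some j`: `x ∈ S^j`; `none`: `x ∈ N0`) and `u` of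
the labels of `F` to the copies. The event is contained in `∀ j, A_j (z.1 j)` and `z.2 x = true` for the new
`x` (`p2a_key`), with `A_j`: `Z_j ⊆ S^j`, the labels `F_j' = {f ∈ F | u f = j} ∪ {lab x j : x new, j ∈ J x}`
are in `P^j` with the right cells (`c' f = c f` for `f ∈ F`, `= cell f x` for `f ∈ V x`). By `ss`
(`V` pairwise disjoint, `lab_inj`) `P(A_j) ≤ (κ p/N)^|Z_j| ∏_(f ∈ F_j') p/k²`; for every new `x`
`w x ∏_(j ∈ J x) p/k(lab x j)² ≤ s p/N` by `w_le`. -/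
theorem ss_fixed {p κ δ σl σu ξ Ca s g E : ℝ} (hN : 0 < D.N) (hk : ∀ f, 1 ≤ D.k f)
    (hlab : ∀ x ∈ D.X, ∀ i ∈ D.idx x, ∀ j ∈ D.idx x, D.lab x i = D.lab x j → i = j)
    (hY : SysHyp Y p κ δ σl σu ξ Ca) (hI : StepIn Y T J w p s g E)
    (Z : Finset (Q × R)) (F : Finset M) (c : M → ℕ × ℕ) (hZ : Z ⊆ D.X)
    (hV : ∀ x ∈ Z, ∀ y ∈ Z, x ≠ y → Disjoint (D.V x) (D.V y)) (hF : ∀ f ∈ F, ∀ x ∈ Z, f ∉ D.V x)
    (o : Q × R → Option (Fin D.b)) (u : M → Fin D.b) :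
    pr (stepμ Y w) (fun z =>
      ((∀ x ∈ Z, ∀ j, o x = some j → x ∈ Y.S (z.1 j)) ∧ (∀ x ∈ Z, o x = none → x ∈ stepN Y T J z)) ∧
        ∀ f ∈ F, f ∈ Y.P (z.1 (u f)) ∧ Y.C (z.1 (u f)) f = c f) ≤
      (∏ x ∈ Z, if o x = none then s * p / D.N else κ * p / D.N) *
        ∏ f ∈ F, (p / (D.k f : ℝ) ^ 2) := by
  have hp := hY.p_pos
  have hq0 : ∀ f : M, 0 ≤ p / (D.k f : ℝ) ^ 2 := fun f => div_nonneg hp.le (sq_nonneg _)
  have hκ : 0 ≤ κ * p / D.N := div_nonneg (mul_nonneg hY.κ_nonneg hp.le) hN.le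
  have hs0 : 0 ≤ s * p / D.N := div_nonneg (mul_nonneg hI.s_nonneg hp.le) hN.le
  obtain ⟨Zn, hZn⟩ : ∃ Zn : Finset (Q × R), Zn = Z.filter fun x => o x = none := ⟨_, rfl⟩
  obtain ⟨Zj, hZj⟩ : ∃ Zj : Fin D.b → Finset (Q × R), Zj = fun j => Z.filter fun x => o x = some j :=
    ⟨_, rfl⟩
  obtain ⟨F1, hF1⟩ : ∃ F1 : Fin D.b → Finset M, F1 = fun j => F.filter fun f => u f = j := ⟨_, rfl⟩
  obtain ⟨X2, hX2⟩ : ∃ X2 : Fin D.b → Finset (Q × R), X2 = fun j => Zn.filter fun x => j ∈ J x :=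
    ⟨_, rfl⟩
  obtain ⟨c', hc'⟩ : ∃ c' : M → ℕ × ℕ, c' = fun f =>
      if h : ∃ x, x ∈ Zn ∧ f ∈ D.V x then D.cell f h.choose else c f := ⟨_, rfl⟩
  have mZn : ∀ x, x ∈ Zn ↔ x ∈ Z ∧ o x = none := fun x => by rw [hZn]; exact Finset.mem_filter
  have mZj : ∀ j x, x ∈ Zj j ↔ x ∈ Z ∧ o x = some j := fun j x => by rw [hZj]; exact Finset.mem_filter
  have mF1 : ∀ j f, f ∈ F1 j ↔ f ∈ F ∧ u f = j := fun j f => by rw [hF1]; exact Finset.mem_filter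
  have mX2 : ∀ j x, x ∈ X2 j ↔ x ∈ Zn ∧ j ∈ J x := fun j x => by rw [hX2]; exact Finset.mem_filter
  have hlabV : ∀ x ∈ Z, ∀ j ∈ J x, D.lab x j ∈ D.V x := fun x hx j hj =>
    Finset.mem_image_of_mem _ (hI.J_sub x (hZ hx) hj)
  have huniq : ∀ x ∈ Z, ∀ y ∈ Z, ∀ f, f ∈ D.V x → f ∈ D.V y → x = y := by
    intro x hx y hy f h1 h2
    by_contra hne
    exact Finset.disjoint_left.1 (hV x hx y hy hne) h1 h2
  have hc1 : ∀ f ∈ F, c' f = c f := by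
    intro f hf
    rw [hc']
    exact dif_neg (by
      rintro ⟨x, hx, hfx⟩
      exact hF f hf x ((mZn x).1 hx).1 hfx)
  have hc2 : ∀ x ∈ Zn, ∀ f ∈ D.V x, c' f = D.cell f x := by
    intro x hx f hf
    have h : ∃ x, x ∈ Zn ∧ f ∈ D.V x := ⟨x, hx, hf⟩
    have h1 : h.choose = x := huniq _ ((mZn _).1 h.choose_spec.1).1 x ((mZn x).1 hx).1 f
      h.choose_spec.2 hf
    have h2 : c' f = D.cell f h.choose := by
      rw [hc']
      exact dif_pos h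
    rw [h2, h1]
  -- the event
  have hle : pr (stepμ Y w) (fun z =>
      ((∀ x ∈ Z, ∀ j, o x = some j → x ∈ Y.S (z.1 j)) ∧ (∀ x ∈ Z, o x = none → x ∈ stepN Y T J z)) ∧
        ∀ f ∈ F, f ∈ Y.P (z.1 (u f)) ∧ Y.C (z.1 (u f)) f = c f) ≤
      pr (stepMeasure D.b Y.μ w) (fun z => (∀ j, (fun (j : Fin D.b) (ω : Ω) => Zj j ⊆ Y.S ω ∧
        ∀ f ∈ F1 j ∪ (X2 j).image (fun x => D.lab x j), f ∈ Y.P ω ∧ Y.C ω f = c' f) j (z.1 j)) ∧
          ∀ x ∈ Zn, z.2 x = true) := by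
    refine pr_mono (step_isProb hY hI) fun z hz => ?_
    obtain ⟨⟨h1, h2⟩, h3⟩ := hz
    refine ⟨fun j => ⟨fun x hx => ?_, fun f hf => ?_⟩, fun x hx => ?_⟩
    · obtain ⟨hx1, hx2⟩ := (mZj j x).1 hx
      exact h1 x hx1 j hx2
    · rcases Finset.mem_union.1 hf with hf | hf
      · obtain ⟨hf1, hf2⟩ := (mF1 j f).1 hf
        rw [hc1 f hf1, ← hf2]
        exact h3 f hf1
      · obtain ⟨x, hx, rfl⟩ := Finset.mem_image.1 hf
        obtain ⟨hx1, hx2⟩ := (mX2 j x).1 hx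
        obtain ⟨hx3, hx4⟩ := (mZn x).1 hx1
        have h4 := ((Finset.mem_filter.1 (h2 x hx3 hx4)).2.2 j hx2).1
        rw [hc2 x hx1 _ (hlabV x hx3 j hx2)]
        exact h4
    · obtain ⟨hx3, hx4⟩ := (mZn x).1 hx
      exact (Finset.mem_filter.1 (h2 x hx3 hx4)).2.1
  have hkey := p2a_key (w := w) D.b hY.prob (fun (j : Fin D.b) (ω : Ω) => Zj j ⊆ Y.S ω ∧
        ∀ f ∈ F1 j ∪ (X2 j).image (fun x => D.lab x j), f ∈ Y.P ω ∧ Y.C ω f = c' f) Zn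
  refine hle.trans ((le_of_eq hkey).trans ?_)
  -- every factor
  have hA : ∀ j, pr Y.μ (fun ω => Zj j ⊆ Y.S ω ∧
      ∀ f ∈ F1 j ∪ (X2 j).image (fun x => D.lab x j), f ∈ Y.P ω ∧ Y.C ω f = c' f) ≤
      (∏ x ∈ Zj j, κ * p / D.N) * ((∏ f ∈ F1 j, (p / (D.k f : ℝ) ^ 2)) *
        ∏ x ∈ X2 j, (p / (D.k (D.lab x j) : ℝ) ^ 2)) := by
    intro j
    have h1 := hY.ss (Zj j) (F1 j ∪ (X2 j).image (fun x => D.lab x j)) c'
      (fun x hx => hZ ((mZj j x).1 hx).1)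
      (fun x hx y hy hxy => hV x ((mZj j x).1 hx).1 y ((mZj j y).1 hy).1 hxy)
      (by
        intro f hf x hx hfx
        obtain ⟨hx1, hx2⟩ := (mZj j x).1 hx
        rcases Finset.mem_union.1 hf with hf | hf
        · exact hF f ((mF1 j f).1 hf).1 x hx1 hfx
        · obtain ⟨y, hy, rfl⟩ := Finset.mem_image.1 hf
          obtain ⟨hy1, hy2⟩ := (mX2 j y).1 hy
          obtain ⟨hy3, hy4⟩ := (mZn y).1 hy1
          have hxy := huniq x hx1 y hy3 _ hfx (hlabV y hy3 j hy2)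
          rw [hxy, hy4] at hx2
          exact absurd hx2 (by simp))
    refine h1.trans (le_of_eq ?_)
    rw [Finset.prod_const]
    congr 1
    rw [Finset.prod_union]
    · congr 1
      rw [Finset.prod_image]
      intro x hx y hy hxy
      obtain ⟨hx1, hx2⟩ := (mX2 j x).1 (Finset.mem_coe.1 hx)
      obtain ⟨hy1, hy2⟩ := (mX2 j y).1 (Finset.mem_coe.1 hy)
      have hx3 := ((mZn x).1 hx1).1
      have hy3 := ((mZn y).1 hy1).1
      have hxy' : D.lab x j = D.lab y j := hxy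
      refine huniq x hx3 y hy3 (D.lab x j) (hlabV x hx3 j hx2) ?_
      rw [hxy']
      exact hlabV y hy3 j hy2
    · rw [Finset.disjoint_left]
      intro f hf hf2
      obtain ⟨y, hy, rfl⟩ := Finset.mem_image.1 hf2
      obtain ⟨hy1, hy2⟩ := (mX2 j y).1 hy
      have hy3 := ((mZn y).1 hy1).1
      exact hF _ ((mF1 j _).1 hf).1 y hy3 (hlabV y hy3 j hy2)
  have hB : (∏ j, pr Y.μ (fun ω => Zj j ⊆ Y.S ω ∧
      ∀ f ∈ F1 j ∪ (X2 j).image (fun x => D.lab x j), f ∈ Y.P ω ∧ Y.C ω f = c' f)) ≤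
      ∏ j, ((∏ x ∈ Zj j, κ * p / D.N) * ((∏ f ∈ F1 j, (p / (D.k f : ℝ) ^ 2)) *
        ∏ x ∈ X2 j, (p / (D.k (D.lab x j) : ℝ) ^ 2))) :=
    Finset.prod_le_prod (fun j _ => pr_nonneg hY.prob _) fun j _ => hA j
  have hw : (∏ x ∈ Zn, ∏ j ∈ J x, (p / (D.k (D.lab x j) : ℝ) ^ 2)) * ∏ x ∈ Zn, w x ≤
      ∏ x ∈ Zn, s * p / D.N := by
    rw [← Finset.prod_mul_distrib]
    refine Finset.prod_le_prod (fun x _ => mul_nonneg (Finset.prod_nonneg fun j _ => hq0 _)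
      (hI.w_nonneg x)) fun x hx => ?_
    have h1 := hI.w_le x (hZ ((mZn x).1 hx).1)
    have h2 : 0 ≤ ∏ j ∈ J x, (p / (D.k (D.lab x j) : ℝ) ^ 2) := Finset.prod_nonneg fun j _ => hq0 _
    calc (∏ j ∈ J x, (p / (D.k (D.lab x j) : ℝ) ^ 2)) * w x
        ≤ (∏ j ∈ J x, (p / (D.k (D.lab x j) : ℝ) ^ 2)) *
          ((s * p / D.N) * ∏ j ∈ J x, ((D.k (D.lab x j) : ℝ) ^ 2 / p)) :=
          mul_le_mul_of_nonneg_left h1 h2
      _ = (s * p / D.N) * ∏ j ∈ J x, ((p / (D.k (D.lab x j) : ℝ) ^ 2) *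
          ((D.k (D.lab x j) : ℝ) ^ 2 / p)) := by
          rw [Finset.prod_mul_distrib]
          ring
      _ = s * p / D.N := by
          rw [Finset.prod_eq_one, mul_one]
          intro j _
          have hk1 : (0 : ℝ) < (D.k (D.lab x j) : ℝ) := by
            exact_mod_cast lt_of_lt_of_le Nat.one_pos (hk (D.lab x j))
          field_simp
  have e1 : (∏ x ∈ Z, if o x = none then s * p / D.N else κ * p / D.N) =
      (∏ x ∈ Zn, s * p / D.N) * ∏ j, ∏ x ∈ Zj j, κ * p / D.N := by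
    rw [← Finset.prod_fiberwise Z o, Fintype.prod_option]
    congr 1
    · rw [hZn]
      refine Finset.prod_congr rfl fun x hx => ?_
      rw [if_pos (Finset.mem_filter.1 hx).2]
    · refine Finset.prod_congr rfl fun j _ => ?_
      rw [hZj]
      refine Finset.prod_congr rfl fun x hx => ?_
      rw [if_neg]
      rw [(Finset.mem_filter.1 hx).2]
      simp
  have e2 : (∏ f ∈ F, (p / (D.k f : ℝ) ^ 2)) = ∏ j, ∏ f ∈ F1 j, (p / (D.k f : ℝ) ^ 2) := by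
    rw [← Finset.prod_fiberwise F u, hF1]
  have e3 : (∏ j, ∏ x ∈ X2 j, (p / (D.k (D.lab x j) : ℝ) ^ 2)) =
      ∏ x ∈ Zn, ∏ j ∈ J x, (p / (D.k (D.lab x j) : ℝ) ^ 2) := by
    refine Finset.prod_comm' fun j x => ?_
    constructor
    · rintro ⟨-, h⟩
      exact ⟨((mX2 j x).1 h).2, ((mX2 j x).1 h).1⟩
    · rintro ⟨h1, h2⟩
      exact ⟨Finset.mem_univ _, (mX2 j x).2 ⟨h2, h1⟩⟩
  have hw0 : 0 ≤ ∏ x ∈ Zn, w x := Finset.prod_nonneg fun x _ => hI.w_nonneg x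
  refine (mul_le_mul_of_nonneg_right hB hw0).trans ?_
  rw [Finset.prod_mul_distrib, Finset.prod_mul_distrib, e1, e2, e3]
  have h5 : 0 ≤ (∏ j, ∏ x ∈ Zj j, κ * p / D.N) * ∏ j, ∏ f ∈ F1 j, (p / (D.k f : ℝ) ^ 2) :=
    mul_nonneg (Finset.prod_nonneg fun j _ => Finset.prod_nonneg fun x _ => hκ)
      (Finset.prod_nonneg fun j _ => Finset.prod_nonneg fun f _ => hq0 f)
  have h6 := mul_le_mul_of_nonneg_left hw h5
  calc _ = (∏ j, ∏ x ∈ Zj j, κ * p / D.N) * (∏ j, ∏ f ∈ F1 j, (p / (D.k f : ℝ) ^ 2)) *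
        ((∏ x ∈ Zn, ∏ j ∈ J x, (p / (D.k (D.lab x j) : ℝ) ^ 2)) * ∏ x ∈ Zn, w x) := by ring
    _ ≤ _ := h6
    _ = _ := by ring

end Pool.Agent.Lib.H93D
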