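import Pool.Agent.Lib.H93D.T2A

/-!
# H93D, T2B: (S*) for the step

See `H93B/PROOF.md`, section 3.
-/

set_option autoImplicit false

open Finset
open scoped Classical

namespace Pool.Agent.Lib.H93D

open Pool.Agent.Lib.H93A

variable {Q R M : Type} [Fintype Q] [Fintype R] [Fintype M] {D : Win Q R M} {Ω : Type} [Fintype Ω]
  {Y : Sys D Ω} {T : ℕ} {J : Q × R → Finset (Fin D.b)} {w : Q × R → ℝ}

/-- (S*): union bound over the assignments (`pr_choice_le` for `Z` with `κ = Option (Fin b)` and for `F` with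
`κ = Fin b`, extended to all of `Q × R` resp. `M` by an arbitrary value), `ss_fixed`, `sum_choice_prod`:
`(b κ + s)^|Z| (p/N)^|Z| b^|F| ∏ p/k² ≤ ((κ + s)(b p)/N)^|Z| ∏ (b p)/k²` (`b ≥ 1`). -/
theorem step_ss {p κ δ σl σu ξ Ca s g E : ℝ} (hN : 0 < D.N) (hk : ∀ f, 1 ≤ D.k f) (hb : 1 ≤ D.b)
    (hlab : ∀ x ∈ D.X, ∀ i ∈ D.idx x, ∀ j ∈ D.idx x, D.lab x i = D.lab x j → i = j)
    (hY : SysHyp Y p κ δ σl σu ξ Ca) (hI : StepIn Y T J w p s g E)
    (Z : Finset (Q × R)) (F : Finset M) (c : M → ℕ × ℕ) (hZ : Z ⊆ D.X)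
    (hV : ∀ x ∈ Z, ∀ y ∈ Z, x ≠ y → Disjoint (D.V x) (D.V y)) (hF : ∀ f ∈ F, ∀ x ∈ Z, f ∉ D.V x) :
    pr (stepμ Y w) (fun z => Z ⊆ stepS Y T J z ∧ ∀ f ∈ F, f ∈ stepP Y z ∧ stepC Y z f = c f) ≤
      ((κ + s) * (D.b * p) / D.N) ^ Z.card * ∏ f ∈ F, ((D.b * p) / (D.k f : ℝ) ^ 2) := by
  have hp := hY.p_pos
  have hκ := hY.κ_nonneg
  have hs := hI.s_nonneg
  have hb1 : (1 : ℝ) ≤ D.b := by exact_mod_cast hb
  have hpr := step_isProb hY hI
  obtain ⟨A, hA⟩ : ∃ A : Q × R → Option (Fin D.b) → StepΩ D Ω → Prop, A = fun x o z =>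
      (∀ j, o = some j → x ∈ Y.S (z.1 j)) ∧ (o = none → x ∈ stepN Y T J z) := ⟨_, rfl⟩
  obtain ⟨B, hB⟩ : ∃ B : M → Fin D.b → StepΩ D Ω → Prop, B = fun f u z =>
      f ∈ Y.P (z.1 u) ∧ Y.C (z.1 u) f = c f := ⟨_, rfl⟩
  have h1 : pr (stepμ Y w) (fun z => Z ⊆ stepS Y T J z ∧
        ∀ f ∈ F, f ∈ stepP Y z ∧ stepC Y z f = c f) ≤
      pr (stepμ Y w) (fun z => (∀ f ∈ F, ∃ u, B f u z) ∧ ∀ x ∈ Z, ∃ o, A x o z) := by
    refine pr_mono hpr ?_
    rintro z ⟨h2, h3⟩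
    refine ⟨fun f hf => ?_, fun x hx => ?_⟩
    · rw [hB]
      exact stepC_exists (h3 f hf)
    · rw [hA]
      rcases stepS_cases (h2 hx) with ⟨hN', -, -⟩ | ⟨j, hj, -, -, -⟩
      · exact ⟨none, fun j hj => (Option.some_ne_none j hj.symm).elim, fun _ => hN'⟩
      · refine ⟨some j, fun i hi => ?_, fun h => (Option.some_ne_none j h).elim⟩
        rw [← Option.some.inj hi]
        exact hj
  refine h1.trans ((pr_choice_le hpr Z A (fun z => ∀ f ∈ F, ∃ u, B f u z)).trans ?_)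
  have h2 : ∀ o : Z → Option (Fin D.b),
      pr (stepμ Y w) (fun z => (∀ f ∈ F, ∃ u, B f u z) ∧ ∀ x : Z, A x (o x) z) ≤
      (D.b : ℝ) ^ F.card * ((∏ x : Z, (if o x = none then s * p / D.N else κ * p / D.N)) *
        ∏ f ∈ F, (p / (D.k f : ℝ) ^ 2)) := by
    intro o
    have h3 : pr (stepμ Y w) (fun z => (∀ f ∈ F, ∃ u, B f u z) ∧ ∀ x : Z, A x (o x) z) ≤
        pr (stepμ Y w) (fun z => (∀ x : Z, A x (o x) z) ∧ ∀ f ∈ F, ∃ u, B f u z) :=
      pr_mono hpr fun z hz => ⟨hz.2, hz.1⟩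
    refine h3.trans ((pr_choice_le hpr F B (fun z => ∀ x : Z, A x (o x) z)).trans ?_)
    have h4 : ∀ u : F → Fin D.b,
        pr (stepμ Y w) (fun z => (∀ x : Z, A x (o x) z) ∧ ∀ f : F, B f (u f) z) ≤
        (∏ x : Z, (if o x = none then s * p / D.N else κ * p / D.N)) *
          ∏ f ∈ F, (p / (D.k f : ℝ) ^ 2) := by
      intro u
      have h5 := ss_fixed hN hk hlab hY hI Z F c hZ hV hF
        (fun x => if h : x ∈ Z then o ⟨x, h⟩ else none)
        (fun f => if h : f ∈ F then u ⟨f, h⟩ else ⟨0, hb⟩)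
      have h6 : (∏ x ∈ Z, if (if h : x ∈ Z then o ⟨x, h⟩ else none) = none then s * p / D.N
          else κ * p / D.N) = ∏ x : Z, (if o x = none then s * p / D.N else κ * p / D.N) := by
        rw [← Finset.prod_coe_sort]
        refine Finset.prod_congr rfl fun x _ => ?_
        rw [dif_pos x.2]
      rw [h6] at h5
      refine (pr_mono hpr ?_).trans h5
      rintro z ⟨h7, h8⟩
      refine ⟨⟨fun x hx j hj => ?_, fun x hx hx' => ?_⟩, fun f hf => ?_⟩
      · rw [dif_pos hx] at hj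
        have h9 := h7 ⟨x, hx⟩
        rw [hA] at h9
        exact h9.1 j hj
      · rw [dif_pos hx] at hx'
        have h9 := h7 ⟨x, hx⟩
        rw [hA] at h9
        exact h9.2 hx'
      · have h9 := h8 ⟨f, hf⟩
        rw [hB] at h9
        rw [dif_pos hf]
        exact h9
    refine (Finset.sum_le_sum fun u _ => h4 u).trans (le_of_eq ?_)
    rw [Finset.sum_const, Finset.card_univ, Fintype.card_fun, Fintype.card_fin, Fintype.card_coe,
      nsmul_eq_mul]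
    push_cast
    ring
  refine (Finset.sum_le_sum fun o _ => h2 o).trans ?_
  rw [← Finset.mul_sum, ← Finset.sum_mul,
    sum_choice_prod Z (fun o : Option (Fin D.b) => if o = none then s * p / D.N else κ * p / D.N)]
  have h3 : (∑ o : Option (Fin D.b), (if o = none then s * p / D.N else κ * p / D.N)) =
      s * p / D.N + D.b * (κ * p / D.N) := by
    rw [Fintype.sum_option, if_pos rfl]
    congr 1
    have h4 : ∀ j : Fin D.b, (if (some j : Option (Fin D.b)) = none then s * p / D.N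
        else κ * p / D.N) = κ * p / D.N := fun j => if_neg (Option.some_ne_none j)
    simp only [h4]
    rw [Finset.sum_const, Finset.card_univ, Fintype.card_fin, nsmul_eq_mul]
  rw [h3]
  have h5 : s * p / D.N + D.b * (κ * p / D.N) ≤ (κ + s) * (D.b * p) / D.N := by
    have h6 : s * p / D.N ≤ D.b * (s * p / D.N) := by
      have : 0 ≤ s * p / D.N := by positivity
      nlinarith
    calc s * p / D.N + D.b * (κ * p / D.N) ≤ D.b * (s * p / D.N) + D.b * (κ * p / D.N) := by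
          linarith
      _ = _ := by ring
  have h7 : ∏ f ∈ F, ((D.b * p) / (D.k f : ℝ) ^ 2) =
      (D.b : ℝ) ^ F.card * ∏ f ∈ F, (p / (D.k f : ℝ) ^ 2) := by
    have h8 : ∀ f ∈ F, (D.b * p) / (D.k f : ℝ) ^ 2 = (D.b : ℝ) * (p / (D.k f : ℝ) ^ 2) := by
      intro f _
      ring
    rw [Finset.prod_congr rfl h8, Finset.prod_mul_distrib, Finset.prod_const]
  rw [h7]
  have h9 : 0 ≤ (D.b : ℝ) ^ F.card * ∏ f ∈ F, (p / (D.k f : ℝ) ^ 2) := by
    refine mul_nonneg (by positivity) (Finset.prod_nonneg fun f _ => by positivity)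
  calc (D.b : ℝ) ^ F.card * ((s * p / D.N + D.b * (κ * p / D.N)) ^ Z.card *
        ∏ f ∈ F, (p / (D.k f : ℝ) ^ 2))
      = (s * p / D.N + D.b * (κ * p / D.N)) ^ Z.card *
        ((D.b : ℝ) ^ F.card * ∏ f ∈ F, (p / (D.k f : ℝ) ^ 2)) := by ring
    _ ≤ _ := mul_le_mul_of_nonneg_right (pow_le_pow_left₀ (by positivity) h5 _) h9

end Pool.Agent.Lib.H93D
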