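import Pool.Agent.Lib.H93D.T1B

/-!
# H93D, T2C: (S4) for the step

See `H93B/PROOF.md`, section 3.
-/

set_option autoImplicit false

open Finset
open scoped Classical

namespace Pool.Agent.Lib.H93D

open Pool.Agent.Lib.H93A

variable {Q R M : Type} [Fintype Q] [Fintype R] [Fintype M] {D : Win Q R M} {Ω : Type} [Fintype Ω]
  {Y : Sys D Ω} {T : ℕ} {J : Q × R → Finset (Fin D.b)} {w : Q × R → ℝ}

/-- the weight of a new element with one label left out: `w x ∏_(j ∈ J x, j ≠ i) p/k² ≤ s k_i²/N`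
(`w_le`) -/
theorem w_erase_le {p κ δ σl σu ξ Ca s g E : ℝ} (hN : 0 < D.N) (hk : ∀ f, 1 ≤ D.k f)
    (hY : SysHyp Y p κ δ σl σu ξ Ca) (hI : StepIn Y T J w p s g E) (x : Q × R) (hx : x ∈ D.X)
    (i : Fin D.b) (hi : i ∈ J x) :
    w x * ∏ j ∈ (J x).erase i, (p / (D.k (D.lab x j) : ℝ) ^ 2) ≤
      s * (D.k (D.lab x i) : ℝ) ^ 2 / D.N := by
  have hp := hY.p_pos
  have hk0 : ∀ f : M, (0 : ℝ) < (D.k f : ℝ) := fun f => by exact_mod_cast hk f
  obtain ⟨A, hA⟩ : ∃ A : ℝ, A = ∏ j ∈ (J x).erase i, ((D.k (D.lab x j) : ℝ) ^ 2 / p) := ⟨_, rfl⟩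
  obtain ⟨B, hB⟩ : ∃ B : ℝ, B = ∏ j ∈ (J x).erase i, (p / (D.k (D.lab x j) : ℝ) ^ 2) := ⟨_, rfl⟩
  have hAB : A * B = 1 := by
    rw [hA, hB, ← Finset.prod_mul_distrib]
    refine Finset.prod_eq_one fun j _ => ?_
    have := hk0 (D.lab x j)
    field_simp
  have hB0 : 0 ≤ B := by
    rw [hB]
    exact Finset.prod_nonneg fun j _ => by positivity
  have h1 := hI.w_le x hx
  rw [← Finset.mul_prod_erase _ _ hi, ← hA] at h1
  rw [← hB]
  calc w x * B ≤ (s * p / D.N * ((D.k (D.lab x i) : ℝ) ^ 2 / p * A)) * B :=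
        mul_le_mul_of_nonneg_right h1 hB0
    _ = (s * p / D.N * ((D.k (D.lab x i) : ℝ) ^ 2 / p)) * (A * B) := by ring
    _ = s * (D.k (D.lab x i) : ℝ) ^ 2 / D.N := by
        rw [hAB, mul_one]
        field_simp

theorem t2c_pow {a t : ℝ} (ha : 0 ≤ a) (ht : 0 ≤ t) (r : ℕ) :
    a ^ r + r * (a ^ (r - 1) * t) ≤ (a + t) ^ r := by
  induction r with
  | zero => simp
  | succ r ih =>
    have h1 : (r : ℝ) * (a ^ (r - 1) * t) * a = r * (a ^ r * t) := by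
      rcases Nat.eq_zero_or_pos r with h | h
      · subst h
        simp
      · have e : a ^ r = a ^ (r - 1) * a := by
          rw [← pow_succ]
          congr 1
          omega
        rw [e]
        ring
    have h2 : 0 ≤ (r : ℝ) * (a ^ (r - 1) * t) * t := by positivity
    have h3 : (a + t) ^ (r + 1) = (a + t) ^ r * (a + t) := pow_succ _ _
    have h4 := mul_le_mul_of_nonneg_right ih (add_nonneg ha ht)
    rw [h3]
    have h5 : (a ^ r + r * (a ^ (r - 1) * t)) * (a + t) =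
        a ^ r * a + a ^ r * t + (r : ℝ) * (a ^ (r - 1) * t) * a + (r : ℝ) * (a ^ (r - 1) * t) * t := by
      ring
    have h6 : a ^ (r + 1) + ((r + 1 : ℕ) : ℝ) * (a ^ (r + 1 - 1) * t) =
        a ^ r * a + a ^ r * t + (r : ℝ) * (a ^ r * t) := by
      rw [Nat.add_sub_cancel]
      push_cast
      ring
    rw [h6, ← h1]
    linarith

/-- the event that `y` is new and the others are old, in copy `j` -/
theorem t2c_B {p κ δ σl σu ξ Ca s g E : ℝ} (hN : 0 < D.N) (hk : ∀ f, 1 ≤ D.k f)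
    (hY : SysHyp Y p κ δ σl σu ξ Ca) (hI : StepIn Y T J w p s g E) (c : ℕ × ℕ)
    (Z : Finset (Q × R)) (hZ : Z ⊆ D.X) (y : Q × R) (hy : y ∈ D.X) (j : Fin D.b) (hj : j ∈ J y) :
    pr (stepμ Y w) (fun z => z.2 y = true ∧
      (∀ i ∈ J y, D.lab y i ∈ Y.P (z.1 i) ∧ Y.C (z.1 i) (D.lab y i) = D.cell (D.lab y i) y) ∧
      (D.lab y j ∈ Y.P (z.1 j) ∧ Y.C (z.1 j) (D.lab y j) = c) ∧
      ∀ y' ∈ Z, y' ∈ Y.S (z.1 j) ∧ D.lab y j ∈ Y.Vs (z.1 j) y') ≤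
      (p / (D.k (D.lab y j) : ℝ) ^ 2) * ((κ * (D.k (D.lab y j) : ℝ) ^ 2 / D.N) ^ Z.card *
        (s * (D.k (D.lab y j) : ℝ) ^ 2 / D.N)) := by
  have hp := hY.p_pos
  have hκ := hY.κ_nonneg
  have hk0 : ∀ f : M, (0 : ℝ) < (D.k f : ℝ) := fun f => by exact_mod_cast hk f
  obtain ⟨A, hA⟩ : ∃ A : Fin D.b → Ω → Prop, A = fun i ω =>
      (i = j → (D.lab y j ∈ Y.P ω ∧ Y.C ω (D.lab y j) = c) ∧
        ∀ y' ∈ Z, y' ∈ Y.S ω ∧ D.lab y j ∈ Y.Vs ω y') ∧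
      (i ≠ j → i ∈ J y → D.lab y i ∈ Y.P ω ∧ Y.C ω (D.lab y i) = D.cell (D.lab y i) y) := ⟨_, rfl⟩
  have h1 := p2a_key (w := w) D.b hY.prob A {y}
  rw [Finset.prod_singleton] at h1
  have h2 : pr (stepμ Y w) (fun z => z.2 y = true ∧
      (∀ i ∈ J y, D.lab y i ∈ Y.P (z.1 i) ∧ Y.C (z.1 i) (D.lab y i) = D.cell (D.lab y i) y) ∧
      (D.lab y j ∈ Y.P (z.1 j) ∧ Y.C (z.1 j) (D.lab y j) = c) ∧
      ∀ y' ∈ Z, y' ∈ Y.S (z.1 j) ∧ D.lab y j ∈ Y.Vs (z.1 j) y') ≤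
      (∏ i, pr Y.μ (A i)) * w y := by
    rw [← h1]
    refine pr_mono (step_isProb hY hI) ?_
    rintro z ⟨a1, a2, a3, a4⟩
    refine ⟨fun i => ?_, fun u hu => ?_⟩
    · rw [hA]
      refine ⟨fun hij => ?_, fun _ hi => a2 i hi⟩
      rw [hij]
      exact ⟨a3, a4⟩
    · rw [Finset.mem_singleton.1 hu]
      exact a1
  refine h2.trans ?_
  have h3 : pr Y.μ (A j) ≤ (p / (D.k (D.lab y j) : ℝ) ^ 2) *
      (κ * (D.k (D.lab y j) : ℝ) ^ 2 / D.N) ^ Z.card := by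
    refine (pr_mono hY.prob fun ω hω => ?_).trans (hY.s4 (D.lab y j) c Z hZ)
    rw [hA] at hω
    exact hω.1 rfl
  have h4 : ∏ i ∈ Finset.univ.erase j, pr Y.μ (A i) ≤
      ∏ i ∈ (J y).erase j, (p / (D.k (D.lab y i) : ℝ) ^ 2) := by
    have e1 : ∏ i ∈ (J y).erase j, (p / (D.k (D.lab y i) : ℝ) ^ 2) =
        ∏ i ∈ Finset.univ.erase j, if i ∈ J y then (p / (D.k (D.lab y i) : ℝ) ^ 2) else 1 := by
      rw [← Finset.prod_filter]
      refine Finset.prod_congr ?_ fun _ _ => rfl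
      ext i
      simp only [Finset.mem_erase, Finset.mem_filter, Finset.mem_univ, and_true]
    rw [e1]
    refine Finset.prod_le_prod (fun i _ => pr_nonneg hY.prob _) fun i hi => ?_
    have hij : i ≠ j := Finset.ne_of_mem_erase hi
    split_ifs with hJ
    · refine (pr_mono hY.prob fun ω hω => ?_).trans (s2u hY (D.lab y i) (D.cell (D.lab y i) y))
      rw [hA] at hω
      exact hω.2 hij hJ
    · exact pr_le_one hY.prob _
  have h5 := w_erase_le hN hk hY hI y hy j hj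
  have hw0 := hI.w_nonneg y
  rw [← Finset.mul_prod_erase _ _ (Finset.mem_univ j)]
  calc pr Y.μ (A j) * (∏ i ∈ Finset.univ.erase j, pr Y.μ (A i)) * w y
      ≤ pr Y.μ (A j) * (∏ i ∈ (J y).erase j, (p / (D.k (D.lab y i) : ℝ) ^ 2)) * w y :=
        mul_le_mul_of_nonneg_right (mul_le_mul_of_nonneg_left h4 (pr_nonneg hY.prob _)) hw0
    _ = pr Y.μ (A j) * (w y * ∏ i ∈ (J y).erase j, (p / (D.k (D.lab y i) : ℝ) ^ 2)) := by ring
    _ ≤ pr Y.μ (A j) * (s * (D.k (D.lab y j) : ℝ) ^ 2 / D.N) :=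
        mul_le_mul_of_nonneg_left h5 (pr_nonneg hY.prob _)
    _ ≤ ((p / (D.k (D.lab y j) : ℝ) ^ 2) *
      (κ * (D.k (D.lab y j) : ℝ) ^ 2 / D.N) ^ Z.card) * (s * (D.k (D.lab y j) : ℝ) ^ 2 / D.N) := by
        refine mul_le_mul_of_nonneg_right h3 ?_
        have := hI.s_nonneg
        positivity
    _ = _ := by ring

/-- (S4). If some `y ∈ Z` has `f ∉ V y` the event is empty (`step_Vs_sub`); same if the cell of `y` at `f`
is not `c`. `Z = ∅`: `stepC_exists`, `s2u`. Otherwise by (Z0) `f` lies in exactly one `P^j`, and every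
`y ∈ Z` is in `S^j` with `f ∈ V*^j y`, or in `N0` with `f = lab y j`, `j ∈ J y` (at most one of the
second kind by (Z1)). So the event is contained in the union over `j` of
`{f ∈ P^j, C^j f = c, all y ∈ Z in S^j with f ∈ V*^j}` (probability `≤ (p/k²)(κ k²/N)^|Z|`, `s4`) and of
`{y ∈ N0, f = lab y j, the others in S^j}` (`y ∈ Z`; probability
`≤ (p/k²)(κ k²/N)^(|Z|-1) (s k²/N)`: `p2a_key`, `s4` in copy `j`, `s2u` in the other copies, `w_erase_le`).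
Sum `≤ b (p/k²)[(κ k²/N)^r + r (κ k²/N)^(r-1) (s k²/N)] ≤ (b p/k²)((κ+s) k²/N)^r`.
(See `H93A/T2A.lean` to `T2C.lean`.) -/
theorem step_s4 {p κ δ σl σu ξ Ca s g E : ℝ} (hN : 0 < D.N) (hk : ∀ f, 1 ≤ D.k f)
    (hlab : ∀ x ∈ D.X, ∀ i ∈ D.idx x, ∀ j ∈ D.idx x, D.lab x i = D.lab x j → i = j)
    (hY : SysHyp Y p κ δ σl σu ξ Ca) (hI : StepIn Y T J w p s g E) (f : M) (c : ℕ × ℕ)
    (Z : Finset (Q × R)) (hZ : Z ⊆ D.X) :
    pr (stepμ Y w) (fun z => (f ∈ stepP Y z ∧ stepC Y z f = c) ∧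
        ∀ y ∈ Z, y ∈ stepS Y T J z ∧ f ∈ stepVs Y T J z y) ≤
      ((D.b * p) / (D.k f : ℝ) ^ 2) * ((κ + s) * (D.k f : ℝ) ^ 2 / D.N) ^ Z.card := by
  have hp := hY.p_pos
  have hκ := hY.κ_nonneg
  have hs := hI.s_nonneg
  have hk0 : (0 : ℝ) < (D.k f : ℝ) := by exact_mod_cast hk f
  have hpr := step_isProb hY hI
  obtain ⟨a, ha⟩ : ∃ a : ℝ, a = κ * (D.k f : ℝ) ^ 2 / D.N := ⟨_, rfl⟩
  obtain ⟨t, ht⟩ : ∃ t : ℝ, t = s * (D.k f : ℝ) ^ 2 / D.N := ⟨_, rfl⟩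
  have ha0 : 0 ≤ a := by rw [ha]; positivity
  have ht0 : 0 ≤ t := by rw [ht]; positivity
  -- the two kinds of events
  obtain ⟨EA, hEA⟩ : ∃ EA : Fin D.b → StepΩ D Ω → Prop, EA = fun j z =>
      (f ∈ Y.P (z.1 j) ∧ Y.C (z.1 j) f = c) ∧ ∀ y ∈ Z, y ∈ Y.S (z.1 j) ∧ f ∈ Y.Vs (z.1 j) y :=
    ⟨_, rfl⟩
  obtain ⟨EB, hEB⟩ : ∃ EB : Fin D.b → Q × R → StepΩ D Ω → Prop, EB = fun j y z =>
      (j ∈ J y ∧ D.lab y j = f) ∧ z.2 y = true ∧
      (∀ i ∈ J y, D.lab y i ∈ Y.P (z.1 i) ∧ Y.C (z.1 i) (D.lab y i) = D.cell (D.lab y i) y) ∧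
      (f ∈ Y.P (z.1 j) ∧ Y.C (z.1 j) f = c) ∧
      ∀ y' ∈ Z.erase y, y' ∈ Y.S (z.1 j) ∧ f ∈ Y.Vs (z.1 j) y' := ⟨_, rfl⟩
  have hsub : ∀ z : StepΩ D Ω, ((f ∈ stepP Y z ∧ stepC Y z f = c) ∧
        ∀ y ∈ Z, y ∈ stepS Y T J z ∧ f ∈ stepVs Y T J z y) →
      ∃ j ∈ (Finset.univ : Finset (Fin D.b)), EA j z ∨ ∃ y ∈ Z, EB j y z := by
    rintro z ⟨hfc, hZs⟩
    obtain ⟨j, hj1, hj2⟩ := stepC_exists hfc
    refine ⟨j, Finset.mem_univ _, ?_⟩
    have key : ∀ y ∈ Z, (y ∈ Y.S (z.1 j) ∧ f ∈ Y.Vs (z.1 j) y) ∨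
        (y ∈ stepN Y T J z ∧ j ∈ J y ∧ D.lab y j = f) := by
      intro y hyZ
      obtain ⟨hyS, hyV⟩ := hZs y hyZ
      have hO : ¬ stepO Y z f := fun h => (Finset.mem_filter.1 hyS).2 (Or.inl ⟨f, hyV, h⟩)
      rcases stepS_cases hyS with ⟨hN', -, hV⟩ | ⟨i, hi, -, -, hV⟩
      · rw [hV] at hyV
        obtain ⟨i, hi, hif⟩ := Finset.mem_image.1 hyV
        have h1 := ((Finset.mem_filter.1 hN').2.2 i hi).1.1
        rw [hif] at h1
        have hij : i = j := by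
          by_contra hne
          exact hO ⟨i, j, hne, h1, hj1⟩
        subst hij
        exact Or.inr ⟨hN', hi, hif⟩
      · rw [hV] at hyV
        have h1 := (hY.s1' _ y hi f hyV).1
        have hij : i = j := by
          by_contra hne
          exact hO ⟨i, j, hne, h1, hj1⟩
        subst hij
        exact Or.inl ⟨hi, hyV⟩
    by_cases hall : ∀ y ∈ Z, y ∈ Y.S (z.1 j) ∧ f ∈ Y.Vs (z.1 j) y
    · left
      rw [hEA]
      exact ⟨⟨hj1, hj2⟩, hall⟩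
    · right
      push Not at hall
      obtain ⟨y, hyZ, hy⟩ := hall
      have h1 : y ∈ stepN Y T J z ∧ j ∈ J y ∧ D.lab y j = f := by
        rcases key y hyZ with h | h
        · exact absurd h.2 (hy h.1)
        · exact h
      obtain ⟨hyN, hjJ, hlf⟩ := h1
      refine ⟨y, hyZ, ?_⟩
      rw [hEB]
      refine ⟨⟨hjJ, hlf⟩, (Finset.mem_filter.1 hyN).2.1,
        fun i hi => ((Finset.mem_filter.1 hyN).2.2 i hi).1, ⟨hj1, hj2⟩, fun y' hy' => ?_⟩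
      obtain ⟨hne, hy'Z⟩ := Finset.mem_erase.1 hy'
      rcases key y' hy'Z with h | h
      · exact h
      · exfalso
        have hyS := (hZs y hyZ).1
        refine (Finset.mem_filter.1 hyS).2 (Or.inr (Or.inl ⟨hyN, y', h.1, hne, ?_⟩))
        rw [Finset.not_disjoint_iff]
        exact ⟨f, (hZs y hyZ).2, (hZs y' hy'Z).2⟩
  have hA : ∀ j, pr (stepμ Y w) (EA j) ≤ (p / (D.k f : ℝ) ^ 2) * a ^ Z.card := by
    intro j
    have h1 := pr_step_copy (w := w) D.b hY.prob j (fun ω => (f ∈ Y.P ω ∧ Y.C ω f = c) ∧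
      ∀ y ∈ Z, y ∈ Y.S ω ∧ f ∈ Y.Vs ω y)
    have h2 := hY.s4 f c Z hZ
    rw [← h1, ← ha] at h2
    rw [hEA]
    exact h2
  have hB : ∀ j, ∀ y ∈ Z, pr (stepμ Y w) (EB j y) ≤
      (p / (D.k f : ℝ) ^ 2) * (a ^ (Z.card - 1) * t) := by
    intro j y hyZ
    by_cases hjy : j ∈ J y ∧ D.lab y j = f
    · have h1 := t2c_B hN hk hY hI c (Z.erase y) ((Finset.erase_subset _ _).trans hZ) y (hZ hyZ) j
        hjy.1
      rw [hjy.2, Finset.card_erase_of_mem hyZ, ← ha, ← ht] at h1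
      refine (pr_mono hpr fun z hz => ?_).trans h1
      rw [hEB] at hz
      exact hz.2
    · have h1 : EB j y = fun _ => False := by
        funext z
        rw [hEB]
        exact propext ⟨fun h => hjy h.1, fun h => h.elim⟩
      rw [h1, pr_false]
      positivity
  refine (pr_mono hpr hsub).trans ((pr_exists_le hpr _ _).trans ?_)
  have hj : ∀ j ∈ (Finset.univ : Finset (Fin D.b)),
      pr (stepμ Y w) (fun z => EA j z ∨ ∃ y ∈ Z, EB j y z) ≤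
      (p / (D.k f : ℝ) ^ 2) * (a + t) ^ Z.card := by
    intro j _
    refine (pr_or_le hpr _ _).trans ?_
    have h1 := pr_exists_le hpr Z (fun y z => EB j y z)
    have h2 : ∑ y ∈ Z, pr (stepμ Y w) (EB j y) ≤
        Z.card * ((p / (D.k f : ℝ) ^ 2) * (a ^ (Z.card - 1) * t)) := by
      refine (Finset.sum_le_sum (hB j)).trans (le_of_eq ?_)
      rw [Finset.sum_const, nsmul_eq_mul]
    have h3 := hA j
    have h4 := mul_le_mul_of_nonneg_left (t2c_pow ha0 ht0 Z.card)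
      (show (0 : ℝ) ≤ p / (D.k f : ℝ) ^ 2 by positivity)
    have h5 : (p / (D.k f : ℝ) ^ 2) * (a ^ Z.card + Z.card * (a ^ (Z.card - 1) * t)) =
        (p / (D.k f : ℝ) ^ 2) * a ^ Z.card +
        Z.card * ((p / (D.k f : ℝ) ^ 2) * (a ^ (Z.card - 1) * t)) := by ring
    linarith
  refine (Finset.sum_le_sum hj).trans (le_of_eq ?_)
  rw [Finset.sum_const, Finset.card_univ, Fintype.card_fin, nsmul_eq_mul]
  have e1 : (κ + s) * (D.k f : ℝ) ^ 2 / D.N = a + t := by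
    rw [ha, ht]
    ring
  rw [e1]
  ring

end Pool.Agent.Lib.H93D
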