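import Pool.Agent.Lib.H93D.T1B

/-!
# H93D, T2D: (S5) for the step

See `H93B/PROOF.md`, section 3.
-/

set_option autoImplicit false

open Finset
open scoped Classical

namespace Pool.Agent.Lib.H93D

open Pool.Agent.Lib.H93A

variable {Q R M : Type} [Fintype Q] [Fintype R] [Fintype M] {D : Win Q R M} {Ω : Type} [Fintype Ω]
  {Y : Sys D Ω} {T : ℕ} {J : Q × R → Finset (Fin D.b)} {w : Q × R → ℝ}

/-- the weight of a new element: `w x ∏_(j ∈ J x) p/k² ≤ s p/N` -/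
theorem t2d_w {p κ δ σl σu ξ Ca s g E : ℝ} (hk : ∀ f, 1 ≤ D.k f)
    (hY : SysHyp Y p κ δ σl σu ξ Ca) (hI : StepIn Y T J w p s g E) (x : Q × R) (hx : x ∈ D.X) :
    w x * ∏ j ∈ J x, (p / (D.k (D.lab x j) : ℝ) ^ 2) ≤ s * p / D.N := by
  have hp := hY.p_pos
  have hk0 : ∀ f : M, (0 : ℝ) < (D.k f : ℝ) := fun f => by exact_mod_cast hk f
  obtain ⟨A, hA⟩ : ∃ A : ℝ, A = ∏ j ∈ J x, ((D.k (D.lab x j) : ℝ) ^ 2 / p) := ⟨_, rfl⟩
  obtain ⟨B, hB⟩ : ∃ B : ℝ, B = ∏ j ∈ J x, (p / (D.k (D.lab x j) : ℝ) ^ 2) := ⟨_, rfl⟩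
  have hAB : A * B = 1 := by
    rw [hA, hB, ← Finset.prod_mul_distrib]
    refine Finset.prod_eq_one fun j _ => ?_
    have := hk0 (D.lab x j)
    field_simp
  have hB0 : 0 ≤ B := by
    rw [hB]
    exact Finset.prod_nonneg fun j _ => by positivity
  have h1 := hI.w_le x hx
  rw [← hA] at h1
  rw [← hB]
  calc w x * B ≤ (s * p / D.N * A) * B := mul_le_mul_of_nonneg_right h1 hB0
    _ = (s * p / D.N) * (A * B) := by ring
    _ = s * p / D.N := by rw [hAB, mul_one]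

/-- new element -/
theorem t2d_new {p κ δ σl σu ξ Ca s g E : ℝ} (hk : ∀ f, 1 ≤ D.k f)
    (hY : SysHyp Y p κ δ σl σu ξ Ca) (hI : StepIn Y T J w p s g E) (y : Q × R) (hy : y ∈ D.X)
    (f : M) (c : ℕ × ℕ) (hf : ∀ i ∈ J y, D.lab y i ≠ f) (j : Fin D.b) :
    pr (stepμ Y w) (fun z => z.2 y = true ∧
      (∀ i ∈ J y, D.lab y i ∈ Y.P (z.1 i) ∧ Y.C (z.1 i) (D.lab y i) = D.cell (D.lab y i) y) ∧
      (f ∈ Y.P (z.1 j) ∧ Y.C (z.1 j) f = c)) ≤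
      (s * p / D.N) * (p / (D.k f : ℝ) ^ 2) := by
  have hp := hY.p_pos
  have hk0 : ∀ f : M, (0 : ℝ) < (D.k f : ℝ) := fun f => by exact_mod_cast hk f
  obtain ⟨A, hA⟩ : ∃ A : Fin D.b → Ω → Prop, A = fun i ω =>
      (i = j → (f ∈ Y.P ω ∧ Y.C ω f = c)) ∧
      (i ∈ J y → D.lab y i ∈ Y.P ω ∧ Y.C ω (D.lab y i) = D.cell (D.lab y i) y) := ⟨_, rfl⟩
  have h1 := p2a_key (w := w) D.b hY.prob A {y}
  rw [Finset.prod_singleton] at h1
  have h2 : pr (stepμ Y w) (fun z => z.2 y = true ∧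
      (∀ i ∈ J y, D.lab y i ∈ Y.P (z.1 i) ∧ Y.C (z.1 i) (D.lab y i) = D.cell (D.lab y i) y) ∧
      (f ∈ Y.P (z.1 j) ∧ Y.C (z.1 j) f = c)) ≤ (∏ i, pr Y.μ (A i)) * w y := by
    rw [← h1]
    refine pr_mono (step_isProb hY hI) ?_
    rintro z ⟨a1, a2, a3⟩
    refine ⟨fun i => ?_, fun u hu => ?_⟩
    · rw [hA]
      refine ⟨fun hij => ?_, fun hi => a2 i hi⟩
      rw [hij]
      exact a3
    · rw [Finset.mem_singleton.1 hu]
      exact a1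
  refine h2.trans ?_
  have h3 : ∏ i, pr Y.μ (A i) ≤ ∏ i, ((if i = j then p / (D.k f : ℝ) ^ 2 else 1) *
      (if i ∈ J y then (p / (D.k (D.lab y i) : ℝ) ^ 2) else 1)) := by
    refine Finset.prod_le_prod (fun i _ => pr_nonneg hY.prob _) fun i _ => ?_
    by_cases hij : i = j
    · by_cases hi : i ∈ J y
      · rw [if_pos hij, if_pos hi]
        refine (pr_mono hY.prob fun ω hω => ?_).trans (s3 hY f (D.lab y i) c
          (D.cell (D.lab y i) y) (hf i hi).symm)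
        rw [hA] at hω
        exact ⟨hω.1 hij, hω.2 hi⟩
      · rw [if_pos hij, if_neg hi, mul_one]
        refine (pr_mono hY.prob fun ω hω => ?_).trans (s2u hY f c)
        rw [hA] at hω
        exact hω.1 hij
    · by_cases hi : i ∈ J y
      · rw [if_neg hij, if_pos hi, one_mul]
        refine (pr_mono hY.prob fun ω hω => ?_).trans (s2u hY (D.lab y i) (D.cell (D.lab y i) y))
        rw [hA] at hω
        exact hω.2 hi
      · rw [if_neg hij, if_neg hi, one_mul]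
        exact pr_le_one hY.prob _
  rw [Finset.prod_mul_distrib, Finset.prod_ite_eq' Finset.univ j, if_pos (Finset.mem_univ j)] at h3
  have h4 : (∏ i, if i ∈ J y then (p / (D.k (D.lab y i) : ℝ) ^ 2) else 1) =
      ∏ i ∈ J y, (p / (D.k (D.lab y i) : ℝ) ^ 2) := by
    rw [← Finset.prod_filter]
    refine Finset.prod_congr ?_ fun _ _ => rfl
    ext i
    simp only [Finset.mem_filter, Finset.mem_univ, true_and]
  rw [h4] at h3
  have h5 := t2d_w hk hY hI y hy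
  have hw0 := hI.w_nonneg y
  have hq : 0 ≤ p / (D.k f : ℝ) ^ 2 := by positivity
  calc (∏ i, pr Y.μ (A i)) * w y ≤
      (p / (D.k f : ℝ) ^ 2 * ∏ i ∈ J y, (p / (D.k (D.lab y i) : ℝ) ^ 2)) * w y :=
        mul_le_mul_of_nonneg_right h3 hw0
    _ = (w y * ∏ i ∈ J y, (p / (D.k (D.lab y i) : ℝ) ^ 2)) * (p / (D.k f : ℝ) ^ 2) := by ring
    _ ≤ _ := mul_le_mul_of_nonneg_right h5 hq

/-- old element -/
theorem t2d_old {p κ δ σl σu ξ Ca : ℝ} (hN : 0 < D.N) (hk : ∀ f, 1 ≤ D.k f)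
    (hY : SysHyp Y p κ δ σl σu ξ Ca) (y : Q × R) (hy : y ∈ D.X)
    (f : M) (c : ℕ × ℕ) (i j : Fin D.b) :
    pr (stepμ Y w) (fun z => (y ∈ Y.S (z.1 i) ∧ f ∉ Y.Vs (z.1 i) y) ∧
      (f ∈ Y.P (z.1 j) ∧ Y.C (z.1 j) f = c)) ≤
      (κ * p / D.N) * (p / (D.k f : ℝ) ^ 2) := by
  have hp := hY.p_pos
  have hκ := hY.κ_nonneg
  have hk0 : (0 : ℝ) < (D.k f : ℝ) := by exact_mod_cast hk f
  by_cases hij : i = j
  · subst hij
    have h1 := pr_step_copy (w := w) D.b hY.prob i (fun ω => (y ∈ Y.S ω ∧ f ∉ Y.Vs ω y) ∧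
      (f ∈ Y.P ω ∧ Y.C ω f = c))
    have h2 := hY.s5 y hy f c
    rw [← h1] at h2
    exact h2
  · have h1 := pr_step_copy_two (w := w) D.b hY.prob i j hij
      (fun ω => y ∈ Y.S ω ∧ f ∉ Y.Vs ω y) (fun ω => f ∈ Y.P ω ∧ Y.C ω f = c)
    have h2 : pr Y.μ (fun ω => y ∈ Y.S ω ∧ f ∉ Y.Vs ω y) ≤ κ * p / D.N :=
      (pr_mono hY.prob fun ω hω => hω.1).trans (sx hY y hy)
    have h3 := s2u hY f c
    refine le_trans (le_of_eq h1) ?_
    exact mul_le_mul h2 h3 (pr_nonneg hY.prob _) (by positivity)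

/-- (S5). `y ∈ S^i`, `V*' y = V*^i y ∌ f`, `f ∈ P^j` with cell `c`: `i = j` by `s5`, `i ≠ j` by
independence (`sx`, `s2u`): `b² (κ p/N)(p/k²)`. `y ∈ N0`, `f ≠ lab y i` for `i ∈ J y`, `f ∈ P^j`:
`w y ∏_(i ∈ J y, i ≠ j) (p/k²)` times `P(f ∈ P^j, lab y j ∈ P^j) ≤ (p/k_f²)(p/k²)` (`s3`; if `j ∉ J y` just
`s2u`): `b (s p/N)(p/k_f²)` by `w_le`. -/
theorem step_s5 {p κ δ σl σu ξ Ca s g E : ℝ} (hN : 0 < D.N) (hk : ∀ f, 1 ≤ D.k f) (hb : 1 ≤ D.b)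
    (hlab : ∀ x ∈ D.X, ∀ i ∈ D.idx x, ∀ j ∈ D.idx x, D.lab x i = D.lab x j → i = j)
    (hY : SysHyp Y p κ δ σl σu ξ Ca) (hI : StepIn Y T J w p s g E) (y : Q × R) (hy : y ∈ D.X)
    (f : M) (c : ℕ × ℕ) :
    pr (stepμ Y w) (fun z => (y ∈ stepS Y T J z ∧ f ∉ stepVs Y T J z y) ∧
        (f ∈ stepP Y z ∧ stepC Y z f = c)) ≤
      ((κ + s) * (D.b * p) / D.N) * ((D.b * p) / (D.k f : ℝ) ^ 2) := by
  have hp := hY.p_pos
  have hs := hI.s_nonneg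
  have hk0 : (0 : ℝ) < (D.k f : ℝ) := by exact_mod_cast hk f
  have hb1 : (1 : ℝ) ≤ D.b := by exact_mod_cast hb
  have hpr := step_isProb hY hI
  have hfin : ∀ z : StepΩ D Ω, ((y ∈ stepS Y T J z ∧ f ∉ stepVs Y T J z y) ∧
        (f ∈ stepP Y z ∧ stepC Y z f = c)) →
      (∃ ij ∈ (Finset.univ : Finset (Fin D.b × Fin D.b)),
        (y ∈ Y.S (z.1 ij.1) ∧ f ∉ Y.Vs (z.1 ij.1) y) ∧
          (f ∈ Y.P (z.1 ij.2) ∧ Y.C (z.1 ij.2) f = c)) ∨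
      ∃ j ∈ (Finset.univ : Finset (Fin D.b)), (∀ i ∈ J y, D.lab y i ≠ f) ∧ (z.2 y = true ∧
        (∀ i ∈ J y, D.lab y i ∈ Y.P (z.1 i) ∧ Y.C (z.1 i) (D.lab y i) = D.cell (D.lab y i) y) ∧
        (f ∈ Y.P (z.1 j) ∧ Y.C (z.1 j) f = c)) := by
    rintro z ⟨⟨hyS, hyV⟩, hfc⟩
    obtain ⟨j, hj⟩ := stepC_exists hfc
    rcases stepS_cases hyS with ⟨hN', -, hV⟩ | ⟨i, hi, -, -, hV⟩
    · right
      rw [hV] at hyV
      refine ⟨j, Finset.mem_univ _, fun i hi hif => hyV (Finset.mem_image.2 ⟨i, hi, hif⟩),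
        (Finset.mem_filter.1 hN').2.1, fun i hi => ((Finset.mem_filter.1 hN').2.2 i hi).1, hj⟩
    · left
      rw [hV] at hyV
      exact ⟨(i, j), Finset.mem_univ _, ⟨hi, hyV⟩, hj⟩
  refine (pr_mono hpr hfin).trans ((pr_or_le hpr _ _).trans ?_)
  have h1 : pr (stepμ Y w) (fun z => ∃ ij ∈ (Finset.univ : Finset (Fin D.b × Fin D.b)),
        (y ∈ Y.S (z.1 ij.1) ∧ f ∉ Y.Vs (z.1 ij.1) y) ∧
          (f ∈ Y.P (z.1 ij.2) ∧ Y.C (z.1 ij.2) f = c)) ≤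
      (D.b * D.b : ℝ) * ((κ * p / D.N) * (p / (D.k f : ℝ) ^ 2)) := by
    refine (pr_exists_le hpr _ _).trans ((Finset.sum_le_sum fun ij _ =>
      t2d_old hN hk hY y hy f c ij.1 ij.2).trans (le_of_eq ?_))
    rw [Finset.sum_const, Finset.card_univ, Fintype.card_prod, Fintype.card_fin, nsmul_eq_mul]
    push_cast
    ring
  have h2 : pr (stepμ Y w) (fun z => ∃ j ∈ (Finset.univ : Finset (Fin D.b)),
      (∀ i ∈ J y, D.lab y i ≠ f) ∧ (z.2 y = true ∧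
        (∀ i ∈ J y, D.lab y i ∈ Y.P (z.1 i) ∧ Y.C (z.1 i) (D.lab y i) = D.cell (D.lab y i) y) ∧
        (f ∈ Y.P (z.1 j) ∧ Y.C (z.1 j) f = c))) ≤
      (D.b : ℝ) * ((s * p / D.N) * (p / (D.k f : ℝ) ^ 2)) := by
    refine (pr_exists_le hpr _ _).trans ((Finset.sum_le_sum
      (g := fun _ => (s * p / D.N) * (p / (D.k f : ℝ) ^ 2)) fun j _ => ?_).trans (le_of_eq ?_))
    · by_cases hf : ∀ i ∈ J y, D.lab y i ≠ f
      · exact (pr_mono hpr fun z hz => hz.2).trans (t2d_new hk hY hI y hy f c hf j)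
      · have e : pr (stepμ Y w) (fun z => (∀ i ∈ J y, D.lab y i ≠ f) ∧ (z.2 y = true ∧
            (∀ i ∈ J y, D.lab y i ∈ Y.P (z.1 i) ∧
              Y.C (z.1 i) (D.lab y i) = D.cell (D.lab y i) y) ∧
            (f ∈ Y.P (z.1 j) ∧ Y.C (z.1 j) f = c))) ≤ pr (stepμ Y w) (fun _ => False) :=
          pr_mono hpr fun z hz => hf hz.1
        refine e.trans ?_
        rw [pr_false]
        positivity
    · rw [Finset.sum_const, Finset.card_univ, Fintype.card_fin, nsmul_eq_mul]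
  refine (add_le_add h1 h2).trans ?_
  have h3 : (D.b : ℝ) * ((s * p / D.N) * (p / (D.k f : ℝ) ^ 2)) ≤
      (D.b * D.b : ℝ) * ((s * p / D.N) * (p / (D.k f : ℝ) ^ 2)) := by
    refine mul_le_mul_of_nonneg_right ?_ (by positivity)
    nlinarith
  have h4 : ((κ + s) * (D.b * p) / D.N) * ((D.b * p) / (D.k f : ℝ) ^ 2) =
      (D.b * D.b : ℝ) * ((κ * p / D.N) * (p / (D.k f : ℝ) ^ 2)) +
      (D.b * D.b : ℝ) * ((s * p / D.N) * (p / (D.k f : ℝ) ^ 2)) := by ring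
  rw [h4]
  linarith

end Pool.Agent.Lib.H93D
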