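import Pool.Agent.Lib.H93D.T1B

/-!
# H93D, T3A: new elements: exact probability, pairs

See `H93B/PROOF.md`, section 3.
-/

set_option autoImplicit false

open Finset
open scoped Classical

namespace Pool.Agent.Lib.H93D

open Pool.Agent.Lib.H93A

variable {Q R M : Type} [Fintype Q] [Fintype R] [Fintype M] {D : Win Q R M} {Ω : Type} [Fintype Ω]
  {Y : Sys D Ω} {T : ℕ} {J : Q × R → Finset (Fin D.b)} {w : Q × R → ℝ}

/-- `P(x ∈ N0) = g p/N` exactly (`p2a_key` or `pr_step_one` with `A_j = Opn` for `j ∈ J x`, `True`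
otherwise; `w_eq`) -/
theorem pr_new_eq {p κ δ σl σu ξ Ca s g E : ℝ} (hY : SysHyp Y p κ δ σl σu ξ Ca)
    (hI : StepIn Y T J w p s g E) (x : Q × R) (hx : x ∈ D.X) :
    pr (stepμ Y w) (fun z => x ∈ stepN Y T J z) = g * p / D.N := by
  have h1 := pr_step_one (w := w) D.b hY.prob
    (fun (j : Fin D.b) (ω : Ω) => j ∈ J x → Opn Y T x (D.lab x j) ω) x
  have h2 : (fun z : StepΩ D Ω => x ∈ stepN Y T J z) = fun z =>
      (∀ j, (fun (j : Fin D.b) (ω : Ω) => j ∈ J x → Opn Y T x (D.lab x j) ω) j (z.1 j)) ∧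
        z.2 x = true := by
    funext z
    refine propext ⟨fun h => ?_, fun h => ?_⟩
    · obtain ⟨-, h3, h4⟩ := Finset.mem_filter.1 h
      exact ⟨fun j hj => h4 j hj, h3⟩
    · exact Finset.mem_filter.2 ⟨hx, h.2, fun j hj => h.1 j hj⟩
  have h3 : ∏ j : Fin D.b, pr Y.μ (fun ω => j ∈ J x → Opn Y T x (D.lab x j) ω) =
      ∏ j ∈ J x, pr Y.μ (Opn Y T x (D.lab x j)) := by
    rw [← Finset.prod_subset (Finset.subset_univ (J x))]
    · refine Finset.prod_congr rfl fun j hj => ?_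
      congr 1
      funext ω
      exact propext ⟨fun h => h hj, fun h _ => h⟩
    · intro j _ hj
      have h4 : (fun ω : Ω => j ∈ J x → Opn Y T x (D.lab x j) ω) = fun _ => True := by
        funext ω
        exact propext ⟨fun _ => trivial, fun _ h => absurd h hj⟩
      rw [h4]
      exact pr_true hY.prob
  rw [h2, stepμ, h1, h3, mul_comm]
  exact hI.w_eq x hx

/-- `∏_(j ∈ J x) (p/k²) w(x) ≤ s p/N` -/
theorem t3a_w_mul_le {p κ δ σl σu ξ Ca s g E : ℝ} (hk : ∀ f, 1 ≤ D.k f)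
    (hY : SysHyp Y p κ δ σl σu ξ Ca) (hI : StepIn Y T J w p s g E) (x : Q × R) (hx : x ∈ D.X) :
    (∏ j ∈ J x, (p / (D.k (D.lab x j) : ℝ) ^ 2)) * w x ≤ s * p / D.N := by
  have hp := hY.p_pos
  have hk' : ∀ f, (0 : ℝ) < (D.k f : ℝ) := fun f => by exact_mod_cast hk f
  have h1 : 0 ≤ ∏ j ∈ J x, (p / (D.k (D.lab x j) : ℝ) ^ 2) :=
    Finset.prod_nonneg fun j _ => by
      have := hk' (D.lab x j)
      positivity
  have h2 : (∏ j ∈ J x, (p / (D.k (D.lab x j) : ℝ) ^ 2)) *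
      ∏ j ∈ J x, ((D.k (D.lab x j) : ℝ) ^ 2 / p) = 1 := by
    rw [← Finset.prod_mul_distrib]
    refine Finset.prod_eq_one fun j _ => ?_
    have := hk' (D.lab x j)
    field_simp
  calc (∏ j ∈ J x, (p / (D.k (D.lab x j) : ℝ) ^ 2)) * w x ≤
      (∏ j ∈ J x, (p / (D.k (D.lab x j) : ℝ) ^ 2)) *
        ((s * p / D.N) * ∏ j ∈ J x, ((D.k (D.lab x j) : ℝ) ^ 2 / p)) :=
        mul_le_mul_of_nonneg_left (hI.w_le x hx) h1
    _ = (s * p / D.N) * ((∏ j ∈ J x, (p / (D.k (D.lab x j) : ℝ) ^ 2)) *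
      ∏ j ∈ J x, ((D.k (D.lab x j) : ℝ) ^ 2 / p)) := by ring
    _ = s * p / D.N := by rw [h2, mul_one]

/-- the indices with a common label -/
noncomputable def sh (J : Q × R → Finset (Fin D.b)) (x x' : Q × R) : Finset (Fin D.b) :=
  (J x ∩ J x').filter fun i => D.lab x i = D.lab x' i

/-- `P(x, x' ∈ N0) ≤ (s p/N)² ∏_(i ∈ sh) k²/p`: `pr_step_two`; copy `j`: `j` in neither: `1`; in one: `s2u`;
in both with different labels: `s3`; in `sh`: `s2u` once. (See `H93A.pr_two_new_le`, `H93A/T3C.lean`.) -/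
theorem pr_two_new_le {p κ δ σl σu ξ Ca s g E : ℝ} (hN : 0 < D.N) (hk : ∀ f, 1 ≤ D.k f)
    (hY : SysHyp Y p κ δ σl σu ξ Ca) (hI : StepIn Y T J w p s g E) (x x' : Q × R) (hx : x ∈ D.X)
    (hx' : x' ∈ D.X) (hne : x ≠ x') :
    pr (stepμ Y w) (fun z => x ∈ stepN Y T J z ∧ x' ∈ stepN Y T J z) ≤
      (s * p / D.N) ^ 2 * ∏ i ∈ sh J x x', ((D.k (D.lab x i) : ℝ) ^ 2 / p) := by
  have hp := hY.p_pos
  have hμ := step_isProb hY hI
  have hk' : ∀ f, (0 : ℝ) < (D.k f : ℝ) := fun f => by exact_mod_cast hk f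
  set A : Fin D.b → Ω → Prop := fun j ω =>
    (j ∈ J x → D.lab x j ∈ Y.P ω ∧ Y.C ω (D.lab x j) = D.cell (D.lab x j) x) ∧
    (j ∈ J x' → D.lab x' j ∈ Y.P ω ∧ Y.C ω (D.lab x' j) = D.cell (D.lab x' j) x') with hA
  have h1 : pr (stepμ Y w) (fun z => x ∈ stepN Y T J z ∧ x' ∈ stepN Y T J z) ≤
      (∏ j, pr Y.μ (A j)) * (w x * w x') := by
    rw [← pr_step_two D.b hY.prob A x x' hne]
    refine pr_mono hμ fun z hz => ?_
    obtain ⟨-, hz1, hz2⟩ := Finset.mem_filter.1 hz.1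
    obtain ⟨-, hz1', hz2'⟩ := Finset.mem_filter.1 hz.2
    exact ⟨fun j => ⟨fun hj => (hz2 j hj).1, fun hj => (hz2' j hj).1⟩, hz1, hz1'⟩
  set B : Fin D.b → ℝ := fun j =>
    ((if j ∈ J x then p / (D.k (D.lab x j) : ℝ) ^ 2 else 1) *
      (if j ∈ J x' then p / (D.k (D.lab x' j) : ℝ) ^ 2 else 1)) *
      (if j ∈ sh J x x' then (D.k (D.lab x j) : ℝ) ^ 2 / p else 1) with hB
  have h2 : ∀ j, pr Y.μ (A j) ≤ B j := by
    intro j
    have e1 := hk' (D.lab x j)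
    have e2 := hk' (D.lab x' j)
    simp only [hB]
    by_cases h3 : j ∈ J x
    · by_cases h4 : j ∈ J x'
      · by_cases h5 : D.lab x j = D.lab x' j
        · have h6 : j ∈ sh J x x' :=
            Finset.mem_filter.2 ⟨Finset.mem_inter.2 ⟨h3, h4⟩, h5⟩
          rw [if_pos h3, if_pos h4, if_pos h6, ← h5]
          have h7 : (p / (D.k (D.lab x j) : ℝ) ^ 2 * (p / (D.k (D.lab x j) : ℝ) ^ 2)) *
              ((D.k (D.lab x j) : ℝ) ^ 2 / p) = p / (D.k (D.lab x j) : ℝ) ^ 2 := by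
            field_simp
          rw [h7]
          refine (pr_mono hY.prob fun ω hω => ?_).trans (s2u hY (D.lab x j) (D.cell (D.lab x j) x))
          exact hω.1 h3
        · have h6 : j ∉ sh J x x' := fun h => h5 (Finset.mem_filter.1 h).2
          rw [if_pos h3, if_pos h4, if_neg h6, mul_one]
          refine (pr_mono hY.prob fun ω hω => ?_).trans (s3 hY _ _ (D.cell (D.lab x j) x)
            (D.cell (D.lab x' j) x') h5)
          exact ⟨hω.1 h3, hω.2 h4⟩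
      · have h6 : j ∉ sh J x x' := fun h => h4 (Finset.mem_inter.1 (Finset.mem_filter.1 h).1).2
        rw [if_pos h3, if_neg h4, if_neg h6, mul_one, mul_one]
        refine (pr_mono hY.prob fun ω hω => ?_).trans (s2u hY (D.lab x j) (D.cell (D.lab x j) x))
        exact hω.1 h3
    · have h6 : j ∉ sh J x x' := fun h => h3 (Finset.mem_inter.1 (Finset.mem_filter.1 h).1).1
      by_cases h4 : j ∈ J x'
      · rw [if_neg h3, if_pos h4, if_neg h6, mul_one, one_mul]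
        refine (pr_mono hY.prob fun ω hω => ?_).trans
          (s2u hY (D.lab x' j) (D.cell (D.lab x' j) x'))
        exact hω.2 h4
      · rw [if_neg h3, if_neg h4, if_neg h6, mul_one, mul_one]
        exact pr_le_one hY.prob _
  have h3 : ∏ j, pr Y.μ (A j) ≤ ∏ j, B j :=
    Finset.prod_le_prod (fun j _ => pr_nonneg hY.prob _) fun j _ => h2 j
  have hw0 : 0 ≤ w x * w x' := mul_nonneg (hI.w_nonneg x) (hI.w_nonneg x')
  have h4 : ∏ j, B j = ((∏ j ∈ J x, (p / (D.k (D.lab x j) : ℝ) ^ 2)) *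
      ∏ j ∈ J x', (p / (D.k (D.lab x' j) : ℝ) ^ 2)) *
      ∏ i ∈ sh J x x', ((D.k (D.lab x i) : ℝ) ^ 2 / p) := by
    simp only [hB]
    rw [Finset.prod_mul_distrib, Finset.prod_mul_distrib, Finset.prod_ite_mem, Finset.prod_ite_mem,
      Finset.prod_ite_mem, Finset.univ_inter, Finset.univ_inter, Finset.univ_inter]
  have h5 := t3a_w_mul_le hk hY hI x hx
  have h6 := t3a_w_mul_le hk hY hI x' hx'
  have h7 : 0 ≤ ∏ i ∈ sh J x x', ((D.k (D.lab x i) : ℝ) ^ 2 / p) :=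
    Finset.prod_nonneg fun j _ => by
      have := hk' (D.lab x j)
      positivity
  have h8 : 0 ≤ (∏ j ∈ J x', (p / (D.k (D.lab x' j) : ℝ) ^ 2)) * w x' :=
    mul_nonneg (Finset.prod_nonneg fun j _ => by
      have := hk' (D.lab x' j)
      positivity) (hI.w_nonneg x')
  have h9 : 0 ≤ s * p / D.N := div_nonneg (mul_nonneg hI.s_nonneg hp.le) hN.le
  calc pr (stepμ Y w) (fun z => x ∈ stepN Y T J z ∧ x' ∈ stepN Y T J z)
      ≤ (∏ j, B j) * (w x * w x') := h1.trans (mul_le_mul_of_nonneg_right h3 hw0)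
    _ = (((∏ j ∈ J x, (p / (D.k (D.lab x j) : ℝ) ^ 2)) * w x) *
      ((∏ j ∈ J x', (p / (D.k (D.lab x' j) : ℝ) ^ 2)) * w x')) *
      ∏ i ∈ sh J x x', ((D.k (D.lab x i) : ℝ) ^ 2 / p) := by
        rw [h4]
        ring
    _ ≤ ((s * p / D.N) * (s * p / D.N)) * ∏ i ∈ sh J x x', ((D.k (D.lab x i) : ℝ) ^ 2 / p) :=
        mul_le_mul_of_nonneg_right (mul_le_mul h5 h6 h8 h9) h7
    _ = (s * p / D.N) ^ 2 * ∏ i ∈ sh J x x', ((D.k (D.lab x i) : ℝ) ^ 2 / p) := by ring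

/-- if `x, x' ∈ N0` and `i ∈ sh J x x'` then the cells at `lab x i` agree -/
theorem cell_eq_of_sh {z : StepΩ D Ω} {x x' : Q × R} (hx : x ∈ stepN Y T J z)
    (hx' : x' ∈ stepN Y T J z) {i : Fin D.b} (hi : i ∈ sh J x x') :
    D.cell (D.lab x i) x = D.cell (D.lab x i) x' := by
  obtain ⟨-, -, h3⟩ := Finset.mem_filter.1 hx
  obtain ⟨-, -, h4⟩ := Finset.mem_filter.1 hx'
  obtain ⟨h5, h6⟩ := Finset.mem_filter.1 hi
  obtain ⟨h7, h8⟩ := Finset.mem_inter.1 h5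
  rw [← (h3 i h7).1.2, h6, (h4 i h8).1.2]

end Pool.Agent.Lib.H93D
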