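import Pool.Agent.Lib.H93D.T3A

/-!
# H93D, T3B: pairs of new elements with exactly one common index

See `H93B/PROOF.md`, section 3.
-/

set_option autoImplicit false

open Finset
open scoped Classical

namespace Pool.Agent.Lib.H93D

open Pool.Agent.Lib.H93A

variable {Q R M : Type} [Fintype Q] [Fintype R] [Fintype M] {D : Win Q R M} {Ω : Type} [Fintype Ω]
  {Y : Sys D Ω} {T : ℕ} {J : Q × R → Finset (Fin D.b)} {w : Q × R → ℝ}

/-- a cell has at most `16 m²/k²` elements -/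
theorem t3b_card_cellSet {kmax : ℕ} {K θ1 ε η d : ℝ} (hD : WinHyp D kmax K θ1 ε η d) (f : M)
    (c : ℕ × ℕ) : ((D.cellSet f c).card : ℝ) ≤ 16 * (D.m : ℝ) ^ 2 / (D.k f : ℝ) ^ 2 := by
  have hk : (0 : ℝ) < (D.k f : ℝ) := by exact_mod_cast hD.k_pos f
  have h1 : D.cellSet f c ⊆ D.clA f c.1 ×ˢ D.clB f c.2 := by
    intro y hy
    obtain ⟨h2, h3⟩ := Finset.mem_filter.1 hy
    have h4 : D.iA f y.1 = c.1 := by rw [← h3]; rfl
    have h5 : D.iB f y.2 = c.2 := by rw [← h3]; rfl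
    exact Finset.mem_product.2 ⟨Finset.mem_filter.2 ⟨Finset.mem_image_of_mem _ h2, h4⟩,
      Finset.mem_filter.2 ⟨Finset.mem_image_of_mem _ h2, h5⟩⟩
  have h6 : ((D.cellSet f c).card : ℝ) ≤ (D.clA f c.1).card * (D.clB f c.2).card := by
    have := Finset.card_le_card h1
    rw [Finset.card_product] at this
    exact_mod_cast this
  refine h6.trans ?_
  have h7 : (0 : ℝ) ≤ 4 * D.m / D.k f := by positivity
  calc ((D.clA f c.1).card : ℝ) * (D.clB f c.2).card ≤ (4 * D.m / D.k f) * (4 * D.m / D.k f) :=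
        mul_le_mul (hD.clA_le f c.1) (hD.clB_le f c.2) (Nat.cast_nonneg _) h7
    _ = 16 * (D.m : ℝ) ^ 2 / (D.k f : ℝ) ^ 2 := by
        field_simp
        ring

/-- A1: `|sh| = 1`. For `i ∈ J x` the `x'` with the same label and the same cell at `f = lab x i` number at
most `16 m²/k_f²` (they lie in `cellSet f (cell f x)`; `clA_le`, `clB_le`), each with probability at most
`(s p/N)² k_f²/p`; the others have probability `0` (`cell_eq_of_sh`). `16 m² ≤ 64 K² N`. -/
theorem sum_A1_le {kmax : ℕ} {K θ1 ε η d p κ δ σl σu ξ Ca s g E : ℝ}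
    (hD : WinHyp D kmax K θ1 ε η d) (hY : SysHyp Y p κ δ σl σu ξ Ca)
    (hI : StepIn Y T J w p s g E) (x : Q × R) (hx : x ∈ D.X) :
    ∑ x' ∈ D.X.filter fun x' => x' ≠ x ∧ (sh J x x').card = 1,
      pr (stepμ Y w) (fun z => x ∈ stepN Y T J z ∧ x' ∈ stepN Y T J z) ≤
      64 * K ^ 2 * D.b * s ^ 2 * p / D.N := by
  have hp := hY.p_pos
  have hN : (0 : ℝ) < D.N := lt_of_lt_of_le one_pos hD.N_pos
  have hk : ∀ f, (0 : ℝ) < (D.k f : ℝ) := fun f => by exact_mod_cast hD.k_pos f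
  set c : Fin D.b → ℝ := fun i => (s * p / D.N) ^ 2 * ((D.k (D.lab x i) : ℝ) ^ 2 / p) with hc
  have hc0 : ∀ i, 0 ≤ c i := by
    intro i
    simp only [hc]
    have := hk (D.lab x i)
    positivity
  have h1 : ∀ x' ∈ D.X.filter fun x' => x' ≠ x ∧ (sh J x x').card = 1,
      pr (stepμ Y w) (fun z => x ∈ stepN Y T J z ∧ x' ∈ stepN Y T J z) ≤
      ∑ i ∈ J x, if x' ∈ D.cellSet (D.lab x i) (D.cell (D.lab x i) x) then c i else 0 := by
    intro x' hx'
    obtain ⟨hx1, hne, hcard⟩ := Finset.mem_filter.1 hx'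
    obtain ⟨i, hi⟩ := Finset.card_eq_one.1 hcard
    have hi' : i ∈ sh J x x' := by rw [hi]; exact Finset.mem_singleton_self i
    obtain ⟨h2, h3⟩ := Finset.mem_filter.1 hi'
    obtain ⟨h4, h5⟩ := Finset.mem_inter.1 h2
    have h6 : ∀ i ∈ J x, (0 : ℝ) ≤
        (if x' ∈ D.cellSet (D.lab x i) (D.cell (D.lab x i) x) then c i else 0) := by
      intro i _
      split_ifs
      · exact hc0 i
      · exact le_rfl
    by_cases h7 : x' ∈ D.cellSet (D.lab x i) (D.cell (D.lab x i) x)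
    · have h8 := pr_two_new_le hN hD.k_pos hY hI x x' hx hx1 hne.symm
      rw [hi, Finset.prod_singleton] at h8
      refine h8.trans ?_
      have h9 := Finset.single_le_sum h6 h4
      rw [if_pos h7] at h9
      exact h9
    · have h8 : pr (stepμ Y w) (fun z => x ∈ stepN Y T J z ∧ x' ∈ stepN Y T J z) = 0 := by
        unfold pr
        refine Finset.sum_eq_zero fun z _ => ?_
        rw [if_neg]
        rintro ⟨h9, h10⟩
        apply h7
        refine Finset.mem_filter.2 ⟨Finset.mem_filter.2 ⟨hx1, ?_⟩, (cell_eq_of_sh h9 h10 hi').symm⟩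
        rw [h3]
        exact Finset.mem_image_of_mem _ (hI.J_sub x' hx1 h5)
      rw [h8]
      exact Finset.sum_nonneg h6
  refine (Finset.sum_le_sum h1).trans ?_
  rw [Finset.sum_comm]
  have h2 : ∀ i ∈ J x, ∑ x' ∈ D.X.filter fun x' => x' ≠ x ∧ (sh J x x').card = 1,
      (if x' ∈ D.cellSet (D.lab x i) (D.cell (D.lab x i) x) then c i else 0) ≤
      64 * K ^ 2 * s ^ 2 * p / D.N := by
    intro i _
    have e1 := hk (D.lab x i)
    rw [Finset.sum_ite_mem, Finset.sum_const, nsmul_eq_mul]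
    have h3 : (((D.X.filter fun x' => x' ≠ x ∧ (sh J x x').card = 1) ∩
        D.cellSet (D.lab x i) (D.cell (D.lab x i) x)).card : ℝ) ≤
        16 * (D.m : ℝ) ^ 2 / (D.k (D.lab x i) : ℝ) ^ 2 := by
      refine le_trans ?_ (t3b_card_cellSet hD (D.lab x i) (D.cell (D.lab x i) x))
      exact_mod_cast Finset.card_le_card Finset.inter_subset_right
    calc _ ≤ (16 * (D.m : ℝ) ^ 2 / (D.k (D.lab x i) : ℝ) ^ 2) * c i :=
          mul_le_mul_of_nonneg_right h3 (hc0 i)
      _ = 16 * (D.m : ℝ) ^ 2 * (s ^ 2 * p / D.N ^ 2) := by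
          simp only [hc]
          field_simp
      _ ≤ 16 * (4 * K ^ 2 * D.N) * (s ^ 2 * p / D.N ^ 2) := by
          refine mul_le_mul_of_nonneg_right ?_ (by positivity)
          have := hD.m_sq
          linarith
      _ = 64 * K ^ 2 * s ^ 2 * p / D.N := by
          field_simp
          ring
  refine (Finset.sum_le_sum h2).trans ?_
  rw [Finset.sum_const, nsmul_eq_mul]
  have h3 : ((J x).card : ℝ) ≤ D.b := by
    have := Finset.card_le_univ (J x)
    rw [Fintype.card_fin] at this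
    exact_mod_cast this
  have h4 : 0 ≤ 64 * K ^ 2 * s ^ 2 * p / D.N := by positivity
  calc ((J x).card : ℝ) * (64 * K ^ 2 * s ^ 2 * p / D.N) ≤ D.b * (64 * K ^ 2 * s ^ 2 * p / D.N) :=
        mul_le_mul_of_nonneg_right h3 h4
    _ = 64 * K ^ 2 * D.b * s ^ 2 * p / D.N := by ring

end Pool.Agent.Lib.H93D
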