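import Pool.Agent.Lib.H93D.T3A

/-!
# H93D, T3C: pairs of new elements with at least two common indices

See `H93B/PROOF.md`, section 3.
-/

set_option autoImplicit false

open Finset
open scoped Classical

namespace Pool.Agent.Lib.H93D

open Pool.Agent.Lib.H93A

variable {Q R M : Type} [Fintype Q] [Fintype R] [Fintype M] {D : Win Q R M} {Ω : Type} [Fintype Ω]
  {Y : Sys D Ω} {T : ℕ} {J : Q × R → Finset (Fin D.b)} {w : Q × R → ℝ}

/-- the number of `x'` with two common labels -/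
theorem t3c_card_two {kmax : ℕ} {K θ1 ε η d p κ δ σl σu ξ Ca s g E : ℝ}
    (hD : WinHyp D kmax K θ1 ε η d) (hI : StepIn Y T J w p s g E) (hθ0 : 0 ≤ θ1) (x : Q × R)
    (hx : x ∈ D.X) (_hY : SysHyp Y p κ δ σl σu ξ Ca) :
    ((D.X.filter fun x' => x' ≠ x ∧ 2 ≤ (sh J x x').card).card : ℝ) ≤
      (D.b : ℝ) ^ 2 * (θ1 * D.N) := by
  have hN : (0 : ℝ) < D.N := lt_of_lt_of_le one_pos hD.N_pos
  set P : Finset (Fin D.b × Fin D.b) := (J x ×ˢ J x).filter fun q => q.1 ≠ q.2 with hP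
  have h1 : (D.X.filter fun x' => x' ≠ x ∧ 2 ≤ (sh J x x').card) ⊆
      P.biUnion fun q => D.Xf (D.lab x q.1) ∩ D.Xf (D.lab x q.2) := by
    intro x' hx'
    obtain ⟨hx1, -, hcard⟩ := Finset.mem_filter.1 hx'
    obtain ⟨i, hi, j, hj, hij⟩ := Finset.one_lt_card.1 hcard
    have key : ∀ i ∈ sh J x x', i ∈ J x ∧ x' ∈ D.Xf (D.lab x i) := by
      intro i hi
      obtain ⟨h2, h3⟩ := Finset.mem_filter.1 hi
      obtain ⟨h4, h5⟩ := Finset.mem_inter.1 h2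
      refine ⟨h4, Finset.mem_filter.2 ⟨hx1, ?_⟩⟩
      rw [h3]
      exact Finset.mem_image_of_mem _ (hI.J_sub x' hx1 h5)
    refine Finset.mem_biUnion.2 ⟨(i, j), Finset.mem_filter.2
      ⟨Finset.mem_product.2 ⟨(key i hi).1, (key j hj).1⟩, hij⟩,
      Finset.mem_inter.2 ⟨(key i hi).2, (key j hj).2⟩⟩
  have h2 : ((D.X.filter fun x' => x' ≠ x ∧ 2 ≤ (sh J x x').card).card : ℝ) ≤
      ∑ q ∈ P, ((D.Xf (D.lab x q.1) ∩ D.Xf (D.lab x q.2)).card : ℝ) := by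
    have := (Finset.card_le_card h1).trans Finset.card_biUnion_le
    exact_mod_cast this
  refine h2.trans ?_
  have h3 : ∀ q ∈ P, ((D.Xf (D.lab x q.1) ∩ D.Xf (D.lab x q.2)).card : ℝ) ≤ θ1 * D.N := by
    intro q hq
    obtain ⟨h4, h5⟩ := Finset.mem_filter.1 hq
    obtain ⟨h6, h7⟩ := Finset.mem_product.1 h4
    exact hD.weak x hx q.1 (hI.J_sub x hx h6) q.2 (hI.J_sub x hx h7) h5
  refine (Finset.sum_le_sum h3).trans ?_
  rw [Finset.sum_const, nsmul_eq_mul]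
  refine mul_le_mul_of_nonneg_right ?_ (mul_nonneg hθ0 hN.le)
  have h4 : (P.card : ℝ) ≤ ((D.b * D.b : ℕ) : ℝ) := by
    have h5 : P.card ≤ (Finset.univ : Finset (Fin D.b × Fin D.b)).card :=
      Finset.card_le_card (Finset.subset_univ _)
    rw [Finset.card_univ, Fintype.card_prod, Fintype.card_fin] at h5
    exact_mod_cast h5
  calc (P.card : ℝ) ≤ ((D.b * D.b : ℕ) : ℝ) := h4
    _ = (D.b : ℝ) ^ 2 := by
        push_cast
        ring

/-- A2: `|sh| ≥ 2`: `x'` lies in `Xf (lab x i) ∩ Xf (lab x j)` for some `i ≠ j` in `J x ⊆ idx x`: at most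
`b² θ1 N` of them (`weak`), each with probability at most `(s p/N)² (kmax²/p)^b` (`k²/p ≥ 1`). -/
theorem sum_A2_le {kmax : ℕ} {K θ1 ε η d p κ δ σl σu ξ Ca s g E : ℝ}
    (hD : WinHyp D kmax K θ1 ε η d) (hY : SysHyp Y p κ δ σl σu ξ Ca)
    (hI : StepIn Y T J w p s g E) (hθ0 : 0 ≤ θ1)
    (hθ : θ1 * ((D.b : ℝ) ^ 2 * (kmax : ℝ) ^ (2 * D.b)) ≤ p ^ D.b) (x : Q × R) (hx : x ∈ D.X) :
    ∑ x' ∈ D.X.filter fun x' => x' ≠ x ∧ 2 ≤ (sh J x x').card,
      pr (stepμ Y w) (fun z => x ∈ stepN Y T J z ∧ x' ∈ stepN Y T J z) ≤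
      s ^ 2 * p ^ 2 / D.N := by
  have hp := hY.p_pos
  have hp1 := hY.p_le
  have hN : (0 : ℝ) < D.N := lt_of_lt_of_le one_pos hD.N_pos
  have hk : ∀ f, (1 : ℝ) ≤ (D.k f : ℝ) := fun f => by exact_mod_cast hD.k_pos f
  have hk2 : ∀ f, (D.k f : ℝ) ≤ kmax := fun f => by exact_mod_cast hD.k_le f
  have hkm : (1 : ℝ) ≤ kmax := (hk (D.lab x ⟨0, hD.b_pos⟩)).trans (hk2 _)
  have hq : 1 ≤ (kmax : ℝ) ^ 2 / p := by
    rw [le_div_iff₀ hp]
    have : (1 : ℝ) ≤ (kmax : ℝ) ^ 2 := one_le_pow₀ hkm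
    linarith
  have h1 : ∀ x' ∈ D.X.filter fun x' => x' ≠ x ∧ 2 ≤ (sh J x x').card,
      pr (stepμ Y w) (fun z => x ∈ stepN Y T J z ∧ x' ∈ stepN Y T J z) ≤
      (s * p / D.N) ^ 2 * ((kmax : ℝ) ^ 2 / p) ^ D.b := by
    intro x' hx'
    obtain ⟨hx1, hne, -⟩ := Finset.mem_filter.1 hx'
    refine (pr_two_new_le hN hD.k_pos hY hI x x' hx hx1 hne.symm).trans ?_
    refine mul_le_mul_of_nonneg_left ?_ (sq_nonneg _)
    have h2 : ∏ i ∈ sh J x x', ((D.k (D.lab x i) : ℝ) ^ 2 / p) ≤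
        ∏ _i ∈ sh J x x', ((kmax : ℝ) ^ 2 / p) := by
      refine Finset.prod_le_prod (fun i _ => ?_) fun i _ => ?_
      · have := hk (D.lab x i)
        positivity
      · have e1 := hk (D.lab x i)
        have e2 := hk2 (D.lab x i)
        gcongr
    refine h2.trans ?_
    rw [Finset.prod_const]
    refine pow_le_pow_right₀ hq ?_
    have := Finset.card_le_univ (sh J x x')
    rwa [Fintype.card_fin] at this
  refine (Finset.sum_le_sum h1).trans ?_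
  rw [Finset.sum_const, nsmul_eq_mul]
  have h2 := t3c_card_two hD hI hθ0 x hx hY
  have h3 : 0 ≤ (s * p / D.N) ^ 2 * ((kmax : ℝ) ^ 2 / p) ^ D.b := by positivity
  refine (mul_le_mul_of_nonneg_right h2 h3).trans ?_
  have h4 : (D.b : ℝ) ^ 2 * (θ1 * D.N) * ((s * p / D.N) ^ 2 * ((kmax : ℝ) ^ 2 / p) ^ D.b) =
      (θ1 * ((D.b : ℝ) ^ 2 * (kmax : ℝ) ^ (2 * D.b))) * (s ^ 2 * p ^ 2 / D.N) / p ^ D.b := by
    rw [div_pow ((kmax : ℝ) ^ 2) p D.b, ← pow_mul]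
    field_simp
  rw [h4, div_le_iff₀ (pow_pos hp _), mul_comm (s ^ 2 * p ^ 2 / D.N)]
  exact mul_le_mul_of_nonneg_right hθ (by positivity)

/-- A3 and B: `sh = ∅`, and a common element of `V` or a conflict: at most `b m² + K N ≤ (4 b K² + K) N`
elements `x'`, each with probability at most `(s p/N)²`. -/
theorem sum_A3_le {kmax : ℕ} {K θ1 ε η d p κ δ σl σu ξ Ca s g E : ℝ}
    (hD : WinHyp D kmax K θ1 ε η d) (hY : SysHyp Y p κ δ σl σu ξ Ca)
    (hI : StepIn Y T J w p s g E) (x : Q × R) (hx : x ∈ D.X) :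
    ∑ x' ∈ D.X.filter fun x' => x' ≠ x ∧ (sh J x x').card = 0 ∧
        (¬ Disjoint (D.V x) (D.V x') ∨ D.conf x x'),
      pr (stepμ Y w) (fun z => x ∈ stepN Y T J z ∧ x' ∈ stepN Y T J z) ≤
      (4 * D.b * K ^ 2 + K) * s ^ 2 * p ^ 2 / D.N := by
  have hp := hY.p_pos
  have hN : (0 : ℝ) < D.N := lt_of_lt_of_le one_pos hD.N_pos
  have h1 : ∀ x' ∈ D.X.filter fun x' => x' ≠ x ∧ (sh J x x').card = 0 ∧
        (¬ Disjoint (D.V x) (D.V x') ∨ D.conf x x'),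
      pr (stepμ Y w) (fun z => x ∈ stepN Y T J z ∧ x' ∈ stepN Y T J z) ≤
      (s * p / D.N) ^ 2 := by
    intro x' hx'
    obtain ⟨hx1, hne, h0, -⟩ := Finset.mem_filter.1 hx'
    refine (pr_two_new_le hN hD.k_pos hY hI x x' hx hx1 hne.symm).trans ?_
    rw [Finset.card_eq_zero.1 h0, Finset.prod_empty, mul_one]
  refine (Finset.sum_le_sum h1).trans ?_
  rw [Finset.sum_const, nsmul_eq_mul]
  have h2 : (D.X.filter fun x' => x' ≠ x ∧ (sh J x x').card = 0 ∧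
        (¬ Disjoint (D.V x) (D.V x') ∨ D.conf x x')) ⊆
      ((D.idx x).biUnion fun i => D.Xf (D.lab x i)) ∪ D.X.filter fun y => D.conf x y := by
    intro x' hx'
    obtain ⟨hx1, -, -, h3⟩ := Finset.mem_filter.1 hx'
    rcases h3 with h3 | h3
    · obtain ⟨f, hf1, hf2⟩ := Finset.not_disjoint_iff.1 h3
      obtain ⟨i, hi, rfl⟩ := Finset.mem_image.1 hf1
      exact Finset.mem_union_left _ (Finset.mem_biUnion.2 ⟨i, hi, Finset.mem_filter.2 ⟨hx1, hf2⟩⟩)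
    · exact Finset.mem_union_right _ (Finset.mem_filter.2 ⟨hx1, h3⟩)
  have h3 : ((D.X.filter fun x' => x' ≠ x ∧ (sh J x x').card = 0 ∧
        (¬ Disjoint (D.V x) (D.V x') ∨ D.conf x x')).card : ℝ) ≤
      ∑ i ∈ D.idx x, ((D.Xf (D.lab x i)).card : ℝ) + ((D.X.filter fun y => D.conf x y).card : ℝ) := by
    have h4 := (Finset.card_le_card h2).trans ((Finset.card_union_le _ _).trans
      (Nat.add_le_add_right Finset.card_biUnion_le _))
    exact_mod_cast h4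
  have h4 : ∑ i ∈ D.idx x, ((D.Xf (D.lab x i)).card : ℝ) ≤ D.b * (4 * K ^ 2 * D.N) := by
    refine (Finset.sum_le_sum fun i _ => (hD.cardXf (D.lab x i)).trans hD.m_sq).trans ?_
    rw [Finset.sum_const, nsmul_eq_mul]
    refine mul_le_mul_of_nonneg_right ?_ (by positivity)
    have := Finset.card_le_univ (D.idx x)
    rw [Fintype.card_fin] at this
    exact_mod_cast this
  have h5 := hD.conf_card x hx
  have h6 : ((D.X.filter fun x' => x' ≠ x ∧ (sh J x x').card = 0 ∧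
        (¬ Disjoint (D.V x) (D.V x') ∨ D.conf x x')).card : ℝ) ≤ (4 * D.b * K ^ 2 + K) * D.N := by
    refine h3.trans ?_
    linarith
  refine (mul_le_mul_of_nonneg_right h6 (sq_nonneg _)).trans (le_of_eq ?_)
  field_simp

end Pool.Agent.Lib.H93D
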