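import Pool.Agent.Lib.H93D.T3A

/-!
# H93D, T3D: a new and an old element, two old elements, labels in two copies

See `H93B/PROOF.md`, section 3.
-/

set_option autoImplicit false

open Finset
open scoped Classical

namespace Pool.Agent.Lib.H93D

open Pool.Agent.Lib.H93A

variable {Q R M : Type} [Fintype Q] [Fintype R] [Fintype M] {D : Win Q R M} {Ω : Type} [Fintype Ω]
  {Y : Sys D Ω} {T : ℕ} {J : Q × R → Finset (Fin D.b)} {w : Q × R → ℝ}

/-- a new element and an event in the copy `j`: general bound -/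
theorem t3d_new_copy_le {p κ δ σl σu ξ Ca s g E : ℝ} (hk : ∀ f, 1 ≤ D.k f)
    (hY : SysHyp Y p κ δ σl σu ξ Ca) (hI : StepIn Y T J w p s g E) (x : Q × R) (hx : x ∈ D.X)
    (j : Fin D.b) (B : Ω → Prop) (β : ℝ) (hβ : 0 ≤ β)
    (hin : j ∈ J x → pr Y.μ (fun ω => (D.lab x j ∈ Y.P ω ∧ Y.C ω (D.lab x j) =
      D.cell (D.lab x j) x) ∧ B ω) ≤ (p / (D.k (D.lab x j) : ℝ) ^ 2) * β)
    (hout : j ∉ J x → pr Y.μ B ≤ β) (G : StepΩ D Ω → Prop)
    (hG : ∀ z, G z → x ∈ stepN Y T J z ∧ B (z.1 j)) :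
    pr (stepμ Y w) G ≤ (s * p / D.N) * β := by
  have hp := hY.p_pos
  have hμ := step_isProb hY hI
  have hk' : ∀ f, (0 : ℝ) < (D.k f : ℝ) := fun f => by exact_mod_cast hk f
  set A : Fin D.b → Ω → Prop := fun l ω =>
    (l ∈ J x → D.lab x l ∈ Y.P ω ∧ Y.C ω (D.lab x l) = D.cell (D.lab x l) x) ∧
    (l = j → B ω) with hA
  have h1 : pr (stepμ Y w) G ≤ (∏ l, pr Y.μ (A l)) * w x := by
    rw [← pr_step_one D.b hY.prob A x]
    refine pr_mono hμ fun z hz => ?_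
    obtain ⟨hz1, hz2⟩ := hG z hz
    obtain ⟨-, hz3, hz4⟩ := Finset.mem_filter.1 hz1
    refine ⟨fun l => ⟨fun hl => (hz4 l hl).1, fun hl => ?_⟩, hz3⟩
    rw [hl]
    exact hz2
  set C : Fin D.b → ℝ := fun l =>
    (if l ∈ J x then p / (D.k (D.lab x l) : ℝ) ^ 2 else 1) * (if l = j then β else 1) with hC
  have h2 : ∀ l, pr Y.μ (A l) ≤ C l := by
    intro l
    have e1 := hk' (D.lab x l)
    simp only [hC]
    by_cases h3 : l ∈ J x
    · by_cases h4 : l = j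
      · rw [if_pos h3, if_pos h4]
        subst h4
        refine (pr_mono hY.prob fun ω hω => ?_).trans (hin h3)
        exact ⟨hω.1 h3, hω.2 rfl⟩
      · rw [if_pos h3, if_neg h4, mul_one]
        refine (pr_mono hY.prob fun ω hω => ?_).trans (s2u hY (D.lab x l) (D.cell (D.lab x l) x))
        exact hω.1 h3
    · by_cases h4 : l = j
      · rw [if_neg h3, if_pos h4, one_mul]
        subst h4
        refine (pr_mono hY.prob fun ω hω => ?_).trans (hout h3)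
        exact hω.2 rfl
      · rw [if_neg h3, if_neg h4, mul_one]
        exact pr_le_one hY.prob _
  have h3 : ∏ l, pr Y.μ (A l) ≤ ∏ l, C l :=
    Finset.prod_le_prod (fun l _ => pr_nonneg hY.prob _) fun l _ => h2 l
  have h4 : ∏ l, C l = (∏ l ∈ J x, (p / (D.k (D.lab x l) : ℝ) ^ 2)) * β := by
    simp only [hC]
    rw [Finset.prod_mul_distrib, Finset.prod_ite_mem, Finset.univ_inter, Finset.prod_ite_eq',
      if_pos (Finset.mem_univ j)]
  calc pr (stepμ Y w) G ≤ (∏ l, C l) * w x :=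
        h1.trans (mul_le_mul_of_nonneg_right h3 (hI.w_nonneg x))
    _ = ((∏ l ∈ J x, (p / (D.k (D.lab x l) : ℝ) ^ 2)) * w x) * β := by
        rw [h4]
        ring
    _ ≤ (s * p / D.N) * β := mul_le_mul_of_nonneg_right (t3a_w_mul_le hk hY hI x hx) hβ

/-- C: `x ∈ N0`, `x' ∈ S^j`, `x = x'` or a conflict. If `j ∈ J x` and `f = lab x j ∈ V*^j x'` then `x'` is
in the history of `f` in copy `j`, so `(x.1, x'.2) ∈ X_f ⊆ X`, `x.1 ≠ x'.1`, `x.2 ≠ x'.2` by openness, and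
`conf_not` excludes a conflict: the event is empty. So the event is contained in: `z.2 x = true`,
`lab x i ∈ P^i` with its cell for `i ∈ J x`, and in copy `j` moreover `x' ∈ S^j`, `lab x j ∉ V*^j x'`:
`s5` in copy `j` (`sx` if `j ∉ J x`), `s2u` in the others; `w_le`. -/
theorem pr_new_old_le {kmax : ℕ} {K θ1 ε η d p κ δ σl σu ξ Ca s g E : ℝ}
    (hD : WinHyp D kmax K θ1 ε η d) (hY : SysHyp Y p κ δ σl σu ξ Ca)
    (hI : StepIn Y T J w p s g E) (x x' : Q × R) (hx : x ∈ D.X) (hx' : x' ∈ D.X) (j : Fin D.b)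
    (hc : x = x' ∨ D.conf x x') :
    pr (stepμ Y w) (fun z => x ∈ stepN Y T J z ∧ x' ∈ Y.S (z.1 j)) ≤
      (s * p / D.N) * (κ * p / D.N) := by
  have hp := hY.p_pos
  have hN : (0 : ℝ) < D.N := lt_of_lt_of_le one_pos hD.N_pos
  have hβ : 0 ≤ κ * p / D.N := div_nonneg (mul_nonneg hY.κ_nonneg hp.le) hN.le
  refine t3d_new_copy_le hD.k_pos hY hI x hx j
    (fun ω => x' ∈ Y.S ω ∧ (j ∈ J x → D.lab x j ∉ Y.Vs ω x')) (κ * p / D.N) hβ ?_ ?_ _ ?_
  · intro hj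
    rw [mul_comm]
    refine (pr_mono hY.prob fun ω hω => ?_).trans (hY.s5 x' hx' (D.lab x j) (D.cell (D.lab x j) x))
    exact ⟨⟨hω.2.1, hω.2.2 hj⟩, hω.1⟩
  · intro hj
    refine (pr_mono hY.prob fun ω hω => ?_).trans (sx hY x' hx')
    exact hω.1
  · intro z hz
    refine ⟨hz.1, hz.2, fun hj hV => ?_⟩
    obtain ⟨-, -, h1⟩ := Finset.mem_filter.1 hz.1
    have h2 := (h1 j hj).2.2 x' (Finset.mem_filter.2 ⟨hz.2, hV⟩)
    rcases hc with hc | hc
    · exact h2.2.1 (by rw [hc])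
    · exact hD.conf_not x hx x' hx' h2.2.1 h2.2.2 (Finset.mem_filter.1 h2.1).1 hc

/-- D -/
theorem pr_old_old_le {p κ δ σl σu ξ Ca s g E : ℝ} (hN : 0 < D.N)
    (hY : SysHyp Y p κ δ σl σu ξ Ca) (hI : StepIn Y T J w p s g E) (x x' : Q × R) (hx : x ∈ D.X)
    (hx' : x' ∈ D.X) (i j : Fin D.b) (hij : i ≠ j) :
    pr (stepμ Y w) (fun z => x ∈ Y.S (z.1 i) ∧ x' ∈ Y.S (z.1 j)) ≤ (κ * p / D.N) ^ 2 := by
  have hβ : 0 ≤ κ * p / D.N := div_nonneg (mul_nonneg hY.κ_nonneg hY.p_pos.le) hN.le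
  have h1 := pr_step_copy_two (w := w) D.b hY.prob i j hij (fun ω => x ∈ Y.S ω)
    (fun ω => x' ∈ Y.S ω)
  unfold stepμ
  rw [h1, sq]
  exact mul_le_mul (sx hY x hx) (sx hY x' hx') (pr_nonneg hY.prob _) hβ

/-- E, old -/
theorem pr_old_label_le {p κ δ σl σu ξ Ca s g E : ℝ} (hN : 0 < D.N)
    (hY : SysHyp Y p κ δ σl σu ξ Ca) (hI : StepIn Y T J w p s g E) (x : Q × R) (hx : x ∈ D.X)
    (f : M) (i j : Fin D.b) (hij : i ≠ j) :
    pr (stepμ Y w) (fun z => x ∈ Y.S (z.1 i) ∧ f ∈ Y.P (z.1 j)) ≤ (κ * p / D.N) * p := by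
  have hβ : 0 ≤ κ * p / D.N := div_nonneg (mul_nonneg hY.κ_nonneg hY.p_pos.le) hN.le
  have h1 := pr_step_copy_two (w := w) D.b hY.prob i j hij (fun ω => x ∈ Y.S ω)
    (fun ω => f ∈ Y.P ω)
  unfold stepμ
  rw [h1]
  exact mul_le_mul (sx hY x hx) (hY.s2p f) (pr_nonneg hY.prob _) hβ

/-- E, new: `x ∈ N0`, `i ∈ J x`, `lab x i ∈ P^j`, `j ≠ i`: in copy `j` both `lab x j` (if `j ∈ J x`; with
cell) and `lab x i` are in `P^j`: `s3p` (different labels by `lab_inj`), `s2p`; `w_le`. -/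
theorem pr_new_label_le {kmax : ℕ} {K θ1 ε η d p κ δ σl σu ξ Ca s g E : ℝ}
    (hD : WinHyp D kmax K θ1 ε η d) (hY : SysHyp Y p κ δ σl σu ξ Ca)
    (hI : StepIn Y T J w p s g E) (x : Q × R) (hx : x ∈ D.X) (i j : Fin D.b) (hi : i ∈ J x)
    (hij : i ≠ j) :
    pr (stepμ Y w) (fun z => x ∈ stepN Y T J z ∧ D.lab x i ∈ Y.P (z.1 j)) ≤ (s * p / D.N) * p := by
  refine t3d_new_copy_le hD.k_pos hY hI x hx j (fun ω => D.lab x i ∈ Y.P ω) p hY.p_pos.le
    ?_ ?_ _ fun z hz => hz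
  · intro hj
    exact s3p hD.k_pos hY (D.lab x j) (D.lab x i) (D.cell (D.lab x j) x) fun h =>
      hij (hD.lab_inj x hx i (hI.J_sub x hx hi) j (hI.J_sub x hx hj) h.symm)
  · intro _
    exact hY.s2p _

end Pool.Agent.Lib.H93D
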