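import Pool.Agent.Lib.H93D.T1

/-!
# H93D, T3F: the lower bound for P(x in S')

See `H93B/PROOF.md`, section 3.
-/

set_option autoImplicit false

open Finset
open scoped Classical

namespace Pool.Agent.Lib.H93D

open Pool.Agent.Lib.H93A

variable {Q R M : Type} [Fintype Q] [Fintype R] [Fintype M] {D : Win Q R M} {Ω : Type} [Fintype Ω]
  {Y : Sys D Ω} {T : ℕ} {J : Q × R → Finset (Fin D.b)} {w : Q × R → ℝ}

/-- the loss at `x` -/
noncomputable def lossX (Y : Sys D Ω) (T : ℕ) (J : Q × R → Finset (Fin D.b)) (w : Q × R → ℝ)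
    (x : Q × R) : ℝ :=
  (∑ x' ∈ D.X.filter fun x' => x' ≠ x ∧ (¬ Disjoint (D.V x) (D.V x') ∨ D.conf x x'),
    pr (stepμ Y w) (fun z => x ∈ stepN Y T J z ∧ x' ∈ stepN Y T J z)) +
  (∑ j, ∑ x' ∈ D.X.filter fun x' => D.conf x x',
    (pr (stepμ Y w) (fun z => x ∈ stepN Y T J z ∧ x' ∈ Y.S (z.1 j)) +
      pr (stepμ Y w) (fun z => x' ∈ stepN Y T J z ∧ x ∈ Y.S (z.1 j)))) +
  (∑ j, 2 * pr (stepμ Y w) (fun z => x ∈ stepN Y T J z ∧ x ∈ Y.S (z.1 j))) +
  (∑ i, ∑ j, if i = j then 0 else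
    (pr (stepμ Y w) (fun z => x ∈ Y.S (z.1 i) ∧ x ∈ Y.S (z.1 j)) +
      ∑ x' ∈ D.X.filter fun x' => D.conf x x',
        pr (stepμ Y w) (fun z => x ∈ Y.S (z.1 i) ∧ x' ∈ Y.S (z.1 j)))) +
  (∑ i, ∑ j, if i = j then 0 else
    ∑ f ∈ D.V x, pr (stepμ Y w) (fun z => x ∈ Y.S (z.1 i) ∧ f ∈ Y.P (z.1 j))) +
  (∑ i ∈ J x, ∑ j, if i = j then 0 else
    pr (stepμ Y w) (fun z => x ∈ stepN Y T J z ∧ D.lab x i ∈ Y.P (z.1 j)))

/-- indicator -/
noncomputable def t3f_ind (A : Prop) : ℝ := if A then 1 else 0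

theorem t3f_ind_nonneg (A : Prop) : 0 ≤ t3f_ind A := by
  unfold t3f_ind
  split_ifs <;> norm_num

theorem t3f_ind_one {A : Prop} (h : A) : t3f_ind A = 1 := if_pos h

theorem t3f_ind_zero {A : Prop} (h : ¬ A) : t3f_ind A = 0 := if_neg h

theorem t3f_pr {Ω' : Type} [Fintype Ω'] (μ : Ω' → ℝ) (A : Ω' → Prop) :
    pr μ A = ex μ (fun z => t3f_ind (A z)) := by
  unfold pr ex t3f_ind
  refine Finset.sum_congr rfl fun ω _ => ?_
  by_cases h : A ω
  · simp [h]
  · simp [h]

theorem t3f_ite {Ω' : Type} [Fintype Ω'] (μ : Ω' → ℝ) (A : Prop) [Decidable A] (F : Ω' → ℝ) :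
    ex μ (fun z => if A then 0 else F z) = if A then 0 else ex μ F := by
  by_cases h : A
  · simp [h, ex]
  · simp [h]

/-- the indicators of the loss -/
noncomputable def t3f_loss (Y : Sys D Ω) (T : ℕ) (J : Q × R → Finset (Fin D.b))
    (x : Q × R) (z : StepΩ D Ω) : ℝ :=
  (∑ x' ∈ D.X.filter fun x' => x' ≠ x ∧ (¬ Disjoint (D.V x) (D.V x') ∨ D.conf x x'),
    t3f_ind (x ∈ stepN Y T J z ∧ x' ∈ stepN Y T J z)) +
  (∑ j, ∑ x' ∈ D.X.filter fun x' => D.conf x x',
    (t3f_ind (x ∈ stepN Y T J z ∧ x' ∈ Y.S (z.1 j)) +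
      t3f_ind (x' ∈ stepN Y T J z ∧ x ∈ Y.S (z.1 j)))) +
  (∑ j, 2 * t3f_ind (x ∈ stepN Y T J z ∧ x ∈ Y.S (z.1 j))) +
  (∑ i, ∑ j, if i = j then 0 else
    (t3f_ind (x ∈ Y.S (z.1 i) ∧ x ∈ Y.S (z.1 j)) +
      ∑ x' ∈ D.X.filter fun x' => D.conf x x',
        t3f_ind (x ∈ Y.S (z.1 i) ∧ x' ∈ Y.S (z.1 j)))) +
  (∑ i, ∑ j, if i = j then 0 else
    ∑ f ∈ D.V x, t3f_ind (x ∈ Y.S (z.1 i) ∧ f ∈ Y.P (z.1 j))) +
  (∑ i ∈ J x, ∑ j, if i = j then 0 else
    t3f_ind (x ∈ stepN Y T J z ∧ D.lab x i ∈ Y.P (z.1 j)))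

omit [Fintype M] in
theorem t3f_ex_loss (x : Q × R) :
    ex (stepμ Y w) (t3f_loss Y T J x) = lossX Y T J w x := by
  unfold t3f_loss lossX
  simp only [t3f_pr]
  simp only [ex_add, ex_sum, t3f_ite, ex_const_mul]

theorem t3f_two {n : ℕ} (i : Fin n) (G : Fin n → Fin n → ℝ) (hG : ∀ i j, 0 ≤ G i j) (j : Fin n)
    (hij : i ≠ j) (h1 : 1 ≤ G i j) : 1 ≤ ∑ i, ∑ j, if i = j then 0 else G i j := by
  have h0 : ∀ i j, 0 ≤ (if i = j then (0 : ℝ) else G i j) := fun i j => by
    split_ifs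
    · exact le_rfl
    · exact hG i j
  have h2 : (if i = j then (0 : ℝ) else G i j) ≤ ∑ j, if i = j then (0 : ℝ) else G i j :=
    Finset.single_le_sum (f := fun j => if i = j then (0 : ℝ) else G i j) (fun j _ => h0 i j)
      (Finset.mem_univ j)
  have h3 : (∑ j, if i = j then (0 : ℝ) else G i j) ≤ ∑ i, ∑ j, if i = j then (0 : ℝ) else G i j :=
    Finset.single_le_sum (f := fun i => ∑ j, if i = j then (0 : ℝ) else G i j)
      (fun i _ => Finset.sum_nonneg fun j _ => h0 i j) (Finset.mem_univ i)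
  rw [if_neg hij] at h2
  linarith

theorem t3f_one {α : Type} (s : Finset α) (G : α → ℝ) (hG : ∀ a ∈ s, 0 ≤ G a) (a : α) (ha : a ∈ s)
    (h1 : 1 ≤ G a) : 1 ≤ ∑ a ∈ s, G a :=
  h1.trans (Finset.single_le_sum (f := G) hG ha)

/-- a sum of 0-1 values which is at least two -/
theorem t3f_sq {n : ℕ} (s : Fin n → Prop) (i j : Fin n) (hij : i ≠ j) (hi : s i) (hj : s j) :
    ∑ j, t3f_ind (s j) ≤ ∑ i, ∑ j, if i = j then 0 else t3f_ind (s i ∧ s j) := by
  refine Finset.sum_le_sum fun l _ => ?_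
  have h0 : ∀ k, 0 ≤ (if l = k then (0 : ℝ) else t3f_ind (s l ∧ s k)) := fun k => by
    split_ifs
    · exact le_rfl
    · exact t3f_ind_nonneg _
  by_cases hl : s l
  · rw [t3f_ind_one hl]
    by_cases h : l = i
    · subst h
      refine t3f_one _ _ (fun k _ => h0 k) j (Finset.mem_univ _) ?_
      rw [if_neg hij, t3f_ind_one ⟨hi, hj⟩]
    · refine t3f_one _ _ (fun k _ => h0 k) i (Finset.mem_univ _) ?_
      rw [if_neg h, t3f_ind_one ⟨hl, hi⟩]
  · rw [t3f_ind_zero hl]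
    exact Finset.sum_nonneg fun k _ => h0 k

theorem t3f_point {p κ δ σl σu ξ Ca s g E : ℝ}
    (hY : SysHyp Y p κ δ σl σu ξ Ca) (hI : StepIn Y T J w p s g E) (x : Q × R) (hx : x ∈ D.X)
    (z : StepΩ D Ω) :
    t3f_ind (x ∈ stepN Y T J z) + ∑ j, t3f_ind (x ∈ Y.S (z.1 j)) ≤
      t3f_ind (x ∈ stepS Y T J z) + t3f_loss Y T J x z := by
  have hL1 : 0 ≤ ∑ x' ∈ D.X.filter fun x' => x' ≠ x ∧ (¬ Disjoint (D.V x) (D.V x') ∨ D.conf x x'),
      t3f_ind (x ∈ stepN Y T J z ∧ x' ∈ stepN Y T J z) :=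
    Finset.sum_nonneg fun _ _ => t3f_ind_nonneg _
  have hL2 : 0 ≤ ∑ j, ∑ x' ∈ D.X.filter fun x' => D.conf x x',
      (t3f_ind (x ∈ stepN Y T J z ∧ x' ∈ Y.S (z.1 j)) +
        t3f_ind (x' ∈ stepN Y T J z ∧ x ∈ Y.S (z.1 j))) :=
    Finset.sum_nonneg fun _ _ => Finset.sum_nonneg fun _ _ =>
      add_nonneg (t3f_ind_nonneg _) (t3f_ind_nonneg _)
  have hL3 : 0 ≤ ∑ j, 2 * t3f_ind (x ∈ stepN Y T J z ∧ x ∈ Y.S (z.1 j)) :=
    Finset.sum_nonneg fun _ _ => mul_nonneg (by norm_num) (t3f_ind_nonneg _)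
  have hG4 : ∀ i j, 0 ≤ (t3f_ind (x ∈ Y.S (z.1 i) ∧ x ∈ Y.S (z.1 j)) +
      ∑ x' ∈ D.X.filter fun x' => D.conf x x',
        t3f_ind (x ∈ Y.S (z.1 i) ∧ x' ∈ Y.S (z.1 j))) := fun i j =>
    add_nonneg (t3f_ind_nonneg _) (Finset.sum_nonneg fun _ _ => t3f_ind_nonneg _)
  have hL4 : 0 ≤ ∑ i, ∑ j, if i = j then 0 else
      (t3f_ind (x ∈ Y.S (z.1 i) ∧ x ∈ Y.S (z.1 j)) +
        ∑ x' ∈ D.X.filter fun x' => D.conf x x',
          t3f_ind (x ∈ Y.S (z.1 i) ∧ x' ∈ Y.S (z.1 j))) := by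
    refine Finset.sum_nonneg fun i _ => Finset.sum_nonneg fun j _ => ?_
    split_ifs
    · exact le_rfl
    · exact hG4 i j
  have hG5 : ∀ i j, 0 ≤ ∑ f ∈ D.V x, t3f_ind (x ∈ Y.S (z.1 i) ∧ f ∈ Y.P (z.1 j)) := fun i j =>
    Finset.sum_nonneg fun _ _ => t3f_ind_nonneg _
  have hL5 : 0 ≤ ∑ i, ∑ j, if i = j then 0 else
      ∑ f ∈ D.V x, t3f_ind (x ∈ Y.S (z.1 i) ∧ f ∈ Y.P (z.1 j)) := by
    refine Finset.sum_nonneg fun i _ => Finset.sum_nonneg fun j _ => ?_
    split_ifs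
    · exact le_rfl
    · exact hG5 i j
  have hG6 : ∀ i j, 0 ≤ (if i = j then (0 : ℝ) else
      t3f_ind (x ∈ stepN Y T J z ∧ D.lab x i ∈ Y.P (z.1 j))) := fun i j => by
    split_ifs
    · exact le_rfl
    · exact t3f_ind_nonneg _
  have hL6 : 0 ≤ ∑ i ∈ J x, ∑ j, if i = j then 0 else
      t3f_ind (x ∈ stepN Y T J z ∧ D.lab x i ∈ Y.P (z.1 j)) :=
    Finset.sum_nonneg fun i _ => Finset.sum_nonneg fun j _ => hG6 i j
  have hSX : ∀ j x', x' ∈ Y.S (z.1 j) → x' ∈ D.X := fun j x' h => hY.act_sub _ (hY.S_act _ h)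
  have hI0 := t3f_ind_nonneg (x ∈ stepS Y T J z)
  unfold t3f_loss
  by_cases hN : x ∈ stepN Y T J z
  · rw [t3f_ind_one hN]
    by_cases hj : ∃ j, x ∈ Y.S (z.1 j)
    · obtain ⟨j, hj⟩ := hj
      have h1 : 1 ≤ ∑ j, t3f_ind (x ∈ Y.S (z.1 j)) :=
        t3f_one _ _ (fun _ _ => t3f_ind_nonneg _) j (Finset.mem_univ _) (t3f_ind_one hj).ge
      have h2 : ∑ j, 2 * t3f_ind (x ∈ stepN Y T J z ∧ x ∈ Y.S (z.1 j)) =
          2 * ∑ j, t3f_ind (x ∈ Y.S (z.1 j)) := by
        rw [Finset.mul_sum]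
        refine Finset.sum_congr rfl fun j _ => ?_
        have : (x ∈ stepN Y T J z ∧ x ∈ Y.S (z.1 j)) = (x ∈ Y.S (z.1 j)) :=
          propext ⟨fun h => h.2, fun h => ⟨hN, h⟩⟩
        rw [this]
      rw [h2]
      linarith
    · push Not at hj
      have h0 : ∑ j, t3f_ind (x ∈ Y.S (z.1 j)) = 0 :=
        Finset.sum_eq_zero fun j _ => t3f_ind_zero (hj j)
      rw [h0]
      by_cases hS : x ∈ stepS Y T J z
      · rw [t3f_ind_one hS]
        linarith
      · have hU : x ∈ stepU Y T J z := Finset.mem_union_left _ hN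
        have hsp : Spoiled Y T J z x := by
          by_contra h
          exact hS (Finset.mem_filter.2 ⟨hU, h⟩)
        rcases hsp with ⟨f, hf, hO⟩ | ⟨-, x', hx', hne, hdis⟩ | ⟨x', hx', hne, hc⟩ | ⟨-, j, hjj⟩ |
          ⟨i, j, -, hi, -⟩
        · have hV : stepVs Y T J z x = (J x).image (D.lab x) := by
            unfold stepVs
            rw [if_pos hN]
          rw [hV] at hf
          obtain ⟨i, hi, rfl⟩ := Finset.mem_image.1 hf
          obtain ⟨i1, j1, hne, h1, h2⟩ := hO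
          have h3 : ∃ j, i ≠ j ∧ D.lab x i ∈ Y.P (z.1 j) := by
            by_cases h4 : i = i1
            · exact ⟨j1, h4 ▸ hne, h2⟩
            · exact ⟨i1, h4, h1⟩
          obtain ⟨j, hij, hP⟩ := h3
          have h5 : 1 ≤ ∑ i ∈ J x, ∑ j, if i = j then 0 else
              t3f_ind (x ∈ stepN Y T J z ∧ D.lab x i ∈ Y.P (z.1 j)) := by
            refine t3f_one _ _ (fun i _ => Finset.sum_nonneg fun j _ => hG6 i j) i hi ?_
            refine t3f_one _ _ (fun j _ => hG6 i j) j (Finset.mem_univ _) ?_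
            rw [if_neg hij, t3f_ind_one ⟨hN, hP⟩]
          linarith
        · have hdis' : ¬ Disjoint (D.V x) (D.V x') := by
            intro hd
            refine hdis (hd.mono ?_ ?_)
            · have hV : stepVs Y T J z x = (J x).image (D.lab x) := by
                unfold stepVs
                rw [if_pos hN]
              rw [hV]
              exact Finset.image_subset_image (hI.J_sub x hx)
            · have hV : stepVs Y T J z x' = (J x').image (D.lab x') := by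
                unfold stepVs
                rw [if_pos hx']
              rw [hV]
              exact Finset.image_subset_image (hI.J_sub x' (stepN_sub z hx'))
          have h5 : 1 ≤ ∑ x' ∈ D.X.filter
              fun x' => x' ≠ x ∧ (¬ Disjoint (D.V x) (D.V x') ∨ D.conf x x'),
              t3f_ind (x ∈ stepN Y T J z ∧ x' ∈ stepN Y T J z) := by
            refine t3f_one _ _ (fun _ _ => t3f_ind_nonneg _) x'
              (Finset.mem_filter.2 ⟨stepN_sub z hx', hne, Or.inl hdis'⟩) ?_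
            rw [t3f_ind_one ⟨hN, hx'⟩]
          linarith
        · rcases Finset.mem_union.1 hx' with h | h
          · have h5 : 1 ≤ ∑ x' ∈ D.X.filter
                fun x' => x' ≠ x ∧ (¬ Disjoint (D.V x) (D.V x') ∨ D.conf x x'),
                t3f_ind (x ∈ stepN Y T J z ∧ x' ∈ stepN Y T J z) := by
              refine t3f_one _ _ (fun _ _ => t3f_ind_nonneg _) x'
                (Finset.mem_filter.2 ⟨stepN_sub z h, hne, Or.inr hc⟩) ?_
              rw [t3f_ind_one ⟨hN, h⟩]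
            linarith
          · obtain ⟨j, -, hjx⟩ := Finset.mem_biUnion.1 h
            have h5 : 1 ≤ ∑ j, ∑ x' ∈ D.X.filter fun x' => D.conf x x',
                (t3f_ind (x ∈ stepN Y T J z ∧ x' ∈ Y.S (z.1 j)) +
                  t3f_ind (x' ∈ stepN Y T J z ∧ x ∈ Y.S (z.1 j))) := by
              refine t3f_one _ _ (fun _ _ => Finset.sum_nonneg fun _ _ =>
                add_nonneg (t3f_ind_nonneg _) (t3f_ind_nonneg _)) j (Finset.mem_univ _) ?_
              refine t3f_one _ _ (fun _ _ => add_nonneg (t3f_ind_nonneg _) (t3f_ind_nonneg _)) x'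
                (Finset.mem_filter.2 ⟨hSX j x' hjx, hc⟩) ?_
              rw [t3f_ind_one ⟨hN, hjx⟩]
              have := t3f_ind_nonneg (x' ∈ stepN Y T J z ∧ x ∈ Y.S (z.1 j))
              linarith
            linarith
        · exact absurd hjj (hj j)
        · exact absurd hi (hj i)
  · rw [t3f_ind_zero hN, zero_add]
    by_cases hj : ∃ j, x ∈ Y.S (z.1 j)
    · obtain ⟨j, hj⟩ := hj
      by_cases h2 : ∃ i, i ≠ j ∧ x ∈ Y.S (z.1 i)
      · obtain ⟨i, hij, hi⟩ := h2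
        have h3 := t3f_sq (fun j => x ∈ Y.S (z.1 j)) i j hij hi hj
        have h4 : ∑ i, ∑ j, (if i = j then 0 else t3f_ind (x ∈ Y.S (z.1 i) ∧ x ∈ Y.S (z.1 j))) ≤
            ∑ i, ∑ j, if i = j then 0 else
              (t3f_ind (x ∈ Y.S (z.1 i) ∧ x ∈ Y.S (z.1 j)) +
                ∑ x' ∈ D.X.filter fun x' => D.conf x x',
                  t3f_ind (x ∈ Y.S (z.1 i) ∧ x' ∈ Y.S (z.1 j))) := by
          refine Finset.sum_le_sum fun i _ => Finset.sum_le_sum fun j _ => ?_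
          split_ifs
          · exact le_rfl
          · have : 0 ≤ ∑ x' ∈ D.X.filter fun x' => D.conf x x',
                t3f_ind (x ∈ Y.S (z.1 i) ∧ x' ∈ Y.S (z.1 j)) :=
              Finset.sum_nonneg fun _ _ => t3f_ind_nonneg _
            linarith
        linarith
      · push Not at h2
        have h0 : ∑ j, t3f_ind (x ∈ Y.S (z.1 j)) = 1 := by
          rw [Finset.sum_eq_single j, t3f_ind_one hj]
          · intro i _ hij
            exact t3f_ind_zero (h2 i hij)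
          · intro h
            exact absurd (Finset.mem_univ _) h
        rw [h0]
        by_cases hS : x ∈ stepS Y T J z
        · rw [t3f_ind_one hS]
          linarith
        · have hU : x ∈ stepU Y T J z :=
            Finset.mem_union_right _ (Finset.mem_biUnion.2 ⟨j, Finset.mem_univ _, hj⟩)
          have hsp : Spoiled Y T J z x := by
            by_contra h
            exact hS (Finset.mem_filter.2 ⟨hU, h⟩)
          rcases hsp with ⟨f, hf, hO⟩ | ⟨h, -⟩ | ⟨x', hx', hne, hc⟩ | ⟨h, -⟩ |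
            ⟨i1, j1, hne, hi1, hj1⟩
          · have hV : stepVs Y T J z x = Y.Vs (z.1 j) x := by
              have h3 : ∃ j, x ∈ Y.S (z.1 j) := ⟨j, hj⟩
              unfold stepVs
              rw [if_neg hN, dif_pos h3]
              have h4 : h3.choose = j := by
                by_contra hne
                exact h2 _ hne h3.choose_spec
              rw [h4]
            rw [hV] at hf
            have hfV : f ∈ D.V x := hY.Vs_sub _ x hj hf
            obtain ⟨i1, j1, hne, h1, h2'⟩ := hO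
            have h3 : ∃ k, j ≠ k ∧ f ∈ Y.P (z.1 k) := by
              by_cases h4 : j = i1
              · exact ⟨j1, h4 ▸ hne, h2'⟩
              · exact ⟨i1, h4, h1⟩
            obtain ⟨k, hjk, hP⟩ := h3
            have h5 : 1 ≤ ∑ i, ∑ j, if i = j then 0 else
                ∑ f ∈ D.V x, t3f_ind (x ∈ Y.S (z.1 i) ∧ f ∈ Y.P (z.1 j)) := by
              refine t3f_two j _ hG5 k hjk ?_
              refine t3f_one _ _ (fun _ _ => t3f_ind_nonneg _) f hfV ?_
              rw [t3f_ind_one ⟨hj, hP⟩]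
            linarith
          · exact absurd h hN
          · rcases Finset.mem_union.1 hx' with h | h
            · have h5 : 1 ≤ ∑ j, ∑ x' ∈ D.X.filter fun x' => D.conf x x',
                  (t3f_ind (x ∈ stepN Y T J z ∧ x' ∈ Y.S (z.1 j)) +
                    t3f_ind (x' ∈ stepN Y T J z ∧ x ∈ Y.S (z.1 j))) := by
                refine t3f_one _ _ (fun _ _ => Finset.sum_nonneg fun _ _ =>
                  add_nonneg (t3f_ind_nonneg _) (t3f_ind_nonneg _)) j (Finset.mem_univ _) ?_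
                refine t3f_one _ _ (fun _ _ => add_nonneg (t3f_ind_nonneg _) (t3f_ind_nonneg _)) x'
                  (Finset.mem_filter.2 ⟨stepN_sub z h, hc⟩) ?_
                rw [t3f_ind_one (show x' ∈ stepN Y T J z ∧ x ∈ Y.S (z.1 j) from ⟨h, hj⟩)]
                have := t3f_ind_nonneg (x ∈ stepN Y T J z ∧ x' ∈ Y.S (z.1 j))
                linarith
              linarith
            · obtain ⟨k, -, hk⟩ := Finset.mem_biUnion.1 h
              have hjk : j ≠ k := by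
                rintro rfl
                exact hY.s1 _ x hj x' hk hne.symm hc
              have h5 := t3f_two j _ hG4 k hjk (by
                have h6 : 1 ≤ ∑ x' ∈ D.X.filter fun x' => D.conf x x',
                    t3f_ind (x ∈ Y.S (z.1 j) ∧ x' ∈ Y.S (z.1 k)) := by
                  refine t3f_one _ _ (fun _ _ => t3f_ind_nonneg _) x'
                    (Finset.mem_filter.2 ⟨hSX k x' hk, hc⟩) ?_
                  rw [t3f_ind_one ⟨hj, hk⟩]
                have := t3f_ind_nonneg (x ∈ Y.S (z.1 j) ∧ x ∈ Y.S (z.1 k))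
                linarith)
              linarith
          · exact absurd h hN
          · have h3 : ∃ k, k ≠ j ∧ x ∈ Y.S (z.1 k) := by
              by_cases h4 : i1 = j
              · exact ⟨j1, fun h => hne (h4.trans h.symm), hj1⟩
              · exact ⟨i1, h4, hi1⟩
            obtain ⟨k, hk, hk'⟩ := h3
            exact absurd hk' (h2 k hk)
    · push Not at hj
      have h0 : ∑ j, t3f_ind (x ∈ Y.S (z.1 j)) = 0 :=
        Finset.sum_eq_zero fun j _ => t3f_ind_zero (hj j)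
      rw [h0]
      linarith

/-- Pointwise: `1(x ∈ N0) + ∑_j 1(x ∈ S^j) ≤ 1(x ∈ S') + (the indicators of lossX)`. Let `r` be the
left-hand side, `r ≥ 1`. If `x ∈ S'`: `r = 1` (`stepS_cases`). Otherwise `x` is spoiled. `r = 1`: (Z0)
gives an indicator of the last two lines, (Z1) or (Z2) one of the first, second or fourth (two elements
of the same `S^j` are not in conflict, `s1`; `x` and `x'` in `N0` with `stepVs` not disjoint: `V` not
disjoint, `J_sub`). `r ≥ 2`, `x ∈ N0`: `2 (r - 1) ≥ r` indicators of the third line; `x ∉ N0`: `r (r - 1) ≥ r`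
of the fourth. Then take probabilities. -/
theorem step_lower {p κ δ σl σu ξ Ca s g E : ℝ} (hcs : ∀ x y, D.conf x y → D.conf y x)
    (hY : SysHyp Y p κ δ σl σu ξ Ca) (hI : StepIn Y T J w p s g E) (x : Q × R) (hx : x ∈ D.X) :
    pr (stepμ Y w) (fun z => x ∈ stepN Y T J z) + D.b * pr Y.μ (fun ω => x ∈ Y.S ω) -
      lossX Y T J w x ≤ pr (stepμ Y w) (fun z => x ∈ stepS Y T J z) := by
  have hP : IsProb (stepμ Y w) := step_isProb hY hI
  have h1 := ex_mono hP (t3f_point hY hI x hx)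
  rw [ex_add, ex_add, ex_sum, t3f_ex_loss, ← t3f_pr, ← t3f_pr] at h1
  have h2 : ∀ j ∈ (Finset.univ : Finset (Fin D.b)),
      ex (stepμ Y w) (fun z => t3f_ind (x ∈ Y.S (z.1 j))) = pr Y.μ (fun ω => x ∈ Y.S ω) := by
    intro j _
    rw [← t3f_pr]
    exact pr_step_copy D.b hY.prob j (fun ω => x ∈ Y.S ω)
  rw [Finset.sum_congr rfl h2, Finset.sum_const, Finset.card_univ, Fintype.card_fin,
    nsmul_eq_mul] at h1
  linarith

end Pool.Agent.Lib.H93D
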