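import Pool.Agent.Lib.H93D.T3B
import Pool.Agent.Lib.H93D.T3C
import Pool.Agent.Lib.H93D.T3D
import Pool.Agent.Lib.H93D.T3F

/-!
# H93D, T3G: the loss

See `H93B/PROOF.md`, section 3.
-/

set_option autoImplicit false

open Finset
open scoped Classical

namespace Pool.Agent.Lib.H93D

open Pool.Agent.Lib.H93A

variable {Q R M : Type} [Fintype Q] [Fintype R] [Fintype M] {D : Win Q R M} {Ω : Type} [Fintype Ω]
  {Y : Sys D Ω} {T : ℕ} {J : Q × R → Finset (Fin D.b)} {w : Q × R → ℝ}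

theorem t3g_A {kmax : ℕ} {K θ1 ε η d p κ δ σl σu ξ Ca s g E : ℝ}
    (hD : WinHyp D kmax K θ1 ε η d) (hY : SysHyp Y p κ δ σl σu ξ Ca)
    (hI : StepIn Y T J w p s g E) (hθ0 : 0 ≤ θ1)
    (hθ : θ1 * ((D.b : ℝ) ^ 2 * (kmax : ℝ) ^ (2 * D.b)) ≤ p ^ D.b) (x : Q × R) (hx : x ∈ D.X) :
    ∑ x' ∈ D.X.filter fun x' => x' ≠ x ∧ (¬ Disjoint (D.V x) (D.V x') ∨ D.conf x x'),
      pr (stepμ Y w) (fun z => x ∈ stepN Y T J z ∧ x' ∈ stepN Y T J z) ≤
      64 * K ^ 2 * D.b * s ^ 2 * p / D.N + (s ^ 2 * p ^ 2 / D.N +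
        (4 * D.b * K ^ 2 + K) * s ^ 2 * p ^ 2 / D.N) := by
  have hμ := step_isProb hY hI
  have h1 := sum_A1_le hD hY hI x hx
  have h2 := sum_A2_le hD hY hI hθ0 hθ x hx
  have h3 := sum_A3_le hD hY hI x hx
  refine le_trans ?_ (add_le_add h1 (add_le_add h2 h3))
  rw [sum_filter, sum_filter, sum_filter, sum_filter, ← sum_add_distrib, ← sum_add_distrib]
  refine sum_le_sum fun x' _ => ?_
  have h0 : 0 ≤ pr (stepμ Y w) (fun z => x ∈ stepN Y T J z ∧ x' ∈ stepN Y T J z) := pr_nonneg hμ _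
  by_cases hc : x' ≠ x ∧ (¬ Disjoint (D.V x) (D.V x') ∨ D.conf x x')
  · rw [if_pos hc]
    rcases Nat.lt_or_ge (sh J x x').card 1 with h4 | h4
    · have h5 : (sh J x x').card = 0 := by omega
      rw [if_pos (⟨hc.1, h5, hc.2⟩ : x' ≠ x ∧ (sh J x x').card = 0 ∧
        (¬ Disjoint (D.V x) (D.V x') ∨ D.conf x x'))]
      have h6 : 0 ≤ (if x' ≠ x ∧ (sh J x x').card = 1 then
        pr (stepμ Y w) (fun z => x ∈ stepN Y T J z ∧ x' ∈ stepN Y T J z) else 0) := by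
        split_ifs <;> simp [h0]
      have h7 : 0 ≤ (if x' ≠ x ∧ 2 ≤ (sh J x x').card then
        pr (stepμ Y w) (fun z => x ∈ stepN Y T J z ∧ x' ∈ stepN Y T J z) else 0) := by
        split_ifs <;> simp [h0]
      linarith
    · rcases Nat.lt_or_ge (sh J x x').card 2 with h5 | h5
      · have h6 : (sh J x x').card = 1 := by omega
        rw [if_pos (⟨hc.1, h6⟩ : x' ≠ x ∧ (sh J x x').card = 1)]
        have h7 : 0 ≤ (if x' ≠ x ∧ 2 ≤ (sh J x x').card then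
          pr (stepμ Y w) (fun z => x ∈ stepN Y T J z ∧ x' ∈ stepN Y T J z) else 0) := by
          split_ifs <;> simp [h0]
        have h8 : 0 ≤ (if x' ≠ x ∧ (sh J x x').card = 0 ∧
          (¬ Disjoint (D.V x) (D.V x') ∨ D.conf x x') then
          pr (stepμ Y w) (fun z => x ∈ stepN Y T J z ∧ x' ∈ stepN Y T J z) else 0) := by
          split_ifs <;> simp [h0]
        linarith
      · rw [if_pos (⟨hc.1, h5⟩ : x' ≠ x ∧ 2 ≤ (sh J x x').card)]
        have h7 : 0 ≤ (if x' ≠ x ∧ (sh J x x').card = 1 then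
          pr (stepμ Y w) (fun z => x ∈ stepN Y T J z ∧ x' ∈ stepN Y T J z) else 0) := by
          split_ifs <;> simp [h0]
        have h8 : 0 ≤ (if x' ≠ x ∧ (sh J x x').card = 0 ∧
          (¬ Disjoint (D.V x) (D.V x') ∨ D.conf x x') then
          pr (stepμ Y w) (fun z => x ∈ stepN Y T J z ∧ x' ∈ stepN Y T J z) else 0) := by
          split_ifs <;> simp [h0]
        linarith
  · rw [if_neg hc]
    have h6 : 0 ≤ (if x' ≠ x ∧ (sh J x x').card = 1 then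
      pr (stepμ Y w) (fun z => x ∈ stepN Y T J z ∧ x' ∈ stepN Y T J z) else 0) := by
      split_ifs <;> simp [h0]
    have h7 : 0 ≤ (if x' ≠ x ∧ 2 ≤ (sh J x x').card then
      pr (stepμ Y w) (fun z => x ∈ stepN Y T J z ∧ x' ∈ stepN Y T J z) else 0) := by
      split_ifs <;> simp [h0]
    have h8 : 0 ≤ (if x' ≠ x ∧ (sh J x x').card = 0 ∧
      (¬ Disjoint (D.V x) (D.V x') ∨ D.conf x x') then
      pr (stepμ Y w) (fun z => x ∈ stepN Y T J z ∧ x' ∈ stepN Y T J z) else 0) := by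
      split_ifs <;> simp [h0]
    linarith

/-- a sum of at most `c` terms, each at most `q` -/
theorem t3g_card {ι : Type} (S : Finset ι) (F : ι → ℝ) (q c : ℝ) (hq : 0 ≤ q)
    (hF : ∀ i ∈ S, F i ≤ q) (hc : (S.card : ℝ) ≤ c) : ∑ i ∈ S, F i ≤ c * q := by
  have h1 := sum_le_card_nsmul S F q hF
  rw [nsmul_eq_mul] at h1
  exact h1.trans (mul_le_mul_of_nonneg_right hc hq)

theorem t3g_univ (b : ℕ) (F : Fin b → ℝ) (q : ℝ) (hF : ∀ i, F i ≤ q) : ∑ i, F i ≤ b * q := by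
  have h1 := sum_le_card_nsmul univ F q (fun i _ => hF i)
  rwa [nsmul_eq_mul, card_univ, Fintype.card_fin] at h1

/-- The loss: `sum_A1_le`, `sum_A2_le`, `sum_A3_le` (the filter of the first line of `lossX` is covered by the
three), `pr_new_old_le` (`conf_symm` for the second half), `pr_old_old_le`, `pr_old_label_le`,
`pr_new_label_le`, `conf_card`, `|V x| ≤ b`, `N ≥ 1`. -/
theorem lossX_le {kmax : ℕ} {K θ1 ε η d p κ δ σl σu ξ Ca s g E : ℝ}
    (hD : WinHyp D kmax K θ1 ε η d) (hY : SysHyp Y p κ δ σl σu ξ Ca)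
    (hI : StepIn Y T J w p s g E) (hθ0 : 0 ≤ θ1)
    (hθ : θ1 * ((D.b : ℝ) ^ 2 * (kmax : ℝ) ^ (2 * D.b)) ≤ p ^ D.b) (x : Q × R) (hx : x ∈ D.X) :
    lossX Y T J w x ≤ (64 * K ^ 2 * D.b * s ^ 2 +
      p * (s ^ 2 + (4 * D.b * K ^ 2 + K) * s ^ 2 + 2 * D.b * (K + 1) * s * κ +
        (D.b : ℝ) ^ 2 * (K + 1) * κ ^ 2 + (D.b : ℝ) ^ 3 * κ + (D.b : ℝ) ^ 2 * s)) * (p / D.N) := by
  have hμ := step_isProb hY hI
  have hN : 0 < D.N := lt_of_lt_of_le one_pos hD.N_pos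
  have hN1 := hD.N_pos
  have hp := hY.p_pos
  have hs := hI.s_nonneg
  have hκ := hY.κ_nonneg
  have hK := hD.hK
  have hb : (1 : ℝ) ≤ D.b := by exact_mod_cast hD.b_pos
  have hVX : ((D.V x).card : ℝ) ≤ D.b := by
    have h1 : (D.V x).card ≤ D.b := by
      refine card_image_le.trans ((card_le_univ _).trans ?_)
      rw [Fintype.card_fin]
    exact_mod_cast h1
  have hJX : ((J x).card : ℝ) ≤ D.b := by
    have h1 : (J x).card ≤ D.b := by
      refine (card_le_univ _).trans ?_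
      rw [Fintype.card_fin]
    exact_mod_cast h1
  set a : ℝ := s * p / D.N with ha
  set c : ℝ := κ * p / D.N with hc
  have ha0 : 0 ≤ a := by positivity
  have hc0 : 0 ≤ c := by positivity
  have hac0 : 0 ≤ a * c := mul_nonneg ha0 hc0
  have hcc0 : 0 ≤ c ^ 2 := sq_nonneg c
  have t1 := t3g_A hD hY hI hθ0 hθ x hx
  have t2 : ∑ j, ∑ x' ∈ D.X.filter fun x' => D.conf x x',
      (pr (stepμ Y w) (fun z => x ∈ stepN Y T J z ∧ x' ∈ Y.S (z.1 j)) +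
      pr (stepμ Y w) (fun z => x' ∈ stepN Y T J z ∧ x ∈ Y.S (z.1 j))) ≤
      D.b * (K * D.N * (2 * (a * c))) := by
    refine t3g_univ _ _ _ fun j => t3g_card _ _ _ _ (by linarith) (fun x' hx' => ?_)
      (hD.conf_card x hx)
    obtain ⟨h1, h2⟩ := mem_filter.1 hx'
    have h3 := pr_new_old_le hD hY hI x x' hx h1 j (Or.inr h2)
    have h4 := pr_new_old_le hD hY hI x' x h1 hx j (Or.inr (hD.conf_symm _ _ h2))
    linarith
  have t3 : ∑ j, 2 * pr (stepμ Y w) (fun z => x ∈ stepN Y T J z ∧ x ∈ Y.S (z.1 j)) ≤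
      D.b * (2 * (a * c)) := by
    refine t3g_univ _ _ _ fun j => ?_
    have h3 := pr_new_old_le hD hY hI x x hx hx j (Or.inl rfl)
    linarith
  have t4 : (∑ i, ∑ j, if i = j then 0 else
      (pr (stepμ Y w) (fun z => x ∈ Y.S (z.1 i) ∧ x ∈ Y.S (z.1 j)) +
      ∑ x' ∈ D.X.filter fun x' => D.conf x x',
        pr (stepμ Y w) (fun z => x ∈ Y.S (z.1 i) ∧ x' ∈ Y.S (z.1 j)))) ≤
      D.b * (D.b * (c ^ 2 + K * D.N * c ^ 2)) := by
    refine t3g_univ _ _ _ fun i => t3g_univ _ _ _ fun j => ?_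
    have hq : 0 ≤ K * D.N * c ^ 2 := by positivity
    split_ifs with hij
    · linarith
    · refine add_le_add (pr_old_old_le hN hY hI x x hx hx i j hij) ?_
      refine t3g_card _ _ _ _ hcc0 (fun x' hx' => ?_) (hD.conf_card x hx)
      exact pr_old_old_le hN hY hI x x' hx (mem_filter.1 hx').1 i j hij
  have t5 : (∑ i, ∑ j, if i = j then 0 else
      ∑ f ∈ D.V x, pr (stepμ Y w) (fun z => x ∈ Y.S (z.1 i) ∧ f ∈ Y.P (z.1 j))) ≤
      D.b * (D.b * (D.b * (c * p))) := by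
    have hcp : 0 ≤ c * p := mul_nonneg hc0 hp.le
    refine t3g_univ _ _ _ fun i => t3g_univ _ _ _ fun j => ?_
    split_ifs with hij
    · positivity
    · exact t3g_card _ _ _ _ hcp (fun f _ => pr_old_label_le hN hY hI x hx f i j hij) hVX
  have t6 : (∑ i ∈ J x, ∑ j, if i = j then 0 else
      pr (stepμ Y w) (fun z => x ∈ stepN Y T J z ∧ D.lab x i ∈ Y.P (z.1 j))) ≤
      D.b * (D.b * (a * p)) := by
    have hap : 0 ≤ a * p := mul_nonneg ha0 hp.le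
    refine t3g_card _ _ _ _ (by positivity) (fun i hi => t3g_univ _ _ _ fun j => ?_) hJX
    split_ifs with hij
    · exact hap
    · exact pr_new_label_le hD hY hI x hx i j hi hij
  have key : lossX Y T J w x ≤ (64 * K ^ 2 * D.b * s ^ 2 * p / D.N + (s ^ 2 * p ^ 2 / D.N +
        (4 * D.b * K ^ 2 + K) * s ^ 2 * p ^ 2 / D.N)) + D.b * (K * D.N * (2 * (a * c))) +
        D.b * (2 * (a * c)) + D.b * (D.b * (c ^ 2 + K * D.N * c ^ 2)) +
        D.b * (D.b * (D.b * (c * p))) + D.b * (D.b * (a * p)) := by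
    unfold lossX
    exact add_le_add (add_le_add (add_le_add (add_le_add (add_le_add t1 t2) t3) t4) t5) t6
  refine key.trans ?_
  have e1 : a * c * D.N = s * κ * p ^ 2 / D.N := by
    rw [ha, hc]
    field_simp
  have e2 : c ^ 2 * D.N = κ ^ 2 * p ^ 2 / D.N := by
    rw [hc]
    field_simp
  have e3 : a * c ≤ a * c * D.N := by nlinarith
  have e4 : c ^ 2 ≤ c ^ 2 * D.N := by nlinarith
  have e5 : c * p = κ * p ^ 2 / D.N := by
    rw [hc]
    ring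
  have e6 : a * p = s * p ^ 2 / D.N := by
    rw [ha]
    ring
  have f1 : D.b * (K * D.N * (2 * (a * c))) = 2 * D.b * K * (s * κ * p ^ 2 / D.N) := by
    rw [← e1]
    ring
  have f2 : D.b * (2 * (a * c)) ≤ 2 * D.b * (s * κ * p ^ 2 / D.N) := by
    rw [← e1]
    nlinarith
  have f3 : D.b * (D.b * (c ^ 2 + K * D.N * c ^ 2)) ≤
      (D.b : ℝ) ^ 2 * (K + 1) * (κ ^ 2 * p ^ 2 / D.N) := by
    rw [← e2]
    have : (D.b : ℝ) ^ 2 * c ^ 2 ≤ (D.b : ℝ) ^ 2 * (c ^ 2 * D.N) :=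
      mul_le_mul_of_nonneg_left e4 (by positivity)
    nlinarith
  rw [f1, e5, e6]
  calc _ ≤ (64 * K ^ 2 * D.b * s ^ 2 * p / D.N + (s ^ 2 * p ^ 2 / D.N +
        (4 * D.b * K ^ 2 + K) * s ^ 2 * p ^ 2 / D.N)) + 2 * D.b * K * (s * κ * p ^ 2 / D.N) +
        2 * D.b * (s * κ * p ^ 2 / D.N) + (D.b : ℝ) ^ 2 * (K + 1) * (κ ^ 2 * p ^ 2 / D.N) +
        D.b * (D.b * (D.b * (κ * p ^ 2 / D.N))) + D.b * (D.b * (s * p ^ 2 / D.N)) := by
        linarith
    _ = _ := by ring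

/-- (S6), lower bound: with `s ≤ κ'`, `κ ≤ κ'`, `64 K² b s² ≤ g/8`, `20 K² b³ (κ' + 1)² p ≤ g/8` the loss is at
most `g p/(4 N)`. `σl' = σl + (3/4) g/b`. -/
theorem step_s6l {kmax : ℕ} {K θ1 ε η d p κ δ σl σu ξ Ca s g E κ' : ℝ}
    (hD : WinHyp D kmax K θ1 ε η d) (hY : SysHyp Y p κ δ σl σu ξ Ca)
    (hI : StepIn Y T J w p s g E) (hθ0 : 0 ≤ θ1)
    (hθ : θ1 * ((D.b : ℝ) ^ 2 * (kmax : ℝ) ^ (2 * D.b)) ≤ p ^ D.b)
    (hκ : κ ≤ κ') (hs : s ≤ κ') (h1 : 64 * K ^ 2 * D.b * s ^ 2 ≤ g / 8)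
    (h2 : 20 * K ^ 2 * (D.b : ℝ) ^ 3 * (κ' + 1) ^ 2 * p ≤ g / 8) (x : Q × R) (hx : x ∈ D.X) :
    (σl + 3 / 4 * g / D.b) * (D.b * p) / D.N ≤ pr (stepμ Y w) (fun z => x ∈ stepS Y T J z) := by
  have hN : 0 < D.N := lt_of_lt_of_le one_pos hD.N_pos
  have hp := hY.p_pos
  have hs0 := hI.s_nonneg
  have hκ0 := hY.κ_nonneg
  have hK := hD.hK
  have hb : (1 : ℝ) ≤ D.b := by exact_mod_cast hD.b_pos
  have hlow := step_lower hD.conf_symm hY hI x hx
  have hloss := lossX_le hD hY hI hθ0 hθ x hx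
  rw [pr_new_eq hY hI x hx] at hlow
  have h3 := mul_le_mul_of_nonneg_left (hY.s6l x hx) (by linarith : (0 : ℝ) ≤ D.b)
  have hκ' : 0 ≤ κ' := hκ0.trans hκ
  have hpN : 0 ≤ p / D.N := by positivity
  have h4 : s ^ 2 + (4 * D.b * K ^ 2 + K) * s ^ 2 + 2 * D.b * (K + 1) * s * κ +
        (D.b : ℝ) ^ 2 * (K + 1) * κ ^ 2 + (D.b : ℝ) ^ 3 * κ + (D.b : ℝ) ^ 2 * s ≤
      20 * K ^ 2 * (D.b : ℝ) ^ 3 * (κ' + 1) ^ 2 := by
    set b : ℝ := (D.b : ℝ) with hbdef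
    set A : ℝ := K ^ 2 * b ^ 3 with hA
    have hb0 : 0 ≤ b := by linarith
    have hb2 : b ≤ b ^ 2 := by nlinarith
    have hb3 : b ^ 2 ≤ b ^ 3 := by nlinarith [mul_nonneg (sq_nonneg b) (sub_nonneg.2 hb)]
    have hK2 : K ≤ K ^ 2 := by nlinarith
    have hK1 : 1 ≤ K ^ 2 := by linarith
    have hb31 : 1 ≤ b ^ 3 := by linarith
    have hA3 : b ^ 3 ≤ A := by
      rw [hA]
      nlinarith
    have hA2 : b ^ 2 ≤ A := hb3.trans hA3
    have hA1 : b ≤ A := hb2.trans hA2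
    have hA0 : 1 ≤ A := hb31.trans hA3
    have hKA : K ≤ A := by
      rw [hA]
      nlinarith
    have hK2b : b * K ^ 2 ≤ A := by
      rw [hA]
      nlinarith [sq_nonneg K]
    have hKb2 : b ^ 2 * K ≤ A := by
      rw [hA]
      calc b ^ 2 * K ≤ b ^ 3 * K ^ 2 := mul_le_mul hb3 hK2 (by linarith) (by positivity)
        _ = K ^ 2 * b ^ 3 := by ring
    have hKb : b * K ≤ A := (mul_le_mul_of_nonneg_right hb2 (by linarith)).trans hKb2
    have hss : s ^ 2 ≤ κ' ^ 2 := pow_le_pow_left₀ hs0 hs 2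
    have hkk : κ ^ 2 ≤ κ' ^ 2 := pow_le_pow_left₀ hκ0 hκ 2
    have hsk : s * κ ≤ κ' ^ 2 := by
      rw [sq]
      exact mul_le_mul hs hκ hκ0 hκ'
    have hκ2 : 0 ≤ κ' ^ 2 := sq_nonneg _
    have g1 : s ^ 2 ≤ A * κ' ^ 2 := by
      have := mul_le_mul hA0 hss (sq_nonneg s) (by linarith : (0:ℝ) ≤ A)
      linarith
    have g2 : (4 * b * K ^ 2 + K) * s ^ 2 ≤ 5 * A * κ' ^ 2 := by
      refine mul_le_mul (by nlinarith) hss (sq_nonneg s) (by linarith)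
    have g3 : 2 * b * (K + 1) * s * κ ≤ 4 * A * κ' ^ 2 := by
      have e1 : 2 * b * (K + 1) * s * κ = (2 * (b * K) + 2 * b) * (s * κ) := by ring
      rw [e1]
      exact mul_le_mul (by linarith) hsk (mul_nonneg hs0 hκ0) (by linarith)
    have g4 : b ^ 2 * (K + 1) * κ ^ 2 ≤ 2 * A * κ' ^ 2 :=
      mul_le_mul (by linarith) hkk (sq_nonneg κ) (by linarith)
    have g5 : b ^ 3 * κ ≤ A * κ' := mul_le_mul hA3 hκ hκ0 (by linarith)
    have g6 : b ^ 2 * s ≤ A * κ' := mul_le_mul hA2 hs hs0 (by linarith)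
    have g7 : 20 * K ^ 2 * b ^ 3 * (κ' + 1) ^ 2 = 20 * A * κ' ^ 2 + 40 * A * κ' + 20 * A := by
      rw [hA]
      ring
    rw [g7]
    have g8 : 0 ≤ A * κ' ^ 2 := by positivity
    have g9 : 0 ≤ A * κ' := by positivity
    linarith
  have h5 : lossX Y T J w x ≤ g / 4 * (p / D.N) := by
    refine hloss.trans (mul_le_mul_of_nonneg_right ?_ hpN)
    have h6 := mul_le_mul_of_nonneg_left h4 hp.le
    linarith
  have h7 : (σl + 3 / 4 * g / D.b) * (D.b * p) / D.N =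
      g * p / D.N + D.b * (σl * p / D.N) - g / 4 * (p / D.N) := by
    field_simp
    ring
  rw [h7]
  linarith

end Pool.Agent.Lib.H93D
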