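import Pool.Agent.Lib.H93D.T3A

/-!
# H93D, T4: upper bound, labels on demand, activity

See `H93B/PROOF.md`, section 3.
-/

set_option autoImplicit false

open Finset
open scoped Classical

namespace Pool.Agent.Lib.H93D

open Pool.Agent.Lib.H93A

variable {Q R M : Type} [Fintype Q] [Fintype R] [Fintype M] {D : Win Q R M} {Ω : Type} [Fintype Ω]
  {Y : Sys D Ω} {T : ℕ} {J : Q × R → Finset (Fin D.b)} {w : Q × R → ℝ}

/-- `P(∃ j, A(z_j)) ≤ b P(A)` -/
theorem t4_copies {p κ δ σl σu ξ Ca s g E : ℝ} (hY : SysHyp Y p κ δ σl σu ξ Ca)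
    (hI : StepIn Y T J w p s g E) (A : Ω → Prop) :
    pr (stepμ Y w) (fun z => ∃ j, A (z.1 j)) ≤ D.b * pr Y.μ A := by
  have h1 := pr_exists_le (step_isProb hY hI) (univ : Finset (Fin D.b)) (fun j z => A (z.1 j))
  have h2 : (fun z : StepΩ D Ω => ∃ j, A (z.1 j)) =
      fun z => ∃ j ∈ (univ : Finset (Fin D.b)), A (z.1 j) := by
    funext z
    exact propext ⟨fun ⟨j, hj⟩ => ⟨j, mem_univ _, hj⟩, fun ⟨j, _, hj⟩ => ⟨j, hj⟩⟩
  rw [h2]
  refine h1.trans (le_of_eq ?_)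
  have h3 : ∀ j ∈ (univ : Finset (Fin D.b)), pr (stepμ Y w) (fun z => A (z.1 j)) = pr Y.μ A :=
    fun j _ => pr_step_copy D.b hY.prob j A
  rw [sum_congr rfl h3, sum_const, card_univ, Fintype.card_fin, nsmul_eq_mul]

/-- (S6), upper bound -/
theorem step_s6u {p κ δ σl σu ξ Ca s g E : ℝ} (hN : 0 < D.N) (hb : 1 ≤ D.b)
    (hY : SysHyp Y p κ δ σl σu ξ Ca) (hI : StepIn Y T J w p s g E) (x : Q × R) (hx : x ∈ D.X) :
    pr (stepμ Y w) (fun z => x ∈ stepS Y T J z) ≤ (σu + g / D.b) * (D.b * p) / D.N := by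
  have hμ := step_isProb hY hI
  have hb' : (0 : ℝ) < D.b := by exact_mod_cast hb
  have h1 : pr (stepμ Y w) (fun z => x ∈ stepS Y T J z) ≤
      pr (stepμ Y w) (fun z => x ∈ stepN Y T J z ∨ ∃ j, x ∈ Y.S (z.1 j)) := by
    refine pr_mono hμ fun z hz => ?_
    rcases stepS_cases hz with h | ⟨j, hj, _⟩
    · exact Or.inl h.1
    · exact Or.inr ⟨j, hj⟩
  have h2 := pr_or_le hμ (fun z => x ∈ stepN Y T J z) (fun z => ∃ j, x ∈ Y.S (z.1 j))
  have h3 := t4_copies hY hI (fun ω => x ∈ Y.S ω)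
  have h4 := pr_new_eq hY hI x hx
  have h5 : D.b * pr Y.μ (fun ω => x ∈ Y.S ω) ≤ D.b * (σu * p / D.N) :=
    mul_le_mul_of_nonneg_left (hY.s6u x hx) hb'.le
  have h6 : (σu + g / D.b) * (D.b * p) / D.N = g * p / D.N + D.b * (σu * p / D.N) := by
    field_simp
    ring
  rw [h6]
  linarith

/-- (S7): `x ∈ S'`, `f ∉ V*' x`, `x ∈ X_f`: either `x ∈ S^j`, `f ∉ V*^j x`, or `x ∈ N0` and `f = lab x j` with
`j ∈ idx x`, `j ∉ J x` (at most `E` such `x`, each with `P(x ∈ N0) = g p/N`). (`stepS_cases`.) -/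
theorem step_s7 {p κ δ σl σu ξ Ca s g E : ℝ} (hN : 0 < D.N) (hb : 1 ≤ D.b)
    (hY : SysHyp Y p κ δ σl σu ξ Ca) (hI : StepIn Y T J w p s g E) (f : M) :
    ∑ x ∈ D.Xf f, pr (stepμ Y w) (fun z => x ∈ stepS Y T J z ∧ f ∉ stepVs Y T J z x) ≤
      (ξ + E * g / (D.b * D.N)) * (D.b * p) := by
  have hμ := step_isProb hY hI
  have hb' : (0 : ℝ) < D.b := by exact_mod_cast hb
  have hp := hY.p_pos
  have hg := hI.g_nonneg
  have hgp : 0 ≤ g * p / D.N := by positivity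
  have h1 : ∀ x ∈ D.Xf f, pr (stepμ Y w) (fun z => x ∈ stepS Y T J z ∧ f ∉ stepVs Y T J z x) ≤
      (if ∃ j ∈ D.idx x, D.lab x j = f ∧ j ∉ J x then g * p / D.N else 0) +
        D.b * pr Y.μ (fun ω => x ∈ Y.S ω ∧ f ∉ Y.Vs ω x) := by
    intro x hx
    have hxX : x ∈ D.X := (mem_filter.1 hx).1
    have hxV : f ∈ D.V x := (mem_filter.1 hx).2
    have h2 : pr (stepμ Y w) (fun z => x ∈ stepS Y T J z ∧ f ∉ stepVs Y T J z x) ≤
        pr (stepμ Y w) (fun z => (x ∈ stepN Y T J z ∧ f ∉ (J x).image (D.lab x)) ∨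
          ∃ j, x ∈ Y.S (z.1 j) ∧ f ∉ Y.Vs (z.1 j) x) := by
      refine pr_mono hμ fun z hz => ?_
      rcases stepS_cases hz.1 with h | ⟨j, hj, _, _, hV⟩
      · refine Or.inl ⟨h.1, ?_⟩
        rw [← h.2.2]
        exact hz.2
      · refine Or.inr ⟨j, hj, ?_⟩
        rw [← hV]
        exact hz.2
    have h3 := pr_or_le hμ (fun z => x ∈ stepN Y T J z ∧ f ∉ (J x).image (D.lab x))
      (fun z => ∃ j, x ∈ Y.S (z.1 j) ∧ f ∉ Y.Vs (z.1 j) x)
    have h4 := t4_copies hY hI (fun ω => x ∈ Y.S ω ∧ f ∉ Y.Vs ω x)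
    have h5 : pr (stepμ Y w) (fun z => x ∈ stepN Y T J z ∧ f ∉ (J x).image (D.lab x)) ≤
        if ∃ j ∈ D.idx x, D.lab x j = f ∧ j ∉ J x then g * p / D.N else 0 := by
      split_ifs with h
      · rw [← pr_new_eq hY hI x hxX]
        exact pr_mono hμ fun z hz => hz.1
      · have h6 : f ∈ (J x).image (D.lab x) := by
          obtain ⟨j, hj, hjf⟩ := mem_image.1 hxV
          refine mem_image.2 ⟨j, ?_, hjf⟩
          by_contra hj'
          exact h ⟨j, hj, hjf, hj'⟩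
        have h7 : (fun z : StepΩ D Ω => x ∈ stepN Y T J z ∧ f ∉ (J x).image (D.lab x)) =
            fun _ => False := by
          funext z
          exact propext ⟨fun hz => hz.2 h6, fun hz => hz.elim⟩
        rw [h7, pr_false]
    linarith
  refine (sum_le_sum h1).trans ?_
  rw [sum_add_distrib, ← mul_sum, ← sum_filter, sum_const, nsmul_eq_mul]
  have h2 := mul_le_mul_of_nonneg_right (hI.exc f) hgp
  have h3 := mul_le_mul_of_nonneg_left (hY.s7 f) hb'.le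
  have h4 : (ξ + E * g / (D.b * D.N)) * (D.b * p) = E * (g * p / D.N) + D.b * (ξ * p) := by
    field_simp
    ring
  rw [h4]
  exact add_le_add h2 h3

/-- activity: `P(x ∈ act') ≤ b P(x ∈ act) + w x`, `w x ≤ (s p/N)(kmax²/p0)^b ≤ s (kmax²/p0)^b/N` for
`p0 ≤ p ≤ 1`, `kmax ≥ 1` -/
theorem step_sa {p κ δ σl σu ξ Ca s g E p0 : ℝ} {kmax : ℕ} (hN : 0 < D.N) (hk : ∀ f, D.k f ≤ kmax)
    (hkm : 1 ≤ kmax) (hp0 : 0 < p0) (hp : p0 ≤ p)
    (hY : SysHyp Y p κ δ σl σu ξ Ca) (hI : StepIn Y T J w p s g E) (x : Q × R) (hx : x ∈ D.X) :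
    pr (stepμ Y w) (fun z => x ∈ stepAct Y z) ≤
      (D.b * Ca + s * ((kmax : ℝ) ^ 2 / p0) ^ D.b) / D.N := by
  have hμ := step_isProb hY hI
  have hpp := hY.p_pos
  have hs := hI.s_nonneg
  have hkm' : (1 : ℝ) ≤ kmax := by exact_mod_cast hkm
  have h1 : pr (stepμ Y w) (fun z => x ∈ stepAct Y z) ≤
      pr (stepμ Y w) (fun z => z.2 x = true ∨ ∃ j, x ∈ Y.act (z.1 j)) := by
    refine pr_mono hμ fun z hz => ?_
    rcases mem_union.1 hz with h | h
    · exact Or.inl (mem_filter.1 h).2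
    · obtain ⟨j, _, hj⟩ := mem_biUnion.1 h
      exact Or.inr ⟨j, hj⟩
  have h2 := pr_or_le hμ (fun z => z.2 x = true) (fun z => ∃ j, x ∈ Y.act (z.1 j))
  have h3 := t4_copies hY hI (fun ω => x ∈ Y.act ω)
  have h4 : pr (stepμ Y w) (fun z => z.2 x = true) = w x := by
    have h5 := pr_step_one (w := w) D.b hY.prob (fun (_ : Fin D.b) (_ : Ω) => True) x
    have h6 : (fun z : StepΩ D Ω => z.2 x = true) = fun z =>
        (∀ j, (fun (_ : Fin D.b) (_ : Ω) => True) j (z.1 j)) ∧ z.2 x = true := by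
      funext z
      exact propext ⟨fun h => ⟨fun _ => trivial, h⟩, fun h => h.2⟩
    rw [h6, stepμ, h5]
    have h7 : ∏ _j : Fin D.b, pr Y.μ (fun _ => True) = 1 :=
      prod_eq_one fun _ _ => pr_true hY.prob
    rw [h7, one_mul]
  set a : ℝ := (kmax : ℝ) ^ 2 / p0 with ha
  have ha1 : 1 ≤ a := by
    rw [ha, le_div_iff₀ hp0]
    have : p0 ≤ 1 := hp.trans hY.p_le
    nlinarith
  have h5 : w x ≤ s * a ^ D.b / D.N := by
    refine (hI.w_le x hx).trans ?_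
    have h6 : ∏ j ∈ J x, ((D.k (D.lab x j) : ℝ) ^ 2 / p) ≤ a ^ D.b := by
      have h7 : ∏ j ∈ J x, ((D.k (D.lab x j) : ℝ) ^ 2 / p) ≤ ∏ _j ∈ J x, a := by
        refine prod_le_prod (fun j _ => by positivity) fun j _ => ?_
        have h8 : (D.k (D.lab x j) : ℝ) ≤ kmax := by exact_mod_cast hk _
        rw [ha]
        apply div_le_div₀ (by positivity) _ hp0 hp
        exact pow_le_pow_left₀ (by positivity) h8 2
      rw [prod_const] at h7
      refine h7.trans (pow_le_pow_right₀ ha1 ?_)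
      have h9 := card_le_univ (J x)
      rwa [Fintype.card_fin] at h9
    have h10 : s * p / D.N ≤ s / D.N := by
      apply div_le_div_of_nonneg_right _ hN.le
      nlinarith [hY.p_le]
    calc s * p / D.N * ∏ j ∈ J x, ((D.k (D.lab x j) : ℝ) ^ 2 / p) ≤ s / D.N * a ^ D.b :=
          mul_le_mul h10 h6 (prod_nonneg fun j _ => by positivity) (by positivity)
      _ = s * a ^ D.b / D.N := by ring
  have h6 : (D.b : ℝ) * pr Y.μ (fun ω => x ∈ Y.act ω) ≤ D.b * (Ca / D.N) :=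
    mul_le_mul_of_nonneg_left (hY.sa x hx) (Nat.cast_nonneg _)
  have h7 : (D.b * Ca + s * a ^ D.b) / D.N = s * a ^ D.b / D.N + D.b * (Ca / D.N) := by ring
  rw [h7]
  linarith

end Pool.Agent.Lib.H93D
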