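import Pool.Agent.Lib.H93D.T2B
import Pool.Agent.Lib.H93D.T2C
import Pool.Agent.Lib.H93D.T2D
import Pool.Agent.Lib.H93D.T3G
import Pool.Agent.Lib.H93D.T4

/-!
# H93D, T5: the step

See `H93B/PROOF.md`, section 3.
-/

set_option autoImplicit false

open Finset
open scoped Classical

namespace Pool.Agent.Lib.H93D

open Pool.Agent.Lib.H93A

variable {Q R M : Type} [Fintype Q] [Fintype R] [Fintype M] {D : Win Q R M} {Ω : Type} [Fintype Ω]
  {Y : Sys D Ω} {T : ℕ} {J : Q × R → Finset (Fin D.b)} {w : Q × R → ℝ}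

/-- THE STEP (assembly of T1 to T4). `p' = b p`, `κ' = κ + s`, `δ' = δ + b p`, ... -/
theorem step {kmax : ℕ} {K θ1 ε η d p κ δ σl σu ξ Ca s g E κ' p0 : ℝ}
    (hD : WinHyp D kmax K θ1 ε η d) (hY : SysHyp Y p κ δ σl σu ξ Ca)
    (hI : StepIn Y T J w p s g E) (hθ0 : 0 ≤ θ1)
    (hθ : θ1 * ((D.b : ℝ) ^ 2 * (kmax : ℝ) ^ (2 * D.b)) ≤ p ^ D.b)
    (hκ : κ ≤ κ') (hs : s ≤ κ') (h1 : 64 * K ^ 2 * D.b * s ^ 2 ≤ g / 8)
    (h2 : 20 * K ^ 2 * (D.b : ℝ) ^ 3 * (κ' + 1) ^ 2 * p ≤ g / 8) (hδ0 : 0 ≤ δ) (hδ1 : δ ≤ 1)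
    (hbp : D.b * p ≤ 1) (hkm : 1 ≤ kmax) (hp0 : 0 < p0) (hp : p0 ≤ p) :
    SysHyp (stepSys Y T J w) (D.b * p) (κ + s) (δ + D.b * p) (σl + 3 / 4 * g / D.b) (σu + g / D.b)
      (ξ + E * g / (D.b * D.N)) (D.b * Ca + s * ((kmax : ℝ) ^ 2 / p0) ^ D.b) := by
  have hN : 0 < D.N := by linarith [hD.N_pos]
  have hb := hD.b_pos
  have hb1 : (1 : ℝ) ≤ D.b := by exact_mod_cast hb
  have hk := hD.k_pos
  have hp' := hY.p_pos
  have hcop : 0 < D.b * p := by positivity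
  refine
    { prob := step_isProb hY hI
      p_pos := hcop
      p_le := hbp
      κ_nonneg := add_nonneg hY.κ_nonneg hI.s_nonneg
      S_act := fun z => step_S_act hY z
      act_sub := fun z => step_act_sub hY z
      Vs_sub := fun z => step_Vs_sub hY hI z
      C_lt := fun z => step_C_lt hY z
      s1 := fun z => step_s1 z
      s1' := fun z => step_s1' hY z
      s2p := fun f => step_s2p hY hI f
      s2l := fun f c h1 h2 => step_s2l hk hb hY hI hδ0 hδ1 hbp f c h1 h2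
      ss := fun Z F c hZ hV hF => step_ss hN hk hb hD.lab_inj hY hI Z F c hZ hV hF
      s4 := fun f c Z hZ => step_s4 hN hk hD.lab_inj hY hI f c Z hZ
      s5 := fun y hy f c => step_s5 hN hk hb hD.lab_inj hY hI y hy f c
      s6l := fun x hx => step_s6l hD hY hI hθ0 hθ hκ hs h1 h2 x hx
      s6u := fun x hx => step_s6u hN hb hY hI x hx
      s7 := fun f => step_s7 hN hb hY hI f
      sa := fun x hx => step_sa hN hD.k_le hkm hp0 hp hY hI x hx }

end Pool.Agent.Lib.H93D
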