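import Pool.Agent.Lib.H93D.WDefs
import Pool.Agent.Lib.H93A.G1B

/-!
# H93D, W1: the sets V(x), strongly linked labels

See `H93B/PROOF.md`, sections 3 and 4.
-/

set_option autoImplicit false

open Finset
open scoped Classical

namespace Pool.Agent.Lib.H93D

open Pool.Agent.Lib.H93A
open Pool.Agent.Lib.H93B (SelData SelHyp)
open Pool.Agent.Lib.Prob48 (Weights)

variable {Q R M : Type} [Fintype Q] [Fintype R] [Fintype M]

/-- `|E(f)| ≤ K² N` -/
theorem card_E_le {D : SelData Q R M} {N K : ℝ} {j0 : ℕ} (h : SelHyp D K N j0) (f : M) :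
    ((Ef D f).card : ℝ) ≤ K ^ 2 * N := by
  have hsub : Ef D f ⊆ D.A f ×ˢ D.B f := by
    intro x hx
    have h1 := (mem_filter.1 hx).2
    have h2 : x.1 ∈ D.A f ∧ x.2 ∈ D.B f := by
      have h3 : f ∈ Jset D.A D.B x := h1
      exact (mem_filter.1 h3).2
    exact mem_product.2 h2
  have h1 : ((Ef D f).card : ℝ) ≤ ((D.A f).card : ℝ) * ((D.B f).card : ℝ) := by
    have := card_le_card hsub
    rw [card_product] at this
    exact_mod_cast this
  have hN := h.hN
  have hs : Real.sqrt N * Real.sqrt N = N := Real.mul_self_sqrt (by linarith)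
  calc ((Ef D f).card : ℝ) ≤ ((D.A f).card : ℝ) * ((D.B f).card : ℝ) := h1
    _ ≤ (K * Real.sqrt N) * (K * Real.sqrt N) :=
        mul_le_mul (h.cardA f) (h.cardB f) (Nat.cast_nonneg _)
          (by have := h.hK; positivity)
    _ = K ^ 2 * (Real.sqrt N * Real.sqrt N) := by ring
    _ = K ^ 2 * N := by rw [hs]

/-- at most `j0 K²/θ2` labels are strongly linked to `f`:
`∑_f' |E f ∩ E f'| = ∑_(x ∈ E f) |J x| ≤ j0 |E f|` -/
theorem card_strong_le {D : SelData Q R M} {N K θ2 : ℝ} {j0 : ℕ} (h : SelHyp D K N j0)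
    (hθ : 0 < θ2) (f : M) :
    ((univ.filter fun f' => strong D N θ2 f f').card : ℝ) ≤ j0 * K ^ 2 / θ2 := by
  have hN : 0 < N := by have := h.hN; linarith
  have hcount : ∑ f' : M, (Ef D f ∩ Ef D f').card = ∑ x ∈ Ef D f, (D.J x).card := by
    have h1 : ∀ f' : M, (Ef D f ∩ Ef D f').card = ∑ x ∈ Ef D f, if f' ∈ D.J x then 1 else 0 := by
      intro f'
      rw [card_eq_sum_ones, ← sum_filter]
      apply sum_congr _ (fun _ _ => rfl)
      ext x
      simp only [mem_inter, mem_filter, Ef]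
      tauto
    simp_rw [h1]
    rw [sum_comm]
    apply sum_congr rfl
    intro x _
    rw [card_eq_sum_ones, ← sum_filter]
    apply sum_congr _ (fun _ _ => rfl)
    ext f'
    simp
  have hle : (∑ x ∈ Ef D f, ((D.J x).card : ℝ)) ≤ j0 * (K ^ 2 * N) := by
    calc (∑ x ∈ Ef D f, ((D.J x).card : ℝ)) ≤ ∑ x ∈ Ef D f, (j0 : ℝ) := by
          apply sum_le_sum
          intro x hx
          exact_mod_cast h.cardJ x (mem_filter.1 hx).1
      _ = j0 * ((Ef D f).card : ℝ) := by rw [sum_const, nsmul_eq_mul, mul_comm]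
      _ ≤ j0 * (K ^ 2 * N) := mul_le_mul_of_nonneg_left (card_E_le h f) (Nat.cast_nonneg _)
  have hcR : (∑ f' : M, ((Ef D f ∩ Ef D f').card : ℝ)) = ∑ x ∈ Ef D f, ((D.J x).card : ℝ) := by
    exact_mod_cast hcount
  have hlow : ((univ.filter fun f' => strong D N θ2 f f').card : ℝ) * (θ2 * N) ≤
      ∑ f' : M, ((Ef D f ∩ Ef D f').card : ℝ) := by
    calc ((univ.filter fun f' => strong D N θ2 f f').card : ℝ) * (θ2 * N)
        = ∑ f' ∈ univ.filter (fun f' => strong D N θ2 f f'), θ2 * N := by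
          rw [sum_const, nsmul_eq_mul]
      _ ≤ ∑ f' ∈ univ.filter (fun f' => strong D N θ2 f f'), ((Ef D f ∩ Ef D f').card : ℝ) := by
          apply sum_le_sum
          intro f' hf'
          have h2 := (mem_filter.1 hf').2.2
          unfold dl at h2
          rwa [le_div_iff₀ hN] at h2
      _ ≤ ∑ f' : M, ((Ef D f ∩ Ef D f').card : ℝ) :=
          sum_le_sum_of_subset_of_nonneg (filter_subset _ _) (fun _ _ _ => Nat.cast_nonneg _)
  rw [le_div_iff₀ hθ]
  have h3 : ((univ.filter fun f' => strong D N θ2 f f').card : ℝ) * (θ2 * N) ≤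
      j0 * (K ^ 2 * N) := by
    rw [hcR] at hlow
    exact hlow.trans hle
  have h4 : (((univ.filter fun f' => strong D N θ2 f f').card : ℝ) * θ2) * N ≤
      (j0 * K ^ 2) * N := by linarith
  exact le_of_mul_le_mul_right h4 hN

/-- enumeration of a set with at most `j0` elements -/
theorem w1_enum {M : Type} [Nonempty M] (V : Finset M) (j0 : ℕ) (hV : V.card ≤ j0) :
    ∃ (lab : Fin j0 → M) (idx : Finset (Fin j0)),
      (∀ i ∈ idx, ∀ j ∈ idx, lab i = lab j → i = j) ∧ idx.image lab = V := by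
  let e := V.equivFin
  let lab : Fin j0 → M := fun i =>
    if hi : i.1 < V.card then ((e.symm ⟨i.1, hi⟩ : V) : M) else Classical.arbitrary M
  have hlab : ∀ (i : Fin j0) (hi : i.1 < V.card), lab i = ((e.symm ⟨i.1, hi⟩ : V) : M) := by
    intro i hi
    simp only [lab, dif_pos hi]
  refine ⟨lab, univ.filter fun i => i.1 < V.card, ?_, ?_⟩
  · intro i hi j hj hij
    have hi' := (mem_filter.1 hi).2
    have hj' := (mem_filter.1 hj).2
    rw [hlab i hi', hlab j hj'] at hij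
    have h1 := e.symm.injective (Subtype.ext hij)
    have h2 := congrArg Fin.val h1
    exact Fin.ext h2
  · ext m
    constructor
    · intro hm
      obtain ⟨i, hi, rfl⟩ := mem_image.1 hm
      rw [hlab i (mem_filter.1 hi).2]
      exact (e.symm ⟨i.1, (mem_filter.1 hi).2⟩).2
    · intro hm
      have hlt : (e ⟨m, hm⟩).1 < j0 := lt_of_lt_of_le (e ⟨m, hm⟩).2 hV
      refine mem_image.2 ⟨⟨(e ⟨m, hm⟩).1, hlt⟩, mem_filter.2 ⟨mem_univ _, (e ⟨m, hm⟩).2⟩, ?_⟩
      rw [hlab ⟨(e ⟨m, hm⟩).1, hlt⟩ (e ⟨m, hm⟩).2]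
      simp

/-- the sets `V(x)`: maximal subset of `J x` without strongly linked pairs (`H93A.exists_max_indep`) and an
enumeration (`Finset.equivFin`, `M` nonempty) -/
theorem exists_lab [Nonempty M] {D : SelData Q R M} {N K θ2 : ℝ} {j0 : ℕ} (h : SelHyp D K N j0) :
    ∃ (lab : Q × R → Fin j0 → M) (idx : Q × R → Finset (Fin j0)),
      (∀ x ∈ D.H, ∀ i ∈ idx x, ∀ j ∈ idx x, lab x i = lab x j → i = j) ∧
      (∀ x ∈ D.H, (idx x).image (lab x) ⊆ D.J x) ∧
      (∀ x ∈ D.H, ∀ f ∈ (idx x).image (lab x), ∀ f' ∈ (idx x).image (lab x),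
        ¬ strong D N θ2 f f') ∧
      (∀ x ∈ D.H, ∀ f ∈ D.J x, ∃ f' ∈ (idx x).image (lab x), f' = f ∨ strong D N θ2 f f') := by
  have hsymm : ∀ f f', strong D N θ2 f f' → strong D N θ2 f' f := by
    intro f f' hs
    refine ⟨fun he => hs.1 he.symm, ?_⟩
    have h2 := hs.2
    unfold dl at h2 ⊢
    rwa [inter_comm]
  have key : ∀ x : Q × R, ∃ (lab : Fin j0 → M) (idx : Finset (Fin j0)), x ∈ D.H →
      (∀ i ∈ idx, ∀ j ∈ idx, lab i = lab j → i = j) ∧
      (idx.image lab ⊆ D.J x) ∧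
      (∀ f ∈ idx.image lab, ∀ f' ∈ idx.image lab, ¬ strong D N θ2 f f') ∧
      (∀ f ∈ D.J x, ∃ f' ∈ idx.image lab, f' = f ∨ strong D N θ2 f f') := by
    intro x
    by_cases hx : x ∈ D.H
    · obtain ⟨V, hVJ, hVi, hVd⟩ := exists_max_indep (D.J x) (strong D N θ2) hsymm
      obtain ⟨lab, idx, hinj, him⟩ := w1_enum V j0 ((card_le_card hVJ).trans (h.cardJ x hx))
      refine ⟨lab, idx, fun _ => ⟨hinj, ?_, ?_, ?_⟩⟩
      · rw [him]; exact hVJ
      · rw [him]
        intro f hf f' hf' hs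
        exact hVi f hf f' hf' hs.1 hs
      · rw [him]
        intro f hf
        rcases hVd f hf with h1 | ⟨f', hf', h1⟩
        · exact ⟨f, h1, Or.inl rfl⟩
        · exact ⟨f', hf', Or.inr h1⟩
    · exact ⟨fun _ => Classical.arbitrary M, ∅, fun hx' => absurd hx' hx⟩
  choose lab idx hk using key
  exact ⟨lab, idx, fun x hx => (hk x hx).1, fun x hx => (hk x hx).2.1,
    fun x hx => (hk x hx).2.2.1, fun x hx => (hk x hx).2.2.2⟩

end Pool.Agent.Lib.H93D
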