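import Pool.Agent.Lib.H93D.W1

/-!
# H93D, W2: the window data

See `H93B/PROOF.md`, sections 3 and 4.
-/

set_option autoImplicit false

open Finset
open scoped Classical

namespace Pool.Agent.Lib.H93D

open Pool.Agent.Lib.H93A
open Pool.Agent.Lib.H93B (SelData SelHyp)
open Pool.Agent.Lib.Prob48 (Weights)

variable {Q R M : Type} [Fintype Q] [Fintype R] [Fintype M]

/-- The window data: `X = winSet`, `lab`, `idx` from `exists_lab`, `m = ⌈K √N⌉`, cells from Lemma R
(`hR` = the conclusion of `H93A.lemmaR` for `η`, `ε`) applied for every `f` to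
`F = X_f ⊆ (image fst) × (image snd)` (subsets of `A f`, `B f`, at most `K √N ≤ m` elements).
(Compare with `H93A.exists_core`, file `H93A/G2D.lean`.) `weak`: two different labels of `V x`, `x ∈ X`, are
not strongly linked and not in the gap, so `dl < θ1`. -/
theorem exists_win [Nonempty M] {D : SelData Q R M} {N K θ1 θ2 η ε : ℝ} {j0 kmax m0 : ℕ}
    (h : SelHyp D K N j0) (hj : 1 ≤ j0) (hθ1 : 0 < θ1) (hθ2 : 0 < θ2) (hη : 0 < η)
    (hN : (m0 : ℝ) ≤ K * Real.sqrt N)
    (hR : ∀ m ≥ m0, ∀ (Q R : Type) (A : Finset Q) (B : Finset R)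
      (F : Finset (Q × R)), A.card ≤ m → B.card ≤ m → F ⊆ A ×ˢ B →
      ∃ (k : ℕ) (iA : Q → ℕ) (iB : R → ℕ) (Good : ℕ → ℕ → Prop),
        1 ≤ k ∧ k ≤ kmax ∧ (∀ a, iA a < k) ∧ (∀ b, iB b < k) ∧
        (∀ u, ((A.filter fun a => iA a = u).card : ℝ) ≤ 4 * m / k) ∧
        (∀ v, ((B.filter fun b => iB b = v).card : ℝ) ≤ 4 * m / k) ∧
        ((F.filter fun x => ¬ Good (iA x.1) (iB x.2)).card : ℝ) ≤ η * (m : ℝ) ^ 2 ∧
        ∀ u v, Good u v → ∀ A' ⊆ A.filter fun a => iA a = u, ∀ B' ⊆ B.filter fun b => iB b = v,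
          ε * (4 * m / k) ≤ A'.card → ε * (4 * m / k) ≤ B'.card →
          η / 16 * A'.card * B'.card ≤ ((F ∩ A' ×ˢ B').card : ℝ)) :
    ∃ W : Win Q R M, WinHyp W kmax K θ1 ε η (η / 16) ∧ W.N = N ∧ W.b = j0 ∧
      W.X = winSet D N θ1 θ2 ∧ W.conf = D.conf ∧ (∀ x ∈ W.X, W.V x ⊆ D.J x) ∧
      (∀ x ∈ W.X, ∀ f ∈ D.J x, ∃ f' ∈ W.V x, f' = f ∨ strong D N θ2 f f') := by
  have hK := h.hK
  have hK0 : (0 : ℝ) < K := by linarith
  have hNpos : (1 : ℝ) ≤ N := h.hN
  have hN0 : (0 : ℝ) < N := by linarith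
  have hsq1 : (1 : ℝ) ≤ Real.sqrt N := Real.one_le_sqrt.mpr hNpos
  have hsqN : Real.sqrt N ^ 2 = N := Real.sq_sqrt (by linarith)
  obtain ⟨lab, idx, hinj, hVJ, hns, hdom⟩ := exists_lab (θ2 := θ2) h
  obtain ⟨m, hm⟩ : ∃ m : ℕ, m = ⌈K * Real.sqrt N⌉₊ := ⟨_, rfl⟩
  have hmge : K * Real.sqrt N ≤ (m : ℝ) := by rw [hm]; exact Nat.le_ceil _
  have hKs : (1 : ℝ) ≤ K * Real.sqrt N := by nlinarith
  have hmle : (m : ℝ) ≤ 2 * (K * Real.sqrt N) := by
    have h1 : (m : ℝ) < K * Real.sqrt N + 1 := by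
      rw [hm]; exact Nat.ceil_lt_add_one (by linarith)
    linarith
  have hm1R : (1 : ℝ) ≤ m := by linarith
  have hm1 : 1 ≤ m := by exact_mod_cast hm1R
  have hmm0 : m ≥ m0 := by
    have h1 : (m0 : ℝ) ≤ m := hN.trans hmge
    exact_mod_cast h1
  have hmsq : (m : ℝ) ^ 2 ≤ 4 * K ^ 2 * N := by
    calc (m : ℝ) ^ 2 ≤ (2 * (K * Real.sqrt N)) ^ 2 := by
          apply pow_le_pow_left₀ (by linarith) hmle
      _ = 4 * K ^ 2 * Real.sqrt N ^ 2 := by ring
      _ = 4 * K ^ 2 * N := by rw [hsqN]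
  have hXH : winSet D N θ1 θ2 ⊆ D.H := Finset.filter_subset _ _
  -- the sets `X_f`
  obtain ⟨Xf, hXf⟩ : ∃ Xf : M → Finset (Q × R),
      ∀ f, Xf f = (winSet D N θ1 θ2).filter fun x => f ∈ (idx x).image (lab x) := ⟨_, fun f => rfl⟩
  have hXfEf : ∀ f, Xf f ⊆ Ef D f := by
    intro f x hx
    rw [hXf, Finset.mem_filter] at hx
    exact Finset.mem_filter.2 ⟨hXH hx.1, hVJ x (hXH hx.1) hx.2⟩
  have hXAB : ∀ f, ∀ x ∈ Xf f, x.1 ∈ D.A f ∧ x.2 ∈ D.B f := by
    intro f x hx
    have h1 := (Finset.mem_filter.1 (hXfEf f hx)).2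
    simp only [SelData.J, Jset, Finset.mem_filter, Finset.mem_univ, true_and] at h1
    exact h1
  have hXA : ∀ f, ((Xf f).image Prod.fst).card ≤ m := by
    intro f
    have h1 : (Xf f).image Prod.fst ⊆ D.A f := by
      intro a ha
      rw [Finset.mem_image] at ha
      obtain ⟨x, hx, rfl⟩ := ha
      exact (hXAB f x hx).1
    have h2 : (((Xf f).image Prod.fst).card : ℝ) ≤ m := by
      have h3 : (((Xf f).image Prod.fst).card : ℝ) ≤ (D.A f).card := by
        exact_mod_cast Finset.card_le_card h1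
      exact (h3.trans (h.cardA f)).trans hmge
    exact_mod_cast h2
  have hXB : ∀ f, ((Xf f).image Prod.snd).card ≤ m := by
    intro f
    have h1 : (Xf f).image Prod.snd ⊆ D.B f := by
      intro a ha
      rw [Finset.mem_image] at ha
      obtain ⟨x, hx, rfl⟩ := ha
      exact (hXAB f x hx).2
    have h2 : (((Xf f).image Prod.snd).card : ℝ) ≤ m := by
      have h3 : (((Xf f).image Prod.snd).card : ℝ) ≤ (D.B f).card := by
        exact_mod_cast Finset.card_le_card h1
      exact (h3.trans (h.cardB f)).trans hmge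
    exact_mod_cast h2
  have hXprod : ∀ f, Xf f ⊆ (Xf f).image Prod.fst ×ˢ (Xf f).image Prod.snd := by
    intro f x hx
    rw [Finset.mem_product]
    exact ⟨Finset.mem_image_of_mem _ hx, Finset.mem_image_of_mem _ hx⟩
  have hall : ∀ f : M, ∃ (k : ℕ) (iA : Q → ℕ) (iB : R → ℕ) (Good : ℕ → ℕ → Prop),
        1 ≤ k ∧ k ≤ kmax ∧ (∀ a, iA a < k) ∧ (∀ b, iB b < k) ∧
        (∀ u, ((((Xf f).image Prod.fst).filter fun a => iA a = u).card : ℝ) ≤ 4 * m / k) ∧
        (∀ v, ((((Xf f).image Prod.snd).filter fun b => iB b = v).card : ℝ) ≤ 4 * m / k) ∧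
        (((Xf f).filter fun x => ¬ Good (iA x.1) (iB x.2)).card : ℝ) ≤ η * (m : ℝ) ^ 2 ∧
        ∀ u v, Good u v → ∀ A' ⊆ ((Xf f).image Prod.fst).filter fun a => iA a = u,
          ∀ B' ⊆ ((Xf f).image Prod.snd).filter fun b => iB b = v,
          ε * (4 * m / k) ≤ A'.card → ε * (4 * m / k) ≤ B'.card →
          η / 16 * A'.card * B'.card ≤ (((Xf f) ∩ A' ×ˢ B').card : ℝ) :=
    fun f => hR m hmm0 Q R _ _ (Xf f) (hXA f) (hXB f) (hXprod f)
  choose k iA iB Good hk1 hkmax hiA hiB hclA hclB hbad hgood using hall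
  let W : Win Q R M := {
    N := N
    m := m
    b := j0
    X := winSet D N θ1 θ2
    lab := lab
    idx := idx
    k := k
    iA := iA
    iB := iB
    Gd := Good
    conf := D.conf }
  have hWXf : ∀ f, W.Xf f = Xf f := by
    intro f
    rw [hXf]
    ext x
    unfold Win.Xf
    rw [Finset.mem_filter, Finset.mem_filter]
    rfl
  have hWclA : ∀ f u, W.clA f u = ((Xf f).image Prod.fst).filter fun a => iA f a = u := by
    intro f u
    unfold Win.clA
    rw [hWXf]
  have hWclB : ∀ f u, W.clB f u = ((Xf f).image Prod.snd).filter fun a => iB f a = u := by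
    intro f u
    unfold Win.clB
    rw [hWXf]
  refine ⟨W, ?_, rfl, rfl, rfl, rfl, ?_, ?_⟩
  · refine {
      b_pos := hj
      hK := hK
      N_pos := hNpos
      lab_inj := fun x hx => hinj x (hXH hx)
      k_pos := hk1
      k_le := hkmax
      m_pos := hm1
      m_sq := hmsq
      cardXf := ?_
      iA_lt := fun f x _ => hiA f x.1
      iB_lt := fun f x _ => hiB f x.2
      clA_le := ?_
      clB_le := ?_
      bad_le := ?_
      good := ?_
      weak := ?_
      conf_symm := h.conf_symm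
      conf_card := ?_
      conf_not := ?_ }
    · intro f
      rw [hWXf]
      have h1 := Finset.card_le_card (hXprod f)
      rw [Finset.card_product] at h1
      have h2 : (Xf f).card ≤ m * m := h1.trans (Nat.mul_le_mul (hXA f) (hXB f))
      have h3 : ((Xf f).card : ℝ) ≤ (m : ℝ) * m := by exact_mod_cast h2
      show ((Xf f).card : ℝ) ≤ (m : ℝ) ^ 2
      rw [pow_two]
      exact h3
    · intro f u
      rw [hWclA]
      exact hclA f u
    · intro f u
      rw [hWclB]
      exact hclB f u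
    · intro f
      rw [hWXf]
      exact hbad f
    · intro f u v hg
      unfold Win.Good
      intro A' hA' B' hB' h1 h2
      rw [hWclA] at hA'
      rw [hWclB] at hB'
      rw [hWXf]
      exact hgood f u v hg A' hA' B' hB' h1 h2
    · intro x hx i hi j hj' hij
      have hxH : x ∈ D.H := hXH hx
      have hne : lab x i ≠ lab x j := fun h1 => hij (hinj x hxH i hi j hj' h1)
      have hfi : lab x i ∈ (idx x).image (lab x) := Finset.mem_image_of_mem _ hi
      have hfj : lab x j ∈ (idx x).image (lab x) := Finset.mem_image_of_mem _ hj'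
      have h1 : ¬ strong D N θ2 (lab x i) (lab x j) := hns x hxH _ hfi _ hfj
      have h2 := (Finset.mem_filter.1 hx).2 (lab x i) (hVJ x hxH hfi) (lab x j) (hVJ x hxH hfj) hne
      have h3 : dl D N (lab x i) (lab x j) < θ2 := by
        by_contra h4
        exact h1 ⟨hne, not_lt.1 h4⟩
      have h4 : dl D N (lab x i) (lab x j) < θ1 := by
        by_contra h5
        exact h2 ⟨not_lt.1 h5, h3⟩
      unfold dl at h4
      rw [div_lt_iff₀ hN0] at h4
      rw [hWXf, hWXf]
      have h5 : ((Xf (lab x i) ∩ Xf (lab x j)).card : ℝ) ≤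
          ((Ef D (lab x i) ∩ Ef D (lab x j)).card : ℝ) := by
        exact_mod_cast Finset.card_le_card
          (Finset.inter_subset_inter (hXfEf (lab x i)) (hXfEf (lab x j)))
      exact h5.trans h4.le
    · intro x hx
      have h1 := h.conf_card x (hXH hx)
      have h2 : (((winSet D N θ1 θ2).filter fun y => D.conf x y).card : ℝ) ≤
          ((D.H.filter fun y => D.conf x y).card : ℝ) := by
        exact_mod_cast Finset.card_le_card (Finset.filter_subset_filter _ hXH)
      exact h2.trans h1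
    · intro x hx y hy h1 h2 h3
      exact h.conf_not x (hXH hx) y (hXH hy) h1 h2 (hXH h3)
  · intro x hx
    exact hVJ x (hXH hx)
  · intro x hx f hf
    exact hdom x (hXH hx) f hf

end Pool.Agent.Lib.H93D
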