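import Pool.Agent.Lib.H93D.W1

/-!
# H93D, W3: killed labels

See `H93B/PROOF.md`, sections 3 and 4.
-/

set_option autoImplicit false

open Finset
open scoped Classical

namespace Pool.Agent.Lib.H93D

open Pool.Agent.Lib.H93A
open Pool.Agent.Lib.H93B (SelData SelHyp)
open Pool.Agent.Lib.Prob48 (Weights)

variable {Q R M : Type} [Fintype Q] [Fintype R] [Fintype M]

/-- `P(∃ x ∈ S, f' ∈ V x) ≤ (1 + ξ) p`: if `f' ∈ V* x` then `f' ∈ P` (`s1'`, `s2p`), otherwise `s7` -/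
theorem pr_V_le {W : Win Q R M} {Ω : Type} [Fintype Ω] {Y : Sys W Ω} {p κ δ σl σu ξ Ca : ℝ}
    (hY : SysHyp Y p κ δ σl σu ξ Ca) (f : M) :
    pr Y.μ (fun ω => ∃ x ∈ Y.S ω, f ∈ W.V x) ≤ (1 + ξ) * p := by
  have h1 : pr Y.μ (fun ω => ∃ x ∈ Y.S ω, f ∈ W.V x) ≤
      pr Y.μ (fun ω => f ∈ Y.P ω ∨ ∃ x ∈ W.Xf f, x ∈ Y.S ω ∧ f ∉ Y.Vs ω x) := by
    refine pr_mono hY.prob fun ω h => ?_
    obtain ⟨x, hx, hf⟩ := h
    by_cases hv : f ∈ Y.Vs ω x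
    · exact Or.inl (hY.s1' ω x hx f hv).1
    · refine Or.inr ⟨x, ?_, hx, hv⟩
      unfold Win.Xf
      rw [Finset.mem_filter]
      exact ⟨hY.act_sub ω (hY.S_act ω hx), hf⟩
  have h2 := pr_or_le hY.prob (fun ω => f ∈ Y.P ω) (fun ω => ∃ x ∈ W.Xf f, x ∈ Y.S ω ∧ f ∉ Y.Vs ω x)
  have h3 := pr_exists_le hY.prob (W.Xf f) (fun x ω => x ∈ Y.S ω ∧ f ∉ Y.Vs ω x)
  have h4 := hY.s7 f
  have h5 := hY.s2p f
  nlinarith

/-- KILLS: `P(f ∈ J(S)) ≤ (1 + j0 K²/θ2)(1 + ξ) p` -/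
theorem pr_kill_le {D : SelData Q R M} {N K θ2 : ℝ} {j0 : ℕ} (h : SelHyp D K N j0) (hθ : 0 < θ2)
    {W : Win Q R M} {Ω : Type} [Fintype Ω] {Y : Sys W Ω} {p κ δ σl σu ξ Ca : ℝ}
    (hY : SysHyp Y p κ δ σl σu ξ Ca) (hξ : 0 ≤ ξ)
    (hV : ∀ x ∈ W.X, ∀ f ∈ D.J x, ∃ f' ∈ W.V x, f' = f ∨ strong D N θ2 f f') (f : M) :
    pr Y.μ (fun ω => ∃ x ∈ Y.S ω, f ∈ D.J x) ≤ (1 + j0 * K ^ 2 / θ2) * ((1 + ξ) * p) := by
  have h1 : pr Y.μ (fun ω => ∃ x ∈ Y.S ω, f ∈ D.J x) ≤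
      pr Y.μ (fun ω => ∃ f' ∈ insert f (univ.filter fun f' => strong D N θ2 f f'),
        ∃ x ∈ Y.S ω, f' ∈ W.V x) := by
    refine pr_mono hY.prob fun ω h => ?_
    obtain ⟨x, hx, hf⟩ := h
    obtain ⟨f', hf', h2⟩ := hV x (hY.act_sub ω (hY.S_act ω hx)) f hf
    refine ⟨f', ?_, x, hx, hf'⟩
    rw [Finset.mem_insert, Finset.mem_filter]
    rcases h2 with h2 | h2
    · exact Or.inl h2
    · exact Or.inr ⟨Finset.mem_univ _, h2⟩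
  have h2 := pr_exists_le hY.prob (insert f (univ.filter fun f' => strong D N θ2 f f'))
    (fun f' ω => ∃ x ∈ Y.S ω, f' ∈ W.V x)
  have h3 : ∑ f' ∈ insert f (univ.filter fun f' => strong D N θ2 f f'),
      pr Y.μ (fun ω => ∃ x ∈ Y.S ω, f' ∈ W.V x) ≤
      ((insert f (univ.filter fun f' => strong D N θ2 f f')).card : ℝ) * ((1 + ξ) * p) := by
    rw [← nsmul_eq_mul]
    exact Finset.sum_le_card_nsmul _ _ _ fun f' _ => pr_V_le hY f'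
  have h4 : ((insert f (univ.filter fun f' => strong D N θ2 f f')).card : ℝ) ≤ 1 + j0 * K ^ 2 / θ2 := by
    have h5 := Finset.card_insert_le f (univ.filter fun f' => strong D N θ2 f f')
    have h6 := card_strong_le h hθ f
    have h7 : ((insert f (univ.filter fun f' => strong D N θ2 f f')).card : ℝ) ≤
        ((univ.filter fun f' => strong D N θ2 f f').card : ℝ) + 1 := by exact_mod_cast h5
    linarith
  have h5 : 0 ≤ (1 + ξ) * p := mul_nonneg (by linarith) hY.p_pos.le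
  exact (h1.trans h2).trans (h3.trans (mul_le_mul_of_nonneg_right h4 h5))

end Pool.Agent.Lib.H93D
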