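import Pool.Agent.Lib.H93D.W1

/-!
# H93D, W4: from a system with coordinates to Sel

See `H93B/PROOF.md`, sections 3 and 4.
-/

set_option autoImplicit false

open Finset
open scoped Classical

namespace Pool.Agent.Lib.H93D

open Pool.Agent.Lib.H93A
open Pool.Agent.Lib.H93B (SelData SelHyp)
open Pool.Agent.Lib.Prob48 (Weights)

variable {Q R M : Type} [Fintype Q] [Fintype R] [Fintype M]

/-- transport of probabilities to the product space -/
theorem P_transport {W : Win Q R M} {Ω : Type} [Fintype Ω] {Y : Sys W Ω} {nc d : ℕ}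
    (C : Coord Y nc d) (A : Ω → Prop) :
    C.wt.P (fun ω => A (C.e.symm ω)) = pr Y.μ A := by
  unfold Weights.P Weights.E pr
  refine Fintype.sum_equiv C.e.symm _ _ fun ω => ?_
  rw [C.he, Equiv.apply_symm_apply]
  by_cases hA : A (C.e.symm ω)
  · simp [hA]
  · simp [hA]

/-- the selection given by a system with coordinates -/
noncomputable def toSel {W : Win Q R M} {Ω : Type} [Fintype Ω] {Y : Sys W Ω} {nc d : ℕ}
    (C : Coord Y nc d) : PSel Q R M where
  ι := C.ι
  α := C.α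
  μ := C.wt
  loc := C.loc
  one := C.one
  S := fun ω => Y.S (C.e.symm ω)

/-- a reach is contained in the union -/
theorem w4_reach {X : Type} {adj adj' : X → X → Prop} {near near' : X → Prop} {A A' : Finset X} {d : ℕ} {x : X}
    (h : Reach adj near A d x) (hadj : ∀ x ∈ A, ∀ y ∈ A, adj x y → adj' x y)
    (hnear : ∀ x ∈ A, near x → near' x) (hA : A ⊆ A') : Reach adj' near' A' d x := by
  induction d generalizing x with
  | zero => exact ⟨hA h.1, hnear _ h.1 h.2⟩
  | succ d ih =>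
    refine ⟨hA h.1, ?_⟩
    rcases h.2 with h2 | ⟨y, hxy, h2⟩
    · exact Or.inl (hnear _ h.1 h2)
    · exact Or.inr ⟨y, hadj _ h.1 _ h2.mem hxy, ih h2⟩

theorem w4_act {D : SelData Q R M} {W : Win Q R M} {Ω : Type} [Fintype Ω] {Y : Sys W Ω}
    {nc d : ℕ} (C : Coord Y nc d) (hWX : W.X ⊆ D.H) (hsub : ∀ ω, Y.act ω ⊆ W.X)
    (ω : ∀ i, (toSel C).α i) : (toSel C).act D ω = Y.act (C.e.symm ω) := by
  have e1 : C.e (C.e.symm ω) = ω := Equiv.apply_symm_apply _ _
  have h1 : ∀ x, x ∈ Y.act (C.e.symm ω) ↔ ∃ i, C.loc i = Sum.inl x ∧ C.one i (ω i) := by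
    intro x
    have h2 := C.act_iff (C.e.symm ω) x
    rw [e1] at h2
    exact h2
  ext x
  unfold PSel.act
  rw [Finset.mem_filter, h1]
  constructor
  · rintro ⟨-, h⟩
    exact h
  · intro h
    exact ⟨hWX (hsub (C.e.symm ω) ((h1 x).2 h)), h⟩

/-- The output of a system: `PSel.act` of `toSel` is `Y.act` (`act_iff`, `act_sub`, `W.X ⊆ H`), locality from
`loc_S` and `Reach.mono` (`W.V x ⊆ D.J x` only for `x ∈ W.X`; all elements of the path are in `act ⊆ W.X`,
so first prove a version of `Reach.mono` with the hypotheses for elements of `A` only), `c3` from `ss` with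
`F = ∅` (elements of `H` outside `W.X` are never in `S`; `β = κ p`), `c4` from `hkill`. -/
theorem out_of_sys {D : SelData Q R M} {N : ℝ} {W : Win Q R M} {Ω : Type} [Fintype Ω] {Y : Sys W Ω}
    {p κ δ σl σu ξ Ca kl : ℝ} (hN : 1 ≤ N) (hWN : W.N = N) (hWX : W.X ⊆ D.H) (hWc : W.conf = D.conf)
    (hWV : ∀ x ∈ W.X, W.V x ⊆ D.J x) (hσ : 0 ≤ σu) (hCa : 0 ≤ Ca)
    (hY : SysHyp Y p κ δ σl σu ξ Ca) {nc d : ℕ} (C : Coord Y nc d)
    (hkill : ∀ f, pr Y.μ (fun ω => ∃ x ∈ Y.S ω, f ∈ D.J x) ≤ kl) :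
    OutHyp D (toSel C) N W.X (σl * p) (σu * p) (κ * p) kl Ca nc d := by
  have hN0 : 0 < N := by linarith
  have hact := w4_act C hWX hY.act_sub
  have hzero : ∀ x, x ∉ W.X → pr Y.μ (fun ω => x ∈ Y.S ω) = 0 := by
    intro x hx
    refine le_antisymm ?_ (pr_nonneg hY.prob _)
    rw [← pr_false (μ := Y.μ)]
    exact pr_mono hY.prob fun ω h => hx (hY.act_sub ω (hY.S_act ω h))
  have hS : ∀ x, (toSel C).μ.P (fun ω => x ∈ (toSel C).S ω) = pr Y.μ (fun ω => x ∈ Y.S ω) := fun x =>
    P_transport C (fun ω => x ∈ Y.S ω)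
  refine ⟨⟨C.loc_card, ?_, ?_, ?_, C.one_not⟩, ?_, ?_, ?_, ?_, ?_⟩
  · intro x _
    have h1 : (toSel C).μ.P (fun ω => x ∈ (toSel C).act D ω) = pr Y.μ (fun ω => x ∈ Y.act ω) := by
      rw [← P_transport C (fun ω => x ∈ Y.act ω)]
      exact Weights.P_congr _ fun ω => by rw [hact]
    rw [h1]
    by_cases hx : x ∈ W.X
    · rw [← hWN]
      exact hY.sa x hx
    · have h2 : pr Y.μ (fun ω => x ∈ Y.act ω) ≤ pr Y.μ (fun _ => False) :=
        pr_mono hY.prob fun ω h => hx (hY.act_sub ω h)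
      rw [pr_false] at h2
      exact h2.trans (by positivity)
  · intro ω
    rw [hact]
    exact hY.S_act _
  · intro i ω ω' hω x hx
    have e1 : C.e (C.e.symm ω) = ω := Equiv.apply_symm_apply _ _
    have e2 : C.e (C.e.symm ω') = ω' := Equiv.apply_symm_apply _ _
    have h1 := C.loc_S (C.e.symm ω) (C.e.symm ω') i
      (fun i' hi' => (congrFun e1 i').trans ((hω i' hi').trans (congrFun e2 i').symm)) x (fun h => hx h.1)
    rw [hact, hact]
    have hXsub : ∀ y ∈ Y.act (C.e.symm ω) ∪ Y.act (C.e.symm ω'), y ∈ W.X := by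
      intro y hy
      rw [Finset.mem_union] at hy
      rcases hy with hy | hy
      · exact hY.act_sub _ hy
      · exact hY.act_sub _ hy
    refine w4_reach h1 ?_ ?_ Finset.Subset.rfl
    · intro y hy z hz h
      unfold Win.adj at h
      unfold sadj
      rcases h with h | h | h
      · exact Or.inl h
      · rw [hWc] at h
        exact Or.inr (Or.inl h)
      · refine Or.inr (Or.inr fun hd => h ?_)
        exact Finset.disjoint_of_subset_left (hWV y (hXsub y hy))
          (Finset.disjoint_of_subset_right (hWV z (hXsub z hz)) hd)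
    · intro y hy h
      rcases h with h | ⟨f, hf, h⟩
      · exact Or.inl h
      · exact Or.inr ⟨f, hWV y (hXsub y hy) hf, h⟩
  · intro ω x hx y hy hxy
    have h1 := hY.s1 _ x hx y hy hxy
    rw [hWc] at h1
    exact h1
  · intro x hx
    rw [hS, ← hWN]
    exact hY.s6l x hx
  · intro x _
    rw [hS]
    by_cases hx : x ∈ W.X
    · rw [← hWN]
      exact hY.s6u x hx
    · rw [hzero x hx]
      have := hY.p_pos
      positivity
  · intro Z hZ hdis
    have h1 : (toSel C).μ.P (fun ω => Z ⊆ (toSel C).S ω) = pr Y.μ (fun ω => Z ⊆ Y.S ω) :=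
      P_transport C (fun ω => Z ⊆ Y.S ω)
    rw [h1]
    by_cases hx : Z ⊆ W.X
    · have h2 := hY.ss Z ∅ (fun _ => (0, 0)) hx (fun x hx1 y hy1 hxy =>
        Finset.disjoint_of_subset_left (hWV x (hx hx1))
          (Finset.disjoint_of_subset_right (hWV y (hx hy1)) (hdis x hx1 y hy1 hxy)))
        (fun f hf => absurd hf (Finset.notMem_empty f))
      rw [Finset.prod_empty, mul_one, hWN] at h2
      refine le_trans (pr_mono hY.prob fun ω h => ?_) h2
      exact ⟨h, fun f hf => absurd hf (Finset.notMem_empty f)⟩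
    · obtain ⟨x, hxZ, hxW⟩ := Finset.not_subset.1 hx
      have h2 : pr Y.μ (fun ω => Z ⊆ Y.S ω) ≤ pr Y.μ (fun ω => x ∈ Y.S ω) :=
        pr_mono hY.prob fun ω h => h hxZ
      rw [hzero x hxW] at h2
      have := hY.p_pos
      have := hY.κ_nonneg
      exact h2.trans (by positivity)
  · intro f
    have h1 : (toSel C).μ.P (fun ω => ∃ x ∈ (toSel C).S ω, f ∈ D.J x) =
        pr Y.μ (fun ω => ∃ x ∈ Y.S ω, f ∈ D.J x) :=
      P_transport C (fun ω => ∃ x ∈ Y.S ω, f ∈ D.J x)
    rw [h1]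
    exact hkill f

end Pool.Agent.Lib.H93D
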