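import Pool.Agent.Lib.H93D.W2
import Pool.Agent.Lib.H93D.W3
import Pool.Agent.Lib.H93D.W4

/-!
# H93D, W5: the window theorem with constants as parameters

See `H93B/PROOF.md`, sections 3 and 4.
-/

set_option autoImplicit false

open Finset
open scoped Classical

namespace Pool.Agent.Lib.H93D

open Pool.Agent.Lib.H93A
open Pool.Agent.Lib.H93B (SelData SelHyp)
open Pool.Agent.Lib.Prob48 (Weights)

variable {Q R M : Type} [Fintype Q] [Fintype R] [Fintype M]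

theorem w5_caf_nonneg (b : ℕ) (W : ℝ) (hW : 0 ≤ W) (l : ℕ) : 0 ≤ caf b W l := by
  induction l with
  | zero => simp [caf]
  | succ l ih =>
    simp only [caf]
    positivity

/-- `exists_win`, `iterate` with `l = L`, `pr_kill_le`, `out_of_sys`. (`s = g/ρ^j0`, `ρ = (η/16)^T/16`.) -/
theorem window_out [Nonempty M] {D : SelData Q R M} {N K θ1 θ2 η ε e' g p0 : ℝ}
    {j0 kmax m0 T L : ℕ} (h : SelHyp D K N j0) (hj : 1 ≤ j0) (hθ1 : 0 < θ1) (hθ2 : 0 < θ2)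
    (hη : 0 < η) (hη1 : η ≤ 1) (hN : (m0 : ℝ) ≤ K * Real.sqrt N)
    (hR : ∀ m ≥ m0, ∀ (Q R : Type) (A : Finset Q) (B : Finset R)
      (F : Finset (Q × R)), A.card ≤ m → B.card ≤ m → F ⊆ A ×ˢ B →
      ∃ (k : ℕ) (iA : Q → ℕ) (iB : R → ℕ) (Good : ℕ → ℕ → Prop),
        1 ≤ k ∧ k ≤ kmax ∧ (∀ a, iA a < k) ∧ (∀ b, iB b < k) ∧
        (∀ u, ((A.filter fun a => iA a = u).card : ℝ) ≤ 4 * m / k) ∧
        (∀ v, ((B.filter fun b => iB b = v).card : ℝ) ≤ 4 * m / k) ∧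
        ((F.filter fun x => ¬ Good (iA x.1) (iB x.2)).card : ℝ) ≤ η * (m : ℝ) ^ 2 ∧
        ∀ u v, Good u v → ∀ A' ⊆ A.filter fun a => iA a = u, ∀ B' ⊆ B.filter fun b => iB b = v,
          ε * (4 * m / k) ≤ A'.card → ε * (4 * m / k) ≤ B'.card →
          η / 16 * A'.card * B'.card ≤ ((F ∩ A' ×ˢ B').card : ℝ))
    (hε : 0 < ε) (hT : 1 ≤ T) (he : ε ≤ (η / 16) ^ T * e')
    (he0 : 0 < e') (hg : 0 < g) (hp0 : 0 < p0) (hkm : 1 ≤ kmax)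
    (hpL : (j0 : ℝ) ^ L * p0 ≤ 1) (hδ : (L : ℝ) * ((j0 : ℝ) ^ L * p0) ≤ 1 / 2)
    (hεT : 8 * (T : ℝ) ^ 2 * ε * (64 * K ^ 2 * (L * (g / ((η / 16) ^ T / 16) ^ j0)) + 1) ^ T ≤ 1)
    (hT2 : 512 * K ^ 2 * (L * g / j0) ≤ T)
    (hN2 : 256 * K * (L * (g / ((η / 16) ^ T / 16) ^ j0)) * kmax ≤ (η / 16) ^ T * Real.sqrt N)
    (hw : g / ((η / 16) ^ T / 16) ^ j0 * (kmax : ℝ) ^ (2 * j0) ≤ N * p0 ^ j0)
    (hθ : θ1 * ((j0 : ℝ) ^ 2 * (kmax : ℝ) ^ (2 * j0)) ≤ p0 ^ j0)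
    (h1 : 64 * K ^ 2 * j0 * (g / ((η / 16) ^ T / 16) ^ j0) ^ 2 ≤ g / 8)
    (h2 : 20 * K ^ 2 * (j0 : ℝ) ^ 3 * (L * (g / ((η / 16) ^ T / 16) ^ j0) + 1) ^ 2 *
      ((j0 : ℝ) ^ L * p0) ≤ g / 8) :
    ∃ Y : PSel Q R M, OutHyp D Y N (winSet D N θ1 θ2)
      (L * (3 / 4 * g / j0) * ((j0 : ℝ) ^ L * p0)) (L * (g / j0) * ((j0 : ℝ) ^ L * p0))
      (L * (g / ((η / 16) ^ T / 16) ^ j0) * ((j0 : ℝ) ^ L * p0))
      ((1 + j0 * K ^ 2 / θ2) * ((1 + L * ((16 * e' + η) * (4 * K ^ 2) * g / j0)) *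
        ((j0 : ℝ) ^ L * p0)))
      (caf j0 (g / ((η / 16) ^ T / 16) ^ j0 * ((kmax : ℝ) ^ 2 / p0) ^ j0) L) (ncf j0 L) (2 * L) := by
  obtain ⟨W, hW, hWN, hWb, hWX, hWc, hWV, hWs⟩ :=
    exists_win (θ1 := θ1) (θ2 := θ2) (η := η) (ε := ε) h hj hθ1 hθ2 hη hN hR
  subst hWb
  subst hWN
  have hb1 : (1 : ℝ) ≤ W.b := by exact_mod_cast hj
  have hK := hW.hK
  obtain ⟨Ω, iΩ, Y, hY, ⟨C⟩⟩ := iterate (D := W) (e' := e') (g := g) (p0 := p0) (T := T) (L := L) hW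
    hε hη.le (by positivity) (by linarith) hT he he0 hg hp0 hkm hpL hδ hεT hT2 hN2 hw hθ1.le hθ h1 h2
    L le_rfl
  have hξ : 0 ≤ (L : ℝ) * ((16 * e' + η) * (4 * K ^ 2) * g / W.b) := by positivity
  have hkill := fun f => pr_kill_le h hθ2 hY hξ hWs f
  have hXH : W.X ⊆ D.H := by
    rw [hWX]
    exact Finset.filter_subset _ _
  have hout := out_of_sys (D := D) (N := W.N) (W := W) hW.N_pos rfl hXH hWc hWV (by positivity)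
    (w5_caf_nonneg _ _ (by positivity) _) hY C hkill
  rw [hWX] at hout
  exact ⟨toSel C, hout⟩

end Pool.Agent.Lib.H93D
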