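import Pool.Agent.Lib.H93D.SelDefs
import Pool.Agent.Lib.H93D.IT

/-!
# H93D, WDefs: windows of the selection data

See `H93B/PROOF.md`, sections 3 and 4.
-/

set_option autoImplicit false

open Finset
open scoped Classical

namespace Pool.Agent.Lib.H93D

open Pool.Agent.Lib.H93A
open Pool.Agent.Lib.H93B (SelData SelHyp)
open Pool.Agent.Lib.Prob48 (Weights)

variable {Q R M : Type} [Fintype M]

/-- `|E(f) ∩ E(f')|/N` -/
noncomputable def dl (D : SelData Q R M) (N : ℝ) (f f' : M) : ℝ := ((Ef D f ∩ Ef D f').card : ℝ) / N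

/-- strongly linked labels -/
def strong (D : SelData Q R M) (N θ2 : ℝ) (f f' : M) : Prop := f ≠ f' ∧ θ2 ≤ dl D N f f'

/-- the window: no pair of labels in the gap -/
noncomputable def winSet (D : SelData Q R M) (N θ1 θ2 : ℝ) : Finset (Q × R) :=
  D.H.filter fun x => ∀ f ∈ D.J x, ∀ f' ∈ D.J x, f ≠ f' → ¬ (θ1 ≤ dl D N f f' ∧ dl D N f f' < θ2)

/-- The properties of the output of one window (`lo`, `up`, `β`, `kl`: bounds for `N P(x ∈ S)` from below on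
the window, from above, for sets, and for the killed labels). -/
structure OutHyp (D : SelData Q R M) (Y : PSel Q R M) (N : ℝ) (X : Finset (Q × R))
    (lo up β kl Ca : ℝ) (nc d : ℕ) : Prop extends SelLoc D Y N Ca nc d where
  c1 : ∀ ω, ∀ x ∈ Y.S ω, ∀ y ∈ Y.S ω, x ≠ y → ¬ D.conf x y
  c2l : ∀ x ∈ X, lo / N ≤ Y.μ.P (fun ω => x ∈ Y.S ω)
  c2u : ∀ x ∈ D.H, Y.μ.P (fun ω => x ∈ Y.S ω) ≤ up / N
  c3 : ∀ Z ⊆ D.H, (∀ x ∈ Z, ∀ y ∈ Z, x ≠ y → Disjoint (D.J x) (D.J y)) →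
    Y.μ.P (fun ω => Z ⊆ Y.S ω) ≤ (β / N) ^ Z.card
  c4 : ∀ f, Y.μ.P (fun ω => ∃ x ∈ Y.S ω, f ∈ D.J x) ≤ kl

end Pool.Agent.Lib.H93D
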